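import Pool.Agent.Helper34.FQ.Defs

/-!
Row CLOSE of the project FQ (problem MP_08bd45_co).
-/

namespace Pool.Agent.Helper34.FQ

open Finset Pool.Agent.Helper34.PN

theorem close_cs {E : Type} [Fintype E] (μ g : E → ℝ) (hμ : ∀ x, 0 ≤ μ x) :
    ∑ x, μ x * |g x| ≤ Real.sqrt (∑ x, μ x) * Real.sqrt (∑ x, μ x * g x ^ 2) := by
  have h2 := Real.sum_mul_le_sqrt_mul_sqrt (univ : Finset E) (fun e => Real.sqrt (μ e))
    (fun e => Real.sqrt (μ e) * |g e|)
  have h3 : ∑ e, Real.sqrt (μ e) ^ 2 = ∑ e, μ e :=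
    sum_congr rfl fun e _ => Real.sq_sqrt (hμ e)
  have h4 : ∑ e, (Real.sqrt (μ e) * |g e|) ^ 2 = ∑ e, μ e * g e ^ 2 := by
    refine sum_congr rfl fun e _ => ?_
    rw [mul_pow, Real.sq_sqrt (hμ e), sq_abs]
  have h5 : ∑ e, Real.sqrt (μ e) * (Real.sqrt (μ e) * |g e|) = ∑ e, μ e * |g e| := by
    refine sum_congr rfl fun e _ => ?_
    rw [← mul_assoc, Real.mul_self_sqrt (hμ e)]
  rw [h3, h4, h5] at h2
  exact h2

theorem close_quad {E : Type} [Fintype E] (μ : E → ℝ) (f : ℕ → E → ℝ) (D : Finset ℕ)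
    (c : ℕ → ℝ) :
    ∑ x, μ x * (∑ q ∈ D, c q * f q x) ^ 2
      = ∑ q ∈ D, ∑ q' ∈ D, c q * c q' * ∑ x, μ x * (f q x * f q' x) := by
  have h1 : ∀ x, μ x * (∑ q ∈ D, c q * f q x) ^ 2
      = ∑ q ∈ D, ∑ q' ∈ D, c q * c q' * (μ x * (f q x * f q' x)) := by
    intro x
    rw [pow_two, sum_mul_sum, mul_sum]
    refine sum_congr rfl fun q _ => ?_
    rw [mul_sum]
    exact sum_congr rfl fun q' _ => by ring
  rw [sum_congr rfl fun x _ => h1 x, sum_comm]
  refine sum_congr rfl fun q _ => ?_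
  rw [sum_comm]
  refine sum_congr rfl fun q' _ => ?_
  rw [mul_sum]

theorem close_blocks {E : Type} [Fintype E] (μ : E → ℝ) (f : ℕ → E → ℝ)
    (hμ : ∀ x, 0 ≤ μ x) (f0 : ∀ q x, 0 ≤ f q x) (f2 : ∀ q x, f q x ≤ 2) (A κ : ℝ)
    (hA : ∑ x, μ x ≤ A) (C C' : Finset ℕ) (hCC : Disjoint C C') (b : ℕ) (hb : 1 ≤ b)
    (hC : C.card = b) (hC' : C'.card = b)
    (hΓ : ∀ q q' u u', q ∈ C ∪ C' → q' ∈ C ∪ C' → u ∈ C ∪ C' → u' ∈ C ∪ C' → q < q' →
      u < u' → |∑ x, μ x * (f q x * f q' x) - ∑ x, μ x * (f u x * f u' x)| ≤ κ) :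
    ∑ x, μ x * |fb f C x - fb f C' x| ≤ Real.sqrt (A * (4 * κ + 8 * A / b)) := by
  have hA0 : 0 ≤ A := (sum_nonneg fun x _ => hμ x).trans hA
  have hbR : (1 : ℝ) ≤ (b : ℝ) := by exact_mod_cast hb
  have hbp : (0 : ℝ) < (b : ℝ) := by linarith
  set G : ℕ → ℕ → ℝ := fun q q' => ∑ x, μ x * (f q x * f q' x) with hG
  have hGsymm : ∀ q q', G q q' = G q' q := by
    intro q q'
    rw [hG]
    exact sum_congr rfl fun x _ => by ring
  have hG0 : ∀ q q', 0 ≤ G q q' := fun q q' =>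
    sum_nonneg fun x _ => mul_nonneg (hμ x) (mul_nonneg (f0 q x) (f0 q' x))
  have hG4 : ∀ q q', G q q' ≤ 4 * A := by
    intro q q'
    calc G q q' ≤ ∑ x, μ x * 4 := by
          refine sum_le_sum fun x _ => mul_le_mul_of_nonneg_left ?_ (hμ x)
          have := mul_le_mul (f2 q x) (f2 q' x) (f0 q' x) (by norm_num)
          linarith
      _ = (∑ x, μ x) * 4 := by rw [sum_mul]
      _ ≤ 4 * A := by linarith
  -- a pair
  obtain ⟨p, hp⟩ : C.Nonempty := card_pos.1 (by omega)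
  obtain ⟨p', hp'⟩ : C'.Nonempty := card_pos.1 (by omega)
  have hpp : p ≠ p' := fun h => (disjoint_left.1 hCC) hp (h ▸ hp')
  obtain ⟨u, u', huD, huD', huu⟩ : ∃ u u', u ∈ C ∪ C' ∧ u' ∈ C ∪ C' ∧ u < u' := by
    rcases lt_or_gt_of_ne hpp with h | h
    · exact ⟨p, p', mem_union_left _ hp, mem_union_right _ hp', h⟩
    · exact ⟨p', p, mem_union_right _ hp', mem_union_left _ hp, h⟩
  set γ : ℝ := G u u' with hγ
  have hκ : 0 ≤ κ := (abs_nonneg _).trans (hΓ u u' u u' huD huD' huD huD' huu huu)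
  have hoff : ∀ q q', q ∈ C ∪ C' → q' ∈ C ∪ C' → q ≠ q' → |G q q' - γ| ≤ κ := by
    intro q q' hq hq' hne
    rcases lt_or_gt_of_ne hne with h | h
    · exact hΓ q q' u u' hq hq' huD huD' h huu
    · rw [hGsymm q q']
      exact hΓ q' q u u' hq' hq huD huD' h huu
  set c : ℕ → ℝ := fun q => if q ∈ C then 1 else -1 with hc
  have hc1 : ∀ q ∈ C, c q = 1 := fun q hq => if_pos hq
  have hc2 : ∀ q ∈ C', c q = -1 := fun q hq => if_neg (fun h => (disjoint_left.1 hCC) h hq)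
  have hcs : ∑ q ∈ C ∪ C', c q = 0 := by
    rw [sum_union hCC]
    have h1 : ∑ q ∈ C, c q = b := by
      rw [sum_congr rfl hc1, sum_const, hC]
      simp
    have h2 : ∑ q ∈ C', c q = -b := by
      rw [sum_congr rfl hc2, sum_const, hC']
      simp
    rw [h1, h2]
    ring
  have hcf : ∀ x, ∑ q ∈ C ∪ C', c q * f q x = b * (fb f C x - fb f C' x) := by
    intro x
    rw [sum_union hCC]
    have h1 : ∑ q ∈ C, c q * f q x = ∑ q ∈ C, f q x :=
      sum_congr rfl fun q hq => by rw [hc1 q hq, one_mul]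
    have h2 : ∑ q ∈ C', c q * f q x = - ∑ q ∈ C', f q x := by
      rw [← sum_neg_distrib]
      exact sum_congr rfl fun q hq => by
        rw [hc2 q hq]
        ring
    rw [h1, h2]
    unfold fb
    rw [hC, hC']
    field_simp
    ring
  have hcc : ∀ q, c q = 1 ∨ c q = -1 := by
    intro q
    rw [hc]
    simp only
    split_ifs
    · exact Or.inl rfl
    · exact Or.inr rfl
  have hterm : ∀ q ∈ C ∪ C', ∀ q' ∈ C ∪ C', c q * c q' * G q q'
      ≤ c q * c q' * γ + (κ + (if q = q' then 4 * A else 0)) := by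
    intro q hq q' hq'
    by_cases h : q = q'
    · subst h
      rw [if_pos rfl]
      have h1 : c q * c q = 1 := by
        rcases hcc q with h2 | h2 <;> rw [h2] <;> norm_num
      rw [h1]
      have h2 := hG4 q q
      have h3 := hG0 u u'
      rw [← hγ] at h3
      linarith
    · rw [if_neg h]
      have h1 := abs_le.1 (hoff q q' hq hq' h)
      rcases hcc q with h2 | h2 <;> rcases hcc q' with h3 | h3 <;> rw [h2, h3] <;>
        linarith [h1.1, h1.2]
  have hcardD : ((C ∪ C').card : ℝ) = 2 * b := by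
    rw [card_union_of_disjoint hCC, hC, hC']
    push_cast
    ring
  have hV : ∑ x, μ x * (b * (fb f C x - fb f C' x)) ^ 2 ≤ 4 * b ^ 2 * κ + 8 * A * b := by
    rw [sum_congr rfl fun x _ => by rw [← hcf x], close_quad]
    calc ∑ q ∈ C ∪ C', ∑ q' ∈ C ∪ C', c q * c q' * ∑ x, μ x * (f q x * f q' x)
        ≤ ∑ q ∈ C ∪ C', ∑ q' ∈ C ∪ C',
            (c q * c q' * γ + (κ + (if q = q' then 4 * A else 0))) :=
          sum_le_sum fun q hq => sum_le_sum fun q' hq' => hterm q hq q' hq'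
      _ = (∑ q ∈ C ∪ C', c q) * (∑ q' ∈ C ∪ C', c q') * γ
          + ((C ∪ C').card : ℝ) * ((C ∪ C').card : ℝ) * κ
          + ((C ∪ C').card : ℝ) * (4 * A) := by
          simp only [sum_add_distrib]
          have h1 : ∑ q ∈ C ∪ C', ∑ q' ∈ C ∪ C', c q * c q' * γ
              = (∑ q ∈ C ∪ C', c q) * (∑ q' ∈ C ∪ C', c q') * γ := by
            rw [sum_mul_sum, sum_mul]
            exact sum_congr rfl fun q _ => by rw [sum_mul]
          have h2 : ∑ q ∈ C ∪ C', ∑ q' ∈ C ∪ C', κ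
              = ((C ∪ C').card : ℝ) * ((C ∪ C').card : ℝ) * κ := by
            simp only [sum_const, nsmul_eq_mul]
            ring
          have h3 : ∑ q ∈ C ∪ C', ∑ q' ∈ C ∪ C', (if q = q' then 4 * A else 0)
              = ((C ∪ C').card : ℝ) * (4 * A) := by
            have h4 : ∀ q ∈ C ∪ C', ∑ q' ∈ C ∪ C', (if q = q' then 4 * A else 0)
                = 4 * A := by
              intro q hq
              rw [sum_ite_eq, if_pos hq]
            rw [sum_congr rfl h4, sum_const, nsmul_eq_mul]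
          rw [h1, h2, h3]
          ring
      _ = 4 * b ^ 2 * κ + 8 * A * b := by
          rw [hcs, hcardD]
          ring
  have hV2 : ∑ x, μ x * (fb f C x - fb f C' x) ^ 2 ≤ 4 * κ + 8 * A / b := by
    have h1 : ∑ x, μ x * (b * (fb f C x - fb f C' x)) ^ 2
        = (b : ℝ) ^ 2 * ∑ x, μ x * (fb f C x - fb f C' x) ^ 2 := by
      rw [mul_sum]
      exact sum_congr rfl fun x _ => by ring
    rw [h1] at hV
    have h2 : (b : ℝ) ^ 2 * (4 * κ + 8 * A / b) = 4 * b ^ 2 * κ + 8 * A * b := by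
      field_simp
    rw [← h2] at hV
    exact le_of_mul_le_mul_left hV (by positivity)
  have h1 := close_cs μ (fun x => fb f C x - fb f C' x) hμ
  refine h1.trans ?_
  rw [Real.sqrt_mul hA0]
  exact mul_le_mul (Real.sqrt_le_sqrt hA) (Real.sqrt_le_sqrt hV2) (Real.sqrt_nonneg _)
    (Real.sqrt_nonneg _)

end Pool.Agent.Helper34.FQ
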