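import Pool.Agent.Helper34.FQ.Defs
import Pool.Agent.Helper62.FQ_RAM

/-!
Row HOM of the project FQ (problem MP_08bd45_co).
-/

namespace Pool.Agent.Helper34.FQ

open Finset Pool.Agent.Helper34.PN

/-- the statement of row RAM -/
def RamseySt : Prop := ∀ (k c n : ℕ), ∃ N : ℕ, ∀ f : Finset ℕ → ℕ, (∀ T, f T < c) →
    ∃ Q : Finset ℕ, Q ⊆ range N ∧ Q.card = n ∧
      ∀ T T' : Finset ℕ, T ⊆ Q → T' ⊆ Q → T.card = k → T'.card = k → f T = f T'

/-- Ramsey inside an arbitrary set of size `N` -/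
theorem hom_ram_set (hR : RamseySt) (k c n : ℕ) : ∃ N : ℕ, ∀ (S : Finset ℕ), S.card = N →
    ∀ f : Finset ℕ → ℕ, (∀ T, f T < c) →
    ∃ Q : Finset ℕ, Q ⊆ S ∧ Q.card = n ∧
      ∀ T T' : Finset ℕ, T ⊆ Q → T' ⊆ Q → T.card = k → T'.card = k → f T = f T' := by
  obtain ⟨N, hN⟩ := hR k c n
  refine ⟨N, fun S hS f hf => ?_⟩
  -- an injective enumeration
  obtain ⟨g, hg1, hg2⟩ : ∃ g : ℕ → ℕ, (∀ i ∈ range N, g i ∈ S) ∧
      Set.InjOn g (range N : Set ℕ) := by
    refine ⟨fun i => if h : i < N then S.orderEmbOfFin hS ⟨i, h⟩ else 0, ?_, ?_⟩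
    · intro i hi
      simp only
      rw [dif_pos (mem_range.1 hi)]
      exact orderEmbOfFin_mem S hS _
    · intro i hi j hj hij
      have hi' : i < N := by simpa using hi
      have hj' : j < N := by simpa using hj
      simp only at hij
      rw [dif_pos hi', dif_pos hj'] at hij
      have h1 := (S.orderEmbOfFin hS).injective hij
      exact congrArg Fin.val h1
  obtain ⟨Q', hQ1, hQ2, hQ3⟩ := hN (fun T => f (T.image g)) (fun T => hf _)
  have hinj : Set.InjOn g (Q' : Set ℕ) := hg2.mono (by exact_mod_cast hQ1)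
  refine ⟨Q'.image g, ?_, ?_, ?_⟩
  · intro x hx
    obtain ⟨i, hi, rfl⟩ := mem_image.1 hx
    exact hg1 i (hQ1 hi)
  · rw [card_image_of_injOn hinj, hQ2]
  · intro T T' hT hT' hTk hTk'
    have key : ∀ U : Finset ℕ, U ⊆ Q'.image g → U.card = k →
        ∃ U' : Finset ℕ, U' ⊆ Q' ∧ U'.card = k ∧ U'.image g = U := by
      intro U hU hUk
      refine ⟨Q'.filter (fun i => g i ∈ U), filter_subset _ _, ?_, ?_⟩
      · have h2 : (Q'.filter (fun i => g i ∈ U)).image g = U := by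
          ext x
          rw [mem_image]
          constructor
          · rintro ⟨i, hi, rfl⟩
            exact (mem_filter.1 hi).2
          · intro hx
            obtain ⟨i, hi, rfl⟩ := mem_image.1 (hU hx)
            exact ⟨i, mem_filter.2 ⟨hi, hx⟩, rfl⟩
        rw [← hUk, ← h2, card_image_of_injOn]
        · rw [h2]
        · exact hinj.mono (by exact_mod_cast filter_subset _ _)
      · ext x
        rw [mem_image]
        constructor
        · rintro ⟨i, hi, rfl⟩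
          exact (mem_filter.1 hi).2
        · intro hx
          obtain ⟨i, hi, rfl⟩ := mem_image.1 (hU hx)
          exact ⟨i, mem_filter.2 ⟨hi, hx⟩, rfl⟩
    obtain ⟨V, hV1, hV2, rfl⟩ := key T hT hTk
    obtain ⟨V', hV1', hV2', rfl⟩ := key T' hT' hTk'
    exact hQ3 V V' hV1 hV1' hV2 hV2'

theorem hom_top {P : Finset ℕ} {q q' : ℕ} (h1 : ∀ p ∈ P, p < q) (h2 : q < q') :
    (insert q' (insert q P)).sup id = q' := by
  apply le_antisymm
  · refine Finset.sup_le fun x hx => ?_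
    rw [mem_insert, mem_insert] at hx
    rcases hx with rfl | rfl | hx
    · exact le_rfl
    · exact h2.le
    · exact ((h1 x hx).trans h2).le
  · exact le_sup (f := id) (mem_insert_self q' _)

theorem hom_top' {P : Finset ℕ} {q : ℕ} (h1 : ∀ p ∈ P, p < q) :
    (insert q P).sup id = q := by
  apply le_antisymm
  · refine Finset.sup_le fun x hx => ?_
    rw [mem_insert] at hx
    rcases hx with rfl | hx
    · exact le_rfl
    · exact (h1 x hx).le
  · exact le_sup (f := id) (mem_insert_self q _)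

/-- the top two elements and the rest of a finite set of naturals -/
def homA (T : Finset ℕ) : ℕ := T.sup id
def homB (T : Finset ℕ) : ℕ := (T.erase (homA T)).sup id
def homP (T : Finset ℕ) : Finset ℕ := (T.erase (homA T)).erase (homB T)

theorem hom_decode {P : Finset ℕ} {q q' : ℕ} (h1 : ∀ p ∈ P, p < q) (h2 : q < q') :
    homA (insert q' (insert q P)) = q' ∧ homB (insert q' (insert q P)) = q ∧
      homP (insert q' (insert q P)) = P ∧
      (insert q' (insert q P)).card = P.card + 2 := by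
  have hqP : q ∉ P := fun h => lt_irrefl q (h1 q h)
  have hq' : q' ∉ insert q P := by
    intro h
    rcases mem_insert.1 h with h | h
    · omega
    · have := h1 q' h
      omega
  have hA : homA (insert q' (insert q P)) = q' := hom_top h1 h2
  have hB : homB (insert q' (insert q P)) = q := by
    unfold homB
    rw [hA, erase_insert hq']
    exact hom_top' h1
  have hP : homP (insert q' (insert q P)) = P := by
    unfold homP
    rw [hA, hB, erase_insert hq', erase_insert hqP]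
  refine ⟨hA, hB, hP, ?_⟩
  rw [card_insert_of_notMem hq', card_insert_of_notMem hqP]

theorem hom_floor {x y κ : ℝ} (hκ : 0 < κ) (hx : 0 ≤ x) (hy : 0 ≤ y)
    (h : ⌊x / κ⌋₊ = ⌊y / κ⌋₊) : |x - y| ≤ κ := by
  have h1 := Nat.floor_le (div_nonneg hx hκ.le)
  have h2 := Nat.lt_floor_add_one (x / κ)
  have h3 := Nat.floor_le (div_nonneg hy hκ.le)
  have h4 := Nat.lt_floor_add_one (y / κ)
  rw [h] at h1 h2
  have h5 : x / κ - y / κ ≤ 1 := by linarith
  have h6 : y / κ - x / κ ≤ 1 := by linarith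
  rw [← sub_div, div_le_iff₀ hκ] at h5 h6
  rw [abs_le]
  constructor <;> linarith

theorem hom_aux (hR : RamseySt) (κ B : ℝ) (hκ : 0 < κ) : ∀ (j N : ℕ),
    ∃ r : ℕ, ∀ g₁ g₂ : Finset ℕ → ℕ → ℕ → ℝ,
      (∀ P q q', P ⊆ range r → P.card < j → q < r → q' < r →
        (0 ≤ g₁ P q q' ∧ g₁ P q q' ≤ B) ∧ (0 ≤ g₂ P q q' ∧ g₂ P q q' ≤ B)) →
      ∃ Q : Finset ℕ, Q ⊆ range r ∧ Q.card = N ∧
        ∀ (P P' : Finset ℕ) (q q' u u' : ℕ), P ⊆ Q → P' ⊆ Q → P.card < j →
          P'.card = P.card → q ∈ Q → q' ∈ Q → u ∈ Q → u' ∈ Q →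
          (∀ p ∈ P, p < q) → q < q' → (∀ p ∈ P', p < u) → u < u' →
          |g₁ P q q' - g₁ P' u u'| ≤ κ ∧ |g₂ P q q' - g₂ P' u u'| ≤ κ := by
  intro j
  induction j with
  | zero =>
    intro N
    refine ⟨N, fun g₁ g₂ _ => ⟨range N, Subset.rfl, card_range N, ?_⟩⟩
    intro P P' q q' u u' _ _ h
    exact absurd h (Nat.not_lt_zero _)
  | succ j ih =>
    intro N
    set m : ℕ := ⌊B / κ⌋₊ + 1 with hm
    obtain ⟨N₁, hN₁⟩ := hom_ram_set hR (j + 2) (m * m) N
    obtain ⟨r, hr⟩ := ih N₁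
    refine ⟨r, fun g₁ g₂ hg => ?_⟩
    obtain ⟨S, hS1, hS2, hS3⟩ := hr g₁ g₂
      (fun P q q' hP hPj hq hq' => hg P q q' hP (by omega) hq hq')
    have hmpos : 0 < m := by omega
    obtain ⟨Q, hQ1, hQ2, hQ3⟩ := hN₁ S hS2
      (fun T => m * min ⌊g₁ (homP T) (homB T) (homA T) / κ⌋₊ (m - 1)
        + min ⌊g₂ (homP T) (homB T) (homA T) / κ⌋₊ (m - 1))
      (by
        intro T
        have h1 := min_le_right ⌊g₁ (homP T) (homB T) (homA T) / κ⌋₊ (m - 1)
        have h2 := min_le_right ⌊g₂ (homP T) (homB T) (homA T) / κ⌋₊ (m - 1)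
        have h3 := Nat.mul_le_mul_left m h1
        have h4 : m * (m - 1) + m = m * m := by
          obtain ⟨k, hk⟩ : ∃ k, m = k + 1 := ⟨m - 1, by omega⟩
          rw [hk]
          simp only [Nat.add_sub_cancel]
          ring
        omega)
    refine ⟨Q, hQ1.trans hS1, hQ2, ?_⟩
    intro P P' q q' u u' hP hP' hPj hPP hq hq' hu hu' hpq hqq hpu huu
    rcases Nat.lt_or_ge P.card j with hlt | hge
    · exact hS3 P P' q q' u u' (hP.trans hQ1) (hP'.trans hQ1) hlt hPP (hQ1 hq) (hQ1 hq')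
        (hQ1 hu) (hQ1 hu') hpq hqq hpu huu
    · have hPc : P.card = j := by omega
      obtain ⟨a1, a2, a3, a4⟩ := hom_decode hpq hqq
      obtain ⟨b1, b2, b3, b4⟩ := hom_decode hpu huu
      have hT : insert q' (insert q P) ⊆ Q := by
        intro x hx
        rw [mem_insert, mem_insert] at hx
        rcases hx with rfl | rfl | hx
        · exact hq'
        · exact hq
        · exact hP hx
      have hT' : insert u' (insert u P') ⊆ Q := by
        intro x hx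
        rw [mem_insert, mem_insert] at hx
        rcases hx with rfl | rfl | hx
        · exact hu'
        · exact hu
        · exact hP' hx
      have h1 := hQ3 _ _ hT hT' (by rw [a4, hPc]) (by rw [b4, hPP, hPc])
      simp only [a1, a2, a3, b1, b2, b3] at h1
      have hPr : P ⊆ range r := (hP.trans hQ1).trans hS1
      have hPr' : P' ⊆ range r := (hP'.trans hQ1).trans hS1
      have hr' : ∀ x ∈ Q, x < r := fun x hx => mem_range.1 (hS1 (hQ1 hx))
      have c1 := hg P q q' hPr hPj (hr' q hq) (hr' q' hq')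
      have c2 := hg P' u u' hPr' (by omega) (hr' u hu) (hr' u' hu')
      have hfl : ∀ x : ℝ, 0 ≤ x → x ≤ B → min ⌊x / κ⌋₊ (m - 1) = ⌊x / κ⌋₊ := by
        intro x _ hxB
        apply min_eq_left
        have h5 : ⌊x / κ⌋₊ ≤ ⌊B / κ⌋₊ := Nat.floor_le_floor (by gcongr)
        omega
      have hlt : ∀ x : ℝ, 0 ≤ x → x ≤ B → ⌊x / κ⌋₊ < m := by
        intro x _ hxB
        have h5 : ⌊x / κ⌋₊ ≤ ⌊B / κ⌋₊ := Nat.floor_le_floor (by gcongr)
        omega
      rw [hfl _ c1.1.1 c1.1.2, hfl _ c1.2.1 c1.2.2, hfl _ c2.1.1 c2.1.2,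
        hfl _ c2.2.1 c2.2.2] at h1
      have e1 := congrArg (fun n => n / m) h1
      have e2 := congrArg (fun n => n % m) h1
      rw [Nat.mul_add_div hmpos, Nat.mul_add_div hmpos,
        Nat.div_eq_of_lt (hlt _ c1.2.1 c1.2.2), Nat.div_eq_of_lt (hlt _ c2.2.1 c2.2.2),
        add_zero, add_zero] at e1
      rw [Nat.mul_add_mod, Nat.mul_add_mod, Nat.mod_eq_of_lt (hlt _ c1.2.1 c1.2.2),
        Nat.mod_eq_of_lt (hlt _ c2.2.1 c2.2.2)] at e2
      exact ⟨hom_floor hκ c1.1.1 c2.1.1 e1, hom_floor hκ c1.2.1 c2.2.1 e2⟩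

theorem hom_of_ramsey (hR : RamseySt) (m N : ℕ) (κ B : ℝ) (hκ : 0 < κ) :
    ∃ r : ℕ, 1 ≤ r ∧ ∀ g₁ g₂ : Finset ℕ → ℕ → ℕ → ℝ,
      (∀ P q q', P ⊆ range r → P.card < m → q < r → q' < r →
        (0 ≤ g₁ P q q' ∧ g₁ P q q' ≤ B) ∧ (0 ≤ g₂ P q q' ∧ g₂ P q q' ≤ B)) →
      ∃ Q : Finset ℕ, Q ⊆ range r ∧ Q.card = N ∧
        ∀ (P P' : Finset ℕ) (q q' u u' : ℕ), P ⊆ Q → P' ⊆ Q → P.card < m →
          P'.card = P.card → q ∈ Q → q' ∈ Q → u ∈ Q → u' ∈ Q →
          (∀ p ∈ P, p < q) → q < q' → (∀ p ∈ P', p < u) → u < u' →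
          |g₁ P q q' - g₁ P' u u'| ≤ κ ∧ |g₂ P q q' - g₂ P' u u'| ≤ κ := by
  obtain ⟨r, hr⟩ := hom_aux hR κ B hκ m N
  have hrr : range r ⊆ range (r + 1) := range_subset_range.2 (Nat.le_succ r)
  refine ⟨r + 1, by omega, fun g₁ g₂ hg => ?_⟩
  obtain ⟨Q, hQ1, hQ2, hQ3⟩ := hr g₁ g₂ fun P q q' hP hPm hq hq' =>
    hg P q q' (hP.trans hrr) hPm (by omega) (by omega)
  exact ⟨Q, hQ1.trans hrr, hQ2, hQ3⟩

theorem hom (m N : ℕ) (κ B : ℝ) (hκ : 0 < κ) :
    ∃ r : ℕ, 1 ≤ r ∧ ∀ g₁ g₂ : Finset ℕ → ℕ → ℕ → ℝ,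
      (∀ P q q', P ⊆ range r → P.card < m → q < r → q' < r →
        (0 ≤ g₁ P q q' ∧ g₁ P q q' ≤ B) ∧ (0 ≤ g₂ P q q' ∧ g₂ P q q' ≤ B)) →
      ∃ Q : Finset ℕ, Q ⊆ range r ∧ Q.card = N ∧
        ∀ (P P' : Finset ℕ) (q q' u u' : ℕ), P ⊆ Q → P' ⊆ Q → P.card < m →
          P'.card = P.card → q ∈ Q → q' ∈ Q → u ∈ Q → u' ∈ Q →
          (∀ p ∈ P, p < q) → q < q' → (∀ p ∈ P', p < u) → u < u' →
          |g₁ P q q' - g₁ P' u u'| ≤ κ ∧ |g₂ P q q' - g₂ P' u u'| ≤ κ :=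
  hom_of_ramsey ramsey m N κ B hκ

end Pool.Agent.Helper34.FQ
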