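import Pool.Agent.Helper70.FQ_RULE

/-!
Row MASS of the project FQ (problem MP_08bd45_co).
-/

namespace Pool.Agent.Helper34.FQ

open Finset Pool.Agent.Helper34.PN

theorem mass_one {Ω α J : Type} [Fintype Ω] [Nonempty Ω] [LinearOrder α] [Fintype J]
    {s : Ω → α → Fin 3} {W : Finset α} {r : ℕ} {X : J → ℕ → α} {M : J → ℝ} {τ : ℝ}
    (h : Er s W r X M τ) (hτ : 0 ≤ τ) (hr : 1 ≤ r) (a : Fin 3) :
    |Af s X M a ∅ r (fun _ _ => 1) - 1| ≤ 2 ^ (r + 4) * τ := by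
  have hcard : (0 : ℝ) < (Fintype.card Ω : ℝ) := by
    exact_mod_cast Fintype.card_pos
  have h1 := rule_zeros h hτ a ∅ 0 r 0 (fun i _ => notMem_empty i) (Nat.zero_le r) le_rfl
    hr 1 1 zero_le_one zero_le_one (fun _ _ => 1) (fun _ _ => 1)
    (fun _ _ => by simp) (fun _ _ => by simp) (fun _ _ _ _ _ _ _ => rfl)
    (fun _ _ _ _ => rfl)
  have h2 : Af s X M a ∅ 0 (fun _ _ => (1 : ℝ) * 1) = 1 := by
    unfold Af wP
    simp only [range_zero, prod_empty, mul_one, sum_const, card_univ, nsmul_eq_mul]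
    rw [← sum_mul, h.M1, one_mul]
    exact div_self hcard.ne'
  rw [h2] at h1
  have h3 : Af s X M a ∅ r (fun _ _ => (1 : ℝ) * 1) = Af s X M a ∅ r (fun _ _ => 1) := by
    simp only [mul_one]
  rw [h3] at h1
  refine h1.trans ?_
  have e2 : (2 : ℝ) ^ (r + 4) = 16 * 2 ^ r := by rw [pow_add]; ring
  have e4 : (0 : ℝ) < 2 ^ r := by positivity
  rw [e2]
  have h5 : 3 * ((2 : ℝ) ^ r - 2 ^ 0) * (1 * 1) ≤ 16 * 2 ^ r := by
    rw [pow_zero]
    linarith
  exact mul_le_mul_of_nonneg_right h5 hτ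

theorem mass_diff {Ω α J : Type} [Fintype Ω] [Nonempty Ω] [LinearOrder α] [Fintype J]
    {s : Ω → α → Fin 3} {W : Finset α} {r : ℕ} {X : J → ℕ → α} {M : J → ℝ} {τ : ℝ}
    (h : Er s W r X M τ) (hτ : 0 ≤ τ) (q : ℕ) (hq : q < r) (a : Fin 3) :
    Af s X M a ∅ r (fun e ω => |fq s W X 1 q e ω + fq s W X 2 q e ω - 1|)
      ≤ 2 ^ (r + 4) * τ := by
  have hcard : (0 : ℝ) < (Fintype.card Ω : ℝ) := by
    exact_mod_cast Fintype.card_pos
  have hg : ∀ e ω, |fq s W X 1 q e ω + fq s W X 2 q e ω - 1|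
      = |1 - 2 * avg s (lw W (X e q)) (ind s (X e q) 0) ω| := by
    intro e ω
    have h1 := avg_ind_sum s (X e q) (lw W (X e q)) ω
    rw [Fin.sum_univ_three] at h1
    unfold fq
    congr 1
    linarith
  have hgb : ∀ e ω, |1 - 2 * avg s (lw W (X e q)) (ind s (X e q) 0) ω| ≤ 1 := by
    intro e ω
    have h1 := rule_avg_nonneg s (X e q) (lw W (X e q)) 0 ω
    have h2 := rule_avg_le s (X e q) (lw W (X e q)) 0 ω
    rw [abs_le]
    constructor <;> linarith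
  have hfun : (fun (e : J) (ω : Ω) => |fq s W X 1 q e ω + fq s W X 2 q e ω - 1|)
      = (fun (e : J) (ω : Ω) =>
        |1 - 2 * avg s (lw W (X e q)) (ind s (X e q) 0) ω| * (fun _ _ => (1 : ℝ)) (X e q) ω) := by
    funext e ω
    rw [hg e ω, mul_one]
  rw [hfun]
  have hle : ∀ (i : ℕ) (e : J), q ≤ i → i < r → X e q ≤ X e i := by
    intro i e hpi hir
    rcases eq_or_lt_of_le hpi with h1 | h1
    · rw [h1]
    · exact (h.mono e q i h1 hir).le
  have h1 := rule_zeros h hτ a ∅ q r q (fun i _ => notMem_empty i) hq.le le_rfl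
    hq 1 1 zero_le_one zero_le_one
    (fun e ω => |1 - 2 * avg s (lw W (X e q)) (ind s (X e q) 0) ω|) (fun _ _ => (1 : ℝ))
    (fun e ω => by rw [abs_abs]; exact hgb e ω) (fun _ _ => by simp)
    (by
      intro i e ω ω' hi hir hx
      have h4 : ∀ x ∈ lw W (X e q), s ω' x = s ω x := fun x hx' =>
        hx x (mem_union_left _ (step_lw_mono W (hle i e hi hir) hx'))
      show |1 - 2 * avg s (lw W (X e q)) (ind s (X e q) 0) ω'|
        = |1 - 2 * avg s (lw W (X e q)) (ind s (X e q) 0) ω|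
      rw [avg_meas s (lw W (X e q)) (ind s (X e q) 0) ω ω' h4])
    (fun _ _ _ _ => rfl)
  have h2 : Af s X M a ∅ q (fun e ω =>
      |1 - 2 * avg s (lw W (X e q)) (ind s (X e q) 0) ω| * (fun _ _ => (1 : ℝ)) (X e q) ω)
      ≤ 2 ^ q * τ := by
    unfold Af
    rw [div_le_iff₀ hcard]
    have h3 : ∑ e, M e * ∑ ω, wP s X a ∅ q e ω *
        (|1 - 2 * avg s (lw W (X e q)) (ind s (X e q) 0) ω| * (fun _ _ => (1 : ℝ)) (X e q) ω)
        ≤ ∑ e, 2 ^ q * (M e * ∑ ω, |1 - 2 * avg s (lw W (X e q)) (ind s (X e q) 0) ω|) := by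
      refine sum_le_sum fun e _ => ?_
      have h4 : ∑ ω, wP s X a ∅ q e ω *
          (|1 - 2 * avg s (lw W (X e q)) (ind s (X e q) 0) ω| * (fun _ _ => (1 : ℝ)) (X e q) ω)
          ≤ 2 ^ q * ∑ ω, |1 - 2 * avg s (lw W (X e q)) (ind s (X e q) 0) ω| := by
        rw [mul_sum]
        refine sum_le_sum fun ω _ => ?_
        rw [mul_one]
        exact mul_le_mul_of_nonneg_right (step_wP_bound s X a ∅ q e ω).2 (abs_nonneg _)
      refine (mul_le_mul_of_nonneg_left h4 (h.M0 e)).trans (le_of_eq (by ring))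
    rw [← mul_sum] at h3
    have h5 := h.frw q hq
    have h6 : (2 : ℝ) ^ q * ∑ e, M e * ∑ ω,
        |1 - 2 * avg s (lw W (X e q)) (ind s (X e q) 0) ω|
        ≤ 2 ^ q * ((Fintype.card Ω : ℝ) * τ) :=
      mul_le_mul_of_nonneg_left h5 (by positivity)
    refine h3.trans (h6.trans (le_of_eq (by ring)))
  have h7 := (abs_le.1 h1).2
  have e2 : (2 : ℝ) ^ (r + 4) = 16 * 2 ^ r := by rw [pow_add]; ring
  have e4 : (0 : ℝ) < 2 ^ r := by positivity
  have e5 : (2 : ℝ) ^ q ≤ 2 ^ r := pow_le_pow_right₀ (by norm_num) hq.le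
  have e6 : (0 : ℝ) < 2 ^ q := by positivity
  rw [e2]
  have h8 : (3 * ((2 : ℝ) ^ r - 2 ^ q) * (1 * 1) + 2 ^ q) * τ ≤ 16 * 2 ^ r * τ :=
    mul_le_mul_of_nonneg_right (by linarith) hτ
  linarith

end Pool.Agent.Helper34.FQ
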