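import Pool.Agent.Helper70.FQ_STEP

/-!
Row RULE of the project FQ (problem MP_08bd45_co).
-/

namespace Pool.Agent.Helper34.FQ

open Finset Pool.Agent.Helper34.PN

/-- several zero steps, from level `l0` to level `l` -/
theorem rule_zeros {Ω α J : Type} [Fintype Ω] [Nonempty Ω] [LinearOrder α] [Fintype J]
    {s : Ω → α → Fin 3} {W : Finset α} {r : ℕ} {X : J → ℕ → α} {M : J → ℝ} {τ : ℝ}
    (h : Er s W r X M τ) (hτ : 0 ≤ τ) (a : Fin 3) (P : Finset ℕ) (l0 l q : ℕ)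
    (hP : ∀ i, l0 ≤ i → i ∉ P) (hl0 : l0 ≤ l) (hl : l ≤ r) (hq : q < r) (B B' : ℝ)
    (hB0 : 0 ≤ B) (hB0' : 0 ≤ B')
    (ψ : J → Ω → ℝ) (θ : α → Ω → ℝ) (hB : ∀ e ω, |ψ e ω| ≤ B) (hB' : ∀ v ω, |θ v ω| ≤ B')
    (hψ : ∀ i e ω ω', l0 ≤ i → i < r →
      (∀ x ∈ lw W (X e i) ∪ pre X i e, s ω' x = s ω x) → ψ e ω' = ψ e ω)
    (hθ : ∀ v ω ω', (∀ x ∈ lw W v, s ω' x = s ω x) → θ v ω' = θ v ω) :
    |Af s X M a P l (fun e ω => ψ e ω * θ (X e q) ω)
        - Af s X M a P l0 (fun e ω => ψ e ω * θ (X e q) ω)|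
      ≤ 3 * (2 ^ l - 2 ^ l0) * (B * B') * τ := by
  induction l, hl0 using Nat.le_induction with
  | base => simp
  | succ l hl0 ih =>
    have h1 := ih (by omega)
    have h2 := step_zero h hτ a P l q (by omega) (hP l hl0) hq B B' hB0 hB0' ψ θ hB hB'
      (fun e ω ω' hx => hψ l e ω ω' hl0 (by omega) hx) hθ
    have h3 := abs_sub_le
      (Af s X M a P (l + 1) (fun e ω => ψ e ω * θ (X e q) ω))
      (Af s X M a P l (fun e ω => ψ e ω * θ (X e q) ω))
      (Af s X M a P l0 (fun e ω => ψ e ω * θ (X e q) ω))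
    refine h3.trans ((add_le_add h2 h1).trans (le_of_eq ?_))
    rw [pow_succ]
    ring

/-- below the new position the two position sets agree -/
theorem rule_Af_insert {Ω α J : Type} [Fintype Ω] [Fintype J] (s : Ω → α → Fin 3)
    (X : J → ℕ → α) (M : J → ℝ) (a : Fin 3) (P : Finset ℕ) (p : ℕ) (φ : J → Ω → ℝ) :
    Af s X M a (insert p P) p φ = Af s X M a P p φ := by
  have h1 : ∀ e ω, wP s X a (insert p P) p e ω = wP s X a P p e ω := by
    intro e ω
    unfold wP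
    refine prod_congr rfl fun i hi => ?_
    have h2 : i ≠ p := (mem_range.1 hi).ne
    have h3 : (i ∈ insert p P) ↔ i ∈ P := by
      rw [mem_insert]
      exact ⟨fun h => h.resolve_left h2, Or.inr⟩
    by_cases h4 : i ∈ P
    · rw [if_pos h4, if_pos (h3.2 h4)]
    · rw [if_neg h4, if_neg (fun h => h4 (h3.1 h))]
  unfold Af
  simp only [h1]

theorem rule_avg_nonneg {Ω α : Type} [Fintype Ω] (s : Ω → α → Fin 3) (x : α) (S : Finset α)
    (a : Fin 3) (ω : Ω) : 0 ≤ avg s S (ind s x a) ω := avg_ind_nonneg s x S a ω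

theorem rule_avg_le {Ω α : Type} [Fintype Ω] (s : Ω → α → Fin 3) (x : α) (S : Finset α)
    (a : Fin 3) (ω : Ω) : avg s S (ind s x a) ω ≤ 1 := by
  rw [← avg_ind_sum s x S ω]
  exact single_le_sum (f := fun a => avg s S (ind s x a) ω)
    (fun b _ => avg_ind_nonneg s x S b ω) (mem_univ a)

theorem rule_fq_abs {Ω α J : Type} [Fintype Ω] [LinearOrder α] (s : Ω → α → Fin 3)
    (W : Finset α) (X : J → ℕ → α) (a : Fin 3) (q : ℕ) (e : J) (ω : Ω) :
    |fq s W X a q e ω| ≤ 2 := by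
  unfold fq
  have h1 := rule_avg_nonneg s (X e q) (lw W (X e q)) a ω
  have h2 := rule_avg_le s (X e q) (lw W (X e q)) a ω
  rw [abs_of_nonneg (by linarith)]
  linarith

theorem rule_fq_meas {Ω α J : Type} [Fintype Ω] [LinearOrder α] (s : Ω → α → Fin 3)
    (W : Finset α) (X : J → ℕ → α) (a : Fin 3) (q : ℕ) (e : J) (ω ω' : Ω)
    (h : ∀ x ∈ lw W (X e q), s ω' x = s ω x) : fq s W X a q e ω' = fq s W X a q e ω := by
  unfold fq
  rw [avg_meas s (lw W (X e q)) (ind s (X e q) a) ω ω' h]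

theorem rule {Ω α J : Type} [Fintype Ω] [Nonempty Ω] [LinearOrder α] [Fintype J]
    {s : Ω → α → Fin 3} {W : Finset α} {r : ℕ} {X : J → ℕ → α} {M : J → ℝ} {τ : ℝ}
    (h : Er s W r X M τ) (hτ : 0 ≤ τ) (a : Fin 3) (P : Finset ℕ) (p q : ℕ)
    (hP : P ⊆ range p) (hp : p < r) (hq : q < r) (B B' : ℝ) (hB0 : 0 ≤ B) (hB0' : 0 ≤ B')
    (ψ : J → Ω → ℝ) (θ : α → Ω → ℝ) (hB : ∀ e ω, |ψ e ω| ≤ B) (hB' : ∀ v ω, |θ v ω| ≤ B')
    (hψ : ∀ e ω ω', (∀ x ∈ lw W (X e p), s ω' x = s ω x) → ψ e ω' = ψ e ω)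
    (hθ : ∀ v ω ω', (∀ x ∈ lw W v, s ω' x = s ω x) → θ v ω' = θ v ω) :
    |Af s X M a (insert p P) r (fun e ω => ψ e ω * θ (X e q) ω)
        - Af s X M a P r (fun e ω => ψ e ω * fq s W X a p e ω * θ (X e q) ω)|
      ≤ 2 ^ (r + 4) * (B * B') * τ := by
  have hle : ∀ (i : ℕ) (e : J), p ≤ i → i < r → X e p ≤ X e i := by
    intro i e hpi hir
    rcases eq_or_lt_of_le hpi with h1 | h1
    · rw [h1]
    · exact (h.mono e p i h1 hir).le
  have hψ' : ∀ i e ω ω', p ≤ i → i < r →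
      (∀ x ∈ lw W (X e i) ∪ pre X i e, s ω' x = s ω x) → ψ e ω' = ψ e ω := by
    intro i e ω ω' hpi hir hx
    exact hψ e ω ω' fun x hx' =>
      hx x (mem_union_left _ (step_lw_mono W (hle i e hpi hir) hx'))
  have hPp : ∀ i, p ≤ i → i ∉ P := by
    intro i hi hiP
    have := mem_range.1 (hP hiP)
    omega
  -- from level r down to level p + 1
  have h1 := rule_zeros h hτ a (insert p P) (p + 1) r q
    (by
      intro i hi hiP
      rcases mem_insert.1 hiP with h2 | h2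
      · omega
      · exact hPp i (by omega) h2)
    hp le_rfl hq B B' hB0 hB0' ψ θ hB hB'
    (fun i e ω ω' hi hir hx => hψ' i e ω ω' (by omega) hir hx) hθ
  -- the step with status a
  have h2 := step_col h hτ a (insert p P) p q hp (mem_insert_self p P) hq B B' hB0 hB0' ψ θ
    hB hB' (fun e ω ω' hx => hψ' p e ω ω' le_rfl hp hx) hθ
  rw [rule_Af_insert] at h2
  -- back to level r
  have h3 := rule_zeros h hτ a P p r q hPp hp.le le_rfl hq (2 * B) B' (by positivity) hB0'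
    (fun e ω => ψ e ω * fq s W X a p e ω) θ
    (by
      intro e ω
      rw [abs_mul]
      have h4 := mul_le_mul (hB e ω) (rule_fq_abs s W X a p e ω) (abs_nonneg _) hB0
      linarith)
    hB'
    (by
      intro i e ω ω' hi hir hx
      have h4 : ∀ x ∈ lw W (X e p), s ω' x = s ω x := fun x hx' =>
        hx x (mem_union_left _ (step_lw_mono W (hle i e hi hir) hx'))
      show ψ e ω' * fq s W X a p e ω' = ψ e ω * fq s W X a p e ω
      rw [hψ e ω ω' h4, rule_fq_meas s W X a p e ω ω' h4]) hθ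
  have h5 := abs_sub_le
    (Af s X M a (insert p P) r (fun e ω => ψ e ω * θ (X e q) ω))
    (Af s X M a (insert p P) (p + 1) (fun e ω => ψ e ω * θ (X e q) ω))
    (Af s X M a P r (fun e ω => ψ e ω * fq s W X a p e ω * θ (X e q) ω))
  have h6 := abs_sub_le
    (Af s X M a (insert p P) (p + 1) (fun e ω => ψ e ω * θ (X e q) ω))
    (Af s X M a P p (fun e ω => ψ e ω * fq s W X a p e ω * θ (X e q) ω))
    (Af s X M a P r (fun e ω => ψ e ω * fq s W X a p e ω * θ (X e q) ω))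
  rw [abs_sub_comm (Af s X M a P p (fun e ω => ψ e ω * fq s W X a p e ω * θ (X e q) ω))] at h6
  have hBB : 0 ≤ B * B' * τ := by positivity
  have e1 : (2 : ℝ) ^ (p + 1) = 2 * 2 ^ p := by rw [pow_succ]; ring
  have e2 : (2 : ℝ) ^ (r + 4) = 16 * 2 ^ r := by rw [pow_add]; ring
  have e3 : (0 : ℝ) < 2 ^ p := by positivity
  have e4 : (0 : ℝ) < 2 ^ r := by positivity
  rw [e1] at h1
  rw [e2]
  have h7 : |Af s X M a (insert p P) r (fun e ω => ψ e ω * θ (X e q) ω)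
        - Af s X M a P r (fun e ω => ψ e ω * fq s W X a p e ω * θ (X e q) ω)|
      ≤ 3 * (2 ^ r - 2 * 2 ^ p) * (B * B') * τ + (2 * 2 ^ p * (B * B') * τ
        + 3 * (2 ^ r - 2 ^ p) * (2 * B * B') * τ) := by
    linarith
  refine h7.trans ?_
  have h8 : 3 * (2 ^ r - 2 * 2 ^ p) * (B * B') * τ + (2 * 2 ^ p * (B * B') * τ
        + 3 * (2 ^ r - 2 ^ p) * (2 * B * B') * τ)
      = (9 * 2 ^ r - 10 * 2 ^ p) * (B * B' * τ) := by ring
  rw [h8]
  have h9 : (9 * 2 ^ r - 10 * 2 ^ p : ℝ) ≤ 16 * 2 ^ r := by linarith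
  calc (9 * 2 ^ r - 10 * 2 ^ p : ℝ) * (B * B' * τ) ≤ 16 * 2 ^ r * (B * B' * τ) :=
        mul_le_mul_of_nonneg_right h9 hBB
    _ = 16 * 2 ^ r * (B * B') * τ := by ring

end Pool.Agent.Helper34.FQ
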