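import Pool.Agent.Helper34.FQ.Defs
import Pool.Agent.Helper34.PN.AVG

/-!
Row SEQ of the project FQ (problem MP_08bd45_co).
-/

namespace Pool.Agent.Helper34.FQ

open Finset Pool.Agent.Helper34.PN

theorem seq_abs_sum {Ω : Type} [Fintype Ω] (g : Ω → ℝ) :
    ∑ ω, |g ω| ≤ Real.sqrt (Fintype.card Ω : ℝ) * Real.sqrt (∑ ω, g ω ^ 2) := by
  have h1 := Real.sum_mul_le_sqrt_mul_sqrt (univ : Finset Ω) (fun _ => (1 : ℝ)) (fun ω => |g ω|)
  simp only [one_mul, one_pow, sum_const, card_univ, nsmul_eq_mul, mul_one, sq_abs] at h1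
  exact h1

theorem seq_weight_sum {J : Type} [Fintype J] (M g : J → ℝ) (hM : ∀ e, 0 ≤ M e)
    (hg : ∀ e, 0 ≤ g e) (h1 : ∑ e, M e = 1) :
    ∑ e, M e * Real.sqrt (g e) ≤ Real.sqrt (∑ e, M e * g e) := by
  have h2 := Real.sum_mul_le_sqrt_mul_sqrt (univ : Finset J) (fun e => Real.sqrt (M e))
    (fun e => Real.sqrt (M e) * Real.sqrt (g e))
  have h3 : ∑ e, Real.sqrt (M e) ^ 2 = 1 := by
    rw [← h1]
    exact sum_congr rfl fun e _ => Real.sq_sqrt (hM e)
  have h4 : ∑ e, (Real.sqrt (M e) * Real.sqrt (g e)) ^ 2 = ∑ e, M e * g e := by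
    refine sum_congr rfl fun e _ => ?_
    rw [mul_pow, Real.sq_sqrt (hM e), Real.sq_sqrt (hg e)]
  have h5 : ∑ e, Real.sqrt (M e) * (Real.sqrt (M e) * Real.sqrt (g e))
      = ∑ e, M e * Real.sqrt (g e) := by
    refine sum_congr rfl fun e _ => ?_
    rw [← mul_assoc, Real.mul_self_sqrt (hM e)]
  rw [h3, h4, h5, Real.sqrt_one, one_mul] at h2
  exact h2

theorem seq_err {Ω α J : Type} [Fintype Ω] [LinearOrder α] [Fintype J]
    {s : Ω → α → Fin 3} {Z W : Finset α} {r : ℕ} {ε : ℝ} {X : J → ℕ → α} {M : J → ℝ}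
    {D mx : α → ℝ} (hd : Dat Z r ε X M D mx) (a : Fin 3) (q : ℕ) (hq : q < r)
    (B : ℝ) (hB0 : 0 ≤ B) (ψ : J → Ω → ℝ) (hB : ∀ e ω, |ψ e ω| ≤ B)
    (hψ : ∀ e ω ω', (∀ x ∈ lw W (X e q) ∪ pre X q e, s ω' x = s ω x) → ψ e ω' = ψ e ω)
    (K : ℝ) (hK : ∑ e, M e * (energy s (X e q) (lw (W ∪ pre X q e) (X e q))
        - energy s (X e q) (lw W (X e q))) ≤ K * (Fintype.card Ω : ℝ)) :
    ∑ e, M e * |∑ ω, ψ e ω *
        (ind s (X e q) a ω - avg s (lw W (X e q)) (ind s (X e q) a) ω)|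
      ≤ B * (Fintype.card Ω : ℝ) * Real.sqrt K := by
  have hS : ∀ e, lw W (X e q) ⊆ lw (W ∪ pre X q e) (X e q) := by
    intro e x hx
    unfold lw at hx ⊢
    rw [mem_filter] at hx ⊢
    exact ⟨mem_union_left _ hx.1, hx.2⟩
  have hS' : ∀ e, lw W (X e q) ∪ pre X q e ⊆ lw (W ∪ pre X q e) (X e q) := by
    intro e x hx
    rcases mem_union.1 hx with hx | hx
    · exact hS e hx
    · unfold lw
      rw [mem_filter]
      refine ⟨mem_union_right _ hx, ?_⟩
      unfold pre at hx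
      rw [mem_image] at hx
      obtain ⟨i, hi, rfl⟩ := hx
      exact (hd.mono e i q (mem_range.1 hi) hq).le
  set gain : J → ℝ := fun e => energy s (X e q) (lw (W ∪ pre X q e) (X e q))
        - energy s (X e q) (lw W (X e q)) with hgain
  have hgain0 : ∀ e, 0 ≤ gain e := fun e => sub_nonneg.2 (energy_mono s _ _ _ (hS e))
  have h1 : ∀ e, |∑ ω, ψ e ω *
        (ind s (X e q) a ω - avg s (lw W (X e q)) (ind s (X e q) a) ω)|
      ≤ B * (Real.sqrt (Fintype.card Ω : ℝ) * Real.sqrt (gain e)) := by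
    intro e
    have h2 : ∑ ω, avg s (lw (W ∪ pre X q e) (X e q)) (ind s (X e q) a) ω * ψ e ω
        = ∑ ω, ind s (X e q) a ω * ψ e ω :=
      avg_orth s _ _ _ fun ω ω' hx => hψ e ω ω' fun x hx' => hx x (hS' e hx')
    have h3 : ∑ ω, ψ e ω *
        (ind s (X e q) a ω - avg s (lw W (X e q)) (ind s (X e q) a) ω)
        = ∑ ω, ψ e ω * (avg s (lw (W ∪ pre X q e) (X e q)) (ind s (X e q) a) ω
          - avg s (lw W (X e q)) (ind s (X e q) a) ω) := by
      simp only [mul_sub, sum_sub_distrib]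
      congr 1
      rw [sum_congr rfl fun ω _ => mul_comm (ψ e ω) (ind s (X e q) a ω), ← h2]
      exact sum_congr rfl fun ω _ => mul_comm _ _
    rw [h3]
    have h4 : |∑ ω, ψ e ω * (avg s (lw (W ∪ pre X q e) (X e q)) (ind s (X e q) a) ω
          - avg s (lw W (X e q)) (ind s (X e q) a) ω)|
        ≤ B * ∑ ω, |avg s (lw (W ∪ pre X q e) (X e q)) (ind s (X e q) a) ω
          - avg s (lw W (X e q)) (ind s (X e q) a) ω| := by
      refine (abs_sum_le_sum_abs _ _).trans ?_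
      rw [mul_sum]
      refine sum_le_sum fun ω _ => ?_
      rw [abs_mul]
      exact mul_le_mul_of_nonneg_right (hB e ω) (abs_nonneg _)
    refine h4.trans (mul_le_mul_of_nonneg_left ?_ hB0)
    refine (seq_abs_sum _).trans (mul_le_mul_of_nonneg_left ?_ (Real.sqrt_nonneg _))
    refine Real.sqrt_le_sqrt ?_
    rw [hgain]
    simp only
    rw [energy_diff s (X e q) _ _ (hS e)]
    exact single_le_sum (f := fun a => ∑ ω, (avg s (lw (W ∪ pre X q e) (X e q))
      (ind s (X e q) a) ω - avg s (lw W (X e q)) (ind s (X e q) a) ω) ^ 2)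
      (fun b _ => sum_nonneg fun _ _ => sq_nonneg _) (mem_univ a)
  have hc : (0 : ℝ) ≤ (Fintype.card Ω : ℝ) := Nat.cast_nonneg _
  calc ∑ e, M e * |∑ ω, ψ e ω *
        (ind s (X e q) a ω - avg s (lw W (X e q)) (ind s (X e q) a) ω)|
      ≤ ∑ e, M e * (B * (Real.sqrt (Fintype.card Ω : ℝ) * Real.sqrt (gain e))) :=
        sum_le_sum fun e _ => mul_le_mul_of_nonneg_left (h1 e) (hd.M0 e)
    _ = B * Real.sqrt (Fintype.card Ω : ℝ) * ∑ e, M e * Real.sqrt (gain e) := by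
        rw [mul_sum]
        exact sum_congr rfl fun e _ => by ring
    _ ≤ B * Real.sqrt (Fintype.card Ω : ℝ) * Real.sqrt (∑ e, M e * gain e) :=
        mul_le_mul_of_nonneg_left (seq_weight_sum M gain hd.M0 hgain0 hd.M1)
          (mul_nonneg hB0 (Real.sqrt_nonneg _))
    _ ≤ B * Real.sqrt (Fintype.card Ω : ℝ) * Real.sqrt (K * (Fintype.card Ω : ℝ)) :=
        mul_le_mul_of_nonneg_left (Real.sqrt_le_sqrt hK)
          (mul_nonneg hB0 (Real.sqrt_nonneg _))
    _ = B * (Fintype.card Ω : ℝ) * Real.sqrt K := by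
        rw [Real.sqrt_mul' K hc]
        have h6 := Real.mul_self_sqrt hc
        calc B * Real.sqrt (Fintype.card Ω : ℝ) * (Real.sqrt K * Real.sqrt (Fintype.card Ω : ℝ))
            = B * (Real.sqrt (Fintype.card Ω : ℝ) * Real.sqrt (Fintype.card Ω : ℝ))
              * Real.sqrt K := by ring
          _ = B * (Fintype.card Ω : ℝ) * Real.sqrt K := by rw [h6]

end Pool.Agent.Helper34.FQ
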