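import Pool.Agent.Helper34.FQ.Defs
import Pool.Agent.Helper17.PN_GAP

/-!
Row GAPC of the project FQ (problem MP_08bd45_co): blow-up of weights with costs.
-/

namespace Pool.Agent.Helper34.FQ

open Finset Pool.Agent.Helper34.PN

theorem gapc_image_le {β γ : Type} [DecidableEq γ] (T : Finset β) (f : β → γ) (z : γ → ℝ)
    (hz : ∀ x, 0 ≤ z x) : ∑ x ∈ T.image f, z x ≤ ∑ p ∈ T, z (f p) := by
  rw [← sum_fiberwise_of_maps_to (s := T) (t := T.image f) (g := f)
    (fun p hp => mem_image_of_mem f hp) (fun p => z (f p))]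
  refine sum_le_sum fun x hx => ?_
  obtain ⟨p, hp, rfl⟩ := mem_image.1 hx
  exact single_le_sum (f := fun p => z (f p)) (fun q _ => hz _)
    (mem_filter.2 ⟨hp, rfl⟩)

theorem gap_cost (m : ℕ) (C : ℝ) (hC : 0 ≤ C)
    (hn : ∀ (α : Type) [DecidableEq α] (X : Finset α) (H : Finset (Finset α)) (s : ℕ)
      (z : α → ℝ), 1 ≤ s → Good X H m → (∀ E ∈ H, s ≤ (E ∩ X).card) → (∀ x, 0 ≤ z x) →
      ∃ T : Finset α, T ⊆ X ∧ (s : ℝ) * ∑ x ∈ T, z x ≤ C * ∑ x ∈ X, z x ∧
        ∀ E ∈ H, (E ∩ T).Nonempty) :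
    ∀ (α : Type) [DecidableEq α] (X : Finset α) (H : Finset (Finset α)) (w z : α → ℝ),
      Good X H m → (∀ x ∈ X, 0 ≤ w x) → (∀ x, 0 ≤ z x) →
      ∃ T : Finset α, T ⊆ X ∧ ∑ x ∈ T, z x ≤ 2 * C * ∑ x ∈ X, w x * z x ∧
        ∀ E ∈ H, 1 ≤ ∑ x ∈ X.filter (fun x => x ∈ E), w x → (E ∩ T).Nonempty := by
  classical
  intro α _ X H w z hG hw hz
  set s : ℕ := X.card + 1 with hs
  let n : α → ℕ := fun x => ⌊2 * (s : ℝ) * w x⌋₊
  set X' : Finset ((_ : α) × ℕ) := X.sigma (fun x => range (n x)) with hX'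
  set H' : Finset (Finset ((_ : α) × ℕ)) :=
    (H.filter (fun E => 1 ≤ ∑ x ∈ X.filter (fun x => x ∈ E), w x)).image
      (fun E => X'.filter (fun p => p.1 ∈ E)) with hH'
  have hspos : (0 : ℝ) < s := by
    rw [hs]
    positivity
  have hG' : Good X' H' m := by
    apply good_blowup m X H hG n H'
    intro E' hE'
    obtain ⟨E, hE, rfl⟩ := mem_image.1 hE'
    exact ⟨E, (mem_filter.1 hE).1, rfl⟩
  have hbig : ∀ E' ∈ H', s ≤ (E' ∩ X').card := by
    intro E' hE'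
    obtain ⟨E, hE, rfl⟩ := mem_image.1 hE'
    obtain ⟨-, hE1⟩ := mem_filter.1 hE
    have h1 : X'.filter (fun p => p.1 ∈ E) ∩ X' =
        (X.filter (fun x => x ∈ E)).sigma (fun x => range (n x)) := by
      ext p
      simp only [hX', mem_inter, mem_filter, mem_sigma]
      tauto
    rw [h1, card_sigma]
    have h2 : (s : ℝ) ≤ ((∑ x ∈ X.filter (fun x => x ∈ E), (range (n x)).card : ℕ) : ℝ) := by
      push_cast
      have h3 : ∑ x ∈ X.filter (fun x => x ∈ E), (2 * (s : ℝ) * w x - 1) ≤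
          ∑ x ∈ X.filter (fun x => x ∈ E), ((range (n x)).card : ℝ) := by
        apply sum_le_sum
        intro x _
        rw [card_range]
        exact (Nat.sub_one_lt_floor _).le
      refine le_trans ?_ h3
      rw [sum_sub_distrib, ← mul_sum, sum_const, nsmul_eq_mul, mul_one]
      have h4 : ((X.filter (fun x => x ∈ E)).card : ℝ) ≤ (X.card : ℝ) := by
        exact_mod_cast card_le_card (filter_subset _ _)
      have h5 : (s : ℝ) = X.card + 1 := by
        rw [hs]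
        push_cast
        ring
      nlinarith [mul_le_mul_of_nonneg_left hE1 (by positivity : (0 : ℝ) ≤ 2 * s)]
    exact_mod_cast h2
  obtain ⟨T', hT'X, hT'c, hT'h⟩ := hn _ X' H' s (fun p => z p.1) (by omega) hG' hbig
    (fun p => hz p.1)
  refine ⟨T'.image (fun p => p.1), ?_, ?_, ?_⟩
  · intro x hx
    obtain ⟨p, hp, rfl⟩ := mem_image.1 hx
    exact (mem_sigma.1 (hT'X hp)).1
  · have h1 := gapc_image_le T' (fun p => p.1) z hz
    have h2 : ∑ p ∈ X', z p.1 ≤ 2 * s * ∑ x ∈ X, w x * z x := by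
      rw [hX', sum_sigma, mul_sum]
      apply sum_le_sum
      intro x hx
      simp only
      rw [sum_const, card_range, nsmul_eq_mul]
      have h6 : ((n x : ℕ) : ℝ) ≤ 2 * s * w x :=
        Nat.floor_le (mul_nonneg (by positivity) (hw x hx))
      have h7 := mul_le_mul_of_nonneg_right h6 (hz x)
      refine h7.trans (le_of_eq (by ring))
    have h3 : (s : ℝ) * ∑ p ∈ T', z p.1 ≤ s * (2 * C * ∑ x ∈ X, w x * z x) := by
      refine hT'c.trans ((mul_le_mul_of_nonneg_left h2 hC).trans (le_of_eq ?_))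
      ring
    exact h1.trans (le_of_mul_le_mul_left h3 hspos)
  · intro E hE hE1
    obtain ⟨p, hp⟩ := hT'h (X'.filter (fun p => p.1 ∈ E))
      (mem_image.2 ⟨E, mem_filter.2 ⟨hE, hE1⟩, rfl⟩)
    obtain ⟨hp1, hp2⟩ := mem_inter.1 hp
    exact ⟨p.1, mem_inter.2 ⟨(mem_filter.1 hp1).2, mem_image.2 ⟨p, hp2, rfl⟩⟩⟩

end Pool.Agent.Helper34.FQ
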