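import Pool.Agent.Helper34.FQ.Defs
import Pool.Agent.Helper34.PN.AVG

/-!
Row STEP of the project FQ (problem MP_08bd45_co): one step of the position-by-position expansion.
-/

namespace Pool.Agent.Helper34.FQ

open Finset Pool.Agent.Helper34.PN

theorem step_wP_succ {Ω α J : Type} (s : Ω → α → Fin 3) (X : J → ℕ → α) (a : Fin 3)
    (P : Finset ℕ) (l : ℕ) (e : J) (ω : Ω) :
    wP s X a P (l + 1) e ω = wP s X a P l e ω *
      (2 * (if l ∈ P then ind s (X e l) a ω else ind s (X e l) 0 ω)) := by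
  unfold wP
  rw [prod_range_succ]

theorem step_ind_nonneg {Ω α : Type} (s : Ω → α → Fin 3) (x : α) (a : Fin 3) (ω : Ω) :
    0 ≤ ind s x a ω := by
  unfold ind
  split_ifs
  · exact zero_le_one
  · exact le_rfl

theorem step_ind_le {Ω α : Type} (s : Ω → α → Fin 3) (x : α) (a : Fin 3) (ω : Ω) :
    ind s x a ω ≤ 1 := by
  unfold ind
  split_ifs
  · exact le_rfl
  · exact zero_le_one

theorem step_wP_bound {Ω α J : Type} (s : Ω → α → Fin 3) (X : J → ℕ → α) (a : Fin 3)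
    (P : Finset ℕ) (l : ℕ) (e : J) (ω : Ω) :
    0 ≤ wP s X a P l e ω ∧ wP s X a P l e ω ≤ 2 ^ l := by
  induction l with
  | zero =>
    unfold wP
    simp
  | succ l ih =>
    rw [step_wP_succ, pow_succ]
    have h0 : 0 ≤ 2 * (if l ∈ P then ind s (X e l) a ω else ind s (X e l) 0 ω) := by
      split_ifs
      · have := step_ind_nonneg s (X e l) a ω
        linarith
      · have := step_ind_nonneg s (X e l) 0 ω
        linarith
    have h1 : 2 * (if l ∈ P then ind s (X e l) a ω else ind s (X e l) 0 ω) ≤ 2 := by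
      split_ifs
      · have := step_ind_le s (X e l) a ω
        linarith
      · have := step_ind_le s (X e l) 0 ω
        linarith
    exact ⟨mul_nonneg ih.1 h0, mul_le_mul ih.2 h1 h0 (by positivity)⟩

theorem step_wP_meas {Ω α J : Type} [DecidableEq α] (s : Ω → α → Fin 3) (X : J → ℕ → α)
    (a : Fin 3) (P : Finset ℕ) (l : ℕ) (e : J) (ω ω' : Ω)
    (h : ∀ x ∈ pre X l e, s ω' x = s ω x) : wP s X a P l e ω' = wP s X a P l e ω := by
  unfold wP
  refine prod_congr rfl fun i hi => ?_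
  have h1 : s ω' (X e i) = s ω (X e i) := h _ (mem_image_of_mem _ hi)
  unfold ind
  rw [h1]

theorem step_lw_mono {α : Type} [LinearOrder α] (W : Finset α) {x y : α} (h : x ≤ y) :
    lw W x ⊆ lw W y := by
  intro z hz
  unfold lw at hz ⊢
  rw [mem_filter] at hz ⊢
  exact ⟨hz.1, hz.2.trans h⟩

theorem step_first {Ω α J : Type} [Fintype Ω] [LinearOrder α] [Fintype J]
    {s : Ω → α → Fin 3} {W : Finset α} {r : ℕ} {X : J → ℕ → α} {M : J → ℝ} {τ : ℝ}
    (h : Er s W r X M τ) (b : Fin 3) (l q : ℕ) (hl : l < r)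
    (hq : q < r) (C B' : ℝ) (hC0 : 0 ≤ C) (hB0' : 0 ≤ B') (ψ : J → Ω → ℝ)
    (θ : α → Ω → ℝ) (hC : ∀ e ω, |ψ e ω| ≤ C) (hB' : ∀ v ω, |θ v ω| ≤ B')
    (hψ : ∀ e ω ω', (∀ x ∈ lw W (X e l) ∪ pre X l e, s ω' x = s ω x) → ψ e ω' = ψ e ω)
    (hθ : ∀ v ω ω', (∀ x ∈ lw W v, s ω' x = s ω x) → θ v ω' = θ v ω) :
    ∑ e, M e * |∑ ω, ψ e ω *
        (ind s (X e l) b ω - avg s (lw W (X e l)) (ind s (X e l) b) ω) * θ (X e q) ω|
      ≤ C * B' * (Fintype.card Ω : ℝ) * τ := by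
  rcases lt_or_ge l q with hlq | hlq
  · exact h.noise b l q C B' ψ θ hlq hq hC0 hB0' hC hB' hψ
  · have h1 := h.seq b l (C * B') (fun e ω => ψ e ω * θ (X e q) ω) hl
      (mul_nonneg hC0 hB0') ?_ ?_
    · refine le_of_eq_of_le ?_ h1
      refine sum_congr rfl fun e _ => ?_
      congr 2
      exact sum_congr rfl fun ω _ => by ring
    · intro e ω
      rw [abs_mul]
      exact mul_le_mul (hC e ω) (hB' _ ω) (abs_nonneg _) hC0
    · intro e ω ω' hx
      have hle : X e q ≤ X e l := by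
        rcases eq_or_lt_of_le hlq with h2 | h2
        · rw [h2]
        · exact (h.mono e q l h2 hl).le
      have h3 : ψ e ω' = ψ e ω := hψ e ω ω' hx
      have h4 : θ (X e q) ω' = θ (X e q) ω :=
        hθ _ ω ω' fun x hx' => hx x (mem_union_left _ (step_lw_mono W hle hx'))
      show ψ e ω' * θ (X e q) ω' = ψ e ω * θ (X e q) ω
      rw [h3, h4]

/-- the weighted test -/
theorem step_test {Ω α J : Type} [Fintype Ω] [LinearOrder α] [Fintype J]
    {s : Ω → α → Fin 3} {W : Finset α} {r : ℕ} {X : J → ℕ → α} {M : J → ℝ} {τ : ℝ}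
    (h : Er s W r X M τ) (a b : Fin 3) (P : Finset ℕ) (l q : ℕ) (hl : l < r)
    (hq : q < r) (B B' : ℝ) (hB0 : 0 ≤ B) (hB0' : 0 ≤ B') (ψ : J → Ω → ℝ)
    (θ : α → Ω → ℝ) (hB : ∀ e ω, |ψ e ω| ≤ B) (hB' : ∀ v ω, |θ v ω| ≤ B')
    (hψ : ∀ e ω ω', (∀ x ∈ lw W (X e l) ∪ pre X l e, s ω' x = s ω x) → ψ e ω' = ψ e ω)
    (hθ : ∀ v ω ω', (∀ x ∈ lw W v, s ω' x = s ω x) → θ v ω' = θ v ω) :
    ∑ e, M e * |∑ ω, (wP s X a P l e ω * ψ e ω) *
        (ind s (X e l) b ω - avg s (lw W (X e l)) (ind s (X e l) b) ω) * θ (X e q) ω|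
      ≤ 2 ^ l * (B * B') * (Fintype.card Ω : ℝ) * τ := by
  have h1 := step_first h b l q hl hq (2 ^ l * B) B' (by positivity) hB0'
    (fun e ω => wP s X a P l e ω * ψ e ω) θ ?_ hB' ?_ hθ
  · refine h1.trans (le_of_eq (by ring))
  · intro e ω
    have h2 := step_wP_bound s X a P l e ω
    rw [abs_mul, abs_of_nonneg h2.1]
    exact mul_le_mul h2.2 (hB e ω) (abs_nonneg _) (by positivity)
  · intro e ω ω' hx
    have h3 := step_wP_meas s X a P l e ω ω' fun x hx' => hx x (mem_union_right _ hx')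
    have h4 := hψ e ω ω' hx
    show wP s X a P l e ω' * ψ e ω' = wP s X a P l e ω * ψ e ω
    rw [h3, h4]

/-- one step where the vertex at position `l` has status `0`; tests of product form -/
theorem step_zero {Ω α J : Type} [Fintype Ω] [Nonempty Ω] [LinearOrder α] [Fintype J]
    {s : Ω → α → Fin 3} {W : Finset α} {r : ℕ} {X : J → ℕ → α} {M : J → ℝ} {τ : ℝ}
    (h : Er s W r X M τ) (hτ : 0 ≤ τ) (a : Fin 3) (P : Finset ℕ) (l q : ℕ) (hl : l < r)
    (hlP : l ∉ P) (hq : q < r) (B B' : ℝ) (hB0 : 0 ≤ B) (hB0' : 0 ≤ B') (ψ : J → Ω → ℝ)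
    (θ : α → Ω → ℝ) (hB : ∀ e ω, |ψ e ω| ≤ B) (hB' : ∀ v ω, |θ v ω| ≤ B')
    (hψ : ∀ e ω ω', (∀ x ∈ lw W (X e l) ∪ pre X l e, s ω' x = s ω x) → ψ e ω' = ψ e ω)
    (hθ : ∀ v ω ω', (∀ x ∈ lw W v, s ω' x = s ω x) → θ v ω' = θ v ω) :
    |Af s X M a P (l + 1) (fun e ω => ψ e ω * θ (X e q) ω)
        - Af s X M a P l (fun e ω => ψ e ω * θ (X e q) ω)|
      ≤ 3 * 2 ^ l * (B * B') * τ := by
  have hcard : (0 : ℝ) < (Fintype.card Ω : ℝ) := by
    exact_mod_cast Fintype.card_pos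
  have h1 := step_test h a 0 P l q hl hq B B' hB0 hB0' ψ θ hB hB' hψ hθ
  have h2 := h.frw l hl
  set G : J → ℝ := fun e => ∑ ω, (wP s X a P l e ω * ψ e ω) *
        (ind s (X e l) 0 ω - avg s (lw W (X e l)) (ind s (X e l) 0) ω) * θ (X e q) ω with hG
  set H : J → ℝ := fun e => ∑ ω, (wP s X a P l e ω * ψ e ω * θ (X e q) ω) *
        (2 * avg s (lw W (X e l)) (ind s (X e l) 0) ω - 1) with hH
  have h3 : Af s X M a P (l + 1) (fun e ω => ψ e ω * θ (X e q) ω)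
        - Af s X M a P l (fun e ω => ψ e ω * θ (X e q) ω)
      = (∑ e, M e * (2 * G e + H e)) / (Fintype.card Ω : ℝ) := by
    unfold Af
    rw [← sub_div, ← sum_sub_distrib]
    congr 1
    refine sum_congr rfl fun e _ => ?_
    rw [← mul_sub, ← sum_sub_distrib]
    congr 1
    rw [hG, hH]
    simp only
    rw [mul_sum, ← sum_add_distrib]
    refine sum_congr rfl fun ω _ => ?_
    rw [step_wP_succ, if_neg hlP]
    ring
  have hHb : ∀ e, |H e| ≤ 2 ^ l * (B * B') *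
      ∑ ω, |1 - 2 * avg s (lw W (X e l)) (ind s (X e l) 0) ω| := by
    intro e
    rw [hH]
    simp only
    refine (abs_sum_le_sum_abs _ _).trans ?_
    rw [mul_sum]
    refine sum_le_sum fun ω _ => ?_
    have h4 := step_wP_bound s X a P l e ω
    rw [abs_mul, abs_mul, abs_mul, abs_of_nonneg h4.1,
      abs_sub_comm (2 * avg s (lw W (X e l)) (ind s (X e l) 0) ω) 1]
    refine mul_le_mul_of_nonneg_right ?_ (abs_nonneg _)
    have h5 : wP s X a P l e ω * |ψ e ω| ≤ 2 ^ l * B :=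
      mul_le_mul h4.2 (hB e ω) (abs_nonneg _) (by positivity)
    have h6 : wP s X a P l e ω * |ψ e ω| * |θ (X e q) ω| ≤ 2 ^ l * B * B' :=
      mul_le_mul h5 (hB' _ ω) (abs_nonneg _) (by positivity)
    linarith
  have h7 : |∑ e, M e * (2 * G e + H e)|
      ≤ 2 * ∑ e, M e * |G e| + 2 ^ l * (B * B') *
        ∑ e, M e * ∑ ω, |1 - 2 * avg s (lw W (X e l)) (ind s (X e l) 0) ω| := by
    refine (abs_sum_le_sum_abs _ _).trans ?_
    rw [mul_sum, mul_sum, ← sum_add_distrib]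
    refine sum_le_sum fun e _ => ?_
    rw [abs_mul, abs_of_nonneg (h.M0 e)]
    have h8 : |2 * G e + H e| ≤ 2 * |G e| + 2 ^ l * (B * B') *
      ∑ ω, |1 - 2 * avg s (lw W (X e l)) (ind s (X e l) 0) ω| := by
      refine (abs_add_le _ _).trans ?_
      rw [abs_mul, abs_of_pos (two_pos : (0 : ℝ) < 2)]
      linarith [hHb e]
    have h9 := mul_le_mul_of_nonneg_left h8 (h.M0 e)
    refine h9.trans (le_of_eq (by ring))
  rw [h3, abs_div, abs_of_pos hcard, div_le_iff₀ hcard]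
  have h10 : 2 ^ l * (B * B') *
        ∑ e, M e * ∑ ω, |1 - 2 * avg s (lw W (X e l)) (ind s (X e l) 0) ω|
      ≤ 2 ^ l * (B * B') * ((Fintype.card Ω : ℝ) * τ) :=
    mul_le_mul_of_nonneg_left h2 (by positivity)
  refine h7.trans ?_
  calc 2 * ∑ e, M e * |G e| + 2 ^ l * (B * B') *
        ∑ e, M e * ∑ ω, |1 - 2 * avg s (lw W (X e l)) (ind s (X e l) 0) ω|
      ≤ 2 * (2 ^ l * (B * B') * (Fintype.card Ω : ℝ) * τ)
        + 2 ^ l * (B * B') * ((Fintype.card Ω : ℝ) * τ) := by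
        linarith [h1, h10]
    _ = 3 * 2 ^ l * (B * B') * τ * (Fintype.card Ω : ℝ) := by ring

/-- one step where the vertex at position `p` has status `a`; tests of product form -/
theorem step_col {Ω α J : Type} [Fintype Ω] [Nonempty Ω] [LinearOrder α] [Fintype J]
    {s : Ω → α → Fin 3} {W : Finset α} {r : ℕ} {X : J → ℕ → α} {M : J → ℝ} {τ : ℝ}
    (h : Er s W r X M τ) (hτ : 0 ≤ τ) (a : Fin 3) (P : Finset ℕ) (p q : ℕ) (hp : p < r)
    (hpP : p ∈ P) (hq : q < r) (B B' : ℝ) (hB0 : 0 ≤ B) (hB0' : 0 ≤ B') (ψ : J → Ω → ℝ)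
    (θ : α → Ω → ℝ) (hB : ∀ e ω, |ψ e ω| ≤ B) (hB' : ∀ v ω, |θ v ω| ≤ B')
    (hψ : ∀ e ω ω', (∀ x ∈ lw W (X e p) ∪ pre X p e, s ω' x = s ω x) → ψ e ω' = ψ e ω)
    (hθ : ∀ v ω ω', (∀ x ∈ lw W v, s ω' x = s ω x) → θ v ω' = θ v ω) :
    |Af s X M a P (p + 1) (fun e ω => ψ e ω * θ (X e q) ω)
        - Af s X M a P p (fun e ω => ψ e ω * fq s W X a p e ω * θ (X e q) ω)|
      ≤ 2 * 2 ^ p * (B * B') * τ := by
  have hcard : (0 : ℝ) < (Fintype.card Ω : ℝ) := by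
    exact_mod_cast Fintype.card_pos
  have h1 := step_test h a a P p q hp hq B B' hB0 hB0' ψ θ hB hB' hψ hθ
  set G : J → ℝ := fun e => ∑ ω, (wP s X a P p e ω * ψ e ω) *
        (ind s (X e p) a ω - avg s (lw W (X e p)) (ind s (X e p) a) ω) * θ (X e q) ω with hG
  have h3 : Af s X M a P (p + 1) (fun e ω => ψ e ω * θ (X e q) ω)
        - Af s X M a P p (fun e ω => ψ e ω * fq s W X a p e ω * θ (X e q) ω)
      = (∑ e, M e * (2 * G e)) / (Fintype.card Ω : ℝ) := by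
    unfold Af fq
    rw [← sub_div, ← sum_sub_distrib]
    congr 1
    refine sum_congr rfl fun e _ => ?_
    rw [← mul_sub, ← sum_sub_distrib]
    congr 1
    rw [hG]
    simp only
    rw [mul_sum]
    refine sum_congr rfl fun ω _ => ?_
    rw [step_wP_succ, if_pos hpP]
    ring
  have h7 : |∑ e, M e * (2 * G e)| ≤ 2 * ∑ e, M e * |G e| := by
    refine (abs_sum_le_sum_abs _ _).trans ?_
    rw [mul_sum]
    refine sum_le_sum fun e _ => ?_
    rw [abs_mul, abs_mul, abs_of_nonneg (h.M0 e), abs_of_pos (two_pos : (0 : ℝ) < 2)]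
    exact le_of_eq (by ring)
  rw [h3, abs_div, abs_of_pos hcard, div_le_iff₀ hcard]
  refine h7.trans ?_
  calc 2 * ∑ e, M e * |G e|
      ≤ 2 * (2 ^ p * (B * B') * (Fintype.card Ω : ℝ) * τ) := by
        linarith [h1]
    _ = 2 * 2 ^ p * (B * B') * τ * (Fintype.card Ω : ℝ) := by ring

end Pool.Agent.Helper34.FQ
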