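import Mathlib

set_option autoImplicit false

noncomputable section

open MvPolynomial Topology

namespace Pool.Agent.Helper70.PG

/-- An irreducible closed subvariety of the complex projective space with homogeneous
coordinates indexed by `σ`, given by its homogeneous prime ideal. -/
structure ProjVar (σ : Type) where
  ideal : Ideal (MvPolynomial σ ℂ)
  prime : ideal.IsPrime
  homog : ∀ f ∈ ideal, ∀ n : ℕ, homogeneousComponent n f ∈ ideal
  relevant : ∃ i : σ, (X i : MvPolynomial σ ℂ) ∉ ideal

variable {σ : Type}

/-- The homogeneous coordinate ring. -/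
def CoordRing (V : ProjVar σ) : Type := MvPolynomial σ ℂ ⧸ V.ideal

instance coordCommRing (V : ProjVar σ) : CommRing (CoordRing V) :=
  Ideal.Quotient.commRing V.ideal

instance coordIsDomain (V : ProjVar σ) : IsDomain (CoordRing V) :=
  haveI := V.prime
  Ideal.Quotient.isDomain V.ideal

/-- The field of fractions of the homogeneous coordinate ring. -/
def ConeField (V : ProjVar σ) : Type := FractionRing (CoordRing V)

instance coneFieldField (V : ProjVar σ) : Field (ConeField V) :=
  FractionRing.field (CoordRing V)

/-- The class of a polynomial in `ConeField V`. -/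
def toCone (V : ProjVar σ) : MvPolynomial σ ℂ →+* ConeField V :=
  (algebraMap (CoordRing V) (FractionRing (CoordRing V))).comp (Ideal.Quotient.mk V.ideal)

lemma toCone_eq_zero_iff (V : ProjVar σ) (f : MvPolynomial σ ℂ) :
    toCone V f = 0 ↔ f ∈ V.ideal := by
  refine Iff.trans ?_ (Ideal.Quotient.eq_zero_iff_mem (I := V.ideal))
  exact FaithfulSMul.algebraMap_eq_zero_iff (CoordRing V) (FractionRing (CoordRing V))

/-- `z` is a quotient of two homogeneous polynomials of equal degree. -/
def IsRatio (V : ProjVar σ) (z : ConeField V) : Prop :=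
  ∃ (n : ℕ) (f g : MvPolynomial σ ℂ), f.IsHomogeneous n ∧ g.IsHomogeneous n ∧
    g ∉ V.ideal ∧ z = toCone V f / toCone V g

lemma IsRatio.mul {V : ProjVar σ} {z w : ConeField V} (hz : IsRatio V z) (hw : IsRatio V w) :
    IsRatio V (z * w) := by
  obtain ⟨n, f, g, hf, hg, hg0, rfl⟩ := hz
  obtain ⟨n', f', g', hf', hg', hg0', rfl⟩ := hw
  refine ⟨n + n', f * f', g * g', hf.mul hf', hg.mul hg', ?_, ?_⟩
  · intro h
    rcases V.prime.mem_or_mem h with h | h
    exacts [hg0 h, hg0' h]
  · simp [map_mul, mul_div_mul_comm]

lemma IsRatio.add {V : ProjVar σ} {z w : ConeField V} (hz : IsRatio V z) (hw : IsRatio V w) :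
    IsRatio V (z + w) := by
  obtain ⟨n, f, g, hf, hg, hg0, rfl⟩ := hz
  obtain ⟨n', f', g', hf', hg', hg0', rfl⟩ := hw
  refine ⟨n + n', f * g' + g * f', g * g', (hf.mul hg').add (hg.mul hf'), hg.mul hg', ?_, ?_⟩
  · intro h
    rcases V.prime.mem_or_mem h with h | h
    exacts [hg0 h, hg0' h]
  · have h1 : toCone V g ≠ 0 := fun h => hg0 ((toCone_eq_zero_iff V g).1 h)
    have h2 : toCone V g' ≠ 0 := fun h => hg0' ((toCone_eq_zero_iff V g').1 h)
    rw [map_add, map_mul, map_mul, map_mul, div_add_div _ _ h1 h2]

lemma IsRatio.const (V : ProjVar σ) (r : ℂ) : IsRatio V (toCone V (C r)) := by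
  refine ⟨0, C r, 1, isHomogeneous_C _ _, isHomogeneous_one _ _, ?_, ?_⟩
  · exact fun h => V.prime.ne_top ((Ideal.eq_top_iff_one _).2 h)
  · rw [map_one, div_one]

lemma IsRatio.one (V : ProjVar σ) : IsRatio V 1 := by
  have := IsRatio.const V 1
  rwa [map_one, map_one] at this

lemma IsRatio.zero (V : ProjVar σ) : IsRatio V 0 := by
  have := IsRatio.const V 0
  rwa [map_zero, map_zero] at this

lemma IsRatio.neg {V : ProjVar σ} {z : ConeField V} (hz : IsRatio V z) : IsRatio V (-z) := by
  have := (IsRatio.const V (-1)).mul hz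
  rwa [map_neg, map_neg, map_one, map_one, neg_one_mul] at this

lemma IsRatio.inv {V : ProjVar σ} {z : ConeField V} (hz : IsRatio V z) : IsRatio V z⁻¹ := by
  obtain ⟨n, f, g, hf, hg, hg0, rfl⟩ := hz
  by_cases h : f ∈ V.ideal
  · refine ⟨n, f, g, hf, hg, hg0, ?_⟩
    rw [(toCone_eq_zero_iff V f).2 h]; simp
  · exact ⟨n, g, f, hg, hf, h, by rw [inv_div]⟩

/-- The function field of the projective variety `V`: quotients of homogeneous polynomials of
equal degree, inside the fraction field of the homogeneous coordinate ring. -/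
def funField (V : ProjVar σ) : Subfield (ConeField V) where
  carrier := {z | IsRatio V z}
  mul_mem' := IsRatio.mul
  one_mem' := IsRatio.one V
  add_mem' := IsRatio.add
  zero_mem' := IsRatio.zero V
  neg_mem' := IsRatio.neg
  inv_mem' _ := IsRatio.inv

/-- The function field of `V`, as a type. -/
def FunField (V : ProjVar σ) : Type := funField V

instance funFieldField (V : ProjVar σ) : Field (FunField V) := Subfield.toField (funField V)

/-- The constants. -/
def constHom (V : ProjVar σ) : ℂ →+* FunField V :=
  ((toCone V).comp C).codRestrict (funField V) (IsRatio.const V)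

instance funFieldAlgebra (V : ProjVar σ) : Algebra ℂ (FunField V) := (constHom V).toAlgebra

/-- Rational differential `d`-forms on `V`, given by their values on `d` derivations of the
function field. -/
abbrev RatForm (V : ProjVar σ) (d : ℕ) : Type :=
  (Fin d → Derivation ℂ (FunField V) (FunField V)) → FunField V

/-- A quotient of two homogeneous polynomials of equal degree whose denominator does not vanish
identically on `W`: an element of the local ring of the projective space at the generic point
of `W`. -/
structure LocFrac (W : ProjVar σ) where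
  deg : ℕ
  num : MvPolynomial σ ℂ
  den : MvPolynomial σ ℂ
  num_homog : num.IsHomogeneous deg
  den_homog : den.IsHomogeneous deg
  den_notMem : den ∉ W.ideal

/-- Restriction of such a quotient to a variety `V` containing `W`, as a rational function on
`V`; these restrictions make up the local ring of `V` along `W`. -/
def LocFrac.res {W : ProjVar σ} (a : LocFrac W) (V : ProjVar σ) (h : V.ideal ≤ W.ideal) :
    FunField V :=
  ⟨toCone V a.num / toCone V a.den, a.deg, a.num, a.den, a.num_homog, a.den_homog,
    fun h' => a.den_notMem (h h'), rfl⟩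

/-- The form `g db₀ ∧ ⋯ ∧ db_{d-1}`. -/
def wedge {V : ProjVar σ} {d : ℕ} (g : FunField V) (b : Fin d → FunField V) : RatForm V d :=
  fun δ => g * Matrix.det (Matrix.of fun i j => δ j (b i))

/-- `t` restricts to a generator of the maximal ideal of the local ring of `V` along `W`. -/
def IsUniformizer (V W : ProjVar σ) (h : V.ideal ≤ W.ideal) (t : LocFrac W) : Prop :=
  t.res V h ≠ 0 ∧ t.res W le_rfl = 0 ∧
    ∀ a : LocFrac W, a.res W le_rfl = 0 → ∃ b : LocFrac W, a.res V h = t.res V h * b.res V h

/-- The rational `d`-forms on `V` that are regular at the generic point of `W`. -/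
def regularForms (V W : ProjVar σ) (h : V.ideal ≤ W.ideal) (d : ℕ) :
    AddSubgroup (RatForm V d) :=
  AddSubgroup.closure {ω | ∃ (g : LocFrac W) (b : Fin d → LocFrac W),
    ω = wedge (g.res V h) (fun i => (b i).res V h)}

/-- The pairs `(ω, ρ)` of a rational `(d+1)`-form `ω` on `V` with at most a simple pole along
`W` and its Poincaré residue `ρ` along `W`. The group is generated by the pairs
`(g db₀ ∧ ⋯ ∧ db_d, 0)` and `((f/t) dt ∧ da₁ ∧ ⋯ ∧ da_d, (f da₁ ∧ ⋯ ∧ da_d)|_W)` with
`f, g, aᵢ, bᵢ` in the local ring along `W` and `t` a uniformizer. -/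
def residuePairs (V W : ProjVar σ) (h : V.ideal ≤ W.ideal) (d : ℕ) :
    AddSubgroup (RatForm V (d + 1) × RatForm W d) :=
  AddSubgroup.closure
    ({p | ∃ (g : LocFrac W) (b : Fin (d + 1) → LocFrac W),
        p = (wedge (g.res V h) (fun i => (b i).res V h), 0)} ∪
     {p | ∃ (t f : LocFrac W) (a : Fin d → LocFrac W), IsUniformizer V W h t ∧
        p = (wedge (f.res V h / t.res V h) (Fin.cons (t.res V h) (fun i => (a i).res V h)),
             wedge (f.res W le_rfl) (fun i => (a i).res W le_rfl))})

/-- `ω` has at most a simple pole along `W`, with Poincaré residue `ρ`. -/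
def HasResidue (V W : ProjVar σ) {d : ℕ} (ω : RatForm V (d + 1)) (ρ : RatForm W d) : Prop :=
  ∃ h : V.ideal ≤ W.ideal, (ω, ρ) ∈ residuePairs V W h d

/-- `W` is an irreducible subvariety of `V` of codimension one. -/
def IsPrimeDivisor (V W : ProjVar σ) : Prop :=
  V.ideal < W.ideal ∧
    ∀ U : ProjVar σ, V.ideal ≤ U.ideal → U.ideal ≤ W.ideal → U.ideal = V.ideal ∨ U.ideal = W.ideal

/-- `ω` is regular at the generic point of `W`. -/
def IsRegularAlong (V W : ProjVar σ) {d : ℕ} (ω : RatForm V d) : Prop :=
  ∃ h : V.ideal ≤ W.ideal, ω ∈ regularForms V W h d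

/-- Value of a complex polynomial at a real vector. -/
def realEval (v : σ → ℝ) : MvPolynomial σ ℂ →ₐ[ℂ] ℂ := aeval (fun i => (v i : ℂ))

/-- The real points of `V`. A subset of a real projective space is represented throughout by the
set of all nonzero vectors representing its points. -/
def realPts (V : ProjVar σ) : Set (σ → ℝ) := {v | v ≠ 0 ∧ ∀ f ∈ V.ideal, realEval v f = 0}

/-- Interior of `A` relative to `E`. -/
def relInterior (E A : Set (σ → ℝ)) : Set (σ → ℝ) := {v | v ∈ E ∧ A ∈ 𝓝[E] v}

/-- The ideal of the Zariski closure of `B` in complex projective space. -/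
def vanishing (B : Set (σ → ℝ)) : Ideal (MvPolynomial σ ℂ) where
  carrier := {f | ∀ v ∈ B, realEval v f = 0}
  add_mem' := fun ha hb v hv => by rw [map_add, ha v hv, hb v hv, add_zero]
  zero_mem' := fun v _ => map_zero _
  smul_mem' := fun c f hf v hv => by rw [smul_eq_mul, map_mul, hf v hv, mul_zero]

/-- The irreducible components `C₁, …, C_r` of the Zariski closure of `A` minus its interior in
the real points of `V`. -/
def boundaryComponents (V : ProjVar σ) (A : Set (σ → ℝ)) : Set (ProjVar σ) :=
  {C | C.ideal ∈ (vanishing (A \ relInterior (realPts V) A)).minimalPrimes}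

/-- The facet of `A` on the boundary component `C`: the closure in the real points of `C` of the
interior of the intersection of `C` and `A`. -/
def facet (C : ProjVar σ) (A : Set (σ → ℝ)) : Set (σ → ℝ) :=
  closure (relInterior (realPts C) (realPts C ∩ A)) ∩ realPts C

/-- `V` is a point. -/
def IsPoint (V : ProjVar σ) : Prop :=
  ∃ w : σ → ℂ, w ≠ 0 ∧
    ∀ (n : ℕ) (f : MvPolynomial σ ℂ), f.IsHomogeneous n → (f ∈ V.ideal ↔ aeval w f = 0)

/-- The recursive conditions on the canonical form of a positive geometry `(V, A)` of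
dimension `d`, the sign at points being left free. -/
def IsCanonicalForm : (d : ℕ) → (V : ProjVar σ) → Set (σ → ℝ) → RatForm V d → Prop
  | 0, V, A, ω => IsPoint V ∧ A = realPts V ∧ (ω = (fun _ => 1) ∨ ω = (fun _ => -1))
  | d + 1, V, A, ω => ω ≠ 0 ∧
      (∀ W : ProjVar σ, IsPrimeDivisor V W → W ∉ boundaryComponents V A →
        IsRegularAlong V W ω) ∧
      ∀ C ∈ boundaryComponents V A, ∃ ρ : RatForm C d,
        HasResidue V C ω ρ ∧ IsCanonicalForm d C (facet C A) ρ

end Pool.Agent.Helper70.PG
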