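import Pool.Agent.Helper70.PGSix

set_option autoImplicit false
set_option linter.unusedSectionVars false

noncomputable section PartSeven

open MvPolynomial Topology

namespace Pool.Agent.Helper70.PG

/-! ### Edges of the quadric surfaces -/

/-- Restriction to the line where the coordinate `i` is `c` and the other one is `α X + β`. -/
def rE (i : Fin 2) (c α β : ℝ) : A2 →ₐ[ℂ] Polynomial ℂ :=
  aeval (Function.update (fun _ => Polynomial.C (α : ℂ) * Polynomial.X + Polynomial.C (β : ℂ)) i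
    (Polynomial.C (c : ℂ)))

/-- Equation of the line. -/
def πE (i : Fin 2) (c : ℝ) : A2 := X i - C (c : ℂ)

/-- Section. -/
def sE (i : Fin 2) (α β : ℝ) : Polynomial ℂ →ₐ[ℂ] A2 :=
  Polynomial.aeval (C ((α : ℂ)⁻¹) * (X (1 - i) - C (β : ℂ)))

lemma rE_self (i : Fin 2) (c α β : ℝ) : rE i c α β (X i) = Polynomial.C (c : ℂ) := by
  simp [rE]

lemma rE_other (i : Fin 2) (c α β : ℝ) : rE i c α β (X (1 - i)) =
    Polynomial.C (α : ℂ) * Polynomial.X + Polynomial.C (β : ℂ) := by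
  have h : (1 - i : Fin 2) ≠ i := by fin_cases i <;> decide
  simp [rE, Function.update_of_ne h]

lemma rE_C (i : Fin 2) (c α β : ℝ) (z : ℂ) : rE i c α β (C z) = Polynomial.C z := by
  rw [← algebraMap_eq, AlgHom.commutes]; rfl

lemma rE_sE {i : Fin 2} {c α β : ℝ} (hα : α ≠ 0) (p : Polynomial ℂ) :
    rE i c α β (sE i α β p) = p := by
  have hα' : (α : ℂ) ≠ 0 := by exact_mod_cast hα
  have h : (rE i c α β).comp (sE i α β) = AlgHom.id ℂ (Polynomial ℂ) := by
    apply Polynomial.algHom_ext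
    simp only [AlgHom.comp_apply, sE, Polynomial.aeval_X, map_mul, map_sub, rE_C, rE_other,
      AlgHom.id_apply, add_sub_cancel_right]
    rw [← mul_assoc, ← map_mul, inv_mul_cancel₀ hα', map_one, one_mul]
  exact AlgHom.congr_fun h p

lemma rE_surj {i : Fin 2} {c α β : ℝ} (hα : α ≠ 0) : Function.Surjective (rE i c α β) :=
  fun p => ⟨sE i α β p, rE_sE hα p⟩

lemma rE_π (i : Fin 2) (c α β : ℝ) : rE i c α β (πE i c) = 0 := by
  rw [πE, map_sub, rE_self, rE_C, sub_self]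

lemma rE_dvd {i : Fin 2} {c α β : ℝ} (hα : α ≠ 0) (p : A2) (hp : rE i c α β p = 0) :
    πE i c ∣ p := by
  have hα' : (α : ℂ) ≠ 0 := by exact_mod_cast hα
  have h := dvd_sub_of_gen ((sE i α β).comp (rE i c α β)) (πE i c) (by
    intro j
    by_cases hj : j = i
    · subst hj
      rw [AlgHom.comp_apply, rE_self]
      have : sE j α β (Polynomial.C (c : ℂ)) = C (c : ℂ) := by
        simp [sE, algebraMap_eq]
      rw [this, πE]
    · have hj' : j = 1 - i := by fin_cases i <;> fin_cases j <;> simp_all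
      rw [hj', AlgHom.comp_apply, rE_other, map_add, map_mul]
      have e1 : sE i α β (Polynomial.C (α : ℂ)) = C (α : ℂ) := by
        simp [sE, algebraMap_eq]
      have e2 : sE i α β (Polynomial.C (β : ℂ)) = C (β : ℂ) := by
        simp [sE, algebraMap_eq]
      have e3 : sE i α β Polynomial.X = C ((α : ℂ)⁻¹) * (X (1 - i) - C (β : ℂ)) := by
        simp [sE]
      rw [e1, e2, e3, ← mul_assoc, ← map_mul, mul_inv_cancel₀ hα', map_one, one_mul,
        sub_add_cancel, sub_self]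
      exact dvd_zero _) p
  rw [AlgHom.comp_apply, hp, map_zero, sub_zero] at h
  exact h

lemma πE_ne (i : Fin 2) (c : ℝ) : πE i c ≠ 0 := by
  intro h
  have := congrArg (eval (fun _ => (c + 1 : ℂ))) h
  simp [πE] at this

lemma πE_prime (i : Fin 2) (c : ℝ) : Prime (πE i c) :=
  prime_of_ker (rE i c 1 0) (πE_ne i c) (rE_π i c 1 0) (rE_dvd one_ne_zero)

/-- The frame adapted to the line. -/
def δE (i : Fin 2) (α : ℝ) : Fin 2 → Derivation ℂ A2 A2 :=
  ![pderiv i, (C (α : ℂ) : A2) • pderiv (1 - i)]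

lemma δE_zero (i : Fin 2) (α c : ℝ) : δE i α 0 (πE i c) = 1 := by
  simp [δE, πE]

lemma δE_one (i : Fin 2) (α c : ℝ) : δE i α 1 (πE i c) = 0 := by
  have h : i ≠ (1 - i : Fin 2) := by fin_cases i <;> decide
  simp [δE, πE, pderiv_X_of_ne h]

lemma δE_der (i : Fin 2) (c α β : ℝ) (a : A2) :
    rE i c α β (δE i α 1 a) = Polynomial.derivative (rE i c α β a) := by
  induction a using MvPolynomial.induction_on with
  | C a => simp
  | add p q hp hq => rw [map_add, map_add, map_add, map_add, hp, hq]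
  | mul_X p j hp =>
    rw [Derivation.leibniz, map_mul, Polynomial.derivative_mul, smul_eq_mul, smul_eq_mul,
      map_add, map_mul, map_mul, hp]
    have key : rE i c α β (δE i α 1 (X j)) = Polynomial.derivative (rE i c α β (X j)) := by
      by_cases hj : j = i
      · subst hj
        have h : j ≠ (1 - j : Fin 2) := by fin_cases j <;> decide
        rw [rE_self]
        simp [δE, pderiv_X_of_ne h]
      · have hj' : j = 1 - i := by fin_cases i <;> fin_cases j <;> simp_all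
        rw [hj', rE_other]
        simp [δE]
    rw [key]
    ring

/-- Orientation constant. -/
def gE (i : Fin 2) (α : ℝ) : ℂ := if i = 0 then α else -α

lemma δE_det (i : Fin 2) (α : ℝ) (b : Fin 2 → FractionRing A2) :
    Matrix.det (Matrix.of fun k j => fracDer (δE i α j) (b k)) =
      algebraMap A2 (FractionRing A2) (C (gE i α)) *
        Matrix.det (Matrix.of fun k j => fracDer (b2 j) (b k)) := by
  rw [Matrix.det_fin_two, Matrix.det_fin_two]
  fin_cases i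
  · simp only [δE, b2, gE, Matrix.of_apply, Matrix.cons_val_zero, Matrix.cons_val_one,
      fracDer_smul, Fin.zero_eta, sub_zero, if_true]
    ring
  · simp only [δE, b2, gE, Matrix.of_apply, Matrix.cons_val_zero, Matrix.cons_val_one,
      fracDer_smul, Fin.mk_one, sub_self, one_ne_zero, if_false, map_neg]
    ring

/-- The coordinates of a point of the line -/
def xE (i : Fin 2) (c α β : ℝ) (t : ℝ) : ℝ := if i = 0 then c else α * t + β
def yE (i : Fin 2) (c α β : ℝ) (t : ℝ) : ℝ := if i = 0 then α * t + β else c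

/-- the point of the line -/
def pE (ε : ℝ) (i : Fin 2) (c α β : ℝ) (t : ℝ) : Fin 6 → ℝ :=
  vec3 (xE i c α β t) (yE i c α β t) (ε * (xE i c α β t * yE i c α β t))

lemma pE_ev_hom (ε : ℝ) (i : Fin 2) (c α β : ℝ) (t : ℝ) :
    ((Polynomial.aeval (t : ℂ) : Polynomial ℂ →ₐ[ℂ] ℂ).comp (rE i c α β)).comp (rD ε) =
      aeval ![((xE i c α β t : ℝ) : ℂ), ((yE i c α β t : ℝ) : ℂ),
        ((ε * (xE i c α β t * yE i c α β t) : ℝ) : ℂ)] := by
  have h0 : rE i c α β (X 0) = if i = 0 then Polynomial.C (c : ℂ) else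
      Polynomial.C (α : ℂ) * Polynomial.X + Polynomial.C (β : ℂ) := by
    fin_cases i
    · exact rE_self 0 c α β
    · exact rE_other 1 c α β
  have h1 : rE i c α β (X 1) = if i = 0 then
      Polynomial.C (α : ℂ) * Polynomial.X + Polynomial.C (β : ℂ) else
      Polynomial.C (c : ℂ) := by
    fin_cases i
    · exact rE_other 0 c α β
    · exact rE_self 1 c α β
  have g0 : Polynomial.aeval (t : ℂ) (rE i c α β (X 0)) = ((xE i c α β t : ℝ) : ℂ) := by
    rw [h0, xE]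
    split_ifs
    · simp
    · simp
  have g1 : Polynomial.aeval (t : ℂ) (rE i c α β (X 1)) = ((yE i c α β t : ℝ) : ℂ) := by
    rw [h1, yE]
    split_ifs
    · simp
    · simp
  refine MvPolynomial.algHom_ext fun k => ?_
  rw [AlgHom.comp_apply, AlgHom.comp_apply, aeval_X]
  fin_cases k
  · have e : rD ε (X 0) = X 0 := by simp [rD]
    refine Eq.trans ?_ g0
    rw [← e]
    rfl
  · have e : rD ε (X 1) = X 1 := by simp [rD]
    refine Eq.trans ?_ g1
    rw [← e]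
    rfl
  · have e : rD ε (X 2) = C (ε : ℂ) * (X 0 * X 1) := by simp [rD]
    have e2 : Polynomial.aeval (t : ℂ) (rE i c α β (rD ε (X 2))) =
        ((ε * (xE i c α β t * yE i c α β t) : ℝ) : ℂ) := by
      rw [e, map_mul, map_mul, rE_C, map_mul, map_mul, g0, g1, Polynomial.aeval_C]
      push_cast
      rfl
    exact e2

lemma pE_ev (ε : ℝ) (i : Fin 2) (c α β : ℝ) (t : ℝ) (j : Fin 6) :
    ((pE ε i c α β t j : ℝ) : ℂ) = Polynomial.aeval (t : ℂ) (rE i c α β (rD ε (φ1 j))) := by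
  rw [pE, vec3_ev]
  exact (AlgHom.congr_fun (pE_ev_hom ε i c α β t) (φ1 j)).symm

/-- The boundary polynomial of the surfaces. -/
def H5 : MvPolynomial (Fin 6) ℂ :=
  lin (LL 1) * lin (LL 2) * lin (LL 3) * lin (LL 4) * lin (LL 6 + LL 7)

lemma H5_homog : H5.IsHomogeneous 5 :=
  ((((lin_homog _).mul (lin_homog _)).mul (lin_homog _)).mul (lin_homog _)).mul (lin_homog _)

lemma H5_vanish {ε : ℝ} (hε : ε = 1 ∨ ε = -1) :
    H5 ∈ vanishing (AV (DV ε) \ relInterior (realPts (DV ε)) (AV (DV ε))) := by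
  rintro v ⟨hv, hv'⟩
  by_contra hne
  apply hv'
  rw [H5, map_mul, map_mul, map_mul, map_mul, realEval_lin, realEval_lin,
    realEval_lin, realEval_lin, realEval_lin, add_dotProduct] at hne
  have e : ∀ k, LL k ⬝ᵥ v = 0 → ((LL k ⬝ᵥ v : ℝ) : ℂ) = 0 := by
    intro k hk; rw [hk]; simp
  have n1 : LL 1 ⬝ᵥ v ≠ 0 := fun h => hne (by rw [e 1 h]; ring)
  have n2 : LL 2 ⬝ᵥ v ≠ 0 := fun h => hne (by rw [e 2 h]; ring)
  have n3 : LL 3 ⬝ᵥ v ≠ 0 := fun h => hne (by rw [e 3 h]; ring)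
  have n4 : LL 4 ⬝ᵥ v ≠ 0 := fun h => hne (by rw [e 4 h]; ring)
  have n67 : LL 6 ⬝ᵥ v + LL 7 ⬝ᵥ v ≠ 0 := fun h => hne (by
    rw [h]; simp)
  refine relInt_of_prod hv fun s hs hpos => ?_
  have h0 := (C1_real (DV_sub ε hv.1)).1
  have p1 := pos_of_ne hs (hpos 1) n1
  have p2 := pos_of_ne hs (hpos 2) n2
  have p3 := pos_of_ne hs (hpos 3) n3
  have p4 := pos_of_ne hs (hpos 4) n4
  have p6 := hpos 6
  have hr := DV_real hε hv.1
  refine LLcases (Or.inl fun u hu => by rw [LL_zero]; exact (C1_real (DV_sub ε hu)).1)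
    (Or.inr p1) (Or.inr p2) (Or.inr p3) (Or.inr p4) (Or.inr ?_) ?_ ?_
  · rw [LL_one] at p1
    rw [LL_two] at p2
    rw [LL_three] at p3
    rw [LL_four] at p4
    rw [LL_six, h0] at p6
    rw [LL_five]
    nlinarith
  · rcases hε with rfl | rfl
    · left
      intro u hu
      have := DV_real (Or.inl rfl) hu
      linarith
    · right
      refine pos_of_ne hs p6 fun h => n67 ?_
      linarith
  · rcases hε with rfl | rfl
    · right
      refine pos_of_ne hs (hpos 7) fun h => n67 ?_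
      linarith
    · left
      intro u hu
      have := DV_real (Or.inr rfl) hu
      linarith

lemma lin_add (a b : Fin 6 → ℝ) : lin (a + b) = lin a + lin b := by
  simp only [lin, Pi.add_apply, Complex.ofReal_add, map_add, add_mul, Finset.sum_add_distrib]

lemma φ1_H5 : aeval φ1 H5 = 4 * ((1 - X 0) * (1 - X 1) * ((1 - X 0) * (1 + X 1)) *
    ((1 + X 0) * (1 - X 1)) * ((1 + X 0) * (1 + X 1)) * X 2) := by
  rw [H5, map_mul, map_mul, map_mul, map_mul, lin_add, map_add, φ1_L1, φ1_L2, φ1_L3,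
    φ1_L4, φ1_L6, φ1_L7]
  ring

lemma cD_H5 {ε : ℝ} (hε : ε = 1 ∨ ε = -1) : aeval (cD ε).φ H5 ≠ 0 := by
  have h1 : aeval (cD ε).φ H5 = rD ε (aeval φ1 H5) :=
    Chart.aeval_comp_eq φ1 (rD ε) H5
  have h4 : rD ε 4 = 4 := map_ofNat _ 4
  rw [h1, φ1_H5, map_mul, h4]
  intro h
  have h2 := congrArg (aeval ![(1 / 2 : ℂ), 1 / 2]) h
  rcases hε with rfl | rfl
  · simp [rD] at h2
    norm_num at h2
  · simp [rD] at h2
    norm_num at h2

/-- A line on the surface is a boundary component if a real interval of it consists of boundary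
points. -/
lemma edge_component {ε : ℝ} (hε : ε = 1 ∨ ε = -1) (i : Fin 2) {c α β : ℝ} (hα : α ≠ 0)
    {lo hi : ℝ} (hlt : lo < hi) (γ : ℝ → ℝ → Fin 6 → ℝ)
    (hSQ : ∀ t, lo < t → t < hi → pE ε i c α β t ∈ SQ LL)
    (hγ : ∀ t, lo < t → t < hi → Filter.Tendsto (γ t) (𝓝[>] 0) (𝓝 (pE ε i c α β t)))
    (h : ∀ t, lo < t → t < hi → ∀ᶠ τ in 𝓝[>] (0 : ℝ), γ t τ ∈ realPts (DV ε) ∧
      (∃ k, LL k ⬝ᵥ γ t τ < 0) ∧ ∃ j, 0 < LL j ⬝ᵥ γ t τ) :
    (cD ε).sub (rE i c α β) ∈ boundaryComponents (DV ε) (AV (DV ε)) := by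
  refine (cD ε).sub_mem_components (rE i c α β) (πE_prime i c) (rE_π i c α β)
    (rE_dvd hα) (AV (DV ε)) Set.inter_subset_left ?_ H5_homog (H5_vanish hε) (cD_H5 hε)
  refine vanishing_le_sub (cD ε) (rE i c α β) _
    (T := {t : ℝ // lo < t ∧ t < hi}) (fun t => Polynomial.aeval (t.1 : ℂ)) ?_
    (fun t => pE ε i c α β t.1) ?_ ?_
  · intro p hp
    exact interval_density p lo hi hlt fun x hx hx' => hp ⟨x, hx, hx'⟩
  · rintro ⟨t, ht⟩ j
    rw [cD_φ]
    exact pE_ev ε i c α β t j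
  · rintro ⟨t, ht, ht'⟩ s hs
    exact bdry_of_smul LL ⟨DV_mem _ _ _, hSQ t ht ht'⟩ (γ t) (hγ t ht ht') (h t ht ht') s hs


lemma canon_res {V : ProjVar (Fin 6)} {A : Set (Fin 6 → ℝ)} {d : ℕ} {ω : RatForm V (d + 1)}
    (h : IsCanonicalForm (d + 1) V A ω) {C : ProjVar (Fin 6)} (hC : C ∈ boundaryComponents V A) :
    ∃ ρ : RatForm C d, HasResidue V C ω ρ ∧ IsCanonicalForm d C (facet C A) ρ := by
  rw [IsCanonicalForm] at h
  exact h.2.2 C hC

lemma X_ne : (Polynomial.X * (1 - Polynomial.X) : Polynomial ℂ) ≠ 0 := by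
  intro h
  have := congrArg (Polynomial.eval (1 / 2)) h
  norm_num at this

/-- The relation obtained from an edge. -/
lemma edge_main {V : ProjVar (Fin 6)} (d : Chart V A2) (i : Fin 2) {c α β : ℝ} (hα : α ≠ 0)
    (hcomp : d.sub (rE i c α β) ∈ boundaryComponents V (AV V))
    {P Q a b : Fin 6 → ℝ}
    (H : LineData (d.sub (rE i c α β)) (d.subChart (rE i c α β) (rE_surj hα)) P Q a b)
    (hP : ∀ k, 0 ≤ LL k ⬝ᵥ P) (hQ : ∀ k, 0 ≤ LL k ⬝ᵥ Q)
    (h1 : ∃ k, LL k ⬝ᵥ P = 0 ∧ 0 < LL k ⬝ᵥ Q) (h2 : ∃ k, LL k ⬝ᵥ Q = 0 ∧ 0 < LL k ⬝ᵥ P)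
    (Λ Λ' : A2) (hΛ : Λ = πE i c * Λ') (q : Polynomial ℂ)
    (hΛ' : rE i c α β Λ' = q * (Polynomial.X * (1 - Polynomial.X))) (hq : q ≠ 0)
    (N : A2) (Ω : RatForm V 2) (hΩ : IsCanonicalForm 2 V (AV V) Ω)
    (hN : algebraMap A2 (FractionRing A2) Λ *
      coef d.κ (fun j => fracDer (b2 j)) Ω = algebraMap A2 (FractionRing A2) N) :
    ∃ s : ℂ, (s = 1 ∨ s = -1) ∧ Polynomial.C (gE i α) * rE i c α β N = Polynomial.C s * q := by
  obtain ⟨ρ, hρ, hcan⟩ := canon_res hΩ hcomp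
  have hf : facet (d.sub (rE i c α β)) (AV V) = seg P Q :=
    H.facet_seg LL (AV V) (inter_AV (realPts_mono (d.le_sub _))) hP hQ h1 h2
  rw [hf] at hcan
  obtain ⟨s, hs, h⟩ := edge_relation d Ω Λ N Λ' hN (rE i c α β) (rE_surj hα) (πE i c)
    (πE_ne i c) (rE_π i c α β) (rE_dvd hα) hΛ (by rw [hΛ']; exact mul_ne_zero hq X_ne)
    (δE i α) (δE_zero i α c) (δE_one i α c) (δE_der i c α β) (gE i α) (δE_det i α) H ρ hρ hcan
  refine ⟨s, hs, ?_⟩
  refine mul_right_cancel₀ X_ne ?_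
  rw [h, hΛ', mul_assoc]

end Pool.Agent.Helper70.PG

end PartSeven

noncomputable section PartEight

open MvPolynomial Topology

namespace Pool.Agent.Helper70.PG

lemma rE_zero_X0 (c α β : ℝ) : rE 0 c α β (X 0) = Polynomial.C (c : ℂ) := rE_self 0 c α β
lemma rE_zero_X1 (c α β : ℝ) : rE 0 c α β (X 1) =
    Polynomial.C (α : ℂ) * Polynomial.X + Polynomial.C (β : ℂ) := rE_other 0 c α β
lemma rE_one_X1 (c α β : ℝ) : rE 1 c α β (X 1) = Polynomial.C (c : ℂ) := rE_self 1 c α β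
lemma rE_one_X0 (c α β : ℝ) : rE 1 c α β (X 0) =
    Polynomial.C (α : ℂ) * Polynomial.X + Polynomial.C (β : ℂ) := rE_other 1 c α β

lemma rD_X0 (ε : ℝ) : rD ε (X 0) = X 0 := by simp [rD]
lemma rD_X1 (ε : ℝ) : rD ε (X 1) = X 1 := by simp [rD]
lemma rD_X2 (ε : ℝ) : rD ε (X 2) = C (ε : ℂ) * (X 0 * X 1) := by simp [rD]

lemma line_of {ε : ℝ} {i : Fin 2} {c α β : ℝ} (hα : α ≠ 0) {P Q a b : Fin 6 → ℝ}
    (x y : Polynomial ℂ) (hx : rE i c α β (X 0) = x) (hy : rE i c α β (X 1) = y)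
    (h0 : (0 : Polynomial ℂ) = Polynomial.C (P 0 : ℂ) * (1 - Polynomial.X) +
      Polynomial.C (Q 0 : ℂ) * Polynomial.X)
    (h1 : (1 - x) * (1 - y) = Polynomial.C (P 1 : ℂ) * (1 - Polynomial.X) +
      Polynomial.C (Q 1 : ℂ) * Polynomial.X)
    (h2 : (1 - x) * (1 + y) = Polynomial.C (P 2 : ℂ) * (1 - Polynomial.X) +
      Polynomial.C (Q 2 : ℂ) * Polynomial.X)
    (h3 : (1 + x) * (1 - y) = Polynomial.C (P 3 : ℂ) * (1 - Polynomial.X) +
      Polynomial.C (Q 3 : ℂ) * Polynomial.X)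
    (h4 : (1 + x) * (1 + y) = Polynomial.C (P 4 : ℂ) * (1 - Polynomial.X) +
      Polynomial.C (Q 4 : ℂ) * Polynomial.X)
    (h5 : 6 + 2 * (Polynomial.C (ε : ℂ) * (x * y)) = Polynomial.C (P 5 : ℂ) * (1 - Polynomial.X) +
      Polynomial.C (Q 5 : ℂ) * Polynomial.X)
    (aP : a ⬝ᵥ P = 1) (aQ : a ⬝ᵥ Q = 0) (bP : b ⬝ᵥ P = 0) (bQ : b ⬝ᵥ Q = 1) :
    LineData ((cD ε).sub (rE i c α β)) ((cD ε).subChart (rE i c α β) (rE_surj hα)) P Q a b := by
  refine ⟨fun j => ?_, aP, aQ, bP, bQ⟩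
  have e : ((cD ε).subChart (rE i c α β) (rE_surj hα)).φ j = rE i c α β (rD ε (φ1 j)) := rfl
  rw [e]
  have e1 : rE i c α β (rD ε 1) = 1 := by rw [map_one, map_one]
  have e6 : rE i c α β (rD ε 6) = 6 := by
    rw [map_ofNat (rD ε) 6, map_ofNat (rE i c α β) 6]
  have e2 : rE i c α β (rD ε 2) = 2 := by
    rw [map_ofNat (rD ε) 2, map_ofNat (rE i c α β) 2]
  have k0 : rE i c α β (rD ε (X 0)) = x := by rw [rD_X0, hx]
  have k1 : rE i c α β (rD ε (X 1)) = y := by rw [rD_X1, hy]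
  have k2 : rE i c α β (rD ε (X 2)) = Polynomial.C (ε : ℂ) * (x * y) := by
    rw [rD_X2, map_mul, map_mul, hx, hy, rE_C]
  fin_cases j
  · change rE i c α β (rD ε 0) = _
    rw [map_zero, map_zero]; exact h0
  · change rE i c α β (rD ε ((1 - X 0) * (1 - X 1))) = _
    rw [map_mul, map_mul, map_sub, map_sub, map_sub, map_sub, e1, k0, k1]; exact h1
  · change rE i c α β (rD ε ((1 - X 0) * (1 + X 1))) = _
    rw [map_mul, map_mul, map_sub, map_sub, map_add, map_add, e1, k0, k1]; exact h2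
  · change rE i c α β (rD ε ((1 + X 0) * (1 - X 1))) = _
    rw [map_mul, map_mul, map_add, map_add, map_sub, map_sub, e1, k0, k1]; exact h3
  · change rE i c α β (rD ε ((1 + X 0) * (1 + X 1))) = _
    rw [map_mul, map_mul, map_add, map_add, map_add, map_add, e1, k0, k1]; exact h4
  · change rE i c α β (rD ε (6 + 2 * X 2)) = _
    rw [map_add, map_add, map_mul, map_mul, e6, e2, k2]; exact h5

lemma CX (z : ℂ) : Polynomial.C z = (algebraMap ℂ (Polynomial ℂ)) z := rfl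

lemma line1 : LineData ((cD 1).sub (rE 0 1 1 0)) ((cD 1).subChart (rE 0 1 1 0)
    (rE_surj one_ne_zero)) ![0, 0, 0, 2, 2, 6] ![0, 0, 0, 0, 4, 8] ![0, 0, 0, 1 / 2, 0, 0]
    ![0, 0, 0, -(1 / 4), 1 / 4, 0] := by
  refine line_of one_ne_zero 1 Polynomial.X ?_ ?_ ?_ ?_ ?_ ?_ ?_ ?_ ?_ ?_ ?_ ?_
  · rw [rE_zero_X0]; simp
  · rw [rE_zero_X1]; simp
  · simp
  · simp
  · simp
  · simp [map_ofNat]; norm_num
  · simp [map_ofNat]; ring
  · simp [map_ofNat]; ring
  · simp [dotProduct, Fin.sum_univ_succ]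
  · simp [dotProduct, Fin.sum_univ_succ]
  · simp [dotProduct, Fin.sum_univ_succ]
  · simp [dotProduct, Fin.sum_univ_succ]

lemma line2 : LineData ((cD 1).sub (rE 1 1 1 0)) ((cD 1).subChart (rE 1 1 1 0)
    (rE_surj one_ne_zero)) ![0, 0, 2, 0, 2, 6] ![0, 0, 0, 0, 4, 8] ![0, 0, 1 / 2, 0, 0, 0]
    ![0, 0, -(1 / 4), 0, 1 / 4, 0] := by
  refine line_of one_ne_zero Polynomial.X 1 ?_ ?_ ?_ ?_ ?_ ?_ ?_ ?_ ?_ ?_ ?_ ?_
  · rw [rE_one_X0]; simp
  · rw [rE_one_X1]; simp
  · simp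
  · simp
  · simp [map_ofNat]; ring
  · simp
  · simp [map_ofNat]; ring
  · simp [map_ofNat]; ring
  · simp [dotProduct, Fin.sum_univ_succ]
  · simp [dotProduct, Fin.sum_univ_succ]
  · simp [dotProduct, Fin.sum_univ_succ]
  · simp [dotProduct, Fin.sum_univ_succ]

lemma line4 : LineData ((cD 1).sub (rE 1 0 2 (-1))) ((cD 1).subChart (rE 1 0 2 (-1))
    (rE_surj two_ne_zero)) ![0, 2, 2, 0, 0, 6] ![0, 0, 0, 2, 2, 6] ![0, 1 / 2, 0, 0, 0, 0]
    ![0, 0, 0, 1 / 2, 0, 0] := by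
  refine line_of two_ne_zero (2 * Polynomial.X - 1) 0 ?_ ?_ ?_ ?_ ?_ ?_ ?_ ?_ ?_ ?_ ?_ ?_
  · rw [rE_one_X0]; simp [map_ofNat]; ring
  · rw [rE_one_X1]; simp
  · simp
  · simp [map_ofNat]; ring
  · simp [map_ofNat]; ring
  · simp [map_ofNat]
  · simp [map_ofNat]
  · simp [map_ofNat]; ring
  · simp [dotProduct, Fin.sum_univ_succ]
  · simp [dotProduct, Fin.sum_univ_succ]
  · simp [dotProduct, Fin.sum_univ_succ]
  · simp [dotProduct, Fin.sum_univ_succ]

lemma line5 : LineData ((cD (-1)).sub (rE 0 (-1) 1 0)) ((cD (-1)).subChart (rE 0 (-1) 1 0)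
    (rE_surj one_ne_zero)) ![0, 2, 2, 0, 0, 6] ![0, 0, 4, 0, 0, 8] ![0, 1 / 2, 0, 0, 0, 0]
    ![0, -(1 / 4), 1 / 4, 0, 0, 0] := by
  refine line_of one_ne_zero (-1) Polynomial.X ?_ ?_ ?_ ?_ ?_ ?_ ?_ ?_ ?_ ?_ ?_ ?_
  · rw [rE_zero_X0]; simp
  · rw [rE_zero_X1]; simp
  · simp
  · simp [map_ofNat]; norm_num
  · simp [map_ofNat]; ring
  · simp
  · simp
  · simp [map_ofNat]; ring
  · simp [dotProduct, Fin.sum_univ_succ]
  · simp [dotProduct, Fin.sum_univ_succ]
  · simp [dotProduct, Fin.sum_univ_succ]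
  · simp [dotProduct, Fin.sum_univ_succ]

lemma line6 : LineData ((cD (-1)).sub (rE 1 1 1 (-1))) ((cD (-1)).subChart (rE 1 1 1 (-1))
    (rE_surj one_ne_zero)) ![0, 0, 4, 0, 0, 8] ![0, 0, 2, 0, 2, 6] ![0, 0, 1 / 4, 0, -(1 / 4), 0]
    ![0, 0, 0, 0, 1 / 2, 0] := by
  refine line_of one_ne_zero (Polynomial.X - 1) 1 ?_ ?_ ?_ ?_ ?_ ?_ ?_ ?_ ?_ ?_ ?_ ?_
  · rw [rE_one_X0]; simp; ring
  · rw [rE_one_X1]; simp
  · simp
  · simp
  · simp [map_ofNat]; ring
  · simp
  · simp [map_ofNat]; ring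
  · simp [map_ofNat]; ring
  · simp [dotProduct, Fin.sum_univ_succ]
  · simp [dotProduct, Fin.sum_univ_succ]
  · simp [dotProduct, Fin.sum_univ_succ]
  · simp [dotProduct, Fin.sum_univ_succ]

/-! ### The edges are boundary components -/

lemma comp_of {ε : ℝ} (hε : ε = 1 ∨ ε = -1) (i : Fin 2) {c α β : ℝ} (hα : α ≠ 0)
    {lo hi : ℝ} (hlt : lo < hi) (fx fy : ℝ → ℝ → ℝ)
    (hx : ∀ t, Continuous (fx t)) (hy : ∀ t, Continuous (fy t))
    (hx0 : ∀ t, fx t 0 = xE i c α β t) (hy0 : ∀ t, fy t 0 = yE i c α β t)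
    (hSQ : ∀ t, lo < t → t < hi → (-1 ≤ xE i c α β t ∧ xE i c α β t ≤ 1) ∧
      (-1 ≤ yE i c α β t ∧ yE i c α β t ≤ 1) ∧ 0 ≤ ε * (xE i c α β t * yE i c α β t))
    (h : ∀ t, lo < t → t < hi → ∀ τ : ℝ, 0 < τ →
      (∃ k, LL k ⬝ᵥ vec3 (fx t τ) (fy t τ) (ε * (fx t τ * fy t τ)) < 0) ∧
      ∃ j, 0 < LL j ⬝ᵥ vec3 (fx t τ) (fy t τ) (ε * (fx t τ * fy t τ))) :
    (cD ε).sub (rE i c α β) ∈ boundaryComponents (DV ε) (AV (DV ε)) := by
  refine edge_component hε i hα hlt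
    (fun t τ => vec3 (fx t τ) (fy t τ) (ε * (fx t τ * fy t τ))) ?_ ?_ ?_
  · intro t h1 h2
    obtain ⟨h3, h4, h5⟩ := hSQ t h1 h2
    refine vec3_SQ h3 h4 ?_
    rcases hε with rfl | rfl
    · constructor <;> linarith
    · constructor <;> linarith
  · intro t h1 h2
    have h3 : Continuous fun τ : ℝ => vec3 (fx t τ) (fy t τ) (ε * (fx t τ * fy t τ)) :=
      continuous_vec3 (hx t) (hy t) (continuous_const.mul ((hx t).mul (hy t)))
    have h4 := h3.tendsto 0
    simp only [hx0, hy0] at h4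
    exact h4.mono_left nhdsWithin_le_nhds
  · intro t h1 h2
    filter_upwards [self_mem_nhdsWithin] with τ hτ
    exact ⟨DV_mem _ _ _, h t h1 h2 τ hτ⟩

lemma edge1 : (cD 1).sub (rE 0 1 1 0) ∈ boundaryComponents (DV 1) (AV (DV 1)) := by
  refine comp_of (Or.inl rfl) 0 one_ne_zero (zero_lt_one (α := ℝ)) (fun t τ => 1 + τ)
    (fun t τ => t) (by intro t; fun_prop) (by intro t; fun_prop) ?_ ?_ ?_ ?_
  · intro t; simp [xE]
  · intro t; simp [yE]
  · intro t h1 h2
    simp only [xE, yE, if_true, one_mul, add_zero]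
    refine ⟨?_, ?_, h1.le⟩ <;> constructor <;> linarith
  · intro t h1 h2 τ hτ
    refine ⟨⟨1, ?_⟩, 3, ?_⟩
    · rw [LL_one, vec3_1]; nlinarith
    · rw [LL_three, vec3_3]; nlinarith

lemma edge2 : (cD 1).sub (rE 1 1 1 0) ∈ boundaryComponents (DV 1) (AV (DV 1)) := by
  refine comp_of (Or.inl rfl) 1 one_ne_zero (zero_lt_one (α := ℝ)) (fun t τ => t)
    (fun t τ => 1 + τ) (by intro t; fun_prop) (by intro t; fun_prop) ?_ ?_ ?_ ?_
  · intro t; simp [xE]
  · intro t; simp [yE]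
  · intro t h1 h2
    simp only [xE, yE, one_ne_zero, if_false, one_mul, add_zero, mul_one]
    refine ⟨?_, ?_, h1.le⟩ <;> constructor <;> linarith
  · intro t h1 h2 τ hτ
    refine ⟨⟨1, ?_⟩, 2, ?_⟩
    · rw [LL_one, vec3_1]; nlinarith
    · rw [LL_two, vec3_2]; nlinarith

lemma edge4 : (cD 1).sub (rE 1 0 2 (-1)) ∈ boundaryComponents (DV 1) (AV (DV 1)) := by
  refine comp_of (Or.inl rfl) 1 two_ne_zero (lo := 1 / 2) (hi := 1) (by norm_num)
    (fun t τ => 2 * t - 1)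
    (fun t τ => -τ) (by intro t; fun_prop) (by intro t; fun_prop) ?_ ?_ ?_ ?_
  · intro t; simp [xE]; ring
  · intro t; simp [yE]
  · intro t h1 h2
    simp only [xE, yE, one_ne_zero, if_false, mul_zero, le_refl, and_true]
    refine ⟨?_, ?_⟩
    · constructor <;> linarith
    · constructor <;> linarith
  · intro t h1 h2 τ hτ
    refine ⟨⟨7, ?_⟩, 1, ?_⟩
    · rw [L7_vec3]; nlinarith
    · rw [LL_one, vec3_1]; nlinarith

lemma edge5 : (cD (-1)).sub (rE 0 (-1) 1 0) ∈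
    boundaryComponents (DV (-1)) (AV (DV (-1))) := by
  refine comp_of (Or.inr rfl) 0 one_ne_zero (zero_lt_one (α := ℝ)) (fun t τ => -1 - τ)
    (fun t τ => t) (by intro t; fun_prop) (by intro t; fun_prop) ?_ ?_ ?_ ?_
  · intro t; simp [xE]
  · intro t; simp [yE]
  · intro t h1 h2
    simp only [xE, yE, if_true, one_mul, add_zero]
    refine ⟨?_, ?_, by linarith⟩ <;> constructor <;> linarith
  · intro t h1 h2 τ hτ
    refine ⟨⟨3, ?_⟩, 1, ?_⟩
    · rw [LL_three, vec3_3]; nlinarith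
    · rw [LL_one, vec3_1]; nlinarith

lemma edge6 : (cD (-1)).sub (rE 1 1 1 (-1)) ∈
    boundaryComponents (DV (-1)) (AV (DV (-1))) := by
  refine comp_of (Or.inr rfl) 1 one_ne_zero (zero_lt_one (α := ℝ)) (fun t τ => t - 1)
    (fun t τ => 1 + τ) (by intro t; fun_prop) (by intro t; fun_prop) ?_ ?_ ?_ ?_
  · intro t; simp [xE]; ring
  · intro t; simp [yE]
  · intro t h1 h2
    simp only [xE, yE, one_ne_zero, if_false, one_mul, mul_one]
    refine ⟨?_, ?_, by linarith⟩ <;> constructor <;> linarith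
  · intro t h1 h2 τ hτ
    refine ⟨⟨1, ?_⟩, 2, ?_⟩
    · rw [LL_one, vec3_1]; nlinarith
    · rw [LL_two, vec3_2]; nlinarith

end Pool.Agent.Helper70.PG

end PartEight

noncomputable section PartNine

open MvPolynomial Topology

namespace Pool.Agent.Helper70.PG

/-- Value of the numerator at a real point. -/
def Mv (M : A3) (x y z : ℝ) : ℂ := aeval ![(x : ℂ), (y : ℂ), (z : ℂ)] M

lemma eval_rel {ε : ℝ} (i : Fin 2) (c α β : ℝ) (M : A3) (g s : ℂ) (q : Polynomial ℂ)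
    (h : Polynomial.C g * rE i c α β (rD ε M) = Polynomial.C s * q) (t : ℝ) :
    g * Mv M (xE i c α β t) (yE i c α β t) (ε * (xE i c α β t * yE i c α β t)) =
      s * Polynomial.aeval (t : ℂ) q := by
  have h1 := congrArg (Polynomial.aeval (t : ℂ)) h
  rw [map_mul, map_mul, Polynomial.aeval_C, Polynomial.aeval_C] at h1
  have h2 := AlgHom.congr_fun (pE_ev_hom ε i c α β t) M
  rw [AlgHom.comp_apply, AlgHom.comp_apply] at h2
  rw [h2] at h1
  exact h1

section

variable (a b c d e f : ℝ)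

lemma L0' : LL 0 ⬝ᵥ ![a, b, c, d, e, f] = a := LL_zero _
lemma L1' : LL 1 ⬝ᵥ ![a, b, c, d, e, f] = b := LL_one _
lemma L2' : LL 2 ⬝ᵥ ![a, b, c, d, e, f] = c := LL_two _
lemma L3' : LL 3 ⬝ᵥ ![a, b, c, d, e, f] = d := LL_three _
lemma L4' : LL 4 ⬝ᵥ ![a, b, c, d, e, f] = e := LL_four _
lemma L5' : LL 5 ⬝ᵥ ![a, b, c, d, e, f] = f := LL_five _
lemma L6' : LL 6 ⬝ᵥ ![a, b, c, d, e, f] = a - 2 * b - c - d - 2 * e + f := LL_six _
lemma L7' : LL 7 ⬝ᵥ ![a, b, c, d, e, f] = a - b - 2 * c - 2 * d - e + f := LL_seven _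

lemma allLL (h0 : 0 ≤ a) (h1 : 0 ≤ b) (h2 : 0 ≤ c) (h3 : 0 ≤ d)
    (h4 : 0 ≤ e) (h5 : 0 ≤ f) (h6 : 0 ≤ a - 2 * b - c - d - 2 * e + f)
    (h7 : 0 ≤ a - b - 2 * c - 2 * d - e + f) : ∀ k, 0 ≤ LL k ⬝ᵥ ![a, b, c, d, e, f] := by
  refine LLcases ?_ ?_ ?_ ?_ ?_ ?_ ?_ ?_
  · rw [L0']; exact h0
  · rw [L1']; exact h1
  · rw [L2']; exact h2
  · rw [L3']; exact h3
  · rw [L4']; exact h4
  · rw [L5']; exact h5
  · rw [L6']; exact h6
  · rw [L7']; exact h7

end

section

variable (M : A3)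

lemma rel1 (Ω : RatForm (DV 1) 2) (hΩ : IsCanonicalForm 2 (DV 1) (AV (DV 1)) Ω)
    (hN : algebraMap A2 (FractionRing A2) (Λ2 1) *
      coef (cD 1).κ (fun j => fracDer (b2 j)) Ω = algebraMap A2 (FractionRing A2) (rD 1 M)) :
    ∃ s : ℂ, (s = 1 ∨ s = -1) ∧ Mv M 1 0 0 = -4 * s ∧ Mv M 1 1 1 = -8 * s := by
  obtain ⟨s, hs, h⟩ := edge_main (cD 1) 0 one_ne_zero edge1 line1
    (allLL _ _ _ _ _ _ (by norm_num) (by norm_num) (by norm_num) (by norm_num) (by norm_num)
      (by norm_num) (by norm_num) (by norm_num))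
    (allLL _ _ _ _ _ _ (by norm_num) (by norm_num) (by norm_num) (by norm_num) (by norm_num)
      (by norm_num) (by norm_num) (by norm_num))
    ⟨7, by rw [L7']; norm_num, by rw [L7']; norm_num⟩
    ⟨3, by rw [L3'], by rw [L3']; norm_num⟩
    (Λ2 1) (-((1 + X 0) * (1 - X 1) * (1 + X 1) * (2 * (X 0 * X 1))))
    (by simp [Λ2, πE]; ring) (-4 * (1 + Polynomial.X))
    (by
      simp only [map_neg, map_mul, map_add, map_sub, map_one, rE_zero_X0, rE_zero_X1,
        map_ofNat]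
      simp
      ring)
    (by
      intro h
      have := congrArg (Polynomial.eval 0) h
      norm_num at this)
    (rD 1 M) Ω hΩ hN
  refine ⟨s, hs, ?_, ?_⟩
  · have h1 := eval_rel 0 1 1 0 M _ s _ h 0
    simp [xE, yE, gE] at h1
    linear_combination h1
  · have h1 := eval_rel 0 1 1 0 M _ s _ h 1
    simp [xE, yE, gE] at h1
    linear_combination h1

lemma rel2 (Ω : RatForm (DV 1) 2) (hΩ : IsCanonicalForm 2 (DV 1) (AV (DV 1)) Ω)
    (hN : algebraMap A2 (FractionRing A2) (Λ2 1) *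
      coef (cD 1).κ (fun j => fracDer (b2 j)) Ω = algebraMap A2 (FractionRing A2) (rD 1 M)) :
    ∃ s : ℂ, (s = 1 ∨ s = -1) ∧ Mv M 0 1 0 = 4 * s ∧ Mv M 1 1 1 = 8 * s := by
  obtain ⟨s, hs, h⟩ := edge_main (cD 1) 1 one_ne_zero edge2 line2
    (allLL _ _ _ _ _ _ (by norm_num) (by norm_num) (by norm_num) (by norm_num) (by norm_num)
      (by norm_num) (by norm_num) (by norm_num))
    (allLL _ _ _ _ _ _ (by norm_num) (by norm_num) (by norm_num) (by norm_num) (by norm_num)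
      (by norm_num) (by norm_num) (by norm_num))
    ⟨7, by rw [L7']; norm_num, by rw [L7']; norm_num⟩
    ⟨2, by rw [L2'], by rw [L2']; norm_num⟩
    (Λ2 1) (-((1 - X 0) * (1 + X 0) * (1 + X 1) * (2 * (X 0 * X 1))))
    (by simp [Λ2, πE]; ring) (-4 * (1 + Polynomial.X))
    (by
      simp only [map_neg, map_mul, map_add, map_sub, map_one, rE_one_X0, rE_one_X1,
        map_ofNat]
      simp
      ring)
    (by
      intro h
      have := congrArg (Polynomial.eval 0) h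
      norm_num at this)
    (rD 1 M) Ω hΩ hN
  refine ⟨s, hs, ?_, ?_⟩
  · have h1 := eval_rel 1 1 1 0 M _ s _ h 0
    simp [xE, yE, gE] at h1
    linear_combination h1
  · have h1 := eval_rel 1 1 1 0 M _ s _ h 1
    simp [xE, yE, gE] at h1
    linear_combination h1

lemma rel4 (Ω : RatForm (DV 1) 2) (hΩ : IsCanonicalForm 2 (DV 1) (AV (DV 1)) Ω)
    (hN : algebraMap A2 (FractionRing A2) (Λ2 1) *
      coef (cD 1).κ (fun j => fracDer (b2 j)) Ω = algebraMap A2 (FractionRing A2) (rD 1 M)) :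
    ∃ s : ℂ, (s = 1 ∨ s = -1) ∧ Mv M 1 0 0 = -4 * s ∧ Mv M (-1) 0 0 = 4 * s := by
  obtain ⟨s, hs, h⟩ := edge_main (cD 1) 1 two_ne_zero edge4 line4
    (allLL _ _ _ _ _ _ (by norm_num) (by norm_num) (by norm_num) (by norm_num) (by norm_num)
      (by norm_num) (by norm_num) (by norm_num))
    (allLL _ _ _ _ _ _ (by norm_num) (by norm_num) (by norm_num) (by norm_num) (by norm_num)
      (by norm_num) (by norm_num) (by norm_num))
    ⟨3, by rw [L3'], by rw [L3']; norm_num⟩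
    ⟨1, by rw [L1'], by rw [L1']; norm_num⟩
    (Λ2 1) ((1 - X 0) * (1 + X 0) * (1 - X 1) * (1 + X 1) * (2 * X 0))
    (by simp [Λ2, πE]; ring) (8 * (2 * Polynomial.X - 1))
    (by
      simp only [map_mul, map_add, map_sub, map_one, rE_one_X0, rE_one_X1, map_ofNat]
      simp [map_ofNat]
      ring)
    (by
      intro h
      have := congrArg (Polynomial.eval 0) h
      norm_num at this)
    (rD 1 M) Ω hΩ hN
  refine ⟨s, hs, ?_, ?_⟩
  · have h1 := eval_rel 1 0 2 (-1) M _ s _ h 1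
    simp [xE, yE, gE] at h1
    norm_num at h1
    linear_combination (-1 / 2) * h1
  · have h1 := eval_rel 1 0 2 (-1) M _ s _ h 0
    simp [xE, yE, gE] at h1
    linear_combination (1 / 2) * h1

lemma rel5 (Ω : RatForm (DV (-1)) 2) (hΩ : IsCanonicalForm 2 (DV (-1)) (AV (DV (-1))) Ω)
    (hN : algebraMap A2 (FractionRing A2) (Λ2 (-1)) *
      coef (cD (-1)).κ (fun j => fracDer (b2 j)) Ω =
        algebraMap A2 (FractionRing A2) (rD (-1) M)) :
    ∃ s : ℂ, (s = 1 ∨ s = -1) ∧ Mv M (-1) 0 0 = 4 * s ∧ Mv M (-1) 1 1 = 8 * s := by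
  obtain ⟨s, hs, h⟩ := edge_main (cD (-1)) 0 one_ne_zero edge5 line5
    (allLL _ _ _ _ _ _ (by norm_num) (by norm_num) (by norm_num) (by norm_num) (by norm_num)
      (by norm_num) (by norm_num) (by norm_num))
    (allLL _ _ _ _ _ _ (by norm_num) (by norm_num) (by norm_num) (by norm_num) (by norm_num)
      (by norm_num) (by norm_num) (by norm_num))
    ⟨6, by rw [L6']; norm_num, by rw [L6']; norm_num⟩
    ⟨1, by rw [L1'], by rw [L1']; norm_num⟩
    (Λ2 (-1)) ((1 - X 0) * (1 - X 1) * (1 + X 1) * (-(2 * (X 0 * X 1))))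
    (by simp [Λ2, πE]; ring) (4 * (1 + Polynomial.X))
    (by
      simp only [map_neg, map_mul, map_add, map_sub, map_one, rE_zero_X0, rE_zero_X1,
        map_ofNat]
      simp
      ring)
    (by
      intro h
      have := congrArg (Polynomial.eval 0) h
      norm_num at this)
    (rD (-1) M) Ω hΩ hN
  refine ⟨s, hs, ?_, ?_⟩
  · have h1 := eval_rel 0 (-1) 1 0 M _ s _ h 0
    simp [xE, yE, gE] at h1
    linear_combination h1
  · have h1 := eval_rel 0 (-1) 1 0 M _ s _ h 1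
    simp [xE, yE, gE] at h1
    linear_combination h1

lemma rel6 (Ω : RatForm (DV (-1)) 2) (hΩ : IsCanonicalForm 2 (DV (-1)) (AV (DV (-1))) Ω)
    (hN : algebraMap A2 (FractionRing A2) (Λ2 (-1)) *
      coef (cD (-1)).κ (fun j => fracDer (b2 j)) Ω =
        algebraMap A2 (FractionRing A2) (rD (-1) M)) :
    ∃ s : ℂ, (s = 1 ∨ s = -1) ∧ Mv M (-1) 1 1 = 8 * s ∧ Mv M 0 1 0 = 4 * s := by
  obtain ⟨s, hs, h⟩ := edge_main (cD (-1)) 1 one_ne_zero edge6 line6
    (allLL _ _ _ _ _ _ (by norm_num) (by norm_num) (by norm_num) (by norm_num) (by norm_num)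
      (by norm_num) (by norm_num) (by norm_num))
    (allLL _ _ _ _ _ _ (by norm_num) (by norm_num) (by norm_num) (by norm_num) (by norm_num)
      (by norm_num) (by norm_num) (by norm_num))
    ⟨4, by rw [L4'], by rw [L4']; norm_num⟩
    ⟨6, by rw [L6']; norm_num, by rw [L6']; norm_num⟩
    (Λ2 (-1)) (((1 - X 0) * (1 + X 0) * (1 + X 1)) * (2 * (X 0 * X 1)))
    (by simp [Λ2, πE]; ring) (-4 * (2 - Polynomial.X))
    (by
      simp only [map_neg, map_mul, map_add, map_sub, map_one, rE_one_X0, rE_one_X1,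
        map_ofNat]
      simp
      ring)
    (by
      intro h
      have := congrArg (Polynomial.eval 0) h
      norm_num at this)
    (rD (-1) M) Ω hΩ hN
  refine ⟨s, hs, ?_, ?_⟩
  · have h1 := eval_rel 1 1 1 (-1) M _ s _ h 0
    simp [xE, yE, gE] at h1
    linear_combination h1
  · have h1 := eval_rel 1 1 1 (-1) M _ s _ h 1
    simp [xE, yE, gE] at h1
    linear_combination h1

end

/-- The facet of the hexahedron has no canonical form. -/
theorem no_canonical_C1 (Ω : RatForm C1 3) : ¬ IsCanonicalForm 3 C1 (AV C1) Ω := by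
  intro hΩ
  obtain ⟨M, hM⟩ := numerator3 Ω hΩ b3
  have key : ∀ ε : ℝ, (ε = 1 ∨ ε = -1) → ∃ ρ : RatForm (DV ε) 2,
      IsCanonicalForm 2 (DV ε) (AV (DV ε)) ρ ∧
      algebraMap A2 (FractionRing A2) (Λ2 ε) *
        coef (cD ε).κ (fun j => fracDer (b2 j)) ρ = algebraMap A2 (FractionRing A2) (rD ε M) := by
    intro ε hε
    obtain ⟨ρ, hρ, hcan⟩ := canon_res hΩ (DV_component hε)
    rw [DV_facet hε] at hcan
    exact ⟨ρ, hcan, surface_relation hε Ω M hM ρ hρ⟩
  obtain ⟨ρ, hρ, hN⟩ := key 1 (Or.inl rfl)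
  obtain ⟨ρ', hρ', hN'⟩ := key (-1) (Or.inr rfl)
  obtain ⟨s1, hs1, h1, h1'⟩ := rel1 M ρ hρ hN
  obtain ⟨s2, hs2, h2, h2'⟩ := rel2 M ρ hρ hN
  obtain ⟨s4, hs4, h4, h4'⟩ := rel4 M ρ hρ hN
  obtain ⟨s5, hs5, h5, h5'⟩ := rel5 M ρ' hρ' hN'
  obtain ⟨s6, hs6, h6, h6'⟩ := rel6 M ρ' hρ' hN'
  have e : s1 = 0 := by
    linear_combination (1 / 2) * ((1 / 8) * h1' - (1 / 8) * h2' + (1 / 4) * h1 - (1 / 4) * h4 -
      (1 / 4) * h4' + (1 / 4) * h5 - (1 / 8) * h5' + (1 / 8) * h6 - (1 / 4) * h6' + (1 / 4) * h2)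
  rcases hs1 with h | h <;> rw [e] at h <;> norm_num at h

end Pool.Agent.Helper70.PG

end PartNine

noncomputable section PartTen

open MvPolynomial Topology

namespace Pool.Agent.Helper70.PG

abbrev R6 := MvPolynomial (Fin 6) ℂ

/-- The Plücker polynomial. -/
def plucker : R6 := X 0 * X 5 - X 1 * X 4 + X 2 * X 3

lemma plucker_homog : plucker.IsHomogeneous 2 :=
  (((isHomogeneous_X ℂ 0).mul (isHomogeneous_X ℂ 5)).sub
    ((isHomogeneous_X ℂ 1).mul (isHomogeneous_X ℂ 4))).add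
      ((isHomogeneous_X ℂ 2).mul (isHomogeneous_X ℂ 3))

lemma aeval_scale' {σ : Type} {A : Type} [CommRing A] [Algebra ℂ A] {n : ℕ}
    {f : MvPolynomial σ ℂ} (hf : f.IsHomogeneous n) (w : σ → A) (s : A) :
    aeval (fun i => w i * s) f = aeval w f * s ^ n := by
  rw [aeval_def, eval₂_eq, aeval_def, eval₂_eq, Finset.sum_mul]
  refine Finset.sum_congr rfl fun m hm => ?_
  have hdeg : ∑ i ∈ m.support, m i = n := by
    have := hf (mem_support_iff.1 hm)
    rw [← this]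
    simp [Finsupp.weight_apply, Finsupp.sum]
  rw [mul_assoc, ← hdeg, ← Finset.prod_pow_eq_pow_sum, ← Finset.prod_mul_distrib]
  congr 1
  refine Finset.prod_congr rfl fun i _ => ?_
  rw [mul_pow]

/-- substitutions congruent modulo an ideal -/
lemma aeval_sub_mem {σ : Type} {A : Type} [CommRing A] [Algebra ℂ A] (I : Ideal A)
    (u v : σ → A) (h : ∀ i, u i - v i ∈ I) (f : MvPolynomial σ ℂ) :
    aeval u f - aeval v f ∈ I := by
  induction f using MvPolynomial.induction_on with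
  | C a => simp
  | add p q hp hq =>
    rw [map_add, map_add, add_sub_add_comm]
    exact I.add_mem hp hq
  | mul_X p i hp =>
    rw [map_mul, map_mul, aeval_X, aeval_X]
    have : aeval u p * u i - aeval v p * v i = (aeval u p - aeval v p) * u i +
        aeval v p * (u i - v i) := by ring
    rw [this]
    exact I.add_mem (I.mul_mem_right _ hp) (I.mul_mem_left _ (h i))

/-- A form vanishing on the chart `ℓ ≠ 0` is in the ideal up to powers of `ℓ`. -/
lemma pow_mul_mem {m : ℕ} (I : Ideal R6) (φ : Fin 6 → MvPolynomial (Fin m) ℂ) (N ℓ : R6)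
    (μ : Fin m → R6) (g : Fin 6 → R6) (hg : ∀ i, g i ∈ I)
    (hφ : ∀ i, algebraMap R6 (FractionRing R6) (N * ℓ * X i - g i) =
      aeval (fun j => algebraMap R6 (FractionRing R6) (μ j) / algebraMap R6 (FractionRing R6) ℓ)
        (φ i) * algebraMap R6 (FractionRing R6) ℓ ^ 2)
    {n : ℕ} {f : R6} (hf : f.IsHomogeneous n) (h0 : aeval φ f = 0) :
    N ^ n * (ℓ ^ n * f) ∈ I := by
  have h1 := aeval_sub_mem I (fun i => X i * (N * ℓ)) (fun i => N * ℓ * X i - g i)
    (fun i => by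
      have : X i * (N * ℓ) - (N * ℓ * X i - g i) = g i := by ring
      rw [this]; exact hg i) f
  have h2 : aeval (fun i => X i * (N * ℓ)) f = f * (N * ℓ) ^ n := by
    rw [aeval_scale' hf, aeval_X_left_apply]
  have h3 : aeval (fun i => N * ℓ * X i - g i) f = 0 := by
    apply IsFractionRing.injective R6 (FractionRing R6)
    rw [map_zero]
    have h4 : algebraMap R6 (FractionRing R6) (aeval (fun i => N * ℓ * X i - g i) f) =
        aeval (fun i => algebraMap R6 (FractionRing R6) (N * ℓ * X i - g i)) f := by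
      have := Chart.aeval_comp_eq (fun i => N * ℓ * X i - g i)
        (IsScalarTower.toAlgHom ℂ R6 (FractionRing R6)) f
      exact this.symm
    rw [h4]
    simp_rw [hφ]
    rw [aeval_scale' hf]
    have h5 := Chart.aeval_comp_eq φ (aeval (fun j => algebraMap R6 (FractionRing R6) (μ j) /
      algebraMap R6 (FractionRing R6) ℓ) : MvPolynomial (Fin m) ℂ →ₐ[ℂ] FractionRing R6) f
    rw [h0, map_zero] at h5
    rw [h5, zero_mul]
  rw [h2, h3, sub_zero] at h1
  have : N ^ n * (ℓ ^ n * f) = f * (N * ℓ) ^ n := by rw [mul_pow]; ring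
  rwa [this]

/-- Saturation. -/
lemma sat_mem (q L ℓ : R6) (θ' θ : R6 →ₐ[ℂ] R6) (h1 : ∀ i, L ∣ X i - θ' (X i)) (h2 : θ' L = 0)
    (h3 : θ' ℓ ≠ 0) (h4 : ∀ i, X i - θ (X i) ∈ Ideal.span {L, ℓ}) (h5 : θ L = 0)
    (h6 : θ ℓ = 0) (h7 : θ q ≠ 0) (g : R6) (hg : ℓ * g ∈ Ideal.span {q, L}) :
    g ∈ Ideal.span {q, L} := by
  obtain ⟨a, b, hab⟩ := Ideal.mem_span_pair.1 hg
  have h8 : θ a = 0 := by
    have := congrArg θ hab
    rw [map_add, map_mul, map_mul, map_mul, h5, h6, mul_zero, add_zero, zero_mul] at this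
    exact (mul_eq_zero.1 this).resolve_right h7
  have h9 : a ∈ Ideal.span {L, ℓ} := by
    have := aeval_sub_mem (Ideal.span {L, ℓ}) X (fun i => θ (X i)) h4 a
    rw [aeval_X_left_apply] at this
    have e : aeval (fun i => θ (X i)) a = θ a := by
      have := Chart.aeval_comp_eq (X : Fin 6 → R6) θ a
      rw [aeval_X_left_apply] at this
      exact this
    rwa [e, h8, sub_zero] at this
  obtain ⟨u, v, huv⟩ := Ideal.mem_span_pair.1 h9
  have h10 : ℓ * (g - v * q) = (u * q + b) * L := by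
    rw [mul_sub, ← hab, ← huv]; ring
  have h11 : θ' (g - v * q) = 0 := by
    have := congrArg θ' h10
    rw [map_mul, map_mul, h2, mul_zero] at this
    exact (mul_eq_zero.1 this).resolve_left h3
  have h12 : L ∣ g - v * q := by
    have h13 : ∀ p : R6, L ∣ p - θ' p := by
      intro p
      have := aeval_sub_mem (Ideal.span {L}) X (fun i => θ' (X i))
        (fun i => Ideal.mem_span_singleton.2 (h1 i)) p
      rw [aeval_X_left_apply] at this
      have e : aeval (fun i => θ' (X i)) p = θ' p := by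
        have := Chart.aeval_comp_eq (X : Fin 6 → R6) θ' p
        rw [aeval_X_left_apply] at this
        exact this
      rw [e] at this
      exact Ideal.mem_span_singleton.1 this
    have := h13 (g - v * q)
    rwa [h11, sub_zero] at this
  obtain ⟨t, ht⟩ := h12
  rw [Ideal.mem_span_pair]
  exact ⟨v, t, by rw [mul_comm t L, ← ht]; ring⟩

/-- The ideal of a parametrised quadric section. -/
lemma param_le_span {m : ℕ} (φ : Fin 6 → MvPolynomial (Fin m) ℂ) (hne : ∃ i, φ i ≠ 0)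
    (q L ℓ : R6) (θ' θ : R6 →ₐ[ℂ] R6) (h1 : ∀ i, L ∣ X i - θ' (X i)) (h2 : θ' L = 0)
    (h3 : θ' ℓ ≠ 0) (h4 : ∀ i, X i - θ (X i) ∈ Ideal.span {L, ℓ}) (h5 : θ L = 0)
    (h6 : θ ℓ = 0) (h7 : θ q ≠ 0) (N : R6) (hN : IsUnit N) (μ : Fin m → R6) (g : Fin 6 → R6)
    (hg : ∀ i, g i ∈ Ideal.span {q, L})
    (hφ : ∀ i, algebraMap R6 (FractionRing R6) (N * ℓ * X i - g i) =
      aeval (fun j => algebraMap R6 (FractionRing R6) (μ j) / algebraMap R6 (FractionRing R6) ℓ)
        (φ i) * algebraMap R6 (FractionRing R6) ℓ ^ 2) :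
    (ofParam φ hne).ideal ≤ Ideal.span {q, L} := by
  intro f hf
  rw [mem_ofParam] at hf
  rw [← sum_homogeneousComponent f]
  refine Ideal.sum_mem _ fun n _ => ?_
  have h8 := pow_mul_mem (Ideal.span {q, L}) φ N ℓ μ g hg hφ
    (homogeneousComponent_isHomogeneous n f) (hf n)
  rw [Ideal.unit_mul_mem_iff_mem _ (hN.pow n)] at h8
  have h9 : ∀ k : ℕ, ℓ ^ k * homogeneousComponent n f ∈ Ideal.span {q, L} →
      homogeneousComponent n f ∈ Ideal.span {q, L} := by
    intro k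
    induction k with
    | zero => intro h; rwa [pow_zero, one_mul] at h
    | succ k ih =>
      intro h
      refine ih (sat_mem q L ℓ θ' θ h1 h2 h3 h4 h5 h6 h7 _ ?_)
      rwa [← mul_assoc, ← pow_succ']
  exact h9 n h8

end Pool.Agent.Helper70.PG

end PartTen

noncomputable section PartEleven

open MvPolynomial Topology

namespace Pool.Agent.Helper70.PG

abbrev A4 := MvPolynomial (Fin 4) ℂ

lemma sixcases {p : Fin 6 → Prop} (h0 : p 0) (h1 : p 1) (h2 : p 2) (h3 : p 3) (h4 : p 4)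
    (h5 : p 5) : ∀ k, p k := by
  intro k
  fin_cases k
  exacts [h0, h1, h2, h3, h4, h5]

lemma am_ne6 {p : R6} (h : p ≠ 0) : algebraMap R6 (FractionRing R6) p ≠ 0 := am_ne h

lemma mem_left (q L : R6) : q ∈ Ideal.span {q, L} := Ideal.subset_span (by simp)
lemma mem_right (q L : R6) : L ∈ Ideal.span {q, L} := Ideal.subset_span (by simp)

/-! ### The Grassmannian -/

def φG : Fin 6 → A4 := ![1, X 0, X 1, X 2, X 3, X 0 * X 3 - X 1 * X 2]

lemma φG_ne : ∃ i, φG i ≠ 0 := ⟨0, one_ne_zero⟩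

lemma G_le : (ofParam φG φG_ne).ideal ≤ Ideal.span {plucker, 0} := by
  refine param_le_span φG φG_ne plucker 0 (X 0) (AlgHom.id ℂ R6)
    (aeval ![0, X 1, X 2, X 3, X 4, X 5]) ?_ ?_ ?_ ?_ ?_ ?_ ?_ 1 isUnit_one
    ![X 1, X 2, X 3, X 4] ![0, 0, 0, 0, 0, plucker] ?_ ?_
  · intro i; simp
  · simp
  · exact X_ne_zero 0
  · refine sixcases ?_ ?_ ?_ ?_ ?_ ?_
    · simp only [aeval_X, Matrix.cons_val_zero, sub_zero]; exact mem_right _ _
    all_goals simp
  · simp
  · simp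
  · intro h
    have := congrArg (eval ![0, 1, 0, 0, 1, 0]) h
    simp [plucker] at this
  · refine sixcases ?_ ?_ ?_ ?_ ?_ ?_
    · exact Ideal.zero_mem _
    · exact Ideal.zero_mem _
    · exact Ideal.zero_mem _
    · exact Ideal.zero_mem _
    · exact Ideal.zero_mem _
    · exact mem_left _ _
  · have h0 : algebraMap R6 (FractionRing R6) (X 0) ≠ 0 := am_ne6 (X_ne_zero 0)
    refine sixcases ?_ ?_ ?_ ?_ ?_ ?_
    · simp [φG]; ring
    · simp [φG]; field_simp
    · simp [φG]; field_simp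
    · simp [φG]; field_simp
    · simp [φG]; field_simp
    · simp [φG, plucker]; field_simp; ring

lemma G_ideal : Ideal.span {plucker} = (ofParam φG φG_ne).ideal := by
  apply le_antisymm
  · rw [Ideal.span_singleton_le_iff_mem, mem_ofParam_homog _ _ plucker_homog]
    simp [plucker, φG]
  · refine G_le.trans ?_
    rw [Ideal.span_le]
    intro x hx
    rcases hx with rfl | hx
    · exact Ideal.mem_span_singleton_self _
    · rw [Set.mem_singleton_iff.1 hx]; exact Ideal.zero_mem _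

/-- The Grassmannian `Gr(2,4)` in its Plücker embedding, with coordinates in the order
`p₁₂, p₁₃, p₁₄, p₂₃, p₂₄, p₃₄`. -/
def Gr24 : ProjVar (Fin 6) where
  ideal := Ideal.span {X 0 * X 5 - X 1 * X 4 + X 2 * X 3}
  prime := by
    have := G_ideal
    rw [plucker] at this
    rw [this]
    exact (ofParam φG φG_ne).prime
  homog := by
    have := G_ideal
    rw [plucker] at this
    rw [this]
    exact (ofParam φG φG_ne).homog
  relevant := by
    have := G_ideal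
    rw [plucker] at this
    rw [this]
    exact (ofParam φG φG_ne).relevant

end Pool.Agent.Helper70.PG

end PartEleven

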