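import Pool.Agent.Helper70.PGThree

set_option autoImplicit false
set_option linter.unusedSectionVars false

noncomputable section PartThreeB

open MvPolynomial Topology

namespace Pool.Agent.Helper70.PG

/-- The points of `V` where the eight forms have a common sign. -/
abbrev AV (V : ProjVar (Fin 6)) : Set (Fin 6 → ℝ) := realPts V ∩ SQ LL

lemma vec3_relInt {x y z s m : ℝ} (hs : s = 1 ∨ s = -1) (hm : 0 < m) (hx : -1 < x ∧ x < 1)
    (hy : -1 < y ∧ y < 1) (hz : x * y < z ∧ -(x * y) < z) :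
    s • m • vec3 x y z ∈ relInterior (realPts C1) (AV C1) := by
  have hs0 : s ≠ 0 := by rcases hs with rfl | rfl <;> norm_num
  have hss : s * s = 1 := by rcases hs with rfl | rfl <;> norm_num
  refine relInt_of LL (realPts_smul (realPts_smul (vec3_mem _ _ _) hm.ne') hs0) s hs ?_
  have e : ∀ k, s * (LL k ⬝ᵥ (s • m • vec3 x y z)) = m * (LL k ⬝ᵥ vec3 x y z) := by
    intro k
    rw [dotProduct_smul, dotProduct_smul, smul_eq_mul, smul_eq_mul, ← mul_assoc, hss, one_mul]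
  have hz0 : 0 < z := by linarith [hz.1, hz.2]
  refine LLcases (Or.inl fun u hu => by rw [LL_zero]; exact (C1_real hu).1) ?_ ?_ ?_ ?_ ?_ ?_ ?_
    <;> right <;> rw [e] <;> refine mul_pos hm ?_
  · rw [LL_one, vec3_1]; exact mul_pos (by linarith) (by linarith)
  · rw [LL_two, vec3_2]; exact mul_pos (by linarith) (by linarith)
  · rw [LL_three, vec3_3]; exact mul_pos (by linarith) (by linarith)
  · rw [LL_four, vec3_4]; exact mul_pos (by linarith) (by linarith)
  · rw [LL_five, vec3_5]; linarith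
  · rw [LL_six, vec3_0, vec3_1, vec3_2, vec3_3, vec3_4, vec3_5]; nlinarith [hz.1]
  · rw [LL_seven, vec3_0, vec3_1, vec3_2, vec3_3, vec3_4, vec3_5]; nlinarith [hz.2]

/-- Sign normalisation. -/
lemma SQ_sign {u : Fin 6 → ℝ} (hu : u ∈ SQ LL) :
    ∃ s : ℝ, (s = 1 ∨ s = -1) ∧ ∀ k, 0 ≤ LL k ⬝ᵥ (s • u) := by
  rcases hu with h | h
  · exact ⟨1, Or.inl rfl, fun k => by rw [one_smul]; exact h k⟩
  · refine ⟨-1, Or.inr rfl, fun k => ?_⟩
    rw [dotProduct_smul, smul_eq_mul]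
    have := h k
    linarith

lemma continuous_vec3 {f g h : ℝ → ℝ} (hf : Continuous f) (hg : Continuous g)
    (hh : Continuous h) : Continuous fun τ => vec3 (f τ) (g τ) (h τ) := by
  refine continuous_pi fun i => ?_
  fin_cases i
  · exact continuous_const
  · exact (continuous_const.sub hf).mul (continuous_const.sub hg)
  · exact (continuous_const.sub hf).mul (continuous_const.add hg)
  · exact (continuous_const.add hf).mul (continuous_const.sub hg)
  · exact (continuous_const.add hf).mul (continuous_const.add hg)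
  · exact continuous_const.add (continuous_const.mul hh)

lemma C1_dense : AV C1 ⊆ closure (relInterior (realPts C1) (AV C1)) := by
  rintro u ⟨hu, hu'⟩
  obtain ⟨s, hs, hpos⟩ := SQ_sign hu'
  have hs0 : s ≠ 0 := by rcases hs with rfl | rfl <;> norm_num
  have hss : s * s = 1 := by rcases hs with rfl | rfl <;> norm_num
  set w := s • u with hw
  have hwu : u = s • w := by rw [hw, smul_smul, hss, one_smul]
  have hwr : w ∈ realPts C1 := realPts_smul hu hs0
  obtain ⟨h0, hq⟩ := C1_real hwr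
  have p1 := hpos 1
  have p2 := hpos 2
  have p3 := hpos 3
  have p4 := hpos 4
  have p5 := hpos 5
  have p6 := hpos 6
  have p7 := hpos 7
  rw [LL_one] at p1
  rw [LL_two] at p2
  rw [LL_three] at p3
  rw [LL_four] at p4
  rw [LL_five] at p5
  rw [LL_six, h0] at p6
  rw [LL_seven, h0] at p7
  set m := (w 1 + w 2 + w 3 + w 4) / 4 with hm
  have hm0 : 0 ≤ m := by rw [hm]; linarith
  rcases hm0.eq_or_lt with hm1 | hm1
  · -- the vertex
    have e1 : w 1 = 0 := by linarith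
    have e2 : w 2 = 0 := by linarith
    have e3 : w 3 = 0 := by linarith
    have e4 : w 4 = 0 := by linarith
    have e5 : 0 < w 5 := by
      refine lt_of_le_of_ne p5 fun h5 => hwr.1 ?_
      ext i
      fin_cases i
      exacts [h0, e1, e2, e3, e4, h5.symm]
    have ht : Filter.Tendsto (fun τ : ℝ => s • ![0, τ, τ, τ, τ, w 5]) (𝓝[>] 0) (𝓝 u) := by
      have h1 : Continuous fun τ : ℝ => s • (![0, τ, τ, τ, τ, w 5] : Fin 6 → ℝ) := by
        refine Continuous.const_smul (continuous_pi fun i => ?_) s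
        fin_cases i
        exacts [continuous_const, continuous_id, continuous_id, continuous_id, continuous_id,
          continuous_const]
      have h2 := h1.tendsto 0
      have h3 : s • (![0, 0, 0, 0, 0, w 5] : Fin 6 → ℝ) = u := by
        rw [hwu]
        congr 1
        ext i
        fin_cases i
        exacts [h0.symm, e1.symm, e2.symm, e3.symm, e4.symm, rfl]
      rw [h3] at h2
      exact h2.mono_left nhdsWithin_le_nhds
    refine mem_closure_of_tendsto ht ?_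
    have hev : ∀ᶠ τ : ℝ in 𝓝[>] 0, τ < w 5 / 6 :=
      nhdsWithin_le_nhds (gt_mem_nhds (by positivity))
    filter_upwards [hev, self_mem_nhdsWithin] with τ hτ hτ'
    have hτ0 : 0 < τ := hτ'
    have e : (![0, τ, τ, τ, τ, w 5] : Fin 6 → ℝ) = τ • vec3 0 0 ((w 5 / τ - 6) / 2) := by
      ext i
      fin_cases i <;> simp [vec3]
      field_simp
      ring
    rw [e]
    have hz : 0 < (w 5 / τ - 6) / 2 := by
      have : 6 < w 5 / τ := by rw [lt_div_iff₀ hτ0]; linarith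
      linarith
    refine vec3_relInt hs hτ0 (by norm_num) (by norm_num) ?_
    simp [hz]
  · -- the generic case
    have hweq := eq_vec3 h0 hq m hm hm1.ne'
    set x := (-w 1 - w 2 + w 3 + w 4) / (4 * m) with hx
    set y := (-w 1 + w 2 - w 3 + w 4) / (4 * m) with hy
    set z := (w 5 / m - 6) / 2 with hz
    have hx1 : -1 ≤ x ∧ x ≤ 1 := by
      constructor
      · rw [hx, le_div_iff₀ (by linarith)]; linarith
      · rw [hx, div_le_iff₀ (by linarith)]; linarith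
    have hy1 : -1 ≤ y ∧ y ≤ 1 := by
      constructor
      · rw [hy, le_div_iff₀ (by linarith)]; linarith
      · rw [hy, div_le_iff₀ (by linarith)]; linarith
    have q6 : 0 ≤ m * (z - x * y) := by
      have h1 := hpos 6
      rw [hweq, dotProduct_smul, LL_six, vec3_0, vec3_1, vec3_2, vec3_3, vec3_4, vec3_5,
        smul_eq_mul] at h1
      nlinarith
    have q7 : 0 ≤ m * (z + x * y) := by
      have h1 := hpos 7
      rw [hweq, dotProduct_smul, LL_seven, vec3_0, vec3_1, vec3_2, vec3_3, vec3_4, vec3_5,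
        smul_eq_mul] at h1
      nlinarith
    have z6 : x * y ≤ z := by
      have := nonneg_of_mul_nonneg_right q6 hm1
      linarith
    have z7 : -(x * y) ≤ z := by
      have := nonneg_of_mul_nonneg_right q7 hm1
      linarith
    have ht : Filter.Tendsto (fun τ : ℝ => s • m • vec3 ((1 - τ) * x) ((1 - τ) * y) (z + τ))
        (𝓝[>] 0) (𝓝 u) := by
      have h1 : Continuous fun τ : ℝ => s • m • vec3 ((1 - τ) * x) ((1 - τ) * y) (z + τ) :=
        ((continuous_vec3 (by fun_prop) (by fun_prop) (by fun_prop)).const_smul m).const_smul s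
      have h2 := h1.tendsto 0
      simp only [sub_zero, one_mul, add_zero] at h2
      rw [← hweq, ← hwu] at h2
      exact h2.mono_left nhdsWithin_le_nhds
    refine mem_closure_of_tendsto ht ?_
    have hev : ∀ᶠ τ : ℝ in 𝓝[>] 0, τ < 1 := nhdsWithin_le_nhds (gt_mem_nhds one_pos)
    filter_upwards [hev, self_mem_nhdsWithin] with τ hτ hτ'
    have hτ0 : 0 < τ := hτ'
    have hτ1 : 0 < 1 - τ := by linarith
    refine vec3_relInt hs hm1 ⟨by nlinarith, by nlinarith⟩ ⟨by nlinarith, by nlinarith⟩ ?_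
    have hT : (1 - τ) * (1 - τ) ≤ 1 := by nlinarith
    have hT0 : 0 ≤ (1 - τ) * (1 - τ) := by positivity
    have e : (1 - τ) * x * ((1 - τ) * y) = ((1 - τ) * (1 - τ)) * (x * y) := by ring
    rw [e]
    have hz0 : 0 ≤ z := by linarith
    constructor
    · rcases le_or_gt 0 (x * y) with h | h
      · nlinarith
      · nlinarith
    · rcases le_or_gt 0 (x * y) with h | h
      · nlinarith
      · nlinarith

end Pool.Agent.Helper70.PG

end PartThreeB

noncomputable section PartFour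

open MvPolynomial Topology

namespace Pool.Agent.Helper70.PG

lemma realPts_mono {σ : Type} {V W : ProjVar σ} (h : V.ideal ≤ W.ideal) :
    realPts W ⊆ realPts V := fun _ hv => ⟨hv.1, fun f hf => hv.2 f (h hf)⟩

lemma aeval_lin_Φ (φ : Fin 6 → A3) (w : Fin 6 → ℝ) :
    aeval φ (lin w) = C (w 0 : ℂ) * φ 0 + C (w 1 : ℂ) * φ 1 + C (w 2 : ℂ) * φ 2 +
      C (w 3 : ℂ) * φ 3 + C (w 4 : ℂ) * φ 4 + C (w 5 : ℂ) * φ 5 :=
  aeval_lin_fin φ w

lemma φ1_L1 : aeval φ1 (lin (LL 1)) = (1 - X 0) * (1 - X 1) := by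
  rw [aeval_lin_fin]; simp [LL, φ1]
lemma φ1_L2 : aeval φ1 (lin (LL 2)) = (1 - X 0) * (1 + X 1) := by
  rw [aeval_lin_fin]; simp [LL, φ1]
lemma φ1_L3 : aeval φ1 (lin (LL 3)) = (1 + X 0) * (1 - X 1) := by
  rw [aeval_lin_fin]; simp [LL, φ1]
lemma φ1_L4 : aeval φ1 (lin (LL 4)) = (1 + X 0) * (1 + X 1) := by
  rw [aeval_lin_fin]; simp [LL, φ1]
lemma φ1_L6 : aeval φ1 (lin (LL 6)) = 2 * (X 2 - X 0 * X 1) := by
  have h2 : (C (2 : ℂ) : A3) = 2 := map_ofNat C 2
  rw [aeval_lin_fin]; simp [LL, hA, φ1]; rw [h2]; ring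
lemma φ1_L7 : aeval φ1 (lin (LL 7)) = 2 * (X 2 + X 0 * X 1) := by
  have h2 : (C (2 : ℂ) : A3) = 2 := map_ofNat C 2
  rw [aeval_lin_fin]; simp [LL, hB, φ1]; rw [h2]; ring

/-- A product of linear forms vanishing on the boundary of `AV C1`. -/
def H6 : MvPolynomial (Fin 6) ℂ :=
  lin (LL 1) * lin (LL 2) * lin (LL 3) * lin (LL 4) * lin (LL 6) * lin (LL 7)

lemma H6_homog : H6.IsHomogeneous 6 :=
  (((((lin_homog _).mul (lin_homog _)).mul (lin_homog _)).mul (lin_homog _)).mul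
    (lin_homog _)).mul (lin_homog _)

lemma relInt_of_prod {V : ProjVar (Fin 6)} {v : Fin 6 → ℝ} (hv : v ∈ AV V)
    (h : ∀ (s : ℝ), (s = 1 ∨ s = -1) → (∀ k, 0 ≤ s * (LL k ⬝ᵥ v)) →
      ∀ k, (∀ u ∈ realPts V, LL k ⬝ᵥ u = 0) ∨ 0 < s * (LL k ⬝ᵥ v)) :
    v ∈ relInterior (realPts V) (AV V) := by
  obtain ⟨s, hs, hpos⟩ := SQ_sign hv.2
  have h1 : ∀ k, 0 ≤ s * (LL k ⬝ᵥ v) := by
    intro k
    have := hpos k
    rwa [dotProduct_smul, smul_eq_mul] at this
  exact relInt_of LL hv.1 s hs (h s hs h1)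

lemma pos_of_ne {s a : ℝ} (hs : s = 1 ∨ s = -1) (h : 0 ≤ s * a) (ha : a ≠ 0) : 0 < s * a := by
  refine lt_of_le_of_ne h (Ne.symm (mul_ne_zero ?_ ha))
  rcases hs with rfl | rfl <;> norm_num

lemma H6_vanish : H6 ∈ vanishing (AV C1 \ relInterior (realPts C1) (AV C1)) := by
  rintro v ⟨hv, hv'⟩
  by_contra hne
  apply hv'
  rw [H6, map_mul, map_mul, map_mul, map_mul, map_mul, realEval_lin, realEval_lin,
    realEval_lin, realEval_lin, realEval_lin, realEval_lin] at hne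
  have e : ∀ k, LL k ⬝ᵥ v = 0 → ((LL k ⬝ᵥ v : ℝ) : ℂ) = 0 := by
    intro k hk; rw [hk]; simp
  have n1 : LL 1 ⬝ᵥ v ≠ 0 := fun h => hne (by rw [e 1 h]; ring)
  have n2 : LL 2 ⬝ᵥ v ≠ 0 := fun h => hne (by rw [e 2 h]; ring)
  have n3 : LL 3 ⬝ᵥ v ≠ 0 := fun h => hne (by rw [e 3 h]; ring)
  have n4 : LL 4 ⬝ᵥ v ≠ 0 := fun h => hne (by rw [e 4 h]; ring)
  have n6 : LL 6 ⬝ᵥ v ≠ 0 := fun h => hne (by rw [e 6 h]; ring)
  have n7 : LL 7 ⬝ᵥ v ≠ 0 := fun h => hne (by rw [e 7 h]; ring)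
  refine relInt_of_prod hv fun s hs hpos => ?_
  have h0 := (C1_real hv.1).1
  have p1 := pos_of_ne hs (hpos 1) n1
  have p2 := pos_of_ne hs (hpos 2) n2
  have p3 := pos_of_ne hs (hpos 3) n3
  have p4 := pos_of_ne hs (hpos 4) n4
  have p6 := pos_of_ne hs (hpos 6) n6
  have p7 := pos_of_ne hs (hpos 7) n7
  refine LLcases (Or.inl fun u hu => by rw [LL_zero]; exact (C1_real hu).1) (Or.inr p1)
    (Or.inr p2) (Or.inr p3) (Or.inr p4) (Or.inr ?_) (Or.inr p6) (Or.inr p7)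
  rw [LL_one] at p1
  rw [LL_two] at p2
  rw [LL_three] at p3
  rw [LL_four] at p4
  rw [LL_six, h0] at p6
  rw [LL_five]
  nlinarith

/-- Denominator of the canonical form in the chart. -/
def Λ3 : A3 := (1 - X 0) * (1 + X 0) * (1 - X 1) * (1 + X 1) * (X 2 - X 0 * X 1) *
  (X 2 + X 0 * X 1)

lemma φ1_H6 : aeval φ1 H6 * ((X 2 - X 0 * X 1) * (X 2 + X 0 * X 1)) = 4 * Λ3 ^ 2 := by
  rw [H6, map_mul, map_mul, map_mul, map_mul, map_mul, φ1_L1, φ1_L2, φ1_L3, φ1_L4, φ1_L6,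
    φ1_L7, Λ3]
  ring

lemma Λ3_ne : Λ3 ≠ 0 := by
  intro h
  have := congrArg (eval ![(0 : ℂ), 0, 1]) h
  simp [Λ3] at this

lemma φ1_H6_ne : aeval φ1 H6 ≠ 0 := by
  intro h
  have h1 := φ1_H6
  rw [h, zero_mul] at h1
  exact mul_ne_zero (by norm_num) (pow_ne_zero 2 Λ3_ne) h1.symm

/-- numerator of a form on `C1` satisfying the pole condition -/
lemma numerator3 (Ω : RatForm C1 3) (hΩ : IsCanonicalForm 3 C1 (AV C1) Ω)
    (δ : Fin 3 → Derivation ℂ A3 A3) :
    ∃ M : A3, algebraMap A3 (FractionRing A3) Λ3 * coef c1.κ (fun j => fracDer (δ j)) Ω =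
      algebraMap A3 (FractionRing A3) M := by
  rw [IsCanonicalForm] at hΩ
  refine c1.exists_numerator Ω (AV C1) hΩ.2.1
    (fun C hC => (hΩ.2.2 C hC).imp fun ρ hρ => hρ.1) Λ3 ?_ δ
  intro π hπ h
  have h1 := h 6 H6 H6_homog H6_vanish
  have h2 : π ∣ 4 * Λ3 ^ 2 := by rw [← φ1_H6]; exact h1.mul_right _
  have h4 : IsUnit (4 : A3) := by
    have : (4 : A3) = C 4 := (map_ofNat C 4).symm
    rw [this]
    exact (IsUnit.mk0 (4 : ℂ) (by norm_num)).map C
  rw [IsUnit.dvd_mul_left h4] at h2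
  exact hπ.dvd_of_dvd_pow h2

/-! ### The two quadric surfaces -/

/-- Restriction to `z = ε x y`. -/
def rD (ε : ℝ) : A3 →ₐ[ℂ] A2 := aeval ![X 0, X 1, C (ε : ℂ) * (X 0 * X 1)]

/-- Equation. -/
def πD (ε : ℝ) : A3 := X 2 - C (ε : ℂ) * (X 0 * X 1)

/-- Section of `rD`. -/
def sD : A2 →ₐ[ℂ] A3 := aeval ![X 0, X 1]

lemma rD_sD (ε : ℝ) (p : A2) : rD ε (sD p) = p := by
  induction p using MvPolynomial.induction_on with
  | C a => simp [sD, rD]
  | add p q hp hq => simp_all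
  | mul_X p i hp =>
    rw [map_mul, map_mul, hp]
    fin_cases i <;> simp [sD, rD]

lemma rD_surj (ε : ℝ) : Function.Surjective (rD ε) := fun p => ⟨sD p, rD_sD ε p⟩

lemma rD_π (ε : ℝ) : rD ε (πD ε) = 0 := by simp [rD, πD]

lemma rD_dvd (ε : ℝ) (p : A3) (hp : rD ε p = 0) : πD ε ∣ p := by
  have h := dvd_sub_of_gen (sD.comp (rD ε)) (πD ε) (by
    intro i
    fin_cases i
    · simp [sD, rD]
    · simp [sD, rD]
    · simp [sD, rD, πD]) p
  rw [AlgHom.comp_apply, hp, map_zero, sub_zero] at h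
  exact h

lemma πD_ne (ε : ℝ) : πD ε ≠ 0 := by
  intro h
  have := congrArg (eval ![(0 : ℂ), 0, 1]) h
  simp [πD] at this

lemma πD_prime (ε : ℝ) : Prime (πD ε) := prime_of_ker (rD ε) (πD_ne ε) (rD_π ε) (rD_dvd ε)

/-- The quadric surfaces. -/
def DV (ε : ℝ) : ProjVar (Fin 6) := c1.sub (rD ε)

/-- Their charts. -/
def cD (ε : ℝ) : Chart (DV ε) A2 := c1.subChart (rD ε) (rD_surj ε)

lemma cD_φ (ε : ℝ) (i : Fin 6) : (cD ε).φ i = rD ε (φ1 i) := rfl

lemma DV_mem (ε x y : ℝ) : vec3 x y (ε * (x * y)) ∈ realPts (DV ε) := by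
  refine realPts_of_chart (cD ε) (aeval ![(x : ℂ), (y : ℂ)]) 1 _ (vec3_ne _ _ _) ?_
  intro i
  rw [mul_one, cD_φ]
  have h6 : rD ε 6 = 6 := map_ofNat _ 6
  have h2 : rD ε 2 = 2 := map_ofNat _ 2
  fin_cases i
  · simp [vec3, φ1]
  · simp [vec3, φ1, rD]
  · simp [vec3, φ1, rD]
  · simp [vec3, φ1, rD]
  · simp [vec3, φ1, rD]
  · change ((vec3 x y (ε * (x * y)) 5 : ℝ) : ℂ) = aeval ![(x : ℂ), (y : ℂ)] (rD ε (6 + 2 * X 2))
    rw [vec3_5, map_add, map_mul, h6, h2]
    simp [rD]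

lemma DV_sub (ε : ℝ) : realPts (DV ε) ⊆ realPts C1 := realPts_mono (c1.le_sub (rD ε))

/-- index of the form vanishing on `DV ε` and of the other one -/
lemma DV_real {ε : ℝ} (hε : ε = 1 ∨ ε = -1) {u : Fin 6 → ℝ} (hu : u ∈ realPts (DV ε)) :
    (1 + ε) * (LL 6 ⬝ᵥ u) + (1 - ε) * (LL 7 ⬝ᵥ u) = 0 := by
  rcases hε with rfl | rfl
  · have h1 : lin (LL 6) ∈ (DV 1).ideal := by
      rw [DV, c1.mem_sub_homog _ (lin_homog _), c1_φ, φ1_L6]
      simp [rD]
    have h2 := hu.2 _ h1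
    rw [realEval_lin] at h2
    have h3 : LL 6 ⬝ᵥ u = 0 := by exact_mod_cast h2
    rw [h3]; ring
  · have h1 : lin (LL 7) ∈ (DV (-1)).ideal := by
      rw [DV, c1.mem_sub_homog _ (lin_homog _), c1_φ, φ1_L7]
      simp [rD]
    have h2 := hu.2 _ h1
    rw [realEval_lin] at h2
    have h3 : LL 7 ⬝ᵥ u = 0 := by exact_mod_cast h2
    rw [h3]; ring

end Pool.Agent.Helper70.PG

end PartFour

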