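import Pool.Agent.Helper70.PGEleven

set_option autoImplicit false
set_option linter.unusedSectionVars false

noncomputable section PartTwelve

open MvPolynomial Topology

namespace Pool.Agent.Helper70.PG

/-! ### The six components of the boundary -/

lemma lin_explicit (w : Fin 6 → ℝ) : lin w = C (w 0 : ℂ) * X 0 + C (w 1 : ℂ) * X 1 +
    C (w 2 : ℂ) * X 2 + C (w 3 : ℂ) * X 3 + C (w 4 : ℂ) * X 4 + C (w 5 : ℂ) * X 5 := by
  simp [lin, Fin.sum_univ_succ]; ring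

lemma lin_LL0 : lin (LL 0) = X 0 := by rw [lin_explicit]; simp [LL]
lemma lin_LL2 : lin (LL 2) = X 2 := by rw [lin_explicit]; simp [LL]
lemma lin_LL3 : lin (LL 3) = X 3 := by rw [lin_explicit]; simp [LL]
lemma lin_LL5 : lin (LL 5) = X 5 := by rw [lin_explicit]; simp [LL]
lemma lin_LL6 : lin (LL 6) = X 0 - 2 * X 1 - X 2 - X 3 - 2 * X 4 + X 5 := by
  have h2 : (C (2 : ℂ) : R6) = 2 := map_ofNat C 2
  rw [lin_explicit]; simp [LL, hA]; rw [h2]; ring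
lemma lin_LL7 : lin (LL 7) = X 0 - X 1 - 2 * X 2 - 2 * X 3 - X 4 + X 5 := by
  have h2 : (C (2 : ℂ) : R6) = 2 := map_ofNat C 2
  rw [lin_explicit]; simp [LL, hB]; rw [h2]; ring

def φ5 : Fin 6 → A3 := ![X 2, 1, X 0, X 1, X 0 * X 1, 0]
def φ2 : Fin 6 → A3 := ![1, X 0, 0, X 1, X 2, X 0 * X 2]
def φ3 : Fin 6 → A3 := ![1, X 0, X 1, 0, X 2, X 0 * X 2]
def P6 : A3 := X 0 ^ 2 - X 0 * (X 1 + X 2 + 2 * (2 * X 0 - 1)) - X 1 * X 2
def φ6 : Fin 6 → A3 := ![X 0, P6, X 1, X 2, 2 * X 0 - 1,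
  -X 0 + 2 * P6 + X 1 + X 2 + 2 * (2 * X 0 - 1)]
def P7 : A3 := X 0 ^ 2 - X 0 * (2 * X 1 + 2 * X 2 + (X 0 - 1)) - X 1 * X 2
def φ7 : Fin 6 → A3 := ![X 0, P7, X 1, X 2, X 0 - 1,
  -X 0 + P7 + 2 * X 1 + 2 * X 2 + (X 0 - 1)]

lemma φ5_ne : ∃ i, φ5 i ≠ 0 := ⟨1, one_ne_zero⟩
lemma φ2_ne : ∃ i, φ2 i ≠ 0 := ⟨0, one_ne_zero⟩
lemma φ3_ne : ∃ i, φ3 i ≠ 0 := ⟨0, one_ne_zero⟩
lemma φ6_ne : ∃ i, φ6 i ≠ 0 := ⟨0, X_ne_zero 0⟩
lemma φ7_ne : ∃ i, φ7 i ≠ 0 := ⟨0, X_ne_zero 0⟩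

def C5 : ProjVar (Fin 6) := ofParam φ5 φ5_ne
def C2 : ProjVar (Fin 6) := ofParam φ2 φ2_ne
def C3 : ProjVar (Fin 6) := ofParam φ3 φ3_ne
def C6 : ProjVar (Fin 6) := ofParam φ6 φ6_ne
def C7 : ProjVar (Fin 6) := ofParam φ7 φ7_ne

lemma C5_le : C5.ideal ≤ Ideal.span {plucker, lin (LL 5)} := by
  rw [lin_LL5]
  refine param_le_span φ5 φ5_ne plucker (X 5) (X 1) (aeval ![X 0, X 1, X 2, X 3, X 4, 0])
    (aeval ![X 0, 0, X 2, X 3, X 4, 0]) ?_ ?_ ?_ ?_ ?_ ?_ ?_ 1 isUnit_one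
    ![X 2, X 3, X 0] ![0, 0, 0, 0, X 0 * X 5 - plucker, X 1 * X 5] ?_ ?_
  · refine sixcases ?_ ?_ ?_ ?_ ?_ ?_ <;> simp
  · simp
  · simp
  · refine sixcases ?_ ?_ ?_ ?_ ?_ ?_
    · simp
    · simp only [aeval_X, Matrix.cons_val_one, Matrix.cons_val_zero, sub_zero]
      exact mem_right _ _
    · simp
    · simp
    · simp
    · simp only [aeval_X, Matrix.cons_val, sub_zero]
      exact mem_left _ _
  · simp
  · simp
  · intro h
    have := congrArg (eval ![0, 0, 1, 1, 0, 0]) h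
    simp [plucker] at this
  · refine sixcases (Ideal.zero_mem _) (Ideal.zero_mem _) (Ideal.zero_mem _) (Ideal.zero_mem _)
      ?_ ?_
    · exact Ideal.sub_mem _ (Ideal.mul_mem_left _ _ (mem_right _ _)) (mem_left _ _)
    · exact Ideal.mul_mem_left _ _ (mem_right _ _)
  · have h0 : algebraMap R6 (FractionRing R6) (X 1) ≠ 0 := am_ne6 (X_ne_zero 1)
    refine sixcases ?_ ?_ ?_ ?_ ?_ ?_
    · simp [φ5]; field_simp
    · simp [φ5]; ring
    · simp [φ5]; field_simp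
    · simp [φ5]; field_simp
    · simp [φ5, plucker]; field_simp; ring
    · simp [φ5]

lemma C2_le : C2.ideal ≤ Ideal.span {plucker, lin (LL 2)} := by
  rw [lin_LL2]
  refine param_le_span φ2 φ2_ne plucker (X 2) (X 0) (aeval ![X 0, X 1, 0, X 3, X 4, X 5])
    (aeval ![0, X 1, 0, X 3, X 4, X 5]) ?_ ?_ ?_ ?_ ?_ ?_ ?_ 1 isUnit_one
    ![X 1, X 3, X 4] ![0, 0, X 0 * X 2, 0, 0, plucker - X 3 * X 2] ?_ ?_
  · refine sixcases ?_ ?_ ?_ ?_ ?_ ?_ <;> simp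
  · simp
  · simp
  · refine sixcases ?_ ?_ ?_ ?_ ?_ ?_
    · simp only [aeval_X, Matrix.cons_val_zero, sub_zero]
      exact mem_right _ _
    · simp
    · simp only [aeval_X, Matrix.cons_val, sub_zero]
      exact mem_left _ _
    · simp
    · simp
    · simp
  · simp
  · simp
  · intro h
    have := congrArg (eval ![0, 1, 0, 0, 1, 0]) h
    simp [plucker] at this
  · refine sixcases (Ideal.zero_mem _) (Ideal.zero_mem _) ?_ (Ideal.zero_mem _)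
      (Ideal.zero_mem _) ?_
    · exact Ideal.mul_mem_left _ _ (mem_right _ _)
    · exact Ideal.sub_mem _ (mem_left _ _) (Ideal.mul_mem_left _ _ (mem_right _ _))
  · have h0 : algebraMap R6 (FractionRing R6) (X 0) ≠ 0 := am_ne6 (X_ne_zero 0)
    refine sixcases ?_ ?_ ?_ ?_ ?_ ?_
    · simp [φ2]; ring
    · simp [φ2]; field_simp
    · simp [φ2]
    · simp [φ2]; field_simp
    · simp [φ2]; field_simp
    · simp [φ2, plucker]; field_simp; ring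

lemma C3_le : C3.ideal ≤ Ideal.span {plucker, lin (LL 3)} := by
  rw [lin_LL3]
  refine param_le_span φ3 φ3_ne plucker (X 3) (X 0) (aeval ![X 0, X 1, X 2, 0, X 4, X 5])
    (aeval ![0, X 1, X 2, 0, X 4, X 5]) ?_ ?_ ?_ ?_ ?_ ?_ ?_ 1 isUnit_one
    ![X 1, X 2, X 4] ![0, 0, 0, X 0 * X 3, 0, plucker - X 2 * X 3] ?_ ?_
  · refine sixcases ?_ ?_ ?_ ?_ ?_ ?_ <;> simp
  · simp
  · simp
  · refine sixcases ?_ ?_ ?_ ?_ ?_ ?_
    · simp only [aeval_X, Matrix.cons_val_zero, sub_zero]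
      exact mem_right _ _
    · simp
    · simp
    · simp only [aeval_X, Matrix.cons_val, sub_zero]
      exact mem_left _ _
    · simp
    · simp
  · simp
  · simp
  · intro h
    have := congrArg (eval ![0, 1, 0, 0, 1, 0]) h
    simp [plucker] at this
  · refine sixcases (Ideal.zero_mem _) (Ideal.zero_mem _) (Ideal.zero_mem _) ?_
      (Ideal.zero_mem _) ?_
    · exact Ideal.mul_mem_left _ _ (mem_right _ _)
    · exact Ideal.sub_mem _ (mem_left _ _) (Ideal.mul_mem_left _ _ (mem_right _ _))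
  · have h0 : algebraMap R6 (FractionRing R6) (X 0) ≠ 0 := am_ne6 (X_ne_zero 0)
    refine sixcases ?_ ?_ ?_ ?_ ?_ ?_
    · simp [φ3]; ring
    · simp [φ3]; field_simp
    · simp [φ3]; field_simp
    · simp [φ3]
    · simp [φ3]; field_simp
    · simp [φ3, plucker]; field_simp

lemma C1_le : C1.ideal ≤ Ideal.span {plucker, lin (LL 0)} := by
  rw [lin_LL0]
  have h4 : IsUnit (4 : R6) := by
    have : (4 : R6) = C 4 := (map_ofNat C 4).symm
    rw [this]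
    exact (IsUnit.mk0 (4 : ℂ) (by norm_num)).map C
  have hℓ : (X 1 + X 2 + X 3 + X 4 : R6) ≠ 0 := by
    intro h
    have := congrArg (eval ![0, 1, 0, 0, 0, 0]) h
    simp at this
  refine param_le_span φ1 φ1_ne plucker (X 0) (X 1 + X 2 + X 3 + X 4)
    (aeval ![0, X 1, X 2, X 3, X 4, X 5])
    (aeval ![0, X 1, X 2, X 3, -X 1 - X 2 - X 3, X 5]) ?_ ?_ ?_ ?_ ?_ ?_ ?_ 4 h4
    ![-X 1 - X 2 + X 3 + X 4, -X 1 + X 2 - X 3 + X 4,
      2 * X 5 - 3 * (X 1 + X 2 + X 3 + X 4)]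
    ![4 * (X 1 + X 2 + X 3 + X 4) * X 0, 4 * (X 5 * X 0 - plucker),
      4 * (plucker - X 5 * X 0), 4 * (plucker - X 5 * X 0), 4 * (X 5 * X 0 - plucker), 0] ?_ ?_
  · refine sixcases ?_ ?_ ?_ ?_ ?_ ?_ <;> simp
  · simp
  · intro h
    have := congrArg (eval ![0, 1, 0, 0, 0, 0]) h
    simp at this
  · refine sixcases ?_ ?_ ?_ ?_ ?_ ?_
    · simp only [aeval_X, Matrix.cons_val_zero, sub_zero]
      exact mem_left _ _
    · simp
    · simp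
    · simp
    · simp only [aeval_X, Matrix.cons_val]
      have : (X 4 - (-X 1 - X 2 - X 3) : R6) = X 1 + X 2 + X 3 + X 4 := by ring
      rw [this]
      exact mem_right _ _
    · simp
  · simp
  · simp
  · intro h
    have := congrArg (eval ![0, 1, 0, 0, 0, 0]) h
    simp [plucker] at this
  · refine sixcases ?_ ?_ ?_ ?_ ?_ (Ideal.zero_mem _)
    · exact Ideal.mul_mem_left _ _ (mem_right _ _)
    · exact Ideal.mul_mem_left _ _
        (Ideal.sub_mem _ (Ideal.mul_mem_left _ _ (mem_right _ _)) (mem_left _ _))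
    · exact Ideal.mul_mem_left _ _
        (Ideal.sub_mem _ (mem_left _ _) (Ideal.mul_mem_left _ _ (mem_right _ _)))
    · exact Ideal.mul_mem_left _ _
        (Ideal.sub_mem _ (mem_left _ _) (Ideal.mul_mem_left _ _ (mem_right _ _)))
    · exact Ideal.mul_mem_left _ _
        (Ideal.sub_mem _ (Ideal.mul_mem_left _ _ (mem_right _ _)) (mem_left _ _))
  · have h0 := am_ne6 hℓ
    rw [map_add, map_add, map_add] at h0
    refine sixcases ?_ ?_ ?_ ?_ ?_ ?_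
    · simp [φ1]
    · simp [φ1, map_ofNat, plucker]; field_simp; ring
    · simp [φ1, map_ofNat, plucker]; field_simp; ring
    · simp [φ1, map_ofNat, plucker]; field_simp; ring
    · simp [φ1, map_ofNat, plucker]; field_simp; ring
    · simp [φ1, map_ofNat, plucker]; field_simp; ring

lemma C6_le : C6.ideal ≤ Ideal.span {plucker, lin (LL 6)} := by
  rw [lin_LL6]
  have hℓ : (2 * X 0 - X 4 : R6) ≠ 0 := by
    intro h
    have := congrArg (eval ![0, 0, 0, 0, 1, 0]) h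
    simp at this
  refine param_le_span φ6 φ6_ne plucker (X 0 - 2 * X 1 - X 2 - X 3 - 2 * X 4 + X 5)
    (2 * X 0 - X 4)
    (aeval ![X 0, X 1, X 2, X 3, X 4, -X 0 + 2 * X 1 + X 2 + X 3 + 2 * X 4])
    (aeval ![X 0, X 1, X 2, X 3, 2 * X 0, 3 * X 0 + 2 * X 1 + X 2 + X 3]) ?_ ?_ ?_ ?_ ?_ ?_ ?_
    1 isUnit_one ![X 0, X 2, X 3]
    ![0, plucker - X 0 * (X 0 - 2 * X 1 - X 2 - X 3 - 2 * X 4 + X 5), 0, 0, 0,
      (2 * X 0 - X 4) * (X 0 - 2 * X 1 - X 2 - X 3 - 2 * X 4 + X 5) +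
        2 * (plucker - X 0 * (X 0 - 2 * X 1 - X 2 - X 3 - 2 * X 4 + X 5))] ?_ ?_
  · refine sixcases ?_ ?_ ?_ ?_ ?_ ?_
    · simp
    · simp
    · simp
    · simp
    · simp
    · simp only [aeval_X, Matrix.cons_val]
      exact ⟨1, by ring⟩
  · simp [map_ofNat]
  · simp [map_ofNat]; exact hℓ
  · refine sixcases ?_ ?_ ?_ ?_ ?_ ?_
    · simp
    · simp
    · simp
    · simp
    · simp only [aeval_X, Matrix.cons_val]
      rw [Ideal.mem_span_pair]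
      exact ⟨0, -1, by ring⟩
    · simp only [aeval_X, Matrix.cons_val]
      rw [Ideal.mem_span_pair]
      exact ⟨1, -2, by ring⟩
  · simp [map_ofNat]; ring
  · simp [map_ofNat]
  · intro h
    have := congrArg (eval ![1, 0, 0, 0, 0, 0]) h
    simp [plucker] at this
  · refine sixcases (Ideal.zero_mem _) ?_ (Ideal.zero_mem _) (Ideal.zero_mem _)
      (Ideal.zero_mem _) ?_
    · exact Ideal.sub_mem _ (mem_left _ _) (Ideal.mul_mem_left _ _ (mem_right _ _))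
    · exact Ideal.add_mem _ (Ideal.mul_mem_left _ _ (mem_right _ _)) (Ideal.mul_mem_left _ _
        (Ideal.sub_mem _ (mem_left _ _) (Ideal.mul_mem_left _ _ (mem_right _ _))))
  · have h0 := am_ne6 hℓ
    rw [map_sub, map_mul, map_ofNat] at h0
    refine sixcases ?_ ?_ ?_ ?_ ?_ ?_
    · simp [φ6, map_ofNat]; field_simp
    · simp [φ6, P6, map_ofNat, plucker]; field_simp; ring
    · simp [φ6, map_ofNat]; field_simp
    · simp [φ6, map_ofNat]; field_simp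
    · simp [φ6, map_ofNat]; field_simp; ring
    · simp [φ6, P6, map_ofNat, plucker]; field_simp; ring

lemma C7_le : C7.ideal ≤ Ideal.span {plucker, lin (LL 7)} := by
  rw [lin_LL7]
  have hℓ : (X 0 - X 4 : R6) ≠ 0 := by
    intro h
    have := congrArg (eval ![0, 0, 0, 0, 1, 0]) h
    simp at this
  refine param_le_span φ7 φ7_ne plucker (X 0 - X 1 - 2 * X 2 - 2 * X 3 - X 4 + X 5)
    (X 0 - X 4)
    (aeval ![X 0, X 1, X 2, X 3, X 4, -X 0 + X 1 + 2 * X 2 + 2 * X 3 + X 4])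
    (aeval ![X 0, X 1, X 2, X 3, X 0, X 1 + 2 * X 2 + 2 * X 3]) ?_ ?_ ?_ ?_ ?_ ?_ ?_
    1 isUnit_one ![X 0, X 2, X 3]
    ![0, plucker - X 0 * (X 0 - X 1 - 2 * X 2 - 2 * X 3 - X 4 + X 5), 0, 0, 0,
      (X 0 - X 4) * (X 0 - X 1 - 2 * X 2 - 2 * X 3 - X 4 + X 5) +
        (plucker - X 0 * (X 0 - X 1 - 2 * X 2 - 2 * X 3 - X 4 + X 5))] ?_ ?_
  · refine sixcases ?_ ?_ ?_ ?_ ?_ ?_
    · simp
    · simp
    · simp
    · simp
    · simp
    · simp only [aeval_X, Matrix.cons_val]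
      exact ⟨1, by ring⟩
  · simp [map_ofNat]
  · simp; exact hℓ
  · refine sixcases ?_ ?_ ?_ ?_ ?_ ?_
    · simp
    · simp
    · simp
    · simp
    · simp only [aeval_X, Matrix.cons_val]
      rw [Ideal.mem_span_pair]
      exact ⟨0, -1, by ring⟩
    · simp only [aeval_X, Matrix.cons_val]
      rw [Ideal.mem_span_pair]
      exact ⟨1, -1, by ring⟩
  · simp [map_ofNat]; ring
  · simp
  · intro h
    have := congrArg (eval ![0, 0, 1, 1, 0, 0]) h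
    simp [plucker] at this
  · refine sixcases (Ideal.zero_mem _) ?_ (Ideal.zero_mem _) (Ideal.zero_mem _)
      (Ideal.zero_mem _) ?_
    · exact Ideal.sub_mem _ (mem_left _ _) (Ideal.mul_mem_left _ _ (mem_right _ _))
    · exact Ideal.add_mem _ (Ideal.mul_mem_left _ _ (mem_right _ _))
        (Ideal.sub_mem _ (mem_left _ _) (Ideal.mul_mem_left _ _ (mem_right _ _)))
  · have h0 := am_ne6 hℓ
    rw [map_sub] at h0
    refine sixcases ?_ ?_ ?_ ?_ ?_ ?_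
    · simp [φ7]; field_simp
    · simp [φ7, P7, map_ofNat, plucker]; field_simp; ring
    · simp [φ7]; field_simp
    · simp [φ7]; field_simp
    · simp [φ7]; field_simp; ring
    · simp [φ7, P7, map_ofNat, plucker]; field_simp; ring

end Pool.Agent.Helper70.PG

end PartTwelve

noncomputable section PartThirteen

open MvPolynomial Topology

namespace Pool.Agent.Helper70.PG

lemma Gr_real {v : Fin 6 → ℝ} (hv : v ∈ realPts Gr24) :
    v 0 * v 5 - v 1 * v 4 + v 2 * v 3 = 0 := by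
  have h := hv.2 _ (Ideal.mem_span_singleton_self _)
  simp only [realEval, map_add, map_sub, map_mul, aeval_X] at h
  exact_mod_cast h

lemma Gr_mem {v : Fin 6 → ℝ} (hv : v ≠ 0) (h : v 0 * v 5 - v 1 * v 4 + v 2 * v 3 = 0) :
    v ∈ realPts Gr24 := by
  refine ⟨hv, fun f hf => ?_⟩
  obtain ⟨g, rfl⟩ := Ideal.mem_span_singleton.1 hf
  rw [map_mul]
  have h2 : realEval v (X 0 * X 5 - X 1 * X 4 + X 2 * X 3) = 0 := by
    simp only [realEval, map_add, map_sub, map_mul, aeval_X]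
    exact_mod_cast h
  rw [h2, zero_mul]

/-- Points on exactly one wall, with a tangent isotropic direction leaving the region. -/
lemma Gr_bdry_of (w u : Fin 6 → ℝ) (k : Fin 8) (hk1 : k ≠ 1)
    (hq : w 0 * w 5 - w 1 * w 4 + w 2 * w 3 = 0)
    (hk : LL k ⬝ᵥ w = 0) (hpos : ∀ j, j ≠ k → 0 < LL j ⬝ᵥ w)
    (hB : w 0 * u 5 + w 5 * u 0 - w 1 * u 4 - w 4 * u 1 + w 2 * u 3 + w 3 * u 2 = 0)
    (hqu : u 0 * u 5 - u 1 * u 4 + u 2 * u 3 = 0) (hu : LL k ⬝ᵥ u < 0) (s : ℝ) (hs : 0 < s) :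
    s • w ∈ AV Gr24 \ relInterior (realPts Gr24) (AV Gr24) := by
  have h1 := hpos 1 hk1.symm
  have hw0 : w ≠ 0 := by
    intro h
    rw [h, dotProduct_zero] at h1
    exact lt_irrefl _ h1
  refine bdry_of_smul LL ⟨Gr_mem hw0 hq, ?_⟩ (fun τ => w + τ • u) ?_ ?_ s hs
  · left
    intro j
    by_cases hj : j = k
    · rw [hj, hk]
    · exact (hpos j hj).le
  · have h2 : Continuous fun τ : ℝ => w + τ • u := by fun_prop
    have h3 := h2.tendsto 0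
    simp only [zero_smul, add_zero] at h3
    exact h3.mono_left nhdsWithin_le_nhds
  · have h2 : Continuous fun τ : ℝ => LL 1 ⬝ᵥ (w + τ • u) :=
      (continuous_dot _).comp (by fun_prop)
    have h3 : ∀ᶠ τ : ℝ in 𝓝 0, 0 < LL 1 ⬝ᵥ (w + τ • u) :=
      h2.continuousAt.eventually (lt_mem_nhds (by simpa using h1))
    filter_upwards [nhdsWithin_le_nhds h3, self_mem_nhdsWithin] with τ hτ hτ0
    refine ⟨Gr_mem ?_ ?_, ⟨k, ?_⟩, 1, hτ⟩
    · intro h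
      rw [h, dotProduct_zero] at hτ
      exact lt_irrefl _ hτ
    · simp only [Pi.add_apply, Pi.smul_apply, smul_eq_mul]
      linear_combination hq + τ * hB + τ ^ 2 * hqu
    · rw [dotProduct_add, dotProduct_smul, hk, zero_add, smul_eq_mul]
      exact mul_neg_of_pos_of_neg hτ0 hu

/-- The six walls carrying facets. -/
def isWall (k : Fin 8) : Prop := k = 0 ∨ k = 2 ∨ k = 3 ∨ k = 5 ∨ k = 6 ∨ k = 7

lemma Gr_bdry (w : Fin 6 → ℝ) (k : Fin 8) (hwall : isWall k)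
    (hq : w 0 * w 5 - w 1 * w 4 + w 2 * w 3 = 0)
    (hk : LL k ⬝ᵥ w = 0) (hpos : ∀ j, j ≠ k → 0 < LL j ⬝ᵥ w) (s : ℝ) (hs : 0 < s) :
    s • w ∈ AV Gr24 \ relInterior (realPts Gr24) (AV Gr24) := by
  rcases hwall with rfl | rfl | rfl | rfl | rfl | rfl
  · have p5 := hpos 5 (by decide)
    have p1 := hpos 1 (by decide)
    rw [LL_five] at p5
    rw [LL_one] at p1
    refine Gr_bdry_of w ![-(w 1 / w 5), 0, 0, 0, -1, 0] 0 (by decide) hq hk hpos ?_ ?_ ?_ s hs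
    · simp; field_simp; ring
    · simp
    · rw [L0']; exact neg_lt_zero.2 (div_pos p1 p5)
  · have p0 := hpos 0 (by decide)
    rw [LL_zero] at p0
    refine Gr_bdry_of w ![0, 0, -1, 0, 0, w 3 / w 0] 2 (by decide) hq hk hpos ?_ ?_ ?_ s hs
    · simp; field_simp; ring
    · simp
    · rw [L2']; norm_num
  · have p0 := hpos 0 (by decide)
    rw [LL_zero] at p0
    refine Gr_bdry_of w ![0, 0, 0, -1, 0, w 2 / w 0] 3 (by decide) hq hk hpos ?_ ?_ ?_ s hs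
    · simp; field_simp; ring
    · simp
    · rw [L3']; norm_num
  · have p0 := hpos 0 (by decide)
    have p1 := hpos 1 (by decide)
    rw [LL_zero] at p0
    rw [LL_one] at p1
    refine Gr_bdry_of w ![0, 0, 0, 0, -1, -(w 1 / w 0)] 5 (by decide) hq hk hpos ?_ ?_ ?_ s hs
    · simp; field_simp; ring
    · simp
    · rw [L5']; exact neg_lt_zero.2 (div_pos p1 p0)
  · have p0 := hpos 0 (by decide)
    have p2 := hpos 2 (by decide)
    rw [LL_zero] at p0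
    rw [LL_two] at p2
    have hd := div_pos p2 p0
    refine Gr_bdry_of w ![0, 0, 0, 1, 0, -(w 2 / w 0)] 6 (by decide) hq hk hpos ?_ ?_ ?_ s hs
    · simp; field_simp; ring
    · simp
    · rw [L6']; linarith
  · have p0 := hpos 0 (by decide)
    have p2 := hpos 2 (by decide)
    rw [LL_zero] at p0
    rw [LL_two] at p2
    have hd := div_pos p2 p0
    refine Gr_bdry_of w ![0, 0, 0, 1, 0, -(w 2 / w 0)] 7 (by decide) hq hk hpos ?_ ?_ ?_ s hs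
    · simp; field_simp; ring
    · simp
    · rw [L7']; linarith

/-- Density criterion. -/
lemma vanishing_le_param (φ : Fin 6 → A3) (hne : ∃ i, φ i ≠ 0) (E : Set (Fin 6 → ℝ))
    (lo hi : Fin 3 → ℝ) (hlt : ∀ i, lo i < hi i) (w : (Fin 3 → ℝ) → Fin 6 → ℝ)
    (hw : ∀ y i, ((w y i : ℝ) : ℂ) = aeval (fun j => (y j : ℂ)) (φ i))
    (hE : ∀ y : Fin 3 → ℝ, (∀ j, lo j < y j ∧ y j < hi j) → ∀ s : ℝ, 0 < s → s • w y ∈ E) :
    vanishing E ≤ (ofParam φ hne).ideal := by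
  intro f hf
  rw [mem_ofParam]
  intro n
  refine box_density _ lo hi hlt fun y hy => ?_
  have h1 := component_vanish f (w y) (fun s hs => hf _ (hE y hy s hs)) n
  have h2 := Chart.aeval_comp_eq φ (aeval (fun j => (y j : ℂ)) : A3 →ₐ[ℂ] ℂ)
    (homogeneousComponent n f)
  rw [← h2]
  refine Eq.trans ?_ h1
  rw [realEval]
  congr 2
  ext i
  rw [hw]

lemma notMem_param (φ : Fin 6 → A3) (hne : ∃ i, φ i ≠ 0) (w : (Fin 3 → ℝ) → Fin 6 → ℝ)
    (hw : ∀ y i, ((w y i : ℝ) : ℂ) = aeval (fun j => (y j : ℂ)) (φ i)) (a : Fin 6 → ℝ)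
    (y : Fin 3 → ℝ) (h : a ⬝ᵥ w y ≠ 0) : lin a ∉ (ofParam φ hne).ideal := by
  rw [mem_ofParam_homog _ _ (lin_homog _)]
  intro h0
  have h2 := Chart.aeval_comp_eq φ (aeval (fun j => (y j : ℂ)) : A3 →ₐ[ℂ] ℂ) (lin a)
  rw [h0, map_zero] at h2
  have h3 : realEval (w y) (lin a) = 0 := by
    rw [realEval]
    refine Eq.trans ?_ h2
    congr 2
    ext i
    rw [hw]
  rw [realEval_lin] at h3
  exact h (by exact_mod_cast h3)

/-! ### Real parametrisations -/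

def w1 (y : Fin 3 → ℝ) : Fin 6 → ℝ := vec3 (y 0) (y 1) (y 2)
def w5 (y : Fin 3 → ℝ) : Fin 6 → ℝ := ![y 2, 1, y 0, y 1, y 0 * y 1, 0]
def w2 (y : Fin 3 → ℝ) : Fin 6 → ℝ := ![1, y 0, 0, y 1, y 2, y 0 * y 2]
def w3 (y : Fin 3 → ℝ) : Fin 6 → ℝ := ![1, y 0, y 1, 0, y 2, y 0 * y 2]
def p6 (y : Fin 3 → ℝ) : ℝ := y 0 ^ 2 - y 0 * (y 1 + y 2 + 2 * (2 * y 0 - 1)) - y 1 * y 2
def w6 (y : Fin 3 → ℝ) : Fin 6 → ℝ := ![y 0, p6 y, y 1, y 2, 2 * y 0 - 1,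
  -y 0 + 2 * p6 y + y 1 + y 2 + 2 * (2 * y 0 - 1)]
def p7 (y : Fin 3 → ℝ) : ℝ := y 0 ^ 2 - y 0 * (2 * y 1 + 2 * y 2 + (y 0 - 1)) - y 1 * y 2
def w7 (y : Fin 3 → ℝ) : Fin 6 → ℝ := ![y 0, p7 y, y 1, y 2, y 0 - 1,
  -y 0 + p7 y + 2 * y 1 + 2 * y 2 + (y 0 - 1)]

lemma w1_ev (y : Fin 3 → ℝ) (i : Fin 6) :
    ((w1 y i : ℝ) : ℂ) = aeval (fun j => (y j : ℂ)) (φ1 i) := by
  revert i
  refine sixcases ?_ ?_ ?_ ?_ ?_ ?_ <;> simp [w1, vec3, φ1]

lemma w5_ev (y : Fin 3 → ℝ) (i : Fin 6) :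
    ((w5 y i : ℝ) : ℂ) = aeval (fun j => (y j : ℂ)) (φ5 i) := by
  revert i
  refine sixcases ?_ ?_ ?_ ?_ ?_ ?_ <;> simp [w5, φ5]

lemma w2_ev (y : Fin 3 → ℝ) (i : Fin 6) :
    ((w2 y i : ℝ) : ℂ) = aeval (fun j => (y j : ℂ)) (φ2 i) := by
  revert i
  refine sixcases ?_ ?_ ?_ ?_ ?_ ?_ <;> simp [w2, φ2]

lemma w3_ev (y : Fin 3 → ℝ) (i : Fin 6) :
    ((w3 y i : ℝ) : ℂ) = aeval (fun j => (y j : ℂ)) (φ3 i) := by
  revert i
  refine sixcases ?_ ?_ ?_ ?_ ?_ ?_ <;> simp [w3, φ3]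

lemma w6_ev (y : Fin 3 → ℝ) (i : Fin 6) :
    ((w6 y i : ℝ) : ℂ) = aeval (fun j => (y j : ℂ)) (φ6 i) := by
  revert i
  refine sixcases ?_ ?_ ?_ ?_ ?_ ?_ <;> simp [w6, φ6, p6, P6, map_ofNat]

lemma w7_ev (y : Fin 3 → ℝ) (i : Fin 6) :
    ((w7 y i : ℝ) : ℂ) = aeval (fun j => (y j : ℂ)) (φ7 i) := by
  revert i
  refine sixcases ?_ ?_ ?_ ?_ ?_ ?_ <;> simp [w7, φ7, p7, P7, map_ofNat]

end Pool.Agent.Helper70.PG

end PartThirteen

noncomputable section PartFourteen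

open MvPolynomial Topology

namespace Pool.Agent.Helper70.PG

/-- the boundary -/
def EG : Set (Fin 6 → ℝ) := AV Gr24 \ relInterior (realPts Gr24) (AV Gr24)

/-- `y` lies in the open box. -/
def inBox (lo hi y : Fin 3 → ℝ) : Prop := ∀ j, lo j < y j ∧ y j < hi j

lemma inBox_iff {a b c d e f : ℝ} {y : Fin 3 → ℝ} (h : inBox ![a, b, c] ![d, e, f] y) :
    (a < y 0 ∧ y 0 < d) ∧ (b < y 1 ∧ y 1 < e) ∧ (c < y 2 ∧ y 2 < f) := ⟨h 0, h 1, h 2⟩

lemma neLL {P : Fin 6 → ℝ} {k : Fin 8}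
    (h : ∀ j, j ≠ k → 0 < LL j ⬝ᵥ P) (j : Fin 8) (hj : j ≠ k) : LL j ⬝ᵥ P ≠ 0 := (h j hj).ne'

lemma pos1 {y : Fin 3 → ℝ} (h : inBox ![0, 0, 2] ![1, 1, 3] y) :
    LL 0 ⬝ᵥ w1 y = 0 ∧ ∀ j, j ≠ 0 → 0 < LL j ⬝ᵥ w1 y := by
  obtain ⟨⟨a1, a2⟩, ⟨b1, b2⟩, c1, c2⟩ := inBox_iff h
  constructor
  · rw [LL_zero]; rfl
  · refine LLcases (fun h => absurd rfl h) ?_ ?_ ?_ ?_ ?_ ?_ ?_ <;> intro _
    · rw [w1, LL_one, vec3_1]; exact mul_pos (by linarith) (by linarith)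
    · rw [w1, LL_two, vec3_2]; exact mul_pos (by linarith) (by linarith)
    · rw [w1, LL_three, vec3_3]; exact mul_pos (by linarith) (by linarith)
    · rw [w1, LL_four, vec3_4]; exact mul_pos (by linarith) (by linarith)
    · rw [w1, LL_five, vec3_5]; linarith
    · rw [w1, L6_vec3]; nlinarith
    · rw [w1, L7_vec3]; nlinarith

lemma pos5 {y : Fin 3 → ℝ} (h : inBox ![1, 1, 15] ![2, 2, 16] y) :
    LL 5 ⬝ᵥ w5 y = 0 ∧ ∀ j, j ≠ 5 → 0 < LL j ⬝ᵥ w5 y := by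
  obtain ⟨⟨a1, a2⟩, ⟨b1, b2⟩, c1, c2⟩ := inBox_iff h
  constructor
  · rw [w5, L5']
  · refine LLcases ?_ ?_ ?_ ?_ ?_ (fun h => absurd rfl h) ?_ ?_ <;> intro _
    · rw [w5, L0']; linarith
    · rw [w5, L1']; norm_num
    · rw [w5, L2']; linarith
    · rw [w5, L3']; linarith
    · rw [w5, L4']; nlinarith
    · rw [w5, L6']; nlinarith
    · rw [w5, L7']; nlinarith

lemma pos2 {y : Fin 3 → ℝ} (h : inBox ![5, 1, 5] ![6, 2, 6] y) :
    LL 2 ⬝ᵥ w2 y = 0 ∧ ∀ j, j ≠ 2 → 0 < LL j ⬝ᵥ w2 y := by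
  obtain ⟨⟨a1, a2⟩, ⟨b1, b2⟩, c1, c2⟩ := inBox_iff h
  constructor
  · rw [w2, L2']
  · refine LLcases ?_ ?_ (fun h => absurd rfl h) ?_ ?_ ?_ ?_ ?_ <;> intro _
    · rw [w2, L0']; norm_num
    · rw [w2, L1']; linarith
    · rw [w2, L3']; linarith
    · rw [w2, L4']; linarith
    · rw [w2, L5']; nlinarith
    · rw [w2, L6']; nlinarith
    · rw [w2, L7']; nlinarith

lemma pos3 {y : Fin 3 → ℝ} (h : inBox ![5, 1, 5] ![6, 2, 6] y) :
    LL 3 ⬝ᵥ w3 y = 0 ∧ ∀ j, j ≠ 3 → 0 < LL j ⬝ᵥ w3 y := by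
  obtain ⟨⟨a1, a2⟩, ⟨b1, b2⟩, c1, c2⟩ := inBox_iff h
  constructor
  · rw [w3, L3']
  · refine LLcases ?_ ?_ ?_ (fun h => absurd rfl h) ?_ ?_ ?_ ?_ <;> intro _
    · rw [w3, L0']; norm_num
    · rw [w3, L1']; linarith
    · rw [w3, L2']; linarith
    · rw [w3, L4']; linarith
    · rw [w3, L5']; nlinarith
    · rw [w3, L6']; nlinarith
    · rw [w3, L7']; nlinarith

lemma pos6 {y : Fin 3 → ℝ}
    (h : inBox ![57 / 100, 1 / 1000, 1 / 1000] ![3 / 5, 1 / 100, 1 / 100] y) :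
    LL 6 ⬝ᵥ w6 y = 0 ∧ ∀ j, j ≠ 6 → 0 < LL j ⬝ᵥ w6 y := by
  obtain ⟨⟨a1, a2⟩, ⟨b1, b2⟩, c1, c2⟩ := inBox_iff h
  have e1 : 0 < (y 0 - 57 / 100) * (3 / 5 - y 0) := mul_pos (by linarith) (by linarith)
  have e2 : y 0 * y 1 < 3 / 5 * (1 / 100) := by nlinarith
  have e3 : y 0 * y 2 < 3 / 5 * (1 / 100) := by nlinarith
  have e4 : y 1 * y 2 < 1 / 100 * (1 / 100) := by nlinarith
  have hP : p6 y = -3 * y 0 ^ 2 + 2 * y 0 - y 0 * y 1 - y 0 * y 2 - y 1 * y 2 := by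
    rw [p6]; ring
  have hp : 1 / 10 < p6 y := by rw [hP]; nlinarith
  constructor
  · rw [w6, L6']; ring
  · refine LLcases ?_ ?_ ?_ ?_ ?_ ?_ (fun h => absurd rfl h) ?_ <;> intro _
    · rw [w6, L0']; linarith
    · rw [w6, L1']; linarith
    · rw [w6, L2']; linarith
    · rw [w6, L3']; linarith
    · rw [w6, L4']; linarith
    · rw [w6, L5', hP]; nlinarith
    · rw [w6, L7']; linarith

lemma pos7 {y : Fin 3 → ℝ}
    (h : inBox ![109 / 100, 39 / 100, 9 / 1000] ![111 / 100, 2 / 5, 1 / 100] y) :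
    LL 7 ⬝ᵥ w7 y = 0 ∧ ∀ j, j ≠ 7 → 0 < LL j ⬝ᵥ w7 y := by
  obtain ⟨⟨a1, a2⟩, ⟨b1, b2⟩, c1, c2⟩ := inBox_iff h
  have e4 : y 1 * y 2 < 2 / 5 * (1 / 100) := by nlinarith
  have e5 : 0 < y 1 * y 2 := mul_pos (by linarith) (by linarith)
  have hP : p7 y = y 0 * (1 - 2 * y 1 - 2 * y 2) - y 1 * y 2 := by
    rw [p7]; ring
  have e6 : 109 / 100 * (18 / 100) < y 0 * (1 - 2 * y 1 - 2 * y 2) := by nlinarith
  have e7 : y 0 * (1 - 2 * y 1 - 2 * y 2) < 111 / 100 * (202 / 1000) := by nlinarith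
  have e8 : 9 / 100 * (18 / 100) < (y 0 - 1) * (1 - 2 * y 1 - 2 * y 2) := by nlinarith
  constructor
  · rw [w7, L7']; ring
  · refine LLcases ?_ ?_ ?_ ?_ ?_ ?_ ?_ (fun h => absurd rfl h) <;> intro _
    · rw [w7, L0']; linarith
    · rw [w7, L1', hP]; linarith
    · rw [w7, L2']; linarith
    · rw [w7, L3']; linarith
    · rw [w7, L4']; linarith
    · rw [w7, L5', hP]; nlinarith
    · rw [w7, L6', hP]; nlinarith

lemma quad1 (y : Fin 3 → ℝ) : w1 y 0 * w1 y 5 - w1 y 1 * w1 y 4 + w1 y 2 * w1 y 3 = 0 := by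
  rw [w1, vec3_0, vec3_1, vec3_2, vec3_3, vec3_4, vec3_5]; ring
lemma quad5 (y : Fin 3 → ℝ) : w5 y 0 * w5 y 5 - w5 y 1 * w5 y 4 + w5 y 2 * w5 y 3 = 0 := by
  simp [w5]
lemma quad2 (y : Fin 3 → ℝ) : w2 y 0 * w2 y 5 - w2 y 1 * w2 y 4 + w2 y 2 * w2 y 3 = 0 := by
  simp [w2]
lemma quad3 (y : Fin 3 → ℝ) : w3 y 0 * w3 y 5 - w3 y 1 * w3 y 4 + w3 y 2 * w3 y 3 = 0 := by
  simp [w3]
lemma quad6 (y : Fin 3 → ℝ) : w6 y 0 * w6 y 5 - w6 y 1 * w6 y 4 + w6 y 2 * w6 y 3 = 0 := by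
  simp [w6, p6]; ring
lemma quad7 (y : Fin 3 → ℝ) : w7 y 0 * w7 y 5 - w7 y 1 * w7 y 4 + w7 y 2 * w7 y 3 = 0 := by
  simp [w7, p7]; ring

/-- What is needed about each wall. -/
structure WallData (k : Fin 8) (D : ProjVar (Fin 6)) : Prop where
  dense : vanishing EG ≤ D.ideal
  le : D.ideal ≤ Ideal.span {plucker, lin (LL k)}
  notMem : ∀ j, j ≠ k → lin (LL j) ∉ D.ideal

lemma wallData_of (k : Fin 8) (hk : isWall k) (φ : Fin 6 → A3) (hne : ∃ i, φ i ≠ 0)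
    (w : (Fin 3 → ℝ) → Fin 6 → ℝ)
    (hw : ∀ y i, ((w y i : ℝ) : ℂ) = aeval (fun j => (y j : ℂ)) (φ i))
    (lo hi : Fin 3 → ℝ) (hlt : ∀ i, lo i < hi i)
    (hpos : ∀ y, inBox lo hi y → LL k ⬝ᵥ w y = 0 ∧ ∀ j, j ≠ k → 0 < LL j ⬝ᵥ w y)
    (hq : ∀ y, w y 0 * w y 5 - w y 1 * w y 4 + w y 2 * w y 3 = 0)
    (hle : (ofParam φ hne).ideal ≤ Ideal.span {plucker, lin (LL k)}) :
    WallData k (ofParam φ hne) where
  dense := vanishing_le_param φ hne EG lo hi hlt w hw fun y hy s hs =>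
    Gr_bdry (w y) k hk (hq y) (hpos y hy).1 (hpos y hy).2 s hs
  le := hle
  notMem := by
    intro j hj
    refine notMem_param φ hne w hw (LL j) (fun i => (lo i + hi i) / 2) ?_
    refine ((hpos _ ?_).2 j hj).ne'
    intro i
    have := hlt i
    constructor <;> dsimp only <;> linarith

lemma lt3 {a b c d e f : ℝ} (h1 : a < d) (h2 : b < e) (h3 : c < f) (i : Fin 3) :
    (![a, b, c] : Fin 3 → ℝ) i < (![d, e, f] : Fin 3 → ℝ) i := by
  fin_cases i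
  exacts [h1, h2, h3]

lemma wall0 : WallData 0 C1 :=
  wallData_of 0 (Or.inl rfl) φ1 φ1_ne w1 w1_ev _ _
    (lt3 (by norm_num) (by norm_num) (by norm_num)) (fun _ => pos1) quad1 C1_le
lemma wall2 : WallData 2 C2 :=
  wallData_of 2 (by unfold isWall; decide) φ2 φ2_ne w2 w2_ev _ _
    (lt3 (by norm_num) (by norm_num) (by norm_num)) (fun _ => pos2) quad2 C2_le
lemma wall3 : WallData 3 C3 :=
  wallData_of 3 (by unfold isWall; decide) φ3 φ3_ne w3 w3_ev _ _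
    (lt3 (by norm_num) (by norm_num) (by norm_num)) (fun _ => pos3) quad3 C3_le
lemma wall5 : WallData 5 C5 :=
  wallData_of 5 (by unfold isWall; decide) φ5 φ5_ne w5 w5_ev _ _
    (lt3 (by norm_num) (by norm_num) (by norm_num)) (fun _ => pos5) quad5 C5_le
lemma wall6 : WallData 6 C6 :=
  wallData_of 6 (by unfold isWall; decide) φ6 φ6_ne w6 w6_ev _ _
    (lt3 (by norm_num) (by norm_num) (by norm_num)) (fun _ => pos6) quad6 C6_le
lemma wall7 : WallData 7 C7 :=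
  wallData_of 7 (by unfold isWall; decide) φ7 φ7_ne w7 w7_ev _ _
    (lt3 (by norm_num) (by norm_num) (by norm_num)) (fun _ => pos7) quad7 C7_le

end Pool.Agent.Helper70.PG

end PartFourteen

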