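import Mathlib

set_option autoImplicit false
set_option linter.unusedSectionVars false

noncomputable section

namespace Pool.Agent.Helper70.PG

section Frac

variable {A B : Type} [CommRing A] [IsDomain A] [CommRing B] [IsDomain B]

lemma am_ne {a : A} (h : a ≠ 0) : algebraMap A (FractionRing A) a ≠ 0 := by
  simpa [FaithfulSMul.algebraMap_eq_zero_iff] using h

/-- The pairs `(p/q, r p / r q)` with `r q ≠ 0`. -/
def RedRing (r : A →+* B) : Subring (FractionRing A × FractionRing B) where
  carrier := {w | ∃ p q : A, r q ≠ 0 ∧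
    w = (algebraMap A (FractionRing A) p / algebraMap A (FractionRing A) q,
      algebraMap B (FractionRing B) (r p) / algebraMap B (FractionRing B) (r q))}
  mul_mem' := by
    rintro _ _ ⟨p, q, hq, rfl⟩ ⟨p', q', hq', rfl⟩
    refine ⟨p * p', q * q', by rw [map_mul]; exact mul_ne_zero hq hq', ?_⟩
    simp [map_mul, mul_div_mul_comm]
  one_mem' := ⟨1, 1, by simp, by simp; rfl⟩
  zero_mem' := ⟨0, 1, by simp, by simp; rfl⟩
  add_mem' := by
    rintro _ _ ⟨p, q, hq, rfl⟩ ⟨p', q', hq', rfl⟩
    refine ⟨p * q' + q * p', q * q', by rw [map_mul]; exact mul_ne_zero hq hq', ?_⟩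
    have h1 : q ≠ 0 := fun h => hq (by rw [h, map_zero])
    have h2 : q' ≠ 0 := fun h => hq' (by rw [h, map_zero])
    simp only [Prod.mk_add_mk, map_add, map_mul]
    rw [div_add_div _ _ (am_ne h1) (am_ne h2), div_add_div _ _ (am_ne hq) (am_ne hq')]
  neg_mem' := by
    rintro _ ⟨p, q, hq, rfl⟩
    refine ⟨-p, q, hq, by simp [neg_div]⟩

variable {r : A →+* B}

lemma redRing_div (p : A) {q : A} (hq : r q ≠ 0) :
    (algebraMap A (FractionRing A) p / algebraMap A (FractionRing A) q,
      algebraMap B (FractionRing B) (r p) / algebraMap B (FractionRing B) (r q)) ∈ RedRing r :=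
  ⟨p, q, hq, rfl⟩

lemma redRing_map (p : A) :
    (algebraMap A (FractionRing A) p, algebraMap B (FractionRing B) (r p)) ∈ RedRing r :=
  ⟨p, 1, by simp, by simp⟩

lemma redRing_zero {v : FractionRing B} (h : ((0 : FractionRing A), v) ∈ RedRing r) : v = 0 := by
  obtain ⟨p, q, hq, h⟩ := h
  rw [Prod.mk.injEq] at h
  have h1 : q ≠ 0 := fun h => hq (by rw [h, map_zero])
  have h2 : p = 0 := by
    by_contra hp
    exact div_ne_zero (am_ne hp) (am_ne h1) h.1.symm
  rw [h.2, h2]; simp

lemma redRing_unique {u : FractionRing A} {v v' : FractionRing B} (h : (u, v) ∈ RedRing r)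
    (h' : (u, v') ∈ RedRing r) : v = v' := by
  have := (RedRing r).sub_mem h h'
  rw [Prod.mk_sub_mk, sub_self] at this
  exact sub_eq_zero.1 (redRing_zero this)

lemma redRing_inv {u : FractionRing A} {v : FractionRing B} (h : (u, v) ∈ RedRing r)
    (hv : v ≠ 0) : (u⁻¹, v⁻¹) ∈ RedRing r := by
  obtain ⟨p, q, hq, h⟩ := h
  rw [Prod.mk.injEq] at h
  have hp : r p ≠ 0 := by
    intro hp
    apply hv
    rw [h.2, hp]; simp
  exact ⟨q, p, hp, by rw [h.1, h.2, inv_div, inv_div]⟩

variable [Algebra ℂ A] [Algebra ℂ B]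

/-- quotient rule -/
def fracDerFun (δ : Derivation ℂ A A) (u : FractionRing A) : FractionRing A :=
  let s := IsLocalization.sec (nonZeroDivisors A) u
  algebraMap A (FractionRing A) (δ s.1 * s.2 - s.1 * δ (s.2 : A)) /
    algebraMap A (FractionRing A) ((s.2 : A) ^ 2)

lemma fracDerFun_div (δ : Derivation ℂ A A) (p q : A) (hq : q ≠ 0) :
    fracDerFun δ (algebraMap A (FractionRing A) p / algebraMap A (FractionRing A) q) =
    algebraMap A (FractionRing A) (δ p * q - p * δ q) / algebraMap A (FractionRing A) (q ^ 2) := by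
  unfold fracDerFun
  set u := algebraMap A (FractionRing A) p / algebraMap A (FractionRing A) q with hu
  set s := IsLocalization.sec (nonZeroDivisors A) u with hs
  have hs2 : (s.2 : A) ≠ 0 := nonZeroDivisors.ne_zero s.2.2
  have h1 : u * algebraMap A (FractionRing A) (s.2 : A) = algebraMap A (FractionRing A) s.1 :=
    IsLocalization.sec_spec (nonZeroDivisors A) u
  have h2 : p * (s.2 : A) = s.1 * q := by
    apply IsFractionRing.injective A (FractionRing A)
    rw [map_mul, map_mul, ← h1, hu]
    field_simp [am_ne hq]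
  have h3 : δ (p * (s.2 : A)) = δ (s.1 * q) := by rw [h2]
  rw [Derivation.leibniz, Derivation.leibniz] at h3
  simp only [smul_eq_mul] at h3
  rw [div_eq_div_iff (am_ne (pow_ne_zero 2 hs2)) (am_ne (pow_ne_zero 2 hq)), ← map_mul, ← map_mul]
  congr 1
  linear_combination (-(s.2 : A) * q) * h3 + (δ (s.2 : A) * q + (s.2 : A) * δ q) * h2

/-- Extension of a derivation to the fraction field. -/
def fracDer (δ : Derivation ℂ A A) : Derivation ℂ (FractionRing A) (FractionRing A) :=
  Derivation.mk'
    { toFun := fracDerFun δ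
      map_add' := by
        intro u v
        obtain ⟨p, q, hq, rfl⟩ := IsFractionRing.div_surjective (A := A) u
        obtain ⟨p', q', hq', rfl⟩ := IsFractionRing.div_surjective (A := A) v
        have hq := nonZeroDivisors.ne_zero hq
        have hq' := nonZeroDivisors.ne_zero hq'
        rw [div_add_div _ _ (am_ne hq) (am_ne hq')]
        simp only [← map_mul, ← map_add]
        rw [fracDerFun_div _ _ _ hq, fracDerFun_div _ _ _ hq',
          fracDerFun_div _ _ _ (mul_ne_zero hq hq'),
          div_add_div _ _ (am_ne (pow_ne_zero 2 hq)) (am_ne (pow_ne_zero 2 hq')),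
          div_eq_div_iff (am_ne (pow_ne_zero 2 (mul_ne_zero hq hq')))
            (mul_ne_zero (am_ne (pow_ne_zero 2 hq)) (am_ne (pow_ne_zero 2 hq')))]
        simp only [← map_mul, ← map_add]
        congr 1
        simp only [map_add, Derivation.leibniz, smul_eq_mul]
        ring
      map_smul' := by
        intro c u
        obtain ⟨p, q, hq, rfl⟩ := IsFractionRing.div_surjective (A := A) u
        have hq := nonZeroDivisors.ne_zero hq
        have : c • (algebraMap A (FractionRing A) p / algebraMap A (FractionRing A) q) =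
          algebraMap A (FractionRing A) (c • p) / algebraMap A (FractionRing A) q := by
          rw [Algebra.smul_def, Algebra.smul_def, map_mul,
            IsScalarTower.algebraMap_apply ℂ A (FractionRing A), mul_div_assoc]
        rw [this, fracDerFun_div _ _ _ hq, fracDerFun_div _ _ _ hq, RingHom.id_apply,
          Derivation.map_smul, smul_mul_assoc, smul_mul_assoc, ← smul_sub, Algebra.smul_def,
          Algebra.smul_def, map_mul, IsScalarTower.algebraMap_apply ℂ A (FractionRing A),
          mul_div_assoc] }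
    (by
      intro u v
      obtain ⟨p, q, hq, rfl⟩ := IsFractionRing.div_surjective (A := A) u
      obtain ⟨p', q', hq', rfl⟩ := IsFractionRing.div_surjective (A := A) v
      have hq := nonZeroDivisors.ne_zero hq
      have hq' := nonZeroDivisors.ne_zero hq'
      simp only [LinearMap.coe_mk, AddHom.coe_mk, smul_eq_mul]
      rw [div_mul_div_comm]
      simp only [← map_mul]
      rw [fracDerFun_div _ _ _ hq, fracDerFun_div _ _ _ hq',
        fracDerFun_div _ _ _ (mul_ne_zero hq hq')]
      simp only [Derivation.leibniz, smul_eq_mul]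
      simp only [map_mul, map_add, map_sub, map_pow]
      field_simp [am_ne hq, am_ne hq']
      ring)

lemma fracDer_div (δ : Derivation ℂ A A) (p q : A) (hq : q ≠ 0) :
    fracDer δ (algebraMap A (FractionRing A) p / algebraMap A (FractionRing A) q) =
    algebraMap A (FractionRing A) (δ p * q - p * δ q) / algebraMap A (FractionRing A) (q ^ 2) :=
  fracDerFun_div δ p q hq

lemma fracDer_map (δ : Derivation ℂ A A) (p : A) :
    fracDer δ (algebraMap A (FractionRing A) p) = algebraMap A (FractionRing A) (δ p) := by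
  have := fracDer_div δ p 1 one_ne_zero
  simpa using this

lemma redRing_der {δ : Derivation ℂ A A} {ε : Derivation ℂ B B} (h : ∀ a, r (δ a) = ε (r a))
    {u : FractionRing A} {v : FractionRing B} (huv : (u, v) ∈ RedRing r) :
    (fracDer δ u, fracDer ε v) ∈ RedRing r := by
  obtain ⟨p, q, hq, huv⟩ := huv
  rw [Prod.mk.injEq] at huv
  have hq1 : q ≠ 0 := fun h => hq (by rw [h, map_zero])
  refine ⟨δ p * q - p * δ q, q ^ 2, by rw [map_pow]; exact pow_ne_zero 2 hq, ?_⟩
  rw [huv.1, huv.2, fracDer_div _ _ _ hq1, fracDer_div _ _ _ hq]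
  simp [h]

lemma redRing_der' (δ : Derivation ℂ A A)
    {u : FractionRing A} {v : FractionRing B} (huv : (u, v) ∈ RedRing r) :
    ∃ w, (fracDer δ u, w) ∈ RedRing r := by
  obtain ⟨p, q, hq, huv⟩ := huv
  rw [Prod.mk.injEq] at huv
  have hq1 : q ≠ 0 := fun h => hq (by rw [h, map_zero])
  refine ⟨algebraMap B (FractionRing B) (r (δ p * q - p * δ q)) /
    algebraMap B (FractionRing B) (r (q ^ 2)),
    δ p * q - p * δ q, q ^ 2, by rw [map_pow]; exact pow_ne_zero 2 hq, ?_⟩
  rw [huv.1, fracDer_div _ _ _ hq1]

/-- First projection of `RedRing`. -/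
def LocRing (r : A →+* B) : Subring (FractionRing A) := (RedRing r).map (RingHom.fst _ _)

lemma mem_locRing {u : FractionRing A} : u ∈ LocRing r ↔ ∃ v, (u, v) ∈ RedRing r := by
  constructor
  · rintro ⟨⟨a, b⟩, h, rfl⟩
    exact ⟨b, h⟩
  · rintro ⟨v, h⟩
    exact ⟨(u, v), h, rfl⟩

lemma locRing_map (p : A) : algebraMap A (FractionRing A) p ∈ LocRing r :=
  mem_locRing.2 ⟨_, redRing_map p⟩

lemma locRing_der (δ : Derivation ℂ A A) {u : FractionRing A} (hu : u ∈ LocRing r) :
    fracDer δ u ∈ LocRing r := by
  obtain ⟨v, h⟩ := mem_locRing.1 hu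
  exact mem_locRing.2 (redRing_der' δ h)

end Frac

/-- An element of the fraction field of a UFD lying in all the localizations at primes is
integral. -/
lemma mem_of_forall_prime {A : Type} [CommRing A] [IsDomain A] [UniqueFactorizationMonoid A]
    (u : FractionRing A)
    (h : ∀ π : A, Prime π → ∃ p q : A, ¬ π ∣ q ∧
      u = algebraMap A (FractionRing A) p / algebraMap A (FractionRing A) q) :
    ∃ a : A, u = algebraMap A (FractionRing A) a := by
  obtain ⟨a, b, hab, hu⟩ := IsFractionRing.exists_reduced_fraction (A := A) u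
  have hb : IsUnit (b : A) := by
    by_contra hb
    obtain ⟨π, hπ, hdvd⟩ := WfDvdMonoid.exists_irreducible_factor hb
      (nonZeroDivisors.ne_zero b.2)
    have hπ' := hπ.prime
    obtain ⟨p, q, hq, hpq⟩ := h π hπ'
    have hq0 : q ≠ 0 := fun h => hq (h ▸ dvd_zero π)
    have : a * q = p * b := by
      apply IsFractionRing.injective A (FractionRing A)
      have h1 : algebraMap A (FractionRing A) a = u * algebraMap A (FractionRing A) b := by
        rw [← hu]; exact (IsLocalization.mk'_spec _ _ _).symm
      rw [map_mul, map_mul, h1, hpq]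
      field_simp [am_ne hq0]
    have h2 : π ∣ a * q := this ▸ (hdvd.mul_left p)
    rcases hπ'.dvd_or_dvd h2 with h3 | h3
    · exact hπ.not_isUnit (hab h3 hdvd)
    · exact hq h3
  obtain ⟨c, hc⟩ := hb
  refine ⟨a * (c⁻¹ : Aˣ), ?_⟩
  have h1 : algebraMap A (FractionRing A) a = u * algebraMap A (FractionRing A) b := by
    rw [← hu]; exact (IsLocalization.mk'_spec _ _ _).symm
  rw [map_mul, h1, ← hc, mul_assoc, ← map_mul, Units.mul_inv, map_one, mul_one]

end Pool.Agent.Helper70.PG
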