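import Pool.Agent.Helper70.PGEleven

set_option autoImplicit false

noncomputable section

open MvPolynomial Topology

namespace Pool.Agent.Helper70.PG

/-- The eight linear forms: the six Plücker coordinates `p₁₂, p₁₃, p₁₄, p₂₃, p₂₄, p₃₄` and the
forms with coefficient vectors `h₁`, `h₂`. -/
def forms (h₁ h₂ : Fin 6 → ℝ) : Fin 8 → Fin 6 → ℝ :=
  ![![1, 0, 0, 0, 0, 0], ![0, 1, 0, 0, 0, 0], ![0, 0, 1, 0, 0, 0], ![0, 0, 0, 1, 0, 0],
    ![0, 0, 0, 0, 1, 0], ![0, 0, 0, 0, 0, 1], h₁, h₂]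

/-- The set `S` of real points of the Grassmannian having a representative at which all eight
forms are nonnegative. -/
def hexahedron (h₁ h₂ : Fin 6 → ℝ) : Set (Fin 6 → ℝ) :=
  {v | v ∈ realPts Gr24 ∧
    ((∀ k, 0 ≤ forms h₁ h₂ k ⬝ᵥ v) ∨ ∀ k, forms h₁ h₂ k ⬝ᵥ v ≤ 0)}

/-- The cone over the polytope `𝒫_S` cut out by the eight inequalities. -/
def polytopeCone (h₁ h₂ : Fin 6 → ℝ) : Set (Fin 6 → ℝ) :=
  {v | ∀ k, 0 ≤ forms h₁ h₂ k ⬝ᵥ v}

/-- The (cones over the) facets of `𝒫_S`: the subsets cut out by a supporting hyperplane that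
span a hyperplane. -/
def polytopeFacets (h₁ h₂ : Fin 6 → ℝ) : Set (Set (Fin 6 → ℝ)) :=
  {F | (∃ a : Fin 6 → ℝ, (∀ v ∈ polytopeCone h₁ h₂, 0 ≤ a ⬝ᵥ v) ∧
      F = {v | v ∈ polytopeCone h₁ h₂ ∧ a ⬝ᵥ v = 0}) ∧
    Module.finrank ℝ (Submodule.span ℝ F) = 5}

/-- `S` is a positive hexahedron: `𝒫_S` has eight facets and `S` has six facets. -/
def IsPositiveHexahedron (h₁ h₂ : Fin 6 → ℝ) : Prop :=
  (polytopeFacets h₁ h₂).ncard = 8 ∧
    (boundaryComponents Gr24 (hexahedron h₁ h₂)).ncard = 6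

end Pool.Agent.Helper70.PG
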