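import Pool.Agent.Helper70.PGFrac

set_option autoImplicit false
set_option linter.unusedSectionVars false

noncomputable section

open Polynomial

namespace Pool.Agent.Helper70.PG

/-! ### Properness at infinity -/


/-- Rational functions of degree at most `-k`. -/
def ProperFrac (k : ℕ) (u : FractionRing ℂ[X]) : Prop :=
  ∃ p q : ℂ[X], q ≠ 0 ∧ u = algebraMap ℂ[X] (FractionRing ℂ[X]) p /
    algebraMap ℂ[X] (FractionRing ℂ[X]) q ∧ p.degree + k ≤ q.degree

lemma ProperFrac.add {k : ℕ} {u v : FractionRing ℂ[X]} (hu : ProperFrac k u)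
    (hv : ProperFrac k v) : ProperFrac k (u + v) := by
  obtain ⟨p, q, hq, rfl, h⟩ := hu
  obtain ⟨p', q', hq', rfl, h'⟩ := hv
  refine ⟨p * q' + q * p', q * q', mul_ne_zero hq hq', ?_, ?_⟩
  · rw [div_add_div _ _ (am_ne hq) (am_ne hq')]
    simp only [map_add, map_mul]
  · rw [degree_mul]
    have h1 : (p * q').degree + k ≤ q.degree + q'.degree := by
      rw [degree_mul, add_right_comm]; exact add_le_add_left h _
    have h2 : (q * p').degree + k ≤ q.degree + q'.degree := by
      rw [degree_mul, add_assoc]; exact add_le_add_right h' _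
    have h3 := degree_add_le (p * q') (q * p')
    calc (p * q' + q * p').degree + k ≤ max (p * q').degree (q * p').degree + k :=
          add_le_add_left h3 _
      _ ≤ q.degree + q'.degree := by
          rcases max_cases (p * q').degree (q * p').degree with ⟨h4, _⟩ | ⟨h4, _⟩ <;>
            rw [h4] <;> assumption

lemma ProperFrac.neg {k : ℕ} {u : FractionRing ℂ[X]} (hu : ProperFrac k u) :
    ProperFrac k (-u) := by
  obtain ⟨p, q, hq, rfl, h⟩ := hu
  exact ⟨-p, q, hq, by rw [map_neg]; exact (neg_div _ _).symm, by rwa [degree_neg]⟩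

lemma ProperFrac.zero (k : ℕ) : ProperFrac k 0 :=
  ⟨0, 1, one_ne_zero, by simp, by simp⟩

lemma ProperFrac.mul {k : ℕ} {u v : FractionRing ℂ[X]} (hu : ProperFrac 0 u)
    (hv : ProperFrac k v) : ProperFrac k (u * v) := by
  obtain ⟨p, q, hq, rfl, h⟩ := hu
  obtain ⟨p', q', hq', rfl, h'⟩ := hv
  refine ⟨p * p', q * q', mul_ne_zero hq hq', ?_, ?_⟩
  · rw [div_mul_div_comm, map_mul, map_mul]
  · rw [degree_mul, degree_mul, add_assoc]
    rw [Nat.cast_zero, add_zero] at h
    exact add_le_add h h'

lemma degree_euler_lt (p : ℂ[X]) (n : ℕ) (h : p.natDegree ≤ n) :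
    (X * derivative p - C (n : ℂ) * p).degree < (n : WithBot ℕ) := by
  rw [degree_lt_iff_coeff_zero]
  intro m hm
  rw [coeff_sub, coeff_C_mul]
  rcases m with _ | m
  · have : n = 0 := by omega
    subst this
    simp
  · rw [coeff_X_mul, coeff_derivative]
    rcases Nat.lt_or_ge n (m + 1) with h1 | h1
    · rw [coeff_eq_zero_of_natDegree_lt (by omega)]; simp
    · have : n = m + 1 := by omega
      subst this
      push_cast
      ring

lemma ProperFrac.der {u : FractionRing ℂ[X]} (p q : ℂ[X]) (n : ℕ)
    (hq : q.natDegree = n) (hq0 : q ≠ 0) (hp : p.natDegree ≤ n)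
    (hu : u = algebraMap ℂ[X] (FractionRing ℂ[X]) p / algebraMap ℂ[X] (FractionRing ℂ[X]) q) :
    ProperFrac 2 (fracDer (derivative' : Derivation ℂ ℂ[X] ℂ[X]) u) := by
  refine ⟨derivative p * q - p * derivative q, q ^ 2, pow_ne_zero 2 hq0, ?_, ?_⟩
  · rw [hu, fracDer_div _ _ _ hq0]
    simp [derivative'_apply]
  · set R := derivative p * q - p * derivative q with hR
    by_cases hR0 : R = 0
    · rw [hR0]; simp
    have h1 : X * R = (X * derivative p - C (n : ℂ) * p) * q -
        p * (X * derivative q - C (n : ℂ) * q) := by rw [hR]; ring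
    have hqd : q.degree = n := by rw [degree_eq_natDegree hq0, hq]
    have hpd : p.degree ≤ n := degree_le_of_natDegree_le hp
    have h2 : (X * R).degree < ((2 * n : ℕ) : WithBot ℕ) := by
      rw [h1]
      refine lt_of_le_of_lt (degree_sub_le _ _) (max_lt ?_ ?_)
      · rw [degree_mul, hqd]
        calc (X * derivative p - C (n : ℂ) * p).degree + (n : WithBot ℕ)
            < (n : WithBot ℕ) + n :=
              WithBot.add_lt_add_right (by simp) (degree_euler_lt p n hp)
          _ = ((2 * n : ℕ) : WithBot ℕ) := by rw [two_mul]; rfl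
      · rw [degree_mul]
        calc p.degree + (X * derivative q - C (n : ℂ) * q).degree
            ≤ (n : WithBot ℕ) + (X * derivative q - C (n : ℂ) * q).degree :=
              add_le_add_left hpd _
          _ < (n : WithBot ℕ) + n :=
              WithBot.add_lt_add_left (by simp) (degree_euler_lt q n hq.le)
          _ = ((2 * n : ℕ) : WithBot ℕ) := by rw [two_mul]; rfl
    have h3 : (X * R).natDegree = R.natDegree + 1 := natDegree_X_mul hR0
    have h4 : (X * R).natDegree < 2 * n := by
      have : X * R ≠ 0 := mul_ne_zero X_ne_zero hR0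
      rwa [degree_eq_natDegree this, Nat.cast_lt] at h2
    rw [degree_eq_natDegree hR0, degree_eq_natDegree (pow_ne_zero 2 hq0), natDegree_pow, hq]
    have : R.natDegree + 2 ≤ 2 * n := by omega
    exact_mod_cast this


end Pool.Agent.Helper70.PG
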