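import Pool.Agent.Helper70.PGDefs
import Pool.Agent.Helper70.PGFrac
import Pool.Agent.Helper70.PGProper

set_option autoImplicit false
set_option linter.unusedSectionVars false

noncomputable section PartChart

open MvPolynomial

namespace Pool.Agent.Helper70.PG

variable {σ : Type}

/-- An affine chart of a projective variety with coordinate ring `A`. -/
structure Chart (V : ProjVar σ) (A : Type) [CommRing A] [Algebra ℂ A] where
  φ : σ → A
  mem_iff : ∀ (n : ℕ) (f : MvPolynomial σ ℂ), f.IsHomogeneous n →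
    (f ∈ V.ideal ↔ aeval φ f = 0)
  ℓ : MvPolynomial σ ℂ
  ℓ_hom : ℓ.IsHomogeneous 1
  ℓ_one : aeval φ ℓ = 1
  surj : ∀ p : A, ∃ (n : ℕ) (f : MvPolynomial σ ℂ), f.IsHomogeneous n ∧ aeval φ f = p

namespace Chart

variable {V W : ProjVar σ} {A B : Type} [CommRing A] [IsDomain A] [Algebra ℂ A]
  [CommRing B] [IsDomain B] [Algebra ℂ B]

/-- `w` is the value of the rational function `z` in the chart. -/
def Rep (c : Chart V A) (z : FunField V) (w : FractionRing A) : Prop :=
  ∃ (n : ℕ) (f g : MvPolynomial σ ℂ), f.IsHomogeneous n ∧ g.IsHomogeneous n ∧ g ∉ V.ideal ∧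
    (z : funField V).1 = toCone V f / toCone V g ∧
    w = algebraMap A (FractionRing A) (aeval c.φ f) / algebraMap A (FractionRing A) (aeval c.φ g)

lemma exists_rep (c : Chart V A) (z : FunField V) : ∃ w, c.Rep z w := by
  obtain ⟨z, n, f, g, hf, hg, hg0, hz⟩ := z
  exact ⟨_, n, f, g, hf, hg, hg0, hz, rfl⟩

lemma toCone_ne (V : ProjVar σ) {g : MvPolynomial σ ℂ} (h : g ∉ V.ideal) : toCone V g ≠ 0 :=
  fun h' => h ((toCone_eq_zero_iff V g).1 h')

lemma aeval_ne (c : Chart V A) {n : ℕ} {g : MvPolynomial σ ℂ} (hg : g.IsHomogeneous n)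
    (h : g ∉ V.ideal) : aeval c.φ g ≠ 0 :=
  fun h' => h ((c.mem_iff n g hg).2 h')

lemma rep_unique (c : Chart V A) {z : FunField V} {w w' : FractionRing A} (h : c.Rep z w)
    (h' : c.Rep z w') : w = w' := by
  obtain ⟨n, f, g, hf, hg, hg0, hz, rfl⟩ := h
  obtain ⟨n', f', g', hf', hg', hg0', hz', rfl⟩ := h'
  rw [div_eq_div_iff (am_ne (c.aeval_ne hg hg0)) (am_ne (c.aeval_ne hg' hg0')), ← map_mul,
    ← map_mul, ← map_mul, ← map_mul]
  congr 1
  rw [← sub_eq_zero, ← map_sub]
  refine (c.mem_iff (n + n') _ ?_).1 ?_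
  · exact (hf.mul hg').sub (by rw [add_comm]; exact hf'.mul hg)
  · rw [← toCone_eq_zero_iff, map_sub, map_mul, map_mul, sub_eq_zero,
      ← div_eq_div_iff (toCone_ne V hg0) (toCone_ne V hg0'), ← hz, ← hz']

/-- The value of a rational function in a chart. -/
def κFun (c : Chart V A) (z : FunField V) : FractionRing A := Classical.choose (c.exists_rep z)

lemma κFun_eq (c : Chart V A) {z : FunField V} {w : FractionRing A} (h : c.Rep z w) :
    c.κFun z = w :=
  c.rep_unique (Classical.choose_spec (c.exists_rep z)) h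

lemma κFun_rep (c : Chart V A) (z : FunField V) : c.Rep z (c.κFun z) :=
  Classical.choose_spec (c.exists_rep z)

/-- The embedding of the function field in the fraction field of the coordinate ring of a
chart. -/
def κHom (c : Chart V A) : FunField V →ₐ[ℂ] FractionRing A where
  toFun := c.κFun
  map_one' := c.κFun_eq ⟨0, 1, 1, isHomogeneous_one _ _, isHomogeneous_one _ _,
    fun h => V.prime.ne_top ((Ideal.eq_top_iff_one _).2 h), by simp; rfl, by simp⟩
  map_zero' := c.κFun_eq ⟨0, 0, 1, isHomogeneous_zero _ _ _, isHomogeneous_one _ _,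
    fun h => V.prime.ne_top ((Ideal.eq_top_iff_one _).2 h), by simp; rfl, by simp⟩
  map_mul' := by
    intro z z'
    obtain ⟨n, f, g, hf, hg, hg0, hz, hw⟩ := c.κFun_rep z
    obtain ⟨n', f', g', hf', hg', hg0', hz', hw'⟩ := c.κFun_rep z'
    apply c.κFun_eq
    refine ⟨n + n', f * f', g * g', hf.mul hf', hg.mul hg', ?_, ?_, ?_⟩
    · intro h
      rcases V.prime.mem_or_mem h with h | h
      exacts [hg0 h, hg0' h]
    · change (z : funField V).1 * (z' : funField V).1 = _
      rw [hz, hz', map_mul, map_mul, div_mul_div_comm]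
    · rw [hw, hw', map_mul, map_mul, map_mul, map_mul, div_mul_div_comm]
  map_add' := by
    intro z z'
    obtain ⟨n, f, g, hf, hg, hg0, hz, hw⟩ := c.κFun_rep z
    obtain ⟨n', f', g', hf', hg', hg0', hz', hw'⟩ := c.κFun_rep z'
    apply c.κFun_eq
    refine ⟨n + n', f * g' + g * f', g * g', (hf.mul hg').add (hg.mul hf'), hg.mul hg',
      ?_, ?_, ?_⟩
    · intro h
      rcases V.prime.mem_or_mem h with h | h
      exacts [hg0 h, hg0' h]
    · change (z : funField V).1 + (z' : funField V).1 = _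
      rw [hz, hz', map_add, map_mul, map_mul, map_mul,
        div_add_div _ _ (toCone_ne V hg0) (toCone_ne V hg0')]
    · rw [hw, hw', div_add_div _ _ (am_ne (c.aeval_ne hg hg0)) (am_ne (c.aeval_ne hg' hg0'))]
      simp only [map_add, map_mul]
  commutes' := by
    intro r
    apply c.κFun_eq
    refine ⟨0, C r, 1, isHomogeneous_C _ _, isHomogeneous_one _ _,
      fun h => V.prime.ne_top ((Ideal.eq_top_iff_one _).2 h), ?_, ?_⟩
    · change toCone V (C r) = _
      rw [map_one, div_one]
    · rw [map_one, map_one, div_one, ← algebraMap_eq, AlgHom.commutes,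
        ← IsScalarTower.algebraMap_apply]

lemma κHom_bijective (c : Chart V A) : Function.Bijective c.κHom := by
  refine ⟨c.κHom.toRingHom.injective, fun u => ?_⟩
  obtain ⟨p, q, hq, rfl⟩ := IsFractionRing.div_surjective (A := A) u
  obtain ⟨n, f, hf, rfl⟩ := c.surj p
  obtain ⟨m, g, hg, rfl⟩ := c.surj q
  have hq0 : aeval c.φ g ≠ 0 := nonZeroDivisors.ne_zero hq
  have hfh : (c.ℓ ^ m * f).IsHomogeneous (m + n) := by
    simpa using (c.ℓ_hom.pow m).mul hf
  have hgh : (c.ℓ ^ n * g).IsHomogeneous (m + n) := by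
    rw [add_comm]; simpa using (c.ℓ_hom.pow n).mul hg
  have hne : c.ℓ ^ n * g ∉ V.ideal := by
    rw [c.mem_iff _ _ hgh, map_mul, map_pow, c.ℓ_one, one_pow, one_mul]
    exact hq0
  refine ⟨⟨toCone V (c.ℓ ^ m * f) / toCone V (c.ℓ ^ n * g), m + n, _, _, hfh, hgh, hne, rfl⟩,
    c.κFun_eq ⟨m + n, _, _, hfh, hgh, hne, rfl, ?_⟩⟩
  have e1 : aeval c.φ (c.ℓ ^ m * f) = aeval c.φ f := by
    rw [map_mul, map_pow, c.ℓ_one, one_pow, one_mul]
  have e2 : aeval c.φ (c.ℓ ^ n * g) = aeval c.φ g := by
    rw [map_mul, map_pow, c.ℓ_one, one_pow, one_mul]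
  rw [e1, e2]

/-- The isomorphism of the function field with the fraction field of the coordinate ring of a
chart. -/
def κ (c : Chart V A) : FunField V ≃ₐ[ℂ] FractionRing A :=
  AlgEquiv.ofBijective c.κHom c.κHom_bijective

lemma κ_res (c : Chart V A) (a : LocFrac W) (h : V.ideal ≤ W.ideal) :
    c.κ (a.res V h) = algebraMap A (FractionRing A) (aeval c.φ a.num) /
      algebraMap A (FractionRing A) (aeval c.φ a.den) :=
  c.κFun_eq ⟨a.deg, a.num, a.den, a.num_homog, a.den_homog, fun h' => a.den_notMem (h h'),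
    rfl, rfl⟩

end Chart

/-- Transport of a derivation. -/
def pullDer {K F : Type} [Field K] [Field F] [Algebra ℂ K] [Algebra ℂ F] (e : K ≃ₐ[ℂ] F)
    (δ : Derivation ℂ F F) : Derivation ℂ K K :=
  Derivation.mk' (e.symm.toLinearMap ∘ₗ δ.toLinearMap ∘ₗ e.toLinearMap) (by
    intro a b
    change e.symm (δ (e (a * b))) = a • e.symm (δ (e b)) + b • e.symm (δ (e a))
    rw [map_mul, Derivation.leibniz, map_add, smul_eq_mul, smul_eq_mul, map_mul, map_mul,
      AlgEquiv.symm_apply_apply, AlgEquiv.symm_apply_apply, smul_eq_mul, smul_eq_mul])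

lemma apply_pullDer {K F : Type} [Field K] [Field F] [Algebra ℂ K] [Algebra ℂ F] (e : K ≃ₐ[ℂ] F)
    (δ : Derivation ℂ F F) (x : K) : e (pullDer e δ x) = δ (e x) := by
  change e (e.symm (δ (e x))) = _
  rw [AlgEquiv.apply_symm_apply]

/-- The value of a rational form on a frame of derivations of the chart. -/
def coef {V : ProjVar σ} {F : Type} [Field F] [Algebra ℂ F] (κ : FunField V ≃ₐ[ℂ] F) {d : ℕ}
    (δ : Fin d → Derivation ℂ F F) : RatForm V d →+ F where
  toFun ω := κ (ω fun j => pullDer κ (δ j))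
  map_zero' := by
    change κ 0 = 0
    rw [map_zero]
  map_add' ω ω' := by
    change κ (ω _ + ω' _) = _
    rw [map_add]

lemma coef_wedge {V : ProjVar σ} {F : Type} [Field F] [Algebra ℂ F]
    (κ : FunField V ≃ₐ[ℂ] F) {d : ℕ} (δ : Fin d → Derivation ℂ F F) (f : FunField V)
    (b : Fin d → FunField V) :
    coef κ δ (wedge f b) = κ f * Matrix.det (Matrix.of fun i j => δ j (κ (b i))) := by
  change κ (f * Matrix.det (Matrix.of fun i j => pullDer κ (δ j) (b i))) = _
  rw [map_mul, AlgEquiv.map_det]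
  congr 2
  ext i j
  simp [AlgEquiv.mapMatrix_apply, apply_pullDer]

end Pool.Agent.Helper70.PG

end PartChart

noncomputable section PartResidue

open MvPolynomial

namespace Pool.Agent.Helper70.PG

variable {σ : Type}

lemma det_mem_subring {R : Type} [CommRing R] (S : Subring R) {n : ℕ}
    (M : Matrix (Fin n) (Fin n) R) (h : ∀ i j, M i j ∈ S) : M.det ∈ S := by
  rw [Matrix.det_apply]
  refine S.sum_mem fun τ _ => ?_
  have hp : ∏ i, M (τ i) i ∈ S := S.prod_mem fun i _ => h _ _
  rcases Int.units_eq_one_or (Equiv.Perm.sign τ) with h1 | h1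
  · rw [h1, one_smul]; exact hp
  · rw [h1]
    simpa using S.neg_mem hp

lemma det_pair_mem {R R' : Type} [CommRing R] [CommRing R'] (S : Subring (R × R')) {n : ℕ}
    (M : Matrix (Fin n) (Fin n) R) (N : Matrix (Fin n) (Fin n) R')
    (h : ∀ i j, (M i j, N i j) ∈ S) : (M.det, N.det) ∈ S := by
  have h1 := det_mem_subring S (Matrix.of fun i j => (M i j, N i j)) h
  have h2 : (Matrix.of fun i j => (M i j, N i j)).det = (M.det, N.det) := by
    ext
    · have := RingHom.map_det (RingHom.fst R R') (Matrix.of fun i j => (M i j, N i j))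
      simp only [RingHom.coe_fst] at this
      rw [this]; rfl
    · have := RingHom.map_det (RingHom.snd R R') (Matrix.of fun i j => (M i j, N i j))
      simp only [RingHom.coe_snd] at this
      rw [this]; rfl
  rwa [h2] at h1

namespace Chart

variable {V W : ProjVar σ} {A B : Type} [CommRing A] [IsDomain A] [Algebra ℂ A]
  [CommRing B] [IsDomain B] [Algebra ℂ B]

/-- Compatibility of charts: the chart of the divisor `W` is the restriction of that of `V`
along `r`, whose kernel is generated by `π`. -/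
structure Compat (c : Chart V A) (c' : Chart W B) (r : A →ₐ[ℂ] B) (π : A) : Prop where
  φ_eq : ∀ i, c'.φ i = r (c.φ i)
  r_π : r π = 0
  dvd : ∀ a, r a = 0 → π ∣ a

variable {c : Chart V A} {c' : Chart W B} {r : A →ₐ[ℂ] B} {π : A}

lemma Compat.aeval_eq (H : Compat c c' r π) (f : MvPolynomial σ ℂ) :
    aeval c'.φ f = r (aeval c.φ f) := by
  have : c'.φ = fun i => r (c.φ i) := funext H.φ_eq
  rw [this]
  exact (map_aeval c.φ r.toRingHom f ▸ by
    induction f using MvPolynomial.induction_on with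
    | C a => simp
    | add p q hp hq => simp_all
    | mul_X p i hp => simp_all)

lemma Compat.κ_pair (H : Compat c c' r π) (h : V.ideal ≤ W.ideal) (a : LocFrac W) :
    (c.κ (a.res V h), c'.κ (a.res W le_rfl)) ∈ RedRing (r : A →+* B) := by
  rw [κ_res, κ_res, H.aeval_eq, H.aeval_eq]
  refine redRing_div (r := (r : A →+* B)) _ ?_
  have := c'.aeval_ne a.den_homog a.den_notMem
  rw [H.aeval_eq] at this
  exact this

lemma Compat.pi_pair (H : Compat c c' r π) :
    (algebraMap A (FractionRing A) π, (0 : FractionRing B)) ∈ RedRing (r : A →+* B) := by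
  have := redRing_map (r := (r : A →+* B)) π
  have h : (r : A →+* B) π = 0 := H.r_π
  rwa [h, map_zero] at this

lemma κ_injective (c : Chart V A) : Function.Injective c.κ := c.κ.injective

/-- lift of an element of the coordinate ring to the local ring -/
def liftFrac (c : Chart V A) (W : ProjVar σ) (hℓ : c.ℓ ∉ W.ideal) (a : A) : LocFrac W where
  deg := Classical.choose (c.surj a)
  num := Classical.choose (Classical.choose_spec (c.surj a))
  den := c.ℓ ^ Classical.choose (c.surj a)
  num_homog := (Classical.choose_spec (Classical.choose_spec (c.surj a))).1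
  den_homog := by
    simpa using c.ℓ_hom.pow (Classical.choose (c.surj a))
  den_notMem := fun h => hℓ (W.prime.mem_of_pow_mem _ h)

lemma aeval_liftFrac_num (c : Chart V A) (W : ProjVar σ) (hℓ : c.ℓ ∉ W.ideal) (a : A) :
    aeval c.φ (c.liftFrac W hℓ a).num = a :=
  (Classical.choose_spec (Classical.choose_spec (c.surj a))).2

lemma aeval_liftFrac_den (c : Chart V A) (W : ProjVar σ) (hℓ : c.ℓ ∉ W.ideal) (a : A) :
    aeval c.φ (c.liftFrac W hℓ a).den = 1 := by
  simp [liftFrac, c.ℓ_one]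

lemma Compat.ℓ_notMem (H : Compat c c' r π) : c.ℓ ∉ W.ideal := by
  rw [c'.mem_iff 1 c.ℓ c.ℓ_hom, H.aeval_eq, c.ℓ_one, map_one]
  exact one_ne_zero

lemma Compat.unif (H : Compat c c' r π) (hπ : π ≠ 0) (h : V.ideal ≤ W.ideal) (t : LocFrac W)
    (ht : IsUniformizer V W h t) :
    ∃ (u : FractionRing A) (v : FractionRing B), (u, v) ∈ RedRing (r : A →+* B) ∧ v ≠ 0 ∧
      c.κ (t.res V h) = u * algebraMap A (FractionRing A) π := by
  obtain ⟨-, ht0, hgen⟩ := ht
  have h1 : c'.κ (t.res W le_rfl) = 0 := by rw [ht0, map_zero]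
  have hden : r (aeval c.φ t.den) ≠ 0 := by
    have := c'.aeval_ne t.den_homog t.den_notMem
    rwa [H.aeval_eq] at this
  rw [κ_res, H.aeval_eq, H.aeval_eq, div_eq_zero_iff] at h1
  have h2 : r (aeval c.φ t.num) = 0 := by
    rcases h1 with h1 | h1
    · by_contra h3; exact am_ne h3 h1
    · exact absurd h1 (am_ne hden)
  obtain ⟨p, hp⟩ := H.dvd _ h2
  set q := aeval c.φ t.den with hq
  have hq0 : q ≠ 0 := fun h => hden (by rw [h, map_zero])
  -- the lift of `π`
  set a := c.liftFrac W H.ℓ_notMem π with ha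
  have ha0 : a.res W le_rfl = 0 := by
    apply c'.κ_injective
    rw [κ_res, H.aeval_eq, aeval_liftFrac_num, H.r_π, map_zero, map_zero, zero_div]
  obtain ⟨b, hb⟩ := hgen a ha0
  have h3 := congrArg c.κ hb
  rw [map_mul, κ_res, κ_res, κ_res, aeval_liftFrac_num, aeval_liftFrac_den, map_one, div_one,
    hp, ← hq, map_mul] at h3
  set p' := aeval c.φ b.num with hp'
  set q' := aeval c.φ b.den with hq'
  have hden' : r q' ≠ 0 := by
    have := c'.aeval_ne b.den_homog b.den_notMem
    rwa [H.aeval_eq] at this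
  have hq0' : q' ≠ 0 := fun h => hden' (by rw [h, map_zero])
  have h4 : p * p' = q * q' := by
    apply IsFractionRing.injective A (FractionRing A)
    rw [map_mul, map_mul]
    have := am_ne hπ
    have e1 := am_ne hq0
    have e2 := am_ne hq0'
    field_simp at h3
    exact h3.symm
  refine ⟨algebraMap A _ p / algebraMap A _ q, algebraMap B _ (r p) / algebraMap B _ (r q),
    redRing_div (r := (r : A →+* B)) p hden, ?_, ?_⟩
  · refine div_ne_zero (am_ne ?_) (am_ne hden)
    intro h5
    have h6 := congrArg r h4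
    rw [map_mul, map_mul, h5, zero_mul] at h6
    exact mul_ne_zero hden hden' h6.symm
  · rw [κ_res, hp, ← hq, map_mul]
    ring

/-- regular forms have regular coefficients -/
lemma Compat.coef_regular (H : Compat c c' r π) (h : V.ideal ≤ W.ideal) {d : ℕ}
    (δ : Fin d → Derivation ℂ A A) (ω : RatForm V d) (hω : ω ∈ regularForms V W h d) :
    coef c.κ (fun j => fracDer (δ j)) ω ∈ LocRing (r : A →+* B) := by
  refine AddSubgroup.closure_induction (p := fun ω _ => coef c.κ (fun j => fracDer (δ j)) ω ∈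
    LocRing (r : A →+* B)) ?_ ?_ ?_ ?_ hω
  · rintro _ ⟨g, b, rfl⟩
    rw [coef_wedge]
    refine (LocRing (r : A →+* B)).mul_mem (mem_locRing.2 ⟨_, H.κ_pair h g⟩) ?_
    refine det_mem_subring _ _ fun i j => ?_
    exact locRing_der _ (mem_locRing.2 ⟨_, H.κ_pair h (b i)⟩)
  · rw [map_zero]; exact Subring.zero_mem _
  · intro x y _ _ hx hy
    rw [map_add]; exact Subring.add_mem _ hx hy
  · intro x _ hx
    rw [map_neg]; exact Subring.neg_mem _ hx

lemma det_cons_add {F : Type} [Field F] {d : ℕ} (u v : Fin (d + 1) → F)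
    (M : Fin d → Fin (d + 1) → F) :
    (Matrix.of (Fin.cons (u + v) M : Fin (d + 1) → Fin (d + 1) → F)).det =
      (Matrix.of (Fin.cons u M : Fin (d + 1) → Fin (d + 1) → F)).det +
      (Matrix.of (Fin.cons v M : Fin (d + 1) → Fin (d + 1) → F)).det := by
  have key : ∀ w : Fin (d + 1) → F, (Matrix.of (Fin.cons w M : Fin (d + 1) → Fin (d + 1) → F)) =
      Matrix.updateRow (Matrix.of (Fin.cons u M : Fin (d + 1) → Fin (d + 1) → F)) 0 w := by
    intro w
    ext i j
    refine Fin.cases ?_ (fun i => ?_) i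
    · simp
    · simp [Matrix.updateRow_ne (Fin.succ_ne_zero i)]
  rw [key (u + v), key v, Matrix.det_updateRow_add, ← key u]

lemma det_cons_smul {F : Type} [Field F] {d : ℕ} (a : F) (u : Fin (d + 1) → F)
    (M : Fin d → Fin (d + 1) → F) :
    (Matrix.of (Fin.cons (a • u) M : Fin (d + 1) → Fin (d + 1) → F)).det =
      a * (Matrix.of (Fin.cons u M : Fin (d + 1) → Fin (d + 1) → F)).det := by
  have key : ∀ w : Fin (d + 1) → F, (Matrix.of (Fin.cons w M : Fin (d + 1) → Fin (d + 1) → F)) =
      Matrix.updateRow (Matrix.of (Fin.cons u M : Fin (d + 1) → Fin (d + 1) → F)) 0 w := by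
    intro w
    ext i j
    refine Fin.cases ?_ (fun i => ?_) i
    · simp
    · simp [Matrix.updateRow_ne (Fin.succ_ne_zero i)]
  rw [key (a • u), Matrix.det_updateRow_smul, ← key u]

lemma matrix_cons {F : Type} [Field F] {d : ℕ} {K : Type} (x : K) (a : Fin d → K)
    (g : Fin (d + 1) → K → F) :
    (Matrix.of fun i j => g j ((Fin.cons x a : Fin (d + 1) → K) i)) =
    Matrix.of (Fin.cons (fun j => g j x) (fun i j => g j (a i)) :
      Fin (d + 1) → Fin (d + 1) → F) := by
  ext i j
  refine Fin.cases ?_ (fun i => ?_) i <;> simp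

/-- expansion of the polar generator -/
lemma polar_coef (c : Chart V A) {d : ℕ} (δ : Fin (d + 1) → Derivation ℂ A A)
    (f t : FunField V) (a : Fin d → FunField V) (u : FractionRing A) (hu : u ≠ 0) (hπ : π ≠ 0)
    (ht : c.κ t = u * algebraMap A (FractionRing A) π) :
    algebraMap A (FractionRing A) π * coef c.κ (fun j => fracDer (δ j))
      (wedge (f / t) (Fin.cons t a)) =
    c.κ f * (Matrix.of (Fin.cons (fun j => algebraMap A (FractionRing A) (δ j π))
      (fun i j => fracDer (δ j) (c.κ (a i))) : Fin (d + 1) → Fin (d + 1) → FractionRing A)).det +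
    algebraMap A (FractionRing A) π * (c.κ f * u⁻¹ *
      (Matrix.of (Fin.cons (fun j => fracDer (δ j) u)
      (fun i j => fracDer (δ j) (c.κ (a i))) :
        Fin (d + 1) → Fin (d + 1) → FractionRing A)).det) := by
  rw [coef_wedge, matrix_cons t a (fun j z => fracDer (δ j) (c.κ z))]
  have e1 : (fun j => fracDer (δ j) (c.κ t)) =
      u • (fun j => algebraMap A (FractionRing A) (δ j π)) +
      (algebraMap A (FractionRing A) π) • (fun j => fracDer (δ j) u) := by
    ext j
    rw [ht, Derivation.leibniz, fracDer_map]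
    simp [smul_eq_mul, Algebra.smul_def]
  rw [e1, det_cons_add, det_cons_smul, det_cons_smul, map_div₀, ht]
  have := am_ne hπ
  field_simp

lemma Compat.coef_pole (H : Compat c c' r π) (hπ : π ≠ 0) (h : V.ideal ≤ W.ideal) {d : ℕ}
    (δ : Fin (d + 1) → Derivation ℂ A A) (ω : RatForm V (d + 1)) (ρ : RatForm W d)
    (hω : (ω, ρ) ∈ residuePairs V W h d) :
    algebraMap A (FractionRing A) π * coef c.κ (fun j => fracDer (δ j)) ω ∈
      LocRing (r : A →+* B) := by
  have hπL : algebraMap A (FractionRing A) π ∈ LocRing (r : A →+* B) := locRing_map π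
  refine AddSubgroup.closure_induction (p := fun (x : RatForm V (d + 1) × RatForm W d) _ =>
    algebraMap A (FractionRing A) π * coef c.κ (fun j => fracDer (δ j)) x.1 ∈
    LocRing (r : A →+* B)) ?_ ?_ ?_ ?_ hω
  · rintro _ (⟨g, b, rfl⟩ | ⟨t, f, a, ht, rfl⟩)
    · refine (LocRing (r : A →+* B)).mul_mem hπL ?_
      exact H.coef_regular h δ _ (AddSubgroup.subset_closure ⟨g, b, rfl⟩)
    · obtain ⟨u, v, huv, hv, htu⟩ := H.unif hπ h t ht
      have hu : u ≠ 0 := by
        rintro rfl
        exact hv (redRing_zero huv)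
      dsimp only
      rw [polar_coef c δ _ _ _ u hu hπ htu]
      have h1 : c.κ (f.res V h) ∈ LocRing (r : A →+* B) := mem_locRing.2 ⟨_, H.κ_pair h f⟩
      have h2 : ∀ i j, fracDer (δ j) (c.κ ((a i).res V h)) ∈ LocRing (r : A →+* B) :=
        fun i j => locRing_der _ (mem_locRing.2 ⟨_, H.κ_pair h (a i)⟩)
      have h3 : u⁻¹ ∈ LocRing (r : A →+* B) := mem_locRing.2 ⟨_, redRing_inv huv hv⟩
      have h4 : u ∈ LocRing (r : A →+* B) := mem_locRing.2 ⟨_, huv⟩
      refine Subring.add_mem _ (Subring.mul_mem _ h1 ?_) (Subring.mul_mem _ hπL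
        (Subring.mul_mem _ (Subring.mul_mem _ h1 h3) ?_))
      · refine det_mem_subring _ _ fun i j => ?_
        refine Fin.cases ?_ (fun i => ?_) i
        · exact locRing_map _
        · exact h2 i j
      · refine det_mem_subring _ _ fun i j => ?_
        refine Fin.cases ?_ (fun i => ?_) i
        · exact locRing_der _ h4
        · exact h2 i j
  · rw [Prod.fst_zero, map_zero, mul_zero]; exact Subring.zero_mem _
  · intro x y _ _ hx hy
    rw [Prod.fst_add, map_add, mul_add]; exact Subring.add_mem _ hx hy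
  · intro x _ hx
    rw [Prod.fst_neg, map_neg, mul_neg]; exact Subring.neg_mem _ hx

/-- The residue formula in an adapted frame. -/
lemma Compat.coef_residue (H : Compat c c' r π) (hπ : π ≠ 0) (h : V.ideal ≤ W.ideal) {d : ℕ}
    (δ : Fin (d + 1) → Derivation ℂ A A) (ε : Fin d → Derivation ℂ B B)
    (hδ0 : δ 0 π = 1) (hδ : ∀ j, δ (Fin.succ j) π = 0)
    (hδε : ∀ j a, r (δ (Fin.succ j) a) = ε j (r a))
    (ω : RatForm V (d + 1)) (ρ : RatForm W d)
    (hω : (ω, ρ) ∈ residuePairs V W h d) :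
    (algebraMap A (FractionRing A) π * coef c.κ (fun j => fracDer (δ j)) ω,
      coef c'.κ (fun j => fracDer (ε j)) ρ) ∈ RedRing (r : A →+* B) := by
  have hπL := H.pi_pair
  have hzero : ∀ x ∈ LocRing (r : A →+* B),
      (algebraMap A (FractionRing A) π * x, (0 : FractionRing B)) ∈ RedRing (r : A →+* B) := by
    intro x hx
    obtain ⟨v, hv⟩ := mem_locRing.1 hx
    have := (RedRing (r : A →+* B)).mul_mem hπL hv
    rwa [Prod.mk_mul_mk, zero_mul] at this
  refine AddSubgroup.closure_induction (p := fun (x : RatForm V (d + 1) × RatForm W d) _ =>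
    (algebraMap A (FractionRing A) π * coef c.κ (fun j => fracDer (δ j)) x.1,
      coef c'.κ (fun j => fracDer (ε j)) x.2) ∈ RedRing (r : A →+* B)) ?_ ?_ ?_ ?_ hω
  · rintro _ (⟨g, b, rfl⟩ | ⟨t, f, a, ht, rfl⟩)
    · dsimp only
      rw [map_zero]
      exact hzero _ (H.coef_regular h δ _ (AddSubgroup.subset_closure ⟨g, b, rfl⟩))
    · obtain ⟨u, v, huv, hv, htu⟩ := H.unif hπ h t ht
      have hu : u ≠ 0 := by
        rintro rfl
        exact hv (redRing_zero huv)
      dsimp only
      rw [polar_coef c δ _ _ _ u hu hπ htu, coef_wedge]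
      have h1 := H.κ_pair h f
      have h2 : ∀ i j, fracDer (δ j) (c.κ ((a i).res V h)) ∈ LocRing (r : A →+* B) :=
        fun i j => locRing_der _ (mem_locRing.2 ⟨_, H.κ_pair h (a i)⟩)
      have h3 : u⁻¹ ∈ LocRing (r : A →+* B) := mem_locRing.2 ⟨_, redRing_inv huv hv⟩
      have h4 : u ∈ LocRing (r : A →+* B) := mem_locRing.2 ⟨_, huv⟩
      have h5 : c.κ (f.res V h) ∈ LocRing (r : A →+* B) := mem_locRing.2 ⟨_, H.κ_pair h f⟩
      have key2 := hzero _ (Subring.mul_mem _ (Subring.mul_mem _ h5 h3)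
        (det_mem_subring (LocRing (r : A →+* B)) (Matrix.of (Fin.cons (fun j => fracDer (δ j) u)
          (fun i j => fracDer (δ j) (c.κ ((a i).res V h))) :
          Fin (d + 1) → Fin (d + 1) → FractionRing A)) (by
          intro i j
          refine Fin.cases ?_ (fun i => ?_) i
          · exact locRing_der _ h4
          · exact h2 i j)))
      have key1 : ((Matrix.of (Fin.cons (fun j => algebraMap A (FractionRing A) (δ j π))
          (fun i j => fracDer (δ j) (c.κ ((a i).res V h))) :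
          Fin (d + 1) → Fin (d + 1) → FractionRing A)).det,
          (Matrix.of fun i j => fracDer (ε j) (c'.κ ((a i).res W le_rfl))).det) ∈
          RedRing (r : A →+* B) := by
        rw [Matrix.det_succ_row_zero, Fin.sum_univ_succ]
        have hz : ∑ i : Fin d, (-1 : FractionRing A) ^ ((Fin.succ i : Fin (d + 1)) : ℕ) *
            (Matrix.of (Fin.cons (fun j => algebraMap A (FractionRing A) (δ j π))
            (fun i j => fracDer (δ j) (c.κ ((a i).res V h))) :
            Fin (d + 1) → Fin (d + 1) → FractionRing A)) 0 (Fin.succ i) *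
            ((Matrix.of (Fin.cons (fun j => algebraMap A (FractionRing A) (δ j π))
            (fun i j => fracDer (δ j) (c.κ ((a i).res V h))) :
            Fin (d + 1) → Fin (d + 1) → FractionRing A)).submatrix Fin.succ
              (Fin.succAbove (Fin.succ i))).det = 0 := by
          refine Finset.sum_eq_zero fun i _ => ?_
          have : (Matrix.of (Fin.cons (fun j => algebraMap A (FractionRing A) (δ j π))
            (fun i j => fracDer (δ j) (c.κ ((a i).res V h))) :
            Fin (d + 1) → Fin (d + 1) → FractionRing A)) 0 (Fin.succ i) = 0 := by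
            simp [hδ i]
          rw [this, mul_zero, zero_mul]
        rw [hz, add_zero]
        have h00 : (Matrix.of (Fin.cons (fun j => algebraMap A (FractionRing A) (δ j π))
            (fun i j => fracDer (δ j) (c.κ ((a i).res V h))) :
            Fin (d + 1) → Fin (d + 1) → FractionRing A)) 0 0 = 1 := by
          simp [hδ0]
        rw [h00, Fin.val_zero, pow_zero, one_mul, one_mul]
        refine det_pair_mem _ _ _ fun i j => ?_
        have := redRing_der (r := (r : A →+* B)) (hδε j) (H.κ_pair h (a i))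
        simpa using this
      have := (RedRing (r : A →+* B)).add_mem
        ((RedRing (r : A →+* B)).mul_mem h1 key1) key2
      rwa [Prod.mk_mul_mk, Prod.mk_add_mk, add_zero] at this
  · rw [Prod.fst_zero, Prod.snd_zero, map_zero, map_zero, mul_zero]; exact Subring.zero_mem _
  · intro x y _ _ hx hy
    rw [Prod.fst_add, Prod.snd_add, map_add, map_add, mul_add, ← Prod.mk_add_mk]
    exact Subring.add_mem _ hx hy
  · intro x _ hx
    rw [Prod.fst_neg, Prod.snd_neg, map_neg, map_neg, mul_neg, ← Prod.neg_mk]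
    exact Subring.neg_mem _ hx

end Chart

end Pool.Agent.Helper70.PG

end PartResidue

noncomputable section PartSub

open MvPolynomial

namespace Pool.Agent.Helper70.PG

variable {σ : Type}

section Param

variable {B : Type} [CommRing B] [IsDomain B] [Algebra ℂ B]

/-- Homogenised substitution. -/
def paramHom (φ : σ → B) : MvPolynomial σ ℂ →ₐ[ℂ] Polynomial B :=
  aeval (fun i => Polynomial.C (φ i) * Polynomial.X)

lemma paramHom_homog (φ : σ → B) {n : ℕ} {f : MvPolynomial σ ℂ} (hf : f.IsHomogeneous n) :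
    paramHom φ f = Polynomial.C (aeval φ f) * Polynomial.X ^ n := by
  rw [paramHom, aeval_def, eval₂_eq, aeval_def, eval₂_eq, map_sum, Finset.sum_mul]
  refine Finset.sum_congr rfl fun m hm => ?_
  have hdeg : ∑ i ∈ m.support, m i = n := by
    have := hf (mem_support_iff.1 hm)
    rw [← this]
    simp [Finsupp.weight_apply, Finsupp.sum]
  rw [map_mul, map_prod, mul_assoc, ← hdeg, ← Finset.prod_pow_eq_pow_sum,
    ← Finset.prod_mul_distrib]
  congr 1
  refine Finset.prod_congr rfl fun i _ => ?_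
  rw [mul_pow, map_pow]

lemma paramHom_coeff (φ : σ → B) (f : MvPolynomial σ ℂ) (n : ℕ) :
    (paramHom φ f).coeff n = aeval φ (homogeneousComponent n f) := by
  conv_lhs => rw [← sum_homogeneousComponent f]
  rw [map_sum, Polynomial.finsetSum_coeff]
  have h : ∀ i, (paramHom φ (homogeneousComponent i f)).coeff n =
      if n = i then aeval φ (homogeneousComponent i f) else 0 := by
    intro i
    rw [paramHom_homog φ (homogeneousComponent_isHomogeneous i f), Polynomial.coeff_C_mul,
      Polynomial.coeff_X_pow, mul_ite, mul_one, mul_zero]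
  simp_rw [h]
  rw [Finset.sum_ite_eq]
  split_ifs with h1
  · rfl
  · rw [homogeneousComponent_eq_zero, map_zero]
    rw [Finset.mem_range] at h1
    omega

/-- The variety with (homogenised) parametrisation `φ`. -/
def ofParam (φ : σ → B) (h : ∃ i, φ i ≠ 0) : ProjVar σ where
  ideal := RingHom.ker (paramHom φ)
  prime := RingHom.ker_isPrime _
  homog := by
    intro f hf n
    rw [RingHom.mem_ker] at hf ⊢
    rw [paramHom_homog φ (homogeneousComponent_isHomogeneous n f), ← paramHom_coeff, hf]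
    simp
  relevant := by
    obtain ⟨i, hi⟩ := h
    refine ⟨i, ?_⟩
    rw [RingHom.mem_ker]
    simp [paramHom, hi]

lemma mem_ofParam (φ : σ → B) (h : ∃ i, φ i ≠ 0) (f : MvPolynomial σ ℂ) :
    f ∈ (ofParam φ h).ideal ↔ ∀ n, aeval φ (homogeneousComponent n f) = 0 := by
  change paramHom φ f = 0 ↔ _
  constructor
  · intro hf n
    rw [← paramHom_coeff, hf, Polynomial.coeff_zero]
  · intro hf
    ext n
    rw [paramHom_coeff, hf n, Polynomial.coeff_zero]

lemma mem_ofParam_homog (φ : σ → B) (h : ∃ i, φ i ≠ 0) {n : ℕ} {f : MvPolynomial σ ℂ}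
    (hf : f.IsHomogeneous n) : f ∈ (ofParam φ h).ideal ↔ aeval φ f = 0 := by
  change paramHom φ f = 0 ↔ _
  rw [paramHom_homog φ hf]
  constructor
  · intro h
    rcases mul_eq_zero.1 h with h | h
    · exact Polynomial.C_eq_zero.1 h
    · exact absurd h (pow_ne_zero _ Polynomial.X_ne_zero)
  · intro h
    rw [h]; simp

/-- The tautological chart of a parametrised variety. -/
def Chart.param (φ : σ → B) (h : ∃ i, φ i ≠ 0) (ℓ : MvPolynomial σ ℂ) (hℓ : ℓ.IsHomogeneous 1)
    (hℓ1 : aeval φ ℓ = 1)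
    (hs : ∀ p : B, ∃ (n : ℕ) (f : MvPolynomial σ ℂ), f.IsHomogeneous n ∧ aeval φ f = p) :
    Chart (ofParam φ h) B where
  φ := φ
  mem_iff := fun _ _ hf => mem_ofParam_homog φ h hf
  ℓ := ℓ
  ℓ_hom := hℓ
  ℓ_one := hℓ1
  surj := hs

/-- The subalgebra of values of homogeneous polynomials. -/
def homogValues (φ : σ → B) (ℓ : MvPolynomial σ ℂ) (hℓ : ℓ.IsHomogeneous 1)
    (hℓ1 : aeval φ ℓ = 1) : Subalgebra ℂ B where
  carrier := {p | ∃ (n : ℕ) (f : MvPolynomial σ ℂ), f.IsHomogeneous n ∧ aeval φ f = p}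
  mul_mem' := by
    rintro _ _ ⟨n, f, hf, rfl⟩ ⟨m, g, hg, rfl⟩
    exact ⟨n + m, f * g, hf.mul hg, map_mul _ _ _⟩
  add_mem' := by
    rintro _ _ ⟨n, f, hf, rfl⟩ ⟨m, g, hg, rfl⟩
    refine ⟨m + n, ℓ ^ m * f + ℓ ^ n * g, ?_, ?_⟩
    · refine IsHomogeneous.add ?_ ?_
      · simpa using (hℓ.pow m).mul hf
      · rw [add_comm]; simpa using (hℓ.pow n).mul hg
    · simp [hℓ1]
  algebraMap_mem' := fun r => ⟨0, C r, isHomogeneous_C _ _, by simp⟩

end Param

namespace Chart

variable {V : ProjVar σ} {A B : Type} [CommRing A] [IsDomain A] [Algebra ℂ A]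
  [CommRing B] [IsDomain B] [Algebra ℂ B]

lemma aeval_comp_eq (φ : σ → A) (r : A →ₐ[ℂ] B) (f : MvPolynomial σ ℂ) :
    aeval (fun i => r (φ i)) f = r (aeval φ f) := by
  induction f using MvPolynomial.induction_on with
  | C a => simp
  | add p q hp hq => simp_all
  | mul_X p i hp => simp_all

lemma exists_ne (c : Chart V A) (r : A →ₐ[ℂ] B) : ∃ i, r (c.φ i) ≠ 0 := by
  by_contra h
  push Not at h
  have h1 : aeval (fun i => r (c.φ i)) c.ℓ = 1 := by
    rw [aeval_comp_eq, c.ℓ_one, map_one]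
  have h2 : (fun i => r (c.φ i)) = fun _ => 0 := funext h
  rw [h2] at h1
  have h3 : aeval (fun _ : σ => (0 : B)) c.ℓ = 0 := by
    have := paramHom_homog (fun _ : σ => (0 : B)) c.ℓ_hom
    have h4 : paramHom (fun _ : σ => (0 : B)) c.ℓ =
        Polynomial.C (aeval (fun _ : σ => (0 : B)) c.ℓ) := by
      rw [paramHom]
      simp only [map_zero, zero_mul]
      have h5 := aeval_comp_eq (fun _ : σ => (0 : B))
        (Algebra.ofId ℂ B |>.comp (Algebra.ofId ℂ ℂ) |> fun _ =>
          ({ Polynomial.C with commutes' := fun _ => rfl } : B →ₐ[ℂ] Polynomial B)) c.ℓ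
      simpa using h5
    rw [h4, pow_one] at this
    have h6 := congrArg (fun p => Polynomial.coeff p 0) this
    simpa using h6
  rw [h3] at h1
  exact zero_ne_one h1

/-- The subvariety of `V` whose chart is the restriction of `c` along `r`. -/
def sub (c : Chart V A) (r : A →ₐ[ℂ] B) : ProjVar σ :=
  ofParam (fun i => r (c.φ i)) (c.exists_ne r)

/-- Its chart. -/
def subChart (c : Chart V A) (r : A →ₐ[ℂ] B) (hr : Function.Surjective r) :
    Chart (c.sub r) B :=
  Chart.param (fun i => r (c.φ i)) (c.exists_ne r) c.ℓ c.ℓ_hom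
    (by rw [aeval_comp_eq, c.ℓ_one, map_one])
    (by
      intro p
      obtain ⟨a, rfl⟩ := hr p
      obtain ⟨n, f, hf, rfl⟩ := c.surj a
      exact ⟨n, f, hf, aeval_comp_eq _ _ _⟩)

lemma mem_sub_homog (c : Chart V A) (r : A →ₐ[ℂ] B) {n : ℕ} {f : MvPolynomial σ ℂ}
    (hf : f.IsHomogeneous n) : f ∈ (c.sub r).ideal ↔ r (aeval c.φ f) = 0 := by
  rw [sub, mem_ofParam_homog _ _ hf, aeval_comp_eq]

lemma compat_sub (c : Chart V A) (r : A →ₐ[ℂ] B) (hr : Function.Surjective r) {π : A}
    (hπ : r π = 0) (hd : ∀ a, r a = 0 → π ∣ a) : Compat c (c.subChart r hr) r π where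
  φ_eq := fun _ => rfl
  r_π := hπ
  dvd := hd

lemma mem_of_homog (U : ProjVar σ) (f : MvPolynomial σ ℂ)
    (h : ∀ n, homogeneousComponent n f ∈ U.ideal) : f ∈ U.ideal := by
  rw [← sum_homogeneousComponent f]
  exact Ideal.sum_mem _ fun n _ => h n

lemma le_sub (c : Chart V A) (r : A →ₐ[ℂ] B) : V.ideal ≤ (c.sub r).ideal := by
  intro f hf
  refine mem_of_homog _ _ fun n => ?_
  have h1 := V.homog f hf n
  have h2 := homogeneousComponent_isHomogeneous n f
  rw [c.mem_iff n _ h2] at h1
  rw [c.mem_sub_homog r h2, h1, map_zero]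

lemma ℓ_notMem_sub (c : Chart V A) (r : A →ₐ[ℂ] B) : c.ℓ ∉ (c.sub r).ideal := by
  rw [c.mem_sub_homog r c.ℓ_hom, c.ℓ_one, map_one]
  exact one_ne_zero

lemma lift_eq (c : Chart V A) {n m : ℕ} {f g : MvPolynomial σ ℂ} (hf : f.IsHomogeneous n)
    (hg : g.IsHomogeneous m) (h : aeval c.φ f = aeval c.φ g) :
    c.ℓ ^ m * f - c.ℓ ^ n * g ∈ V.ideal := by
  refine (c.mem_iff (m + n) _ ?_).2 ?_
  · refine IsHomogeneous.sub ?_ ?_
    · simpa using (c.ℓ_hom.pow m).mul hf
    · rw [add_comm]; simpa using (c.ℓ_hom.pow n).mul hg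
  · simp [c.ℓ_one, h]

/-- If a prime between `V` and the divisor contains a polynomial not vanishing on `V`, it is the
ideal of the divisor. -/
lemma sub_le_of_mem [WfDvdMonoid A] (c : Chart V A) (r : A →ₐ[ℂ] B)
    {π : A} (hπ : Prime π) (hr : r π = 0) (hd : ∀ a, r a = 0 → π ∣ a)
    (𝔮 : Ideal (MvPolynomial σ ℂ)) (hq : 𝔮.IsPrime) (hV : V.ideal ≤ 𝔮)
    (hle : 𝔮 ≤ (c.sub r).ideal) {n : ℕ} {H : MvPolynomial σ ℂ} (hH : H.IsHomogeneous n)
    (hHq : H ∈ 𝔮) (hH0 : aeval c.φ H ≠ 0) : (c.sub r).ideal ≤ 𝔮 := by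
  have hℓ : c.ℓ ∉ 𝔮 := fun h => c.ℓ_notMem_sub r (hle h)
  -- factor
  have hfin : FiniteMultiplicity π (aeval c.φ H) :=
    FiniteMultiplicity.of_not_isUnit hπ.not_isUnit hH0
  obtain ⟨g, hg, hgn⟩ := hfin.exists_eq_pow_mul_and_not_dvd
  set k := multiplicity π (aeval c.φ H)
  obtain ⟨nP, P, hP, hPπ⟩ := c.surj π
  obtain ⟨nG, G, hG, hGg⟩ := c.surj g
  have h1 : (P ^ k * G).IsHomogeneous (nP * k + nG) := (hP.pow k).mul hG
  have h2 := c.lift_eq hH h1 (by rw [map_mul, map_pow, hPπ, hGg]; exact hg)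
  have h3 : c.ℓ ^ n * (P ^ k * G) ∈ 𝔮 := by
    have h4 : c.ℓ ^ (nP * k + nG) * H ∈ 𝔮 := Ideal.mul_mem_left _ _ hHq
    have h5 := 𝔮.sub_mem h4 (hV h2)
    rwa [sub_sub_cancel] at h5
  have hGq : G ∉ 𝔮 := by
    intro h
    have := (c.mem_sub_homog r hG).1 (hle h)
    rw [hGg] at this
    exact hgn (hd _ this)
  have hPq : P ∈ 𝔮 := by
    rcases hq.mem_or_mem h3 with h | h
    · exact absurd (hq.mem_of_pow_mem _ h) hℓ
    · rcases hq.mem_or_mem h with h | h
      · exact hq.mem_of_pow_mem _ h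
      · exact absurd h hGq
  intro f hf
  rw [← sum_homogeneousComponent f]
  refine Ideal.sum_mem _ fun m _ => ?_
  have h6 := (c.sub r).homog f hf m
  have h7 := homogeneousComponent_isHomogeneous m f
  rw [c.mem_sub_homog r h7] at h6
  obtain ⟨a, ha⟩ := hd _ h6
  obtain ⟨nR, R, hR, hRa⟩ := c.surj a
  have h8 := c.lift_eq h7 (hP.mul hR) (by rw [map_mul, hPπ, hRa]; exact ha)
  have h9 : c.ℓ ^ (nP + nR) * homogeneousComponent m f ∈ 𝔮 := by
    have h10 : c.ℓ ^ m * (P * R) ∈ 𝔮 :=
      Ideal.mul_mem_left _ _ (Ideal.mul_mem_right _ _ hPq)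
    have h11 := 𝔮.add_mem (hV h8) h10
    rwa [sub_add_cancel] at h11
  rcases hq.mem_or_mem h9 with h | h
  · exact absurd (hq.mem_of_pow_mem _ h) hℓ
  · exact h

lemma sub_isPrimeDivisor [WfDvdMonoid A] (c : Chart V A) (r : A →ₐ[ℂ] B)
    {π : A} (hπ : Prime π) (hr : r π = 0) (hd : ∀ a, r a = 0 → π ∣ a) :
    IsPrimeDivisor V (c.sub r) := by
  constructor
  · refine lt_of_le_of_ne (c.le_sub r) fun h => ?_
    obtain ⟨nP, P, hP, hPπ⟩ := c.surj π
    have h1 : P ∈ (c.sub r).ideal := by rw [c.mem_sub_homog r hP, hPπ, hr]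
    rw [← h, c.mem_iff _ _ hP, hPπ] at h1
    exact hπ.ne_zero h1
  · intro U hVU hUW
    by_cases h : U.ideal ≤ V.ideal
    · exact Or.inl (le_antisymm h hVU)
    · right
      obtain ⟨f, hfU, hfV⟩ := Set.not_subset.1 h
      have : ∃ n, homogeneousComponent n f ∉ V.ideal := by
        by_contra h'
        push Not at h'
        exact hfV (mem_of_homog V f h')
      obtain ⟨n, hn⟩ := this
      have h1 := homogeneousComponent_isHomogeneous n f
      refine le_antisymm hUW (c.sub_le_of_mem r hπ hr hd U.ideal U.prime hVU hUW h1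
        (U.homog f hfU n) ?_)
      rwa [Ne, ← c.mem_iff n _ h1]

lemma sub_mem_components [WfDvdMonoid A] (c : Chart V A) (r : A →ₐ[ℂ] B)
    {π : A} (hπ : Prime π) (hr : r π = 0) (hd : ∀ a, r a = 0 → π ∣ a)
    (E : Set (σ → ℝ)) (hE : E ⊆ realPts V)
    (h1 : vanishing (E \ relInterior (realPts V) E) ≤ (c.sub r).ideal)
    {n : ℕ} {H : MvPolynomial σ ℂ} (hH : H.IsHomogeneous n)
    (hHv : H ∈ vanishing (E \ relInterior (realPts V) E)) (hH0 : aeval c.φ H ≠ 0) :
    c.sub r ∈ boundaryComponents V E := by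
  refine ⟨⟨(c.sub r).prime, h1⟩, ?_⟩
  rintro 𝔮 ⟨hq, hvq⟩ hle
  refine c.sub_le_of_mem r hπ hr hd 𝔮 hq ?_ hle hH (hvq hHv) hH0
  refine le_trans ?_ hvq
  intro f hf v hv
  exact (hE hv.1).2 f hf

/-- The divisor of a prime element. -/
def primeHom (π : A) : A →ₐ[ℂ] (A ⧸ Ideal.span {π}) := Ideal.Quotient.mkₐ ℂ _

lemma exists_numerator [UniqueFactorizationMonoid A] (c : Chart V A) {d : ℕ}
    (ω : RatForm V (d + 1)) (E : Set (σ → ℝ))
    (hreg : ∀ W : ProjVar σ, IsPrimeDivisor V W → W ∉ boundaryComponents V E →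
      IsRegularAlong V W ω)
    (hres : ∀ C ∈ boundaryComponents V E, ∃ ρ : RatForm C d, HasResidue V C ω ρ)
    (Λ : A) (hΛ : ∀ π : A, Prime π →
      (∀ n (H : MvPolynomial σ ℂ), H.IsHomogeneous n →
        H ∈ vanishing (E \ relInterior (realPts V) E) → π ∣ aeval c.φ H) → π ∣ Λ)
    (δ : Fin (d + 1) → Derivation ℂ A A) :
    ∃ M : A, algebraMap A (FractionRing A) Λ * coef c.κ (fun j => fracDer (δ j)) ω =
      algebraMap A (FractionRing A) M := by
  refine mem_of_forall_prime
    (algebraMap A (FractionRing A) Λ * coef c.κ (fun j => fracDer (δ j)) ω) ?_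
  intro π hπ
  haveI : (Ideal.span {π}).IsPrime := (Ideal.span_singleton_prime hπ.ne_zero).2 hπ
  haveI : IsDomain (A ⧸ Ideal.span {π}) := Ideal.Quotient.isDomain _
  have hsurj : Function.Surjective (primeHom π) := Ideal.Quotient.mk_surjective
  have hr : primeHom π π = 0 := Ideal.Quotient.eq_zero_iff_mem.2 (Ideal.mem_span_singleton_self π)
  have hd : ∀ a, primeHom π a = 0 → π ∣ a := fun a ha =>
    Ideal.mem_span_singleton.1 (Ideal.Quotient.eq_zero_iff_mem.1 ha)
  have Hc := c.compat_sub (primeHom π) hsurj hr hd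
  have key : algebraMap A (FractionRing A) Λ * coef c.κ (fun j => fracDer (δ j)) ω ∈
      LocRing ((primeHom π : A →ₐ[ℂ] (A ⧸ Ideal.span {π})) : A →+* (A ⧸ Ideal.span {π})) := by
    by_cases hC : c.sub (primeHom π) ∈ boundaryComponents V E
    · obtain ⟨ρ, h, hρ⟩ := hres _ hC
      have h1 := Hc.coef_pole hπ.ne_zero h δ ω ρ hρ
      have h2 : π ∣ Λ := by
        refine hΛ π hπ fun n H hH hHv => ?_
        have h3 := hC.1.2 hHv
        rw [c.mem_sub_homog _ hH] at h3
        exact hd _ h3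
      obtain ⟨Λ', rfl⟩ := h2
      rw [map_mul, mul_comm (algebraMap A (FractionRing A) π), mul_assoc]
      exact Subring.mul_mem _ (locRing_map _) h1
    · obtain ⟨h, hω⟩ := hreg _ (c.sub_isPrimeDivisor _ hπ hr hd) hC
      exact Subring.mul_mem _ (locRing_map _) (Hc.coef_regular h δ ω hω)
  obtain ⟨v, p, q, hq, hv⟩ := mem_locRing.1 key
  rw [Prod.mk.injEq] at hv
  refine ⟨p, q, ?_, hv.1⟩
  intro h
  apply hq
  obtain ⟨q', rfl⟩ := h
  exact (map_mul (primeHom π) π q').trans (by rw [hr, zero_mul])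

end Chart

end Pool.Agent.Helper70.PG

end PartSub

noncomputable section PartLine

open MvPolynomial Topology

namespace Pool.Agent.Helper70.PG

variable {σ : Type}

/-! ### Evaluation lemmas -/

lemma aeval_scale {n : ℕ} {f : MvPolynomial σ ℂ} (hf : f.IsHomogeneous n) (w : σ → ℂ) (s : ℂ) :
    aeval (fun i => w i * s) f = aeval w f * s ^ n := by
  have h := congrArg (Polynomial.eval s) (paramHom_homog w hf)
  rw [Polynomial.eval_mul, Polynomial.eval_C, Polynomial.eval_pow, Polynomial.eval_X] at h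
  rw [← h, paramHom]
  have h2 := Chart.aeval_comp_eq (fun i => Polynomial.C (w i) * Polynomial.X)
    (Polynomial.aeval s : Polynomial ℂ →ₐ[ℂ] ℂ) f
  rw [Polynomial.coe_aeval_eq_eval] at h2
  simpa using h2

lemma realPts_of_chart {V : ProjVar σ} {A : Type} [CommRing A] [Algebra ℂ A] (c : Chart V A)
    (ev : A →ₐ[ℂ] ℂ) (s : ℂ) (v : σ → ℝ) (hv : v ≠ 0)
    (h : ∀ i, (v i : ℂ) = ev (c.φ i) * s) : v ∈ realPts V := by
  refine ⟨hv, fun f hf => ?_⟩
  rw [← sum_homogeneousComponent f, map_sum]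
  refine Finset.sum_eq_zero fun n _ => ?_
  have h1 := homogeneousComponent_isHomogeneous n f
  have h2 := (c.mem_iff n _ h1).1 (V.homog f hf n)
  have h3 : (fun i => (v i : ℂ)) = fun i => ev (c.φ i) * s := funext h
  rw [realEval, h3, aeval_scale h1 (fun i => ev (c.φ i)) s]
  have h4 : aeval (fun i => ev (c.φ i)) (homogeneousComponent n f) =
      ev (aeval c.φ (homogeneousComponent n f)) := by
    generalize homogeneousComponent n f = g
    induction g using MvPolynomial.induction_on with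
    | C a => simp
    | add p q hp hq => simp_all
    | mul_X p i hp => simp_all
  rw [h4, h2, map_zero, zero_mul]

/-- vanishing on a ray forces vanishing of the homogeneous components -/
lemma component_vanish (f : MvPolynomial σ ℂ) (w : σ → ℝ)
    (h : ∀ t : ℝ, 0 < t → realEval (t • w) f = 0) (n : ℕ) :
    realEval w (homogeneousComponent n f) = 0 := by
  have h1 : paramHom (fun i => (w i : ℂ)) f = 0 := by
    apply Polynomial.eq_zero_of_infinite_isRoot
    have h2 : (fun t : ℝ => (t : ℂ)) '' Set.Ioi 0 ⊆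
        {x | (paramHom (fun i => (w i : ℂ)) f).IsRoot x} := by
      rintro _ ⟨t, ht, rfl⟩
      rw [Set.mem_ofPred_eq, Polynomial.IsRoot, ← h t ht, paramHom, realEval]
      have h3 := Chart.aeval_comp_eq (fun i => Polynomial.C (w i : ℂ) * Polynomial.X)
        (Polynomial.aeval (t : ℂ) : Polynomial ℂ →ₐ[ℂ] ℂ) f
      rw [Polynomial.coe_aeval_eq_eval] at h3
      rw [← h3]
      have h4 : (fun i => Polynomial.eval (t : ℂ) (Polynomial.C (w i : ℂ) * Polynomial.X)) =
          fun i => (((t • w) i : ℝ) : ℂ) := by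
        ext i
        rw [Polynomial.eval_mul, Polynomial.eval_C, Polynomial.eval_X, Pi.smul_apply,
          smul_eq_mul, mul_comm]
        push_cast
        rfl
      rw [h4]
    refine Set.Infinite.mono h2 ?_
    exact (Set.Ioi_infinite 0).image (Complex.ofReal_injective.injOn)
  rw [realEval, ← paramHom_coeff, h1, Polynomial.coeff_zero]

variable [Fintype σ]

/-- The linear form with real coefficients `a`. -/
def lin (a : σ → ℝ) : MvPolynomial σ ℂ := ∑ i, C (a i : ℂ) * X i

lemma lin_homog (a : σ → ℝ) : (lin a).IsHomogeneous 1 := by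
  refine IsHomogeneous.sum _ _ _ fun i _ => ?_
  simpa using (isHomogeneous_C σ (a i : ℂ)).mul (isHomogeneous_X ℂ i)

lemma realEval_lin (a v : σ → ℝ) : realEval v (lin a) = ((a ⬝ᵥ v : ℝ) : ℂ) := by
  simp [realEval, lin, dotProduct]

/-- In degree zero the frame functional is evaluation. -/
lemma coef_zero {V : ProjVar σ} {F : Type} [Field F] [Algebra ℂ F]
    (κ : FunField V ≃ₐ[ℂ] F) (δ : Fin 0 → Derivation ℂ F F) (z : FunField V) :
    coef κ δ (fun _ => z) = κ z := rfl

end Pool.Agent.Helper70.PG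

end PartLine

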