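import Pool.Agent.Helper70.PGFourteen
import Pool.Agent.Helper70.PGHexa

set_option autoImplicit false
set_option linter.unusedSectionVars false

noncomputable section PartFifteen

open MvPolynomial Topology

namespace Pool.Agent.Helper70.PG

lemma hexahedron_eq : hexahedron hA hB = AV Gr24 := rfl

lemma ProjVar_ext {σ : Type} {V W : ProjVar σ} (h : V.ideal = W.ideal) : V = W := by
  cases V; cases W
  subst h
  rfl

/-- product of the six wall equations -/
def HG : R6 := lin (LL 0) * lin (LL 2) * lin (LL 3) * lin (LL 5) * lin (LL 6) * lin (LL 7)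

lemma HG_vanish : HG ∈ vanishing EG := by
  rintro v ⟨hv, hv'⟩
  by_contra hne
  apply hv'
  rw [HG, map_mul, map_mul, map_mul, map_mul, map_mul, realEval_lin, realEval_lin,
    realEval_lin, realEval_lin, realEval_lin, realEval_lin] at hne
  have e : ∀ k, LL k ⬝ᵥ v = 0 → ((LL k ⬝ᵥ v : ℝ) : ℂ) = 0 := by
    intro k hk; rw [hk]; simp
  have n0 : LL 0 ⬝ᵥ v ≠ 0 := fun h => hne (by rw [e 0 h]; ring)
  have n2 : LL 2 ⬝ᵥ v ≠ 0 := fun h => hne (by rw [e 2 h]; ring)
  have n3 : LL 3 ⬝ᵥ v ≠ 0 := fun h => hne (by rw [e 3 h]; ring)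
  have n5 : LL 5 ⬝ᵥ v ≠ 0 := fun h => hne (by rw [e 5 h]; ring)
  have n6 : LL 6 ⬝ᵥ v ≠ 0 := fun h => hne (by rw [e 6 h]; ring)
  have n7 : LL 7 ⬝ᵥ v ≠ 0 := fun h => hne (by rw [e 7 h]; ring)
  refine relInt_of_prod hv fun s hs hpos => ?_
  have hq := Gr_real hv.1
  have p0 := pos_of_ne hs (hpos 0) n0
  have p2 := pos_of_ne hs (hpos 2) n2
  have p3 := pos_of_ne hs (hpos 3) n3
  have p5 := pos_of_ne hs (hpos 5) n5
  have p6 := pos_of_ne hs (hpos 6) n6
  have p7 := pos_of_ne hs (hpos 7) n7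
  have p1 := hpos 1
  have p4 := hpos 4
  have hss : s * s = 1 := by rcases hs with rfl | rfl <;> norm_num
  rw [LL_one] at p1
  rw [LL_four] at p4
  have hprod : 0 < (s * v 1) * (s * v 4) := by
    have h1 : (s * v 1) * (s * v 4) = (s * v 0) * (s * v 5) + (s * v 2) * (s * v 3) := by
      linear_combination (-(s * s)) * hq
    rw [h1]
    rw [LL_zero] at p0
    rw [LL_two] at p2
    rw [LL_three] at p3
    rw [LL_five] at p5
    positivity
  have q1 : 0 < s * v 1 := by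
    rcases p1.eq_or_lt with h | h
    · rw [← h, zero_mul] at hprod
      exact absurd hprod (lt_irrefl _)
    · exact h
  have q4 : 0 < s * v 4 := by
    rcases p4.eq_or_lt with h | h
    · rw [← h, mul_zero] at hprod
      exact absurd hprod (lt_irrefl _)
    · exact h
  refine LLcases (Or.inr p0) (Or.inr ?_) (Or.inr p2) (Or.inr p3) (Or.inr ?_) (Or.inr p5)
    (Or.inr p6) (Or.inr p7)
  · rw [LL_one]; exact q1
  · rw [LL_four]; exact q4

lemma plucker_vanish : plucker ∈ vanishing EG := by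
  rintro v ⟨hv, -⟩
  have h := Gr_real hv.1
  simp only [plucker, realEval, map_add, map_sub, map_mul, aeval_X]
  exact_mod_cast h

/-- indices of the walls -/
def κW : Fin 6 → Fin 8 := ![0, 2, 3, 5, 6, 7]

/-- the components -/
def VW : Fin 6 → ProjVar (Fin 6) := ![C1, C2, C3, C5, C6, C7]

lemma κW_inj : Function.Injective κW := by decide

lemma wallVW (i : Fin 6) : WallData (κW i) (VW i) := by
  fin_cases i
  exacts [wall0, wall2, wall3, wall5, wall6, wall7]

lemma prime_wall (𝔮 : Ideal R6) (hq : 𝔮.IsPrime) (h : vanishing EG ≤ 𝔮) :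
    ∃ i, lin (LL (κW i)) ∈ 𝔮 := by
  have h1 := h HG_vanish
  rw [HG] at h1
  rcases hq.mem_or_mem h1 with h1 | h1
  · rcases hq.mem_or_mem h1 with h1 | h1
    · rcases hq.mem_or_mem h1 with h1 | h1
      · rcases hq.mem_or_mem h1 with h1 | h1
        · rcases hq.mem_or_mem h1 with h1 | h1
          · exact ⟨0, h1⟩
          · exact ⟨1, h1⟩
        · exact ⟨2, h1⟩
      · exact ⟨3, h1⟩
    · exact ⟨4, h1⟩
  · exact ⟨5, h1⟩

lemma le_prime (𝔮 : Ideal R6) (h : vanishing EG ≤ 𝔮) (i : Fin 6)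
    (hi : lin (LL (κW i)) ∈ 𝔮) : (VW i).ideal ≤ 𝔮 := by
  refine (wallVW i).le.trans ?_
  rw [Ideal.span_le]
  rintro x (rfl | hx)
  · exact h plucker_vanish
  · rw [Set.mem_singleton_iff.1 hx]; exact hi

lemma index_eq (i j : Fin 6) (h : lin (LL (κW j)) ∈ (VW i).ideal) : j = i := by
  by_contra hne
  exact (wallVW i).notMem (κW j) (fun h' => hne (κW_inj h')) h

lemma lin_mem_VW (i : Fin 6) : lin (LL (κW i)) ∈ (VW i).ideal := by
  obtain ⟨j, hj⟩ := prime_wall (VW i).ideal (VW i).prime (wallVW i).dense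
  rwa [index_eq i j hj] at hj

lemma VW_inj : Function.Injective VW := by
  intro i j h
  refine (index_eq j i ?_)
  rw [← h]
  exact lin_mem_VW i

lemma components_eq : boundaryComponents Gr24 (AV Gr24) = Set.range VW := by
  ext C
  constructor
  · rintro ⟨⟨hp, hle⟩, hmin⟩
    obtain ⟨i, hi⟩ := prime_wall C.ideal hp hle
    have h1 := le_prime C.ideal hle i hi
    exact ⟨i, ProjVar_ext (le_antisymm h1 (hmin ⟨(VW i).prime, (wallVW i).dense⟩ h1))⟩
  · rintro ⟨i, rfl⟩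
    refine ⟨⟨(VW i).prime, (wallVW i).dense⟩, ?_⟩
    rintro 𝔮 ⟨hq, hle⟩ hqi
    obtain ⟨j, hj⟩ := prime_wall 𝔮 hq hle
    have := index_eq i j (hqi hj)
    subst this
    exact le_prime 𝔮 hle j hj

lemma components_ncard : (boundaryComponents Gr24 (hexahedron hA hB)).ncard = 6 := by
  rw [hexahedron_eq, components_eq, ← Set.image_univ, Set.ncard_image_of_injective _ VW_inj,
    Set.ncard_univ, Nat.card_eq_fintype_card, Fintype.card_fin]

lemma Gr_le_C1 : Gr24.ideal ≤ C1.ideal := by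
  have h := (wallVW 0).dense plucker_vanish
  change Ideal.span {_} ≤ _
  rw [Ideal.span_singleton_le_iff_mem]
  exact h

lemma C1_facet : facet C1 (hexahedron hA hB) = AV C1 :=
  facet_eq LL (AV Gr24) (inter_AV (realPts_mono Gr_le_C1)) C1_dense

theorem no_canonical (ω : RatForm Gr24 4) :
    ¬ IsCanonicalForm 4 Gr24 (hexahedron hA hB) ω := by
  intro h
  have hC : C1 ∈ boundaryComponents Gr24 (hexahedron hA hB) := by
    rw [hexahedron_eq, components_eq]
    exact ⟨0, rfl⟩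
  obtain ⟨ρ, -, hcan⟩ := canon_res h hC
  rw [C1_facet] at hcan
  exact no_canonical_C1 ρ hcan

end Pool.Agent.Helper70.PG

end PartFifteen

noncomputable section PartSixteen

open MvPolynomial Topology

namespace Pool.Agent.Helper70.PG

/-! ### The eight facets of the polytope -/

def dotHom (a : Fin 6 → ℝ) : (Fin 6 → ℝ) →ₗ[ℝ] ℝ where
  toFun v := a ⬝ᵥ v
  map_add' := dotProduct_add a
  map_smul' t v := by rw [dotProduct_smul]; rfl

lemma finrank_ker {a : Fin 6 → ℝ} (ha : a ≠ 0) :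
    Module.finrank ℝ (LinearMap.ker (dotHom a)) = 5 := by
  have h1 := LinearMap.finrank_range_add_finrank_ker (dotHom a)
  have h2 : LinearMap.range (dotHom a) = ⊤ := by
    rw [LinearMap.range_eq_top]
    intro t
    have haa : a ⬝ᵥ a ≠ 0 := fun h => ha (dotProduct_self_eq_zero.1 h)
    refine ⟨(t / (a ⬝ᵥ a)) • a, ?_⟩
    change a ⬝ᵥ _ = t
    rw [dotProduct_smul, smul_eq_mul, div_mul_cancel₀ _ haa]
  rw [h2, finrank_top, Module.finrank_self, Module.finrank_fin_fun] at h1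
  omega

abbrev KK : Set (Fin 6 → ℝ) := polytopeCone hA hB

lemma mem_KK (v : Fin 6 → ℝ) : v ∈ KK ↔ ∀ k, 0 ≤ LL k ⬝ᵥ v := Iff.rfl

/-- interior points of the facets -/
def uW : Fin 8 → Fin 6 → ℝ :=
  ![![0, 1, 1, 1, 1, 10], ![10, 0, 1, 1, 1, 1], ![10, 1, 0, 1, 1, 1], ![10, 1, 1, 0, 1, 1],
    ![10, 1, 1, 1, 0, 1], ![10, 1, 1, 1, 1, 0], ![5, 2, 1, 1, 2, 5], ![5, 1, 2, 2, 1, 5]]

lemma uW_spec (k : Fin 8) : LL k ⬝ᵥ uW k = 0 ∧ ∀ j, j ≠ k → 0 < LL j ⬝ᵥ uW k := by
  revert k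
  refine LLcases ?_ ?_ ?_ ?_ ?_ ?_ ?_ ?_
  · change LL 0 ⬝ᵥ ![0, 1, 1, 1, 1, 10] = 0 ∧ ∀ j, j ≠ 0 → 0 < LL j ⬝ᵥ ![0, 1, 1, 1, 1, 10]
    refine ⟨L0' _ _ _ _ _ _, LLcases (fun h => absurd rfl h) ?_ ?_ ?_ ?_ ?_ ?_ ?_⟩ <;> intro _
    · rw [L1']; norm_num
    · rw [L2']; norm_num
    · rw [L3']; norm_num
    · rw [L4']; norm_num
    · rw [L5']; norm_num
    · rw [L6']; norm_num
    · rw [L7']; norm_num
  · change LL 1 ⬝ᵥ ![10, 0, 1, 1, 1, 1] = 0 ∧ ∀ j, j ≠ 1 → 0 < LL j ⬝ᵥ ![10, 0, 1, 1, 1, 1]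
    refine ⟨L1' _ _ _ _ _ _, LLcases ?_ (fun h => absurd rfl h) ?_ ?_ ?_ ?_ ?_ ?_⟩ <;> intro _
    · rw [L0']; norm_num
    · rw [L2']; norm_num
    · rw [L3']; norm_num
    · rw [L4']; norm_num
    · rw [L5']; norm_num
    · rw [L6']; norm_num
    · rw [L7']; norm_num
  · change LL 2 ⬝ᵥ ![10, 1, 0, 1, 1, 1] = 0 ∧ ∀ j, j ≠ 2 → 0 < LL j ⬝ᵥ ![10, 1, 0, 1, 1, 1]
    refine ⟨L2' _ _ _ _ _ _, LLcases ?_ ?_ (fun h => absurd rfl h) ?_ ?_ ?_ ?_ ?_⟩ <;> intro _
    · rw [L0']; norm_num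
    · rw [L1']; norm_num
    · rw [L3']; norm_num
    · rw [L4']; norm_num
    · rw [L5']; norm_num
    · rw [L6']; norm_num
    · rw [L7']; norm_num
  · change LL 3 ⬝ᵥ ![10, 1, 1, 0, 1, 1] = 0 ∧ ∀ j, j ≠ 3 → 0 < LL j ⬝ᵥ ![10, 1, 1, 0, 1, 1]
    refine ⟨L3' _ _ _ _ _ _, LLcases ?_ ?_ ?_ (fun h => absurd rfl h) ?_ ?_ ?_ ?_⟩ <;> intro _
    · rw [L0']; norm_num
    · rw [L1']; norm_num
    · rw [L2']; norm_num
    · rw [L4']; norm_num
    · rw [L5']; norm_num
    · rw [L6']; norm_num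
    · rw [L7']; norm_num
  · change LL 4 ⬝ᵥ ![10, 1, 1, 1, 0, 1] = 0 ∧ ∀ j, j ≠ 4 → 0 < LL j ⬝ᵥ ![10, 1, 1, 1, 0, 1]
    refine ⟨L4' _ _ _ _ _ _, LLcases ?_ ?_ ?_ ?_ (fun h => absurd rfl h) ?_ ?_ ?_⟩ <;> intro _
    · rw [L0']; norm_num
    · rw [L1']; norm_num
    · rw [L2']; norm_num
    · rw [L3']; norm_num
    · rw [L5']; norm_num
    · rw [L6']; norm_num
    · rw [L7']; norm_num
  · change LL 5 ⬝ᵥ ![10, 1, 1, 1, 1, 0] = 0 ∧ ∀ j, j ≠ 5 → 0 < LL j ⬝ᵥ ![10, 1, 1, 1, 1, 0]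
    refine ⟨L5' _ _ _ _ _ _, LLcases ?_ ?_ ?_ ?_ ?_ (fun h => absurd rfl h) ?_ ?_⟩ <;> intro _
    · rw [L0']; norm_num
    · rw [L1']; norm_num
    · rw [L2']; norm_num
    · rw [L3']; norm_num
    · rw [L4']; norm_num
    · rw [L6']; norm_num
    · rw [L7']; norm_num
  · change LL 6 ⬝ᵥ ![5, 2, 1, 1, 2, 5] = 0 ∧ ∀ j, j ≠ 6 → 0 < LL j ⬝ᵥ ![5, 2, 1, 1, 2, 5]
    refine ⟨by rw [L6']; norm_num, LLcases ?_ ?_ ?_ ?_ ?_ ?_ (fun h => absurd rfl h) ?_⟩ <;>
      intro _
    · rw [L0']; norm_num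
    · rw [L1']; norm_num
    · rw [L2']; norm_num
    · rw [L3']; norm_num
    · rw [L4']; norm_num
    · rw [L5']; norm_num
    · rw [L7']; norm_num
  · change LL 7 ⬝ᵥ ![5, 1, 2, 2, 1, 5] = 0 ∧ ∀ j, j ≠ 7 → 0 < LL j ⬝ᵥ ![5, 1, 2, 2, 1, 5]
    refine ⟨by rw [L7']; norm_num, LLcases ?_ ?_ ?_ ?_ ?_ ?_ ?_ (fun h => absurd rfl h)⟩ <;>
      intro _
    · rw [L0']; norm_num
    · rw [L1']; norm_num
    · rw [L2']; norm_num
    · rw [L3']; norm_num
    · rw [L4']; norm_num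
    · rw [L5']; norm_num
    · rw [L6']; norm_num

/-- The facet on the wall `k`. -/
def FW (k : Fin 8) : Set (Fin 6 → ℝ) := {v | v ∈ KK ∧ LL k ⬝ᵥ v = 0}

lemma uW_mem (k : Fin 8) : uW k ∈ FW k := by
  refine ⟨(mem_KK _).2 fun j => ?_, (uW_spec k).1⟩
  by_cases h : j = k
  · rw [h, (uW_spec k).1]
  · exact ((uW_spec k).2 j h).le

lemma LL_ne (k : Fin 8) : LL k ≠ 0 := by
  intro h
  have hj : ∃ j : Fin 8, k ≠ j := by
    by_cases hk : k = 0
    · exact ⟨1, by rw [hk]; decide⟩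
    · exact ⟨0, hk⟩
  obtain ⟨j, hj⟩ := hj
  have := (uW_spec j).2 k hj
  rw [h, zero_dotProduct] at this
  exact lt_irrefl _ this

lemma span_FW (k : Fin 8) : Submodule.span ℝ (FW k) = LinearMap.ker (dotHom (LL k)) := by
  apply le_antisymm
  · rw [Submodule.span_le]
    intro v hv
    exact hv.2
  · intro u hu
    have hu0 : LL k ⬝ᵥ u = 0 := hu
    have h1 : ∀ j, ∀ᶠ ε : ℝ in 𝓝 0, 0 ≤ LL j ⬝ᵥ (uW k + ε • u) := by
      intro j
      by_cases hj : j = k
      · refine Filter.Eventually.of_forall fun ε => ?_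
        rw [hj, dotProduct_add, dotProduct_smul, hu0, (uW_spec k).1]
        simp
      · have h2 : Continuous fun ε : ℝ => LL j ⬝ᵥ (uW k + ε • u) :=
          (continuous_dot _).comp (by fun_prop)
        exact (h2.continuousAt.eventually (lt_mem_nhds (by
          simpa using (uW_spec k).2 j hj))).mono fun ε h => h.le
    have h3 : ∀ᶠ ε : ℝ in 𝓝[>] 0, ∀ j, 0 ≤ LL j ⬝ᵥ (uW k + ε • u) :=
      nhdsWithin_le_nhds (Filter.eventually_all.2 h1)
    obtain ⟨ε, hε, hε0⟩ := (h3.and self_mem_nhdsWithin).exists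
    have hε0' : (0 : ℝ) < ε := hε0
    have h4 : uW k + ε • u ∈ FW k := by
      refine ⟨(mem_KK _).2 hε, ?_⟩
      rw [dotProduct_add, dotProduct_smul, hu0, (uW_spec k).1]
      simp
    have h5 : u = ε⁻¹ • ((uW k + ε • u) - uW k) := by
      rw [add_sub_cancel_left, smul_smul, inv_mul_cancel₀ hε0'.ne', one_smul]
    rw [h5]
    exact Submodule.smul_mem _ _ (Submodule.sub_mem _ (Submodule.subset_span h4)
      (Submodule.subset_span (uW_mem k)))

lemma FW_inj : Function.Injective FW := by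
  intro i j h
  by_contra hne
  have h1 : uW i ∈ FW j := h ▸ uW_mem i
  have h2 := (uW_spec i).2 j (fun h' => hne h'.symm)
  exact h2.ne' h1.2

lemma facets_eq : polytopeFacets hA hB = Set.range FW := by
  ext F
  constructor
  · rintro ⟨⟨a, ha, rfl⟩, hF⟩
    have hKadd : ∀ v w, v ∈ KK → w ∈ KK → v + w ∈ KK := by
      intro v w hv hw
      rw [mem_KK] at *
      intro k
      rw [dotProduct_add]
      exact add_nonneg (hv k) (hw k)
    have ha0 : a ≠ 0 := by
      rintro rfl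
      have hset : {v | v ∈ KK ∧ (0 : Fin 6 → ℝ) ⬝ᵥ v = 0} = KK := by
        ext v; simp
      rw [hset] at hF
      have h1 : LinearMap.ker (dotHom (LL 0)) ≤ Submodule.span ℝ KK := by
        rw [← span_FW 0]
        exact Submodule.span_mono fun v hv => hv.1
      have h2 := Submodule.eq_of_le_of_finrank_eq h1 (by
        rw [finrank_ker (LL_ne 0)]; exact hF.symm)
      have h3 : uW 1 ∈ LinearMap.ker (dotHom (LL 0)) := by
        rw [h2]
        exact Submodule.subset_span (uW_mem 1).1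
      exact ((uW_spec 1).2 0 (by decide)).ne' h3
    have hk : ∃ k, ∀ v ∈ KK, a ⬝ᵥ v = 0 → LL k ⬝ᵥ v = 0 := by
      by_contra hcon
      push Not at hcon
      choose g hg1 hg2 hg3 using hcon
      have hsum : ∀ k, 0 < LL k ⬝ᵥ (∑ j, g j) := by
        intro k
        rw [dotProduct_sum]
        refine Finset.sum_pos' (fun j _ => (mem_KK _).1 (hg1 j) k) ⟨k, Finset.mem_univ _, ?_⟩
        exact lt_of_le_of_ne ((mem_KK _).1 (hg1 k) k) (Ne.symm (hg3 k))
      have hasum : a ⬝ᵥ (∑ j, g j) = 0 := by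
        rw [dotProduct_sum]
        exact Finset.sum_eq_zero fun j _ => hg2 j
      have h1 : ∀ j, ∀ᶠ ε : ℝ in 𝓝 0, 0 ≤ LL j ⬝ᵥ ((∑ j, g j) + ε • (-a)) := by
        intro j
        have h2 : Continuous fun ε : ℝ => LL j ⬝ᵥ ((∑ j, g j) + ε • (-a)) :=
          (continuous_dot _).comp (by fun_prop)
        exact (h2.continuousAt.eventually (lt_mem_nhds (by
          simpa using hsum j))).mono fun ε h => h.le
      have h3 : ∀ᶠ ε : ℝ in 𝓝[>] 0, ∀ j, 0 ≤ LL j ⬝ᵥ ((∑ j, g j) + ε • (-a)) :=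
        nhdsWithin_le_nhds (Filter.eventually_all.2 h1)
      obtain ⟨ε, hε, hε0⟩ := (h3.and self_mem_nhdsWithin).exists
      have hε0' : (0 : ℝ) < ε := hε0
      have h4 := ha _ ((mem_KK _).2 hε)
      rw [dotProduct_add, hasum, zero_add, dotProduct_smul, dotProduct_neg, smul_eq_mul] at h4
      have h5 : 0 < a ⬝ᵥ a := by
        have h6 : 0 ≤ a ⬝ᵥ a := by
          unfold dotProduct
          exact Finset.sum_nonneg fun i _ => mul_self_nonneg _
        exact lt_of_le_of_ne h6 (fun h => ha0 (dotProduct_self_eq_zero.1 h.symm))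
      nlinarith
    obtain ⟨k, hk⟩ := hk
    have h1 : Submodule.span ℝ {v | v ∈ KK ∧ a ⬝ᵥ v = 0} ≤ LinearMap.ker (dotHom (LL k)) := by
      rw [Submodule.span_le]
      rintro v ⟨hv, hv'⟩
      exact hk v hv hv'
    have h2 : Submodule.span ℝ {v | v ∈ KK ∧ a ⬝ᵥ v = 0} ≤ LinearMap.ker (dotHom a) := by
      rw [Submodule.span_le]
      rintro v ⟨hv, hv'⟩
      exact hv'
    have h3 := Submodule.eq_of_le_of_finrank_eq h1 (by
      rw [finrank_ker (LL_ne k)]; exact hF)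
    have h4 := Submodule.eq_of_le_of_finrank_eq h2 (by
      rw [finrank_ker ha0]; exact hF)
    refine ⟨k, ?_⟩
    ext v
    have h5 : v ∈ LinearMap.ker (dotHom (LL k)) ↔ v ∈ LinearMap.ker (dotHom a) := by
      rw [← h3, ← h4]
    constructor
    · rintro ⟨hv, hv'⟩
      exact ⟨hv, h5.1 hv'⟩
    · rintro ⟨hv, hv'⟩
      exact ⟨hv, h5.2 hv'⟩
  · rintro ⟨k, rfl⟩
    refine ⟨⟨LL k, fun v hv => (mem_KK _).1 hv k, rfl⟩, ?_⟩
    rw [span_FW k, finrank_ker (LL_ne k)]

lemma facets_ncard : (polytopeFacets hA hB).ncard = 8 := by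
  rw [facets_eq, ← Set.image_univ, Set.ncard_image_of_injective _ FW_inj,
    Set.ncard_univ, Nat.card_eq_fintype_card, Fintype.card_fin]

lemma isPositiveHexahedron : IsPositiveHexahedron hA hB := ⟨facets_ncard, components_ncard⟩

end Pool.Agent.Helper70.PG

end PartSixteen

noncomputable section PartSeventeen

open MvPolynomial Topology

namespace Pool.Agent.Helper70.PG

/-! ### The hexahedron is the closure of its interior -/

/-- vectors with explicit entries -/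
def v6 (z a b c d e : ℝ) : Fin 6 → ℝ := ![z, a, b, c, d, e]

lemma v6_eta (w : Fin 6 → ℝ) : w = v6 (w 0) (w 1) (w 2) (w 3) (w 4) (w 5) := by
  ext i
  fin_cases i <;> rfl

lemma allpos_v6 {z a b c d e : ℝ} (h0 : 0 < z) (h1 : 0 < a) (h2 : 0 < b) (h3 : 0 < c)
    (h4 : 0 < d) (h5 : 0 < e) (h6 : 0 < z - 2 * a - b - c - 2 * d + e)
    (h7 : 0 < z - a - 2 * b - 2 * c - d + e) : ∀ k, 0 < LL k ⬝ᵥ v6 z a b c d e := by
  unfold v6
  refine LLcases ?_ ?_ ?_ ?_ ?_ ?_ ?_ ?_
  · rw [L0']; exact h0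
  · rw [L1']; exact h1
  · rw [L2']; exact h2
  · rw [L3']; exact h3
  · rw [L4']; exact h4
  · rw [L5']; exact h5
  · rw [L6']; exact h6
  · rw [L7']; exact h7

lemma Gr_relInt {w : Fin 6 → ℝ} {s : ℝ} (hs : s = 1 ∨ s = -1)
    (hq : w 0 * w 5 - w 1 * w 4 + w 2 * w 3 = 0) (hpos : ∀ k, 0 < LL k ⬝ᵥ w) :
    s • w ∈ relInterior (realPts Gr24) (AV Gr24) := by
  have hs0 : s ≠ 0 := by rcases hs with rfl | rfl <;> norm_num
  have hss : s * s = 1 := by rcases hs with rfl | rfl <;> norm_num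
  have hw0 : w ≠ 0 := by
    intro h
    have := hpos 0
    rw [h, dotProduct_zero] at this
    exact lt_irrefl _ this
  refine relInt_of LL (realPts_smul (Gr_mem hw0 hq) hs0) s hs fun k => Or.inr ?_
  rw [dotProduct_smul, smul_eq_mul, ← mul_assoc, hss, one_mul]
  exact hpos k

lemma continuous_v6 {f0 f1 f2 f3 f4 f5 : ℝ → ℝ} (h0 : Continuous f0) (h1 : Continuous f1)
    (h2 : Continuous f2) (h3 : Continuous f3) (h4 : Continuous f4) (h5 : Continuous f5) :
    Continuous fun τ => v6 (f0 τ) (f1 τ) (f2 τ) (f3 τ) (f4 τ) (f5 τ) := by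
  refine continuous_pi fun i => ?_
  fin_cases i
  exacts [h0, h1, h2, h3, h4, h5]

/-- Points with positive `h₁`, `h₂` are limits of interior points. -/
lemma step2 {z a b c d e s : ℝ} (hs : s = 1 ∨ s = -1) (h0 : 0 ≤ z) (h1 : 0 ≤ a) (h2 : 0 ≤ b)
    (h3 : 0 ≤ c) (h4 : 0 ≤ d) (h5 : 0 ≤ e) (hq : z * e - a * d + b * c = 0)
    (h6 : 0 < z - 2 * a - b - c - 2 * d + e) (h7 : 0 < z - a - 2 * b - 2 * c - d + e) :
    s • v6 z a b c d e ∈ closure (relInterior (realPts Gr24) (AV Gr24)) := by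
  have hbc : 0 < 2 * (b + c + 1) := by linarith
  -- the key inequality
  have key : ∀ τ : ℝ, 0 < τ → τ < 1 → 0 < (a + τ) * (d + τ) -
      (b + τ ^ 2 / (2 * (b + c + 1))) * (c + τ ^ 2 / (2 * (b + c + 1))) := by
    intro τ hτ hτ1
    set r := τ ^ 2 / (2 * (b + c + 1)) with hr
    have hr0 : 0 < r := div_pos (by positivity) hbc
    have hr1 : r * (2 * (b + c + 1)) = τ ^ 2 := div_mul_cancel₀ _ hbc.ne'
    have hze : 0 ≤ z * e := mul_nonneg h0 h5
    have hr2 : r ≤ τ ^ 2 / 2 := by nlinarith [mul_nonneg hr0.le h2, mul_nonneg hr0.le h3]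
    have hτ2 : τ ^ 2 < 1 := by nlinarith
    have hrr : r * r ≤ τ ^ 2 / 4 := by nlinarith
    nlinarith [mul_nonneg h1 hτ.le, mul_nonneg h4 hτ.le, mul_pos hτ hτ]
  have hbr : ∀ τ : ℝ, 0 < τ → 0 < τ ^ 2 / (2 * (b + c + 1)) := fun τ hτ =>
    div_pos (by positivity) hbc
  have hzt : 0 < z ∨ 0 < e := by
    by_contra hcon
    push Not at hcon
    linarith
  have ev1 : ∀ᶠ τ : ℝ in 𝓝[>] 0, τ < 1 := nhdsWithin_le_nhds (gt_mem_nhds one_pos)
  rcases hzt with hz | he
  · have e0 : ((a + 0) * (d + 0) - (b + 0 ^ 2 / (2 * (b + c + 1))) *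
        (c + 0 ^ 2 / (2 * (b + c + 1)))) / z = e := by
      rw [div_eq_iff hz.ne']
      simp
      linarith
    have hc : Continuous fun τ : ℝ => v6 z (a + τ) (b + τ ^ 2 / (2 * (b + c + 1)))
        (c + τ ^ 2 / (2 * (b + c + 1))) (d + τ)
        (((a + τ) * (d + τ) - (b + τ ^ 2 / (2 * (b + c + 1))) *
          (c + τ ^ 2 / (2 * (b + c + 1)))) / z) :=
      continuous_v6 (by fun_prop) (by fun_prop) (by fun_prop) (by fun_prop) (by fun_prop)
        (by fun_prop)
    have hv0 : v6 z (a + 0) (b + 0 ^ 2 / (2 * (b + c + 1))) (c + 0 ^ 2 / (2 * (b + c + 1)))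
        (d + 0) (((a + 0) * (d + 0) - (b + 0 ^ 2 / (2 * (b + c + 1))) *
          (c + 0 ^ 2 / (2 * (b + c + 1)))) / z) = v6 z a b c d e := by
      rw [e0]; simp
    have ht := (hc.const_smul s).tendsto 0
    rw [Pi.smul_apply, hv0] at ht
    have ht' := ht.mono_left (nhdsWithin_le_nhds (s := Set.Ioi (0 : ℝ)))
    refine mem_closure_of_tendsto ht' ?_
    have c6 := ((continuous_dot (LL 6)).comp hc).tendsto 0
    have c7 := ((continuous_dot (LL 7)).comp hc).tendsto 0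
    simp only [Function.comp_apply, hv0] at c6 c7
    have d6 : 0 < LL 6 ⬝ᵥ v6 z a b c d e := by rw [v6, L6']; exact h6
    have d7 : 0 < LL 7 ⬝ᵥ v6 z a b c d e := by rw [v6, L7']; exact h7
    have e6 := nhdsWithin_le_nhds (s := Set.Ioi (0 : ℝ)) (c6.eventually (lt_mem_nhds d6))
    have e7 := nhdsWithin_le_nhds (s := Set.Ioi (0 : ℝ)) (c7.eventually (lt_mem_nhds d7))
    filter_upwards [ev1, self_mem_nhdsWithin, e6, e7] with τ hτ1 hτ g6 g7
    have hτ0 : 0 < τ := hτ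
    refine Gr_relInt hs ?_ ?_
    · change z * (((a + τ) * (d + τ) - (b + τ ^ 2 / (2 * (b + c + 1))) *
          (c + τ ^ 2 / (2 * (b + c + 1)))) / z) - (a + τ) * (d + τ) +
          (b + τ ^ 2 / (2 * (b + c + 1))) * (c + τ ^ 2 / (2 * (b + c + 1))) = 0
      rw [mul_div_cancel₀ _ hz.ne']
      ring
    · have := hbr τ hτ0
      refine LLcases ?_ ?_ ?_ ?_ ?_ ?_ g6 g7
      · change 0 < LL 0 ⬝ᵥ ![_, _, _, _, _, _]; rw [L0']; exact hz
      · change 0 < LL 1 ⬝ᵥ ![_, _, _, _, _, _]; rw [L1']; linarith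
      · change 0 < LL 2 ⬝ᵥ ![_, _, _, _, _, _]; rw [L2']; linarith
      · change 0 < LL 3 ⬝ᵥ ![_, _, _, _, _, _]; rw [L3']; linarith
      · change 0 < LL 4 ⬝ᵥ ![_, _, _, _, _, _]; rw [L4']; linarith
      · change 0 < LL 5 ⬝ᵥ ![_, _, _, _, _, _]; rw [L5']; exact div_pos (key τ hτ0 hτ1) hz
  · have e0 : ((a + 0) * (d + 0) - (b + 0 ^ 2 / (2 * (b + c + 1))) *
        (c + 0 ^ 2 / (2 * (b + c + 1)))) / e = z := by
      rw [div_eq_iff he.ne']
      simp
      linarith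
    have hc : Continuous fun τ : ℝ => v6 (((a + τ) * (d + τ) -
        (b + τ ^ 2 / (2 * (b + c + 1))) * (c + τ ^ 2 / (2 * (b + c + 1)))) / e)
        (a + τ) (b + τ ^ 2 / (2 * (b + c + 1)))
        (c + τ ^ 2 / (2 * (b + c + 1))) (d + τ) e :=
      continuous_v6 (by fun_prop) (by fun_prop) (by fun_prop) (by fun_prop) (by fun_prop)
        (by fun_prop)
    have hv0 : v6 (((a + 0) * (d + 0) - (b + 0 ^ 2 / (2 * (b + c + 1))) *
        (c + 0 ^ 2 / (2 * (b + c + 1)))) / e) (a + 0) (b + 0 ^ 2 / (2 * (b + c + 1)))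
        (c + 0 ^ 2 / (2 * (b + c + 1))) (d + 0) e = v6 z a b c d e := by
      rw [e0]; simp
    have ht := (hc.const_smul s).tendsto 0
    rw [Pi.smul_apply, hv0] at ht
    have ht' := ht.mono_left (nhdsWithin_le_nhds (s := Set.Ioi (0 : ℝ)))
    refine mem_closure_of_tendsto ht' ?_
    have c6 := ((continuous_dot (LL 6)).comp hc).tendsto 0
    have c7 := ((continuous_dot (LL 7)).comp hc).tendsto 0
    simp only [Function.comp_apply, hv0] at c6 c7
    have d6 : 0 < LL 6 ⬝ᵥ v6 z a b c d e := by rw [v6, L6']; exact h6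
    have d7 : 0 < LL 7 ⬝ᵥ v6 z a b c d e := by rw [v6, L7']; exact h7
    have e6 := nhdsWithin_le_nhds (s := Set.Ioi (0 : ℝ)) (c6.eventually (lt_mem_nhds d6))
    have e7 := nhdsWithin_le_nhds (s := Set.Ioi (0 : ℝ)) (c7.eventually (lt_mem_nhds d7))
    filter_upwards [ev1, self_mem_nhdsWithin, e6, e7] with τ hτ1 hτ g6 g7
    have hτ0 : 0 < τ := hτ
    refine Gr_relInt hs ?_ ?_
    · change (((a + τ) * (d + τ) - (b + τ ^ 2 / (2 * (b + c + 1))) *
          (c + τ ^ 2 / (2 * (b + c + 1)))) / e) * e - (a + τ) * (d + τ) +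
          (b + τ ^ 2 / (2 * (b + c + 1))) * (c + τ ^ 2 / (2 * (b + c + 1))) = 0
      rw [div_mul_cancel₀ _ he.ne']
      ring
    · have := hbr τ hτ0
      refine LLcases ?_ ?_ ?_ ?_ ?_ ?_ g6 g7
      · change 0 < LL 0 ⬝ᵥ ![_, _, _, _, _, _]; rw [L0']; exact div_pos (key τ hτ0 hτ1) he
      · change 0 < LL 1 ⬝ᵥ ![_, _, _, _, _, _]; rw [L1']; linarith
      · change 0 < LL 2 ⬝ᵥ ![_, _, _, _, _, _]; rw [L2']; linarith
      · change 0 < LL 3 ⬝ᵥ ![_, _, _, _, _, _]; rw [L3']; linarith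
      · change 0 < LL 4 ⬝ᵥ ![_, _, _, _, _, _]; rw [L4']; linarith
      · change 0 < LL 5 ⬝ᵥ ![_, _, _, _, _, _]; rw [L5']; exact he

theorem hexahedron_regular : hexahedron hA hB ⊆
    closure (relInterior (realPts Gr24) (hexahedron hA hB)) := by
  rw [hexahedron_eq]
  rintro u ⟨hu, hu'⟩
  obtain ⟨s, hs, hpos⟩ := SQ_sign hu'
  have hs0 : s ≠ 0 := by rcases hs with rfl | rfl <;> norm_num
  have hss : s * s = 1 := by rcases hs with rfl | rfl <;> norm_num
  set w := s • u with hw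
  have hwu : u = s • w := by rw [hw, smul_smul, hss, one_smul]
  have hwr : w ∈ realPts Gr24 := realPts_smul hu hs0
  have hq := Gr_real hwr
  have p0 := hpos 0
  have p1 := hpos 1
  have p2 := hpos 2
  have p3 := hpos 3
  have p4 := hpos 4
  have p5 := hpos 5
  have p6 := hpos 6
  have p7 := hpos 7
  rw [LL_zero] at p0
  rw [LL_one] at p1
  rw [LL_two] at p2
  rw [LL_three] at p3
  rw [LL_four] at p4
  rw [LL_five] at p5
  rw [LL_six] at p6
  rw [LL_seven] at p7
  have hze : 0 < w 0 + w 5 := by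
    by_contra hcon
    push Not at hcon
    apply hwr.1
    have e0 : w 0 = 0 := by linarith
    have e5 : w 5 = 0 := by linarith
    have e1 : w 1 = 0 := by linarith
    have e2 : w 2 = 0 := by linarith
    have e3 : w 3 = 0 := by linarith
    have e4 : w 4 = 0 := by linarith
    ext i
    fin_cases i
    exacts [e0, e1, e2, e3, e4, e5]
  rw [hwu, v6_eta w, ← closure_closure]
  generalize w 0 = z at *
  generalize w 1 = a at *
  generalize w 2 = b at *
  generalize w 3 = c at *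
  generalize w 4 = d at *
  generalize w 5 = e at *
  rcases le_total e z with hez | hez
  · have hz : 0 < z := by linarith
    have hc : ContinuousAt (fun τ : ℝ => s • v6 ((1 + τ) * z) a b c d (e / (1 + τ))) 0 := by
      refine ContinuousAt.const_smul ?_ s
      refine continuousAt_pi.2 fun i => ?_
      fin_cases i
      · exact (by fun_prop : Continuous fun τ : ℝ => (1 + τ) * z).continuousAt
      · exact continuousAt_const
      · exact continuousAt_const
      · exact continuousAt_const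
      · exact continuousAt_const
      · exact ContinuousAt.div continuousAt_const (by fun_prop) (by norm_num)
    have ht : Filter.Tendsto (fun τ : ℝ => s • v6 ((1 + τ) * z) a b c d (e / (1 + τ)))
        (𝓝[>] 0) (𝓝 (s • v6 z a b c d e)) := by
      have := hc.tendsto
      simp only [add_zero, one_mul, div_one] at this
      exact this.mono_left nhdsWithin_le_nhds
    refine mem_closure_of_tendsto ht ?_
    filter_upwards [self_mem_nhdsWithin] with τ hτ
    have hτ0 : 0 < τ := hτ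
    have h1 : (0 : ℝ) < 1 + τ := by linarith
    have hgain : z + e < (1 + τ) * z + e / (1 + τ) := by
      rw [← sub_pos]
      have : (1 + τ) * z + e / (1 + τ) - (z + e) = τ * ((1 + τ) * z - e) / (1 + τ) := by
        field_simp
        ring
      rw [this]
      refine div_pos (mul_pos hτ0 ?_) h1
      nlinarith
    refine step2 hs (by positivity) p1 p2 p3 p4 (by positivity) ?_ (by linarith) (by linarith)
    have : (1 + τ) * z * (e / (1 + τ)) = z * e := by field_simp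
    rw [this]
    exact hq
  · have hz : 0 < e := by linarith
    have hc : ContinuousAt (fun τ : ℝ => s • v6 (z / (1 + τ)) a b c d ((1 + τ) * e)) 0 := by
      refine ContinuousAt.const_smul ?_ s
      refine continuousAt_pi.2 fun i => ?_
      fin_cases i
      · exact ContinuousAt.div continuousAt_const (by fun_prop) (by norm_num)
      · exact continuousAt_const
      · exact continuousAt_const
      · exact continuousAt_const
      · exact continuousAt_const
      · exact (by fun_prop : Continuous fun τ : ℝ => (1 + τ) * e).continuousAt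
    have ht : Filter.Tendsto (fun τ : ℝ => s • v6 (z / (1 + τ)) a b c d ((1 + τ) * e))
        (𝓝[>] 0) (𝓝 (s • v6 z a b c d e)) := by
      have := hc.tendsto
      simp only [add_zero, one_mul, div_one] at this
      exact this.mono_left nhdsWithin_le_nhds
    refine mem_closure_of_tendsto ht ?_
    filter_upwards [self_mem_nhdsWithin] with τ hτ
    have hτ0 : 0 < τ := hτ
    have h1 : (0 : ℝ) < 1 + τ := by linarith
    have hgain : z + e < z / (1 + τ) + (1 + τ) * e := by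
      rw [← sub_pos]
      have : z / (1 + τ) + (1 + τ) * e - (z + e) = τ * ((1 + τ) * e - z) / (1 + τ) := by
        field_simp
        ring
      rw [this]
      refine div_pos (mul_pos hτ0 ?_) h1
      nlinarith
    refine step2 hs (by positivity) p1 p2 p3 p4 (by positivity) ?_ (by linarith) (by linarith)
    have : z / (1 + τ) * ((1 + τ) * e) = z * e := by field_simp
    rw [this]
    exact hq

end Pool.Agent.Helper70.PG

end PartSeventeen

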