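import Pool.Agent.Helper70.PGFour

set_option autoImplicit false
set_option linter.unusedSectionVars false

noncomputable section PartFive

open MvPolynomial Topology

namespace Pool.Agent.Helper70.PG

lemma inter_AV {V W : ProjVar (Fin 6)} (h : realPts W ⊆ realPts V) :
    realPts W ∩ AV V = realPts W ∩ SQ LL := by
  ext v
  constructor
  · rintro ⟨h1, -, h2⟩; exact ⟨h1, h2⟩
  · rintro ⟨h1, h2⟩; exact ⟨h1, h h1, h2⟩

lemma vec3_SQ {x y z : ℝ} (hx : -1 ≤ x ∧ x ≤ 1) (hy : -1 ≤ y ∧ y ≤ 1)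
    (hz : x * y ≤ z ∧ -(x * y) ≤ z) : vec3 x y z ∈ SQ LL := by
  left
  refine LLcases ?_ ?_ ?_ ?_ ?_ ?_ ?_ ?_
  · rw [LL_zero, vec3_0]
  · rw [LL_one, vec3_1]; exact mul_nonneg (by linarith) (by linarith)
  · rw [LL_two, vec3_2]; exact mul_nonneg (by linarith) (by linarith)
  · rw [LL_three, vec3_3]; exact mul_nonneg (by linarith) (by linarith)
  · rw [LL_four, vec3_4]; exact mul_nonneg (by linarith) (by linarith)
  · rw [LL_five, vec3_5]; linarith
  · rw [LL_six, vec3_0, vec3_1, vec3_2, vec3_3, vec3_4, vec3_5]; nlinarith [hz.1]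
  · rw [LL_seven, vec3_0, vec3_1, vec3_2, vec3_3, vec3_4, vec3_5]; nlinarith [hz.2]

lemma L6_vec3 (x y z : ℝ) : LL 6 ⬝ᵥ vec3 x y z = 2 * (z - x * y) := by
  rw [LL_six, vec3_0, vec3_1, vec3_2, vec3_3, vec3_4, vec3_5]; ring

lemma L7_vec3 (x y z : ℝ) : LL 7 ⬝ᵥ vec3 x y z = 2 * (z + x * y) := by
  rw [LL_seven, vec3_0, vec3_1, vec3_2, vec3_3, vec3_4, vec3_5]; ring

lemma DV_component {ε : ℝ} (hε : ε = 1 ∨ ε = -1) : DV ε ∈ boundaryComponents C1 (AV C1) := by
  refine c1.sub_mem_components (rD ε) (πD_prime ε) (rD_π ε) (rD_dvd ε) (AV C1)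
    Set.inter_subset_left ?_ H6_homog H6_vanish φ1_H6_ne
  refine vanishing_le_sub c1 (rD ε) _
    (T := {p : ℝ × ℝ // (0 < p.1 ∧ p.1 < 1) ∧ (0 < p.2 ∧ p.2 < 1)})
    (fun p => aeval ![((ε * p.1.1 : ℝ) : ℂ), ((p.1.2 : ℝ) : ℂ)]) ?_
    (fun p => vec3 (ε * p.1.1) p.1.2 (p.1.1 * p.1.2)) ?_ ?_
  · intro p hp
    rcases hε with rfl | rfl
    · refine box_density p ![0, 0] ![1, 1] (by intro i; fin_cases i <;> simp) ?_
      intro x hx
      have h0 := hx 0
      have h1 := hx 1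
      simp at h0 h1
      have h2 := hp ⟨(x 0, x 1), h0, h1⟩
      refine Eq.trans ?_ h2
      congr 2
      ext i
      fin_cases i <;> simp
    · refine box_density p ![-1, 0] ![0, 1] (by intro i; fin_cases i <;> simp) ?_
      intro x hx
      have h0 := hx 0
      have h1 := hx 1
      simp at h0 h1
      have h2 := hp ⟨(-x 0, x 1), ⟨by dsimp only; linarith, by dsimp only; linarith⟩, h1⟩
      refine Eq.trans ?_ h2
      congr 2
      ext i
      fin_cases i <;> simp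
  · rintro ⟨⟨x, y⟩, hx, hy⟩ i
    have h6 : rD ε 6 = 6 := map_ofNat _ 6
    have h2 : rD ε 2 = 2 := map_ofNat _ 2
    have hεε : (ε : ℂ) * ε = 1 := by rcases hε with rfl | rfl <;> norm_num
    rw [c1_φ]
    dsimp only
    fin_cases i
    · simp [vec3, φ1]
    · simp [vec3, φ1, rD]
    · simp [vec3, φ1, rD]
    · simp [vec3, φ1, rD]
    · simp [vec3, φ1, rD]
    · change ((vec3 (ε * x) y (x * y) 5 : ℝ) : ℂ) =
        aeval ![((ε * x : ℝ) : ℂ), (y : ℂ)] (rD ε (6 + 2 * X 2))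
      rw [vec3_5, map_add, map_mul, h6, h2]
      simp [rD]
      linear_combination (-(x : ℂ) * y) * hεε
  · rintro ⟨⟨x, y⟩, hx, hy⟩ t ht
    dsimp only at hx hy ⊢
    have hxy : 0 < x * y := mul_pos hx.1 hy.1
    refine bdry_of_smul LL ⟨vec3_mem _ _ _, ?_⟩ (fun τ => vec3 (ε * x) y (x * y - τ)) ?_ ?_ t ht
    · refine vec3_SQ ?_ ⟨by linarith, by linarith⟩ ?_
      · rcases hε with rfl | rfl <;> constructor <;> linarith
      · rcases hε with rfl | rfl <;> constructor <;> nlinarith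
    · have h1 : Continuous fun τ : ℝ => vec3 (ε * x) y (x * y - τ) :=
        continuous_vec3 (by fun_prop) (by fun_prop) (by fun_prop)
      have h2 := h1.tendsto 0
      simp only [sub_zero] at h2
      exact h2.mono_left nhdsWithin_le_nhds
    · filter_upwards [self_mem_nhdsWithin] with τ hτ
      have hτ0 : 0 < τ := hτ
      refine ⟨vec3_mem _ _ _, ?_, 4, ?_⟩
      · rcases hε with rfl | rfl
        · exact ⟨6, by rw [L6_vec3]; linarith⟩
        · exact ⟨7, by rw [L7_vec3]; linarith⟩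
      · rw [LL_four, vec3_4]
        refine mul_pos ?_ (by linarith)
        rcases hε with rfl | rfl <;> linarith

lemma DV_relInt {ε : ℝ} (hε : ε = 1 ∨ ε = -1) {x y s m : ℝ} (hs : s = 1 ∨ s = -1)
    (hm : 0 < m) (hx : -1 < x ∧ x < 1) (hy : -1 < y ∧ y < 1) (hxy : 0 < ε * (x * y)) :
    s • m • vec3 x y (ε * (x * y)) ∈ relInterior (realPts (DV ε)) (AV (DV ε)) := by
  have hs0 : s ≠ 0 := by rcases hs with rfl | rfl <;> norm_num
  have hss : s * s = 1 := by rcases hs with rfl | rfl <;> norm_num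
  refine relInt_of LL (realPts_smul (realPts_smul (DV_mem ε _ _) hm.ne') hs0) s hs ?_
  have e : ∀ k, s * (LL k ⬝ᵥ (s • m • vec3 x y (ε * (x * y)))) =
      m * (LL k ⬝ᵥ vec3 x y (ε * (x * y))) := by
    intro k
    rw [dotProduct_smul, dotProduct_smul, smul_eq_mul, smul_eq_mul, ← mul_assoc, hss, one_mul]
  refine LLcases (Or.inl fun u hu => by rw [LL_zero]; exact (C1_real (DV_sub ε hu)).1)
    ?_ ?_ ?_ ?_ ?_ ?_ ?_
  · right; rw [e]; refine mul_pos hm ?_
    rw [LL_one, vec3_1]; exact mul_pos (by linarith) (by linarith)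
  · right; rw [e]; refine mul_pos hm ?_
    rw [LL_two, vec3_2]; exact mul_pos (by linarith) (by linarith)
  · right; rw [e]; refine mul_pos hm ?_
    rw [LL_three, vec3_3]; exact mul_pos (by linarith) (by linarith)
  · right; rw [e]; refine mul_pos hm ?_
    rw [LL_four, vec3_4]; exact mul_pos (by linarith) (by linarith)
  · right; rw [e]; refine mul_pos hm ?_
    rw [LL_five, vec3_5]; linarith
  · rcases hε with rfl | rfl
    · left
      intro u hu
      have := DV_real (Or.inl rfl) hu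
      linarith
    · right; rw [e]; refine mul_pos hm ?_
      rw [L6_vec3]; linarith
  · rcases hε with rfl | rfl
    · right; rw [e]; refine mul_pos hm ?_
      rw [L7_vec3]; linarith
    · left
      intro u hu
      have := DV_real (Or.inr rfl) hu
      linarith

lemma DV_dense {ε : ℝ} (hε : ε = 1 ∨ ε = -1) :
    AV (DV ε) ⊆ closure (relInterior (realPts (DV ε)) (AV (DV ε))) := by
  rintro u ⟨hu, hu'⟩
  obtain ⟨s, hs, hpos⟩ := SQ_sign hu'
  have hs0 : s ≠ 0 := by rcases hs with rfl | rfl <;> norm_num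
  have hss : s * s = 1 := by rcases hs with rfl | rfl <;> norm_num
  set w := s • u with hw
  have hwu : u = s • w := by rw [hw, smul_smul, hss, one_smul]
  have hwD : w ∈ realPts (DV ε) := realPts_smul hu hs0
  have hwr : w ∈ realPts C1 := DV_sub ε hwD
  obtain ⟨h0, hq⟩ := C1_real hwr
  have hDV := DV_real hε hwD
  have p1 := hpos 1
  have p2 := hpos 2
  have p3 := hpos 3
  have p4 := hpos 4
  have p5 := hpos 5
  rw [LL_one] at p1
  rw [LL_two] at p2
  rw [LL_three] at p3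
  rw [LL_four] at p4
  rw [LL_five] at p5
  set m := (w 1 + w 2 + w 3 + w 4) / 4 with hm
  have hm0 : 0 ≤ m := by rw [hm]; linarith
  rcases hm0.eq_or_lt with hm1 | hm1
  · exfalso
    have e1 : w 1 = 0 := by linarith
    have e2 : w 2 = 0 := by linarith
    have e3 : w 3 = 0 := by linarith
    have e4 : w 4 = 0 := by linarith
    have e5 : w 5 = 0 := by
      rw [LL_six, LL_seven, h0, e1, e2, e3, e4] at hDV
      linarith
    refine hwr.1 ?_
    ext i
    fin_cases i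
    exacts [h0, e1, e2, e3, e4, e5]
  · have hweq := eq_vec3 h0 hq m hm hm1.ne'
    set x := (-w 1 - w 2 + w 3 + w 4) / (4 * m) with hx
    set y := (-w 1 + w 2 - w 3 + w 4) / (4 * m) with hy
    set z := (w 5 / m - 6) / 2 with hz
    have hx1 : -1 ≤ x ∧ x ≤ 1 := by
      constructor
      · rw [hx, le_div_iff₀ (by linarith)]; linarith
      · rw [hx, div_le_iff₀ (by linarith)]; linarith
    have hy1 : -1 ≤ y ∧ y ≤ 1 := by
      constructor
      · rw [hy, le_div_iff₀ (by linarith)]; linarith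
      · rw [hy, div_le_iff₀ (by linarith)]; linarith
    have q6 : 0 ≤ m * (z - x * y) := by
      have h1 := hpos 6
      rw [hweq, dotProduct_smul, L6_vec3, smul_eq_mul] at h1
      linarith
    have q7 : 0 ≤ m * (z + x * y) := by
      have h1 := hpos 7
      rw [hweq, dotProduct_smul, L7_vec3, smul_eq_mul] at h1
      linarith
    have z6 := nonneg_of_mul_nonneg_right q6 hm1
    have z7 := nonneg_of_mul_nonneg_right q7 hm1
    have hzε : z = ε * (x * y) := by
      rw [hweq, dotProduct_smul, dotProduct_smul, L6_vec3, L7_vec3, smul_eq_mul,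
        smul_eq_mul] at hDV
      have h1 : m * (z - ε * (x * y)) = 0 := by linarith
      rcases mul_eq_zero.1 h1 with h2 | h2
      · exact absurd h2 hm1.ne'
      · linarith
    have hxy0 : 0 ≤ ε * (x * y) := by rw [← hzε]; linarith
    obtain ⟨s1, hs1, hs1x, hs1y⟩ : ∃ s1 : ℝ, (s1 = 1 ∨ s1 = -1) ∧ 0 ≤ s1 * x ∧
        0 ≤ ε * s1 * y := by
      rcases lt_trichotomy x 0 with h | h | h
      · refine ⟨-1, Or.inr rfl, by linarith, ?_⟩
        nlinarith
      · rcases le_total 0 (ε * y) with h' | h'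
        · exact ⟨1, Or.inl rfl, by rw [h]; simp, by linarith⟩
        · exact ⟨-1, Or.inr rfl, by rw [h]; simp, by linarith⟩
      · refine ⟨1, Or.inl rfl, by linarith, ?_⟩
        nlinarith
    have hs1s : s1 * s1 = 1 := by rcases hs1 with rfl | rfl <;> norm_num
    have hεε : ε * ε = 1 := by rcases hε with rfl | rfl <;> norm_num
    have ht : Filter.Tendsto (fun τ : ℝ => s • m • vec3 ((1 - τ) * x + τ / 2 * s1)
        ((1 - τ) * y + τ / 2 * (ε * s1)) (ε * (((1 - τ) * x + τ / 2 * s1) *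
          ((1 - τ) * y + τ / 2 * (ε * s1))))) (𝓝[>] 0) (𝓝 u) := by
      have h1 : Continuous fun τ : ℝ => s • m • vec3 ((1 - τ) * x + τ / 2 * s1)
        ((1 - τ) * y + τ / 2 * (ε * s1)) (ε * (((1 - τ) * x + τ / 2 * s1) *
          ((1 - τ) * y + τ / 2 * (ε * s1)))) :=
        ((continuous_vec3 (by fun_prop) (by fun_prop) (by fun_prop)).const_smul m).const_smul s
      have h2 := h1.tendsto 0
      simp only [sub_zero, one_mul, zero_div, zero_mul, add_zero] at h2
      rw [← hzε, ← hweq, ← hwu] at h2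
      exact h2.mono_left nhdsWithin_le_nhds
    refine mem_closure_of_tendsto ht ?_
    have hev : ∀ᶠ τ : ℝ in 𝓝[>] 0, τ < 1 := nhdsWithin_le_nhds (gt_mem_nhds one_pos)
    filter_upwards [hev, self_mem_nhdsWithin] with τ hτ hτ'
    have hτ0 : 0 < τ := hτ'
    have hτ1 : 0 < 1 - τ := by linarith
    have hb1 : -1 ≤ s1 ∧ s1 ≤ 1 := by rcases hs1 with rfl | rfl <;> norm_num
    have hb2 : -1 ≤ ε * s1 ∧ ε * s1 ≤ 1 := by
      rcases hs1 with rfl | rfl <;> rcases hε with rfl | rfl <;> norm_num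
    refine DV_relInt hε hs hm1 ⟨by nlinarith, by nlinarith⟩ ⟨by nlinarith, by nlinarith⟩ ?_
    have k1 : 0 < s1 * ((1 - τ) * x + τ / 2 * s1) := by
      have : s1 * ((1 - τ) * x + τ / 2 * s1) = (1 - τ) * (s1 * x) + τ / 2 * (s1 * s1) := by ring
      rw [this, hs1s]
      have := mul_nonneg hτ1.le hs1x
      linarith
    have k2 : 0 < (ε * s1) * ((1 - τ) * y + τ / 2 * (ε * s1)) := by
      have : (ε * s1) * ((1 - τ) * y + τ / 2 * (ε * s1)) =
          (1 - τ) * (ε * s1 * y) + τ / 2 * ((ε * ε) * (s1 * s1)) := by ring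
      rw [this, hs1s, hεε]
      have := mul_nonneg hτ1.le hs1y
      linarith
    have k3 := mul_pos k1 k2
    have : s1 * ((1 - τ) * x + τ / 2 * s1) * (ε * s1 * ((1 - τ) * y + τ / 2 * (ε * s1))) =
        (s1 * s1) * (ε * (((1 - τ) * x + τ / 2 * s1) * ((1 - τ) * y + τ / 2 * (ε * s1)))) := by
      ring
    rw [this, hs1s, one_mul] at k3
    exact k3

lemma DV_facet {ε : ℝ} (hε : ε = 1 ∨ ε = -1) : facet (DV ε) (AV C1) = AV (DV ε) :=
  facet_eq LL (AV C1) (inter_AV (DV_sub ε)) (DV_dense hε)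

end Pool.Agent.Helper70.PG

end PartFive

noncomputable section PartSix

open MvPolynomial Topology

namespace Pool.Agent.Helper70.PG

/-- The group of all rational forms. -/
def formGroup {σ : Type} (V : ProjVar σ) (d : ℕ) : AddSubgroup (RatForm V d) :=
  AddSubgroup.closure {ω | ∃ (g : FunField V) (b : Fin d → FunField V), ω = wedge g b}

lemma form_of_residue {σ : Type} {V W : ProjVar σ} {d : ℕ} {ω : RatForm V (d + 1)}
    {ρ : RatForm W d} (h : HasResidue V W ω ρ) : ω ∈ formGroup V (d + 1) := by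
  obtain ⟨h, hω⟩ := h
  refine AddSubgroup.closure_induction (p := fun (x : RatForm V (d + 1) × RatForm W d) _ =>
    x.1 ∈ formGroup V (d + 1)) ?_ ?_ ?_ ?_ hω
  · rintro _ (⟨g, b, rfl⟩ | ⟨t, f, a, ht, rfl⟩)
    · exact AddSubgroup.subset_closure ⟨_, _, rfl⟩
    · exact AddSubgroup.subset_closure ⟨_, _, rfl⟩
  · exact AddSubgroup.zero_mem _
  · intro x y _ _ hx hy
    exact AddSubgroup.add_mem _ hx hy
  · intro x _ hx
    exact AddSubgroup.neg_mem _ hx

/-- Comparison of frames. -/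
lemma coef_ext {σ : Type} {V : ProjVar σ} {F : Type} [Field F] [Algebra ℂ F]
    (κ : FunField V ≃ₐ[ℂ] F) {d : ℕ} (δ δ' : Fin d → Derivation ℂ F F) (g : F)
    (h : ∀ b : Fin d → F, Matrix.det (Matrix.of fun i j => δ' j (b i)) =
      g * Matrix.det (Matrix.of fun i j => δ j (b i))) (ω : RatForm V d)
    (hω : ω ∈ formGroup V d) :
    coef κ δ' ω = g * coef κ δ ω := by
  refine AddSubgroup.closure_induction (p := fun ω _ => coef κ δ' ω = g * coef κ δ ω)
    ?_ ?_ ?_ ?_ hω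
  · rintro _ ⟨f, b, rfl⟩
    rw [coef_wedge, coef_wedge, h]
    ring
  · rw [map_zero, map_zero, mul_zero]
  · intro x y _ _ hx hy
    rw [map_add, map_add, hx, hy, mul_add]
  · intro x _ hx
    rw [map_neg, map_neg, hx, mul_neg]

lemma fracDer_add_smul {A : Type} [CommRing A] [IsDomain A] [Algebra ℂ A]
    (δ δ' : Derivation ℂ A A) (a : A) (u : FractionRing A) :
    fracDer (δ + a • δ') u = fracDer δ u + algebraMap A (FractionRing A) a * fracDer δ' u := by
  obtain ⟨p, q, hq, rfl⟩ := IsFractionRing.div_surjective (A := A) u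
  have hq := nonZeroDivisors.ne_zero hq
  rw [fracDer_div _ _ _ hq, fracDer_div _ _ _ hq, fracDer_div _ _ _ hq]
  simp only [Derivation.add_apply, Derivation.smul_apply, smul_eq_mul, map_sub, map_mul,
    map_add, map_pow]
  ring

lemma fracDer_smul {A : Type} [CommRing A] [IsDomain A] [Algebra ℂ A]
    (δ : Derivation ℂ A A) (a : A) (u : FractionRing A) :
    fracDer (a • δ) u = algebraMap A (FractionRing A) a * fracDer δ u := by
  obtain ⟨p, q, hq, rfl⟩ := IsFractionRing.div_surjective (A := A) u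
  have hq := nonZeroDivisors.ne_zero hq
  rw [fracDer_div _ _ _ hq, fracDer_div _ _ _ hq]
  simp only [Derivation.smul_apply, smul_eq_mul, map_sub, map_mul, map_pow]
  ring

/-- The standard frame of the threefold. -/
def b3 : Fin 3 → Derivation ℂ A3 A3 := ![pderiv 2, pderiv 0, pderiv 1]

/-- The frame adapted to `DV ε`. -/
def b3ε (ε : ℝ) : Fin 3 → Derivation ℂ A3 A3 :=
  ![pderiv 2, pderiv 0 + (C (ε : ℂ) * X 1 : A3) • pderiv 2,
    pderiv 1 + (C (ε : ℂ) * X 0 : A3) • pderiv 2]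

/-- The standard frame of the surface. -/
def b2 : Fin 2 → Derivation ℂ A2 A2 := ![pderiv 0, pderiv 1]

lemma coef_b3ε (ε : ℝ) (Ω : RatForm C1 3) (hΩ : Ω ∈ formGroup C1 3) :
    coef c1.κ (fun j => fracDer (b3ε ε j)) Ω = coef c1.κ (fun j => fracDer (b3 j)) Ω := by
  rw [coef_ext c1.κ (fun j => fracDer (b3 j)) (fun j => fracDer (b3ε ε j)) 1 ?_ Ω hΩ, one_mul]
  intro b
  rw [Matrix.det_fin_three, Matrix.det_fin_three]
  simp only [b3, b3ε, Matrix.of_apply, Matrix.cons_val_zero, Matrix.cons_val_one,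
    Matrix.cons_val, fracDer_add_smul]
  ring

lemma rD_b3ε (ε : ℝ) (j : Fin 2) (a : A3) : rD ε (b3ε ε (Fin.succ j) a) = b2 j (rD ε a) := by
  -- two derivations along `rD ε` agreeing on generators
  induction a using MvPolynomial.induction_on with
  | C a => simp
  | add p q hp hq => rw [map_add, map_add, map_add, map_add, hp, hq]
  | mul_X p i hp =>
    rw [Derivation.leibniz, map_mul, Derivation.leibniz, smul_eq_mul, smul_eq_mul, smul_eq_mul,
      smul_eq_mul, map_add, map_mul, map_mul, hp]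
    congr 2
    fin_cases j <;> fin_cases i <;> simp [b3ε, b2, rD, pderiv_X]

lemma b3ε_zero (ε : ℝ) : b3ε ε 0 (πD ε) = 1 := by
  simp [b3ε, πD, pderiv_X]

lemma b3ε_succ (ε : ℝ) (j : Fin 2) : b3ε ε (Fin.succ j) (πD ε) = 0 := by
  fin_cases j <;> simp [b3ε, πD, pderiv_X]

/-- Cofactor of `πD ε` in `Λ3`. -/
def Λ3' (ε : ℝ) : A3 := (1 - X 0) * (1 + X 0) * (1 - X 1) * (1 + X 1) *
  (X 2 + C (ε : ℂ) * (X 0 * X 1))

lemma Λ3_eq {ε : ℝ} (hε : ε = 1 ∨ ε = -1) : Λ3 = πD ε * Λ3' ε := by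
  rcases hε with rfl | rfl <;> simp [Λ3, Λ3', πD] <;> ring

/-- Denominator on the surface. -/
def Λ2 (ε : ℝ) : A2 := (1 - X 0) * (1 + X 0) * (1 - X 1) * (1 + X 1) *
  (2 * (C (ε : ℂ) * (X 0 * X 1)))

lemma rD_Λ3' (ε : ℝ) : rD ε (Λ3' ε) = Λ2 ε := by
  simp only [rD, Λ3', Λ2, map_mul, map_sub, map_add, map_one, aeval_X, Matrix.cons_val_zero,
    Matrix.cons_val_one, Matrix.cons_val, ← algebraMap_eq, AlgHom.commutes]
  ring

lemma Λ2_ne {ε : ℝ} (hε : ε = 1 ∨ ε = -1) : Λ2 ε ≠ 0 := by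
  intro h
  have := congrArg (eval ![(1 / 2 : ℂ), 1 / 2]) h
  rcases hε with rfl | rfl <;> norm_num [Λ2] at this

/-- Passing from the threefold to the surface. -/
lemma surface_relation {ε : ℝ} (hε : ε = 1 ∨ ε = -1) (Ω : RatForm C1 3) (M : A3)
    (hM : algebraMap A3 (FractionRing A3) Λ3 * coef c1.κ (fun j => fracDer (b3 j)) Ω =
      algebraMap A3 (FractionRing A3) M) (ρ : RatForm (DV ε) 2)
    (hρ : HasResidue C1 (DV ε) Ω ρ) :
    algebraMap A2 (FractionRing A2) (Λ2 ε) * coef (cD ε).κ (fun j => fracDer (b2 j)) ρ =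
      algebraMap A2 (FractionRing A2) (rD ε M) := by
  have hΩ := form_of_residue hρ
  obtain ⟨h, hρ⟩ := hρ
  have Hc := c1.compat_sub (rD ε) (rD_surj ε) (rD_π ε) (rD_dvd ε)
  have h1 := Hc.coef_residue (πD_ne ε) h (b3ε ε) b2 (b3ε_zero ε) (b3ε_succ ε)
    (rD_b3ε ε) Ω ρ hρ
  rw [coef_b3ε ε Ω hΩ] at h1
  have h2 : rD ε (Λ3' ε) ≠ 0 := by rw [rD_Λ3']; exact Λ2_ne hε
  have h3 := redRing_div (r := ((rD ε : A3 →ₐ[ℂ] A2) : A3 →+* A2)) M h2
  have hΛ' : Λ3' ε ≠ 0 := fun h => h2 (by rw [h, map_zero])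
  have h4 : algebraMap A3 (FractionRing A3) (πD ε) * coef c1.κ (fun j => fracDer (b3 j)) Ω =
      algebraMap A3 (FractionRing A3) M / algebraMap A3 (FractionRing A3) (Λ3' ε) := by
    rw [eq_div_iff (am_ne hΛ'), ← hM, Λ3_eq hε, map_mul]
    ring
  rw [h4] at h1
  have h5 := redRing_unique h1 h3
  change coef (cD ε).κ (fun j => fracDer (b2 j)) ρ = _ at h5
  rw [h5]
  have h6 : ((rD ε : A3 →ₐ[ℂ] A2) : A3 →+* A2) (Λ3' ε) = Λ2 ε := rD_Λ3' ε
  rw [h6, mul_div_cancel₀ _ (am_ne (Λ2_ne hε))]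
  rfl

/-- Passing from the surface to an edge. -/
lemma edge_relation {V : ProjVar (Fin 6)} (c : Chart V A2) (Ω : RatForm V 2) (Λ N Λ' : A2)
    (hN : algebraMap A2 (FractionRing A2) Λ * coef c.κ (fun j => fracDer (b2 j)) Ω =
      algebraMap A2 (FractionRing A2) N)
    (r : A2 →ₐ[ℂ] Polynomial ℂ) (hr : Function.Surjective r) (π : A2) (hπ : π ≠ 0)
    (hrπ : r π = 0) (hd : ∀ a, r a = 0 → π ∣ a) (hΛ : Λ = π * Λ') (hΛ' : r Λ' ≠ 0)
    (δ : Fin 2 → Derivation ℂ A2 A2) (hδ0 : δ 0 π = 1) (hδ1 : δ 1 π = 0)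
    (hδ : ∀ a, r (δ 1 a) = Polynomial.derivative (r a)) (g : ℂ)
    (hg : ∀ b : Fin 2 → FractionRing A2,
      Matrix.det (Matrix.of fun i j => fracDer (δ j) (b i)) =
      algebraMap A2 (FractionRing A2) (C g) *
        Matrix.det (Matrix.of fun i j => fracDer (b2 j) (b i)))
    {P Q a b : Fin 6 → ℝ} (H : LineData (c.sub r) (c.subChart r hr) P Q a b)
    (ρ : RatForm (c.sub r) 1) (hρ : HasResidue V (c.sub r) Ω ρ)
    (hcan : IsCanonicalForm 1 (c.sub r) (seg P Q) ρ) :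
    ∃ s : ℂ, (s = 1 ∨ s = -1) ∧ Polynomial.C g * r N * (Polynomial.X * (1 - Polynomial.X)) =
      Polynomial.C s * r Λ' := by
  obtain ⟨s, hs, hseg⟩ := H.segment ρ hcan
  refine ⟨s, hs, ?_⟩
  have hΩ := form_of_residue hρ
  obtain ⟨h, hρ⟩ := hρ
  have Hc := c.compat_sub r hr hrπ hd
  have h1 := Hc.coef_residue hπ h δ (fun _ => Polynomial.derivative')
    hδ0 (fun j => by fin_cases j; exact hδ1) (fun j a => by fin_cases j; exact hδ a) Ω ρ hρ
  rw [coef_ext c.κ (fun j => fracDer (b2 j)) (fun j => fracDer (δ j)) _ hg Ω hΩ] at h1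
  have hΛ0 : Λ' ≠ 0 := fun h => hΛ' (by rw [h, map_zero])
  have h3 := redRing_div (r := ((r : A2 →ₐ[ℂ] Polynomial ℂ) : A2 →+* Polynomial ℂ)) (C g * N) hΛ'
  have h4 : algebraMap A2 (FractionRing A2) π * (algebraMap A2 (FractionRing A2) (C g) *
      coef c.κ (fun j => fracDer (b2 j)) Ω) =
      algebraMap A2 (FractionRing A2) (C g * N) / algebraMap A2 (FractionRing A2) Λ' := by
    rw [eq_div_iff (am_ne hΛ0), map_mul _ (C g) N, ← hN, hΛ, map_mul]
    ring
  rw [h4] at h1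
  have h5 := redRing_unique h1 h3
  have hX : (Polynomial.X * (1 - Polynomial.X) : Polynomial ℂ) ≠ 0 := by
    intro h
    have := congrArg (Polynomial.eval (1 / 2)) h
    norm_num at this
  apply IsFractionRing.injective (Polynomial ℂ) (FractionRing (Polynomial ℂ))
  have h6 : ((r : A2 →ₐ[ℂ] Polynomial ℂ) : A2 →+* Polynomial ℂ) (C g * N) =
      Polynomial.C g * r N := by
    change r (C g * N) = _
    rw [map_mul, ← algebraMap_eq, AlgHom.commutes]
    rfl
  have h7 : ((r : A2 →ₐ[ℂ] Polynomial ℂ) : A2 →+* Polynomial ℂ) Λ' = r Λ' := rfl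
  rw [h6, h7, eq_div_iff (am_ne hΛ')] at h5
  change coef (c.subChart r hr).κ (fun _ : Fin 1 => fracDer Polynomial.derivative') ρ * _ = _ at h5
  rw [map_mul, map_mul, map_mul (algebraMap (Polynomial ℂ) (FractionRing (Polynomial ℂ)))
    (Polynomial.C s), ← map_mul (algebraMap (Polynomial ℂ) (FractionRing (Polynomial ℂ)))
    (Polynomial.C g), ← h5, ← hseg]
  rw [map_mul]
  ring

end Pool.Agent.Helper70.PG

end PartSix

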