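import Pool.Agent.Helper70.PGLine

set_option autoImplicit false
set_option linter.unusedSectionVars false

noncomputable section PartSegment

open MvPolynomial Topology

namespace Pool.Agent.Helper70.PG

variable {σ : Type} [Fintype σ]

/-- The segment with end points `P`, `Q`. -/
def seg (P Q : σ → ℝ) : Set (σ → ℝ) :=
  {v | v ≠ 0 ∧ ∃ α β : ℝ, 0 ≤ α ∧ 0 ≤ β ∧ (v = α • P + β • Q ∨ v = -(α • P + β • Q))}

/-- A chart of the line through `P` and `Q`, with dual coordinates `a`, `b`. -/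
structure LineData (V : ProjVar σ) (c : Chart V (Polynomial ℂ)) (P Q a b : σ → ℝ) : Prop where
  φ_eq : ∀ i, c.φ i = Polynomial.C (P i : ℂ) * (1 - Polynomial.X) +
    Polynomial.C (Q i : ℂ) * Polynomial.X
  aP : a ⬝ᵥ P = 1
  aQ : a ⬝ᵥ Q = 0
  bP : b ⬝ᵥ P = 0
  bQ : b ⬝ᵥ Q = 1

variable {V : ProjVar σ} {c : Chart V (Polynomial ℂ)} {P Q a b : σ → ℝ}

lemma aeval_lin_of {A : Type} [CommRing A] [Algebra ℂ A] (φ : σ → A) (P Q w : σ → ℝ) (x y : A)
    (h : ∀ i, φ i = algebraMap ℂ A (P i) * x + algebraMap ℂ A (Q i) * y) :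
    aeval φ (lin w) = algebraMap ℂ A ((w ⬝ᵥ P : ℝ) : ℂ) * x +
      algebraMap ℂ A ((w ⬝ᵥ Q : ℝ) : ℂ) * y := by
  simp only [lin, map_sum, map_mul, aeval_C, aeval_X, h, dotProduct, Complex.ofReal_sum,
    Complex.ofReal_mul]
  rw [Finset.sum_mul, Finset.sum_mul, ← Finset.sum_add_distrib]
  refine Finset.sum_congr rfl fun i _ => ?_
  ring

lemma LineData.aeval_lin (H : LineData V c P Q a b) (w : σ → ℝ) :
    aeval c.φ (lin w) = Polynomial.C ((w ⬝ᵥ P : ℝ) : ℂ) * (1 - Polynomial.X) +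
      Polynomial.C ((w ⬝ᵥ Q : ℝ) : ℂ) * Polynomial.X :=
  aeval_lin_of c.φ P Q w _ _ H.φ_eq

lemma LineData.aeval_a (H : LineData V c P Q a b) : aeval c.φ (lin a) = 1 - Polynomial.X := by
  rw [H.aeval_lin, H.aP, H.aQ]; simp

lemma LineData.aeval_b (H : LineData V c P Q a b) : aeval c.φ (lin b) = Polynomial.X := by
  rw [H.aeval_lin, H.bP, H.bQ]; simp

lemma LineData.mem_real (H : LineData V c P Q a b) {u : σ → ℝ} (hu : u ∈ realPts V) :
    u = (a ⬝ᵥ u) • P + (b ⬝ᵥ u) • Q := by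
  ext i
  have h1 : (X i - C (P i : ℂ) * lin a - C (Q i : ℂ) * lin b : MvPolynomial σ ℂ) ∈ V.ideal := by
    refine (c.mem_iff 1 _ ?_).2 ?_
    · refine ((isHomogeneous_X ℂ i).sub ?_).sub ?_
      · simpa using (isHomogeneous_C σ (P i : ℂ)).mul (lin_homog a)
      · simpa using (isHomogeneous_C σ (Q i : ℂ)).mul (lin_homog b)
    · rw [map_sub, map_sub, map_mul, map_mul, H.aeval_a, H.aeval_b, aeval_X, H.φ_eq, aeval_C,
        aeval_C]
      simp
  have h2 := hu.2 _ h1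
  rw [map_sub, map_sub, map_mul, map_mul, realEval_lin, realEval_lin] at h2
  simp only [realEval, aeval_X, aeval_C, Algebra.algebraMap_self, RingHom.id_apply] at h2
  have h3 : u i - P i * (a ⬝ᵥ u) - Q i * (b ⬝ᵥ u) = 0 := by exact_mod_cast h2
  simp only [Pi.add_apply, Pi.smul_apply, smul_eq_mul]
  linarith

lemma LineData.a_comb (H : LineData V c P Q a b) (α β : ℝ) : a ⬝ᵥ (α • P + β • Q) = α := by
  rw [dotProduct_add, dotProduct_smul, dotProduct_smul, H.aP, H.aQ]; simp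

lemma LineData.b_comb (H : LineData V c P Q a b) (α β : ℝ) : b ⬝ᵥ (α • P + β • Q) = β := by
  rw [dotProduct_add, dotProduct_smul, dotProduct_smul, H.bP, H.bQ]; simp

lemma LineData.comb_mem (H : LineData V c P Q a b) {α β : ℝ} (h : α + β ≠ 0) :
    α • P + β • Q ∈ realPts V := by
  refine realPts_of_chart c (Polynomial.aeval ((β / (α + β) : ℝ) : ℂ)) ((α + β : ℝ) : ℂ) _ ?_ ?_
  · intro h0
    have h1 := H.a_comb α β
    have h2 := H.b_comb α β
    rw [h0, dotProduct_zero] at h1 h2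
    exact h (by rw [← h1, ← h2, add_zero])
  · intro i
    rw [H.φ_eq]
    simp only [Pi.add_apply, Pi.smul_apply, smul_eq_mul, map_add, map_mul, map_sub, map_one,
      Polynomial.aeval_X, Polynomial.aeval_C, Algebra.algebraMap_self, RingHom.id_apply]
    have h3 : α * P i + β * Q i = (P i * (1 - β / (α + β)) + Q i * (β / (α + β))) * (α + β) := by
      field_simp
      ring
    rw [h3]
    push_cast
    ring

lemma LineData.seg_sub (H : LineData V c P Q a b) : seg P Q ⊆ realPts V := by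
  rintro v ⟨hv, α, β, hα, hβ, h⟩
  have h0 : α + β ≠ 0 := by
    intro h1
    have h2 : α = 0 := by linarith
    have h3 : β = 0 := by linarith
    subst h2; subst h3
    rcases h with h | h <;> exact hv (by rw [h]; simp)
  rcases h with rfl | rfl
  · exact H.comb_mem h0
  · have : -(α • P + β • Q) = (-α) • P + (-β) • Q := by rw [neg_smul, neg_smul, neg_add]
    rw [this]
    refine H.comb_mem ?_
    intro h1
    exact h0 (by linarith)

lemma continuous_dot (w : σ → ℝ) : Continuous fun u : σ → ℝ => w ⬝ᵥ u := by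
  unfold dotProduct
  fun_prop

lemma LineData.bdry_vanish (H : LineData V c P Q a b) :
    lin a * lin b ∈ vanishing (seg P Q \ relInterior (realPts V) (seg P Q)) := by
  rintro v ⟨hv, hv'⟩
  rw [map_mul, realEval_lin, realEval_lin]
  by_contra h
  have hmem := H.seg_sub hv
  have ha : a ⬝ᵥ v ≠ 0 := fun h0 => h (by rw [h0]; simp)
  have hb : b ⬝ᵥ v ≠ 0 := fun h0 => h (by rw [h0]; simp)
  apply hv'
  refine ⟨hmem, ?_⟩
  obtain ⟨hv0, α, β, hα, hβ, hc⟩ := hv
  have hca := continuous_dot a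
  have hcb := continuous_dot b
  rcases hc with hc | hc
  · have h1 : a ⬝ᵥ v = α := by rw [hc, H.a_comb]
    have h2 : b ⬝ᵥ v = β := by rw [hc, H.b_comb]
    have h3 : 0 < a ⬝ᵥ v := lt_of_le_of_ne (h1 ▸ hα) ha.symm
    have h4 : 0 < b ⬝ᵥ v := lt_of_le_of_ne (h2 ▸ hβ) hb.symm
    have h5 : ∀ᶠ u in 𝓝 v, 0 < a ⬝ᵥ u ∧ 0 < b ⬝ᵥ u :=
      (hca.tendsto v |>.eventually (lt_mem_nhds h3)).and
        (hcb.tendsto v |>.eventually (lt_mem_nhds h4))
    filter_upwards [nhdsWithin_le_nhds h5, self_mem_nhdsWithin] with u hu hu'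
    exact ⟨hu'.1, a ⬝ᵥ u, b ⬝ᵥ u, hu.1.le, hu.2.le, Or.inl (H.mem_real hu')⟩
  · have h1 : a ⬝ᵥ v = -α := by rw [hc, dotProduct_neg, H.a_comb]
    have h2 : b ⬝ᵥ v = -β := by rw [hc, dotProduct_neg, H.b_comb]
    have h3 : a ⬝ᵥ v < 0 := lt_of_le_of_ne (by rw [h1]; linarith) ha
    have h4 : b ⬝ᵥ v < 0 := lt_of_le_of_ne (by rw [h2]; linarith) hb
    have h5 : ∀ᶠ u in 𝓝 v, a ⬝ᵥ u < 0 ∧ b ⬝ᵥ u < 0 :=
      (hca.tendsto v |>.eventually (gt_mem_nhds h3)).and
        (hcb.tendsto v |>.eventually (gt_mem_nhds h4))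
    filter_upwards [nhdsWithin_le_nhds h5, self_mem_nhdsWithin] with u hu hu'
    refine ⟨hu'.1, -(a ⬝ᵥ u), -(b ⬝ᵥ u), by linarith, by linarith, Or.inr ?_⟩
    conv_lhs => rw [H.mem_real hu']
    rw [neg_smul, neg_smul, ← neg_add, neg_neg]

lemma LineData.endpoint_bdry (H : LineData V c P Q a b) {t : ℝ} (ht : 0 < t) :
    t • P ∈ seg P Q \ relInterior (realPts V) (seg P Q) := by
  have hne : t • P ≠ 0 := by
    intro h
    have := H.a_comb t 0
    rw [zero_smul, add_zero, h, dotProduct_zero] at this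
    exact ht.ne this
  refine ⟨⟨hne, t, 0, ht.le, le_rfl, Or.inl (by simp)⟩, ?_⟩
  rintro ⟨-, h⟩
  have htend : Filter.Tendsto (fun ε : ℝ => t • P + (-ε) • Q) (𝓝[>] 0) (𝓝[realPts V] (t • P)) := by
    rw [tendsto_nhdsWithin_iff]
    constructor
    · have h1 : Continuous fun ε : ℝ => t • P + (-ε) • Q := by fun_prop
      have h2 := h1.tendsto 0
      simp only [neg_zero, zero_smul, add_zero] at h2
      exact h2.mono_left nhdsWithin_le_nhds
    · have h1 : ∀ᶠ ε : ℝ in 𝓝[>] 0, ε < t := nhdsWithin_le_nhds (gt_mem_nhds ht)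
      filter_upwards [h1] with ε hε
      exact H.comb_mem (by linarith)
  have h2 := htend.eventually h
  obtain ⟨ε, hε, hε0⟩ := (h2.and self_mem_nhdsWithin).exists
  obtain ⟨-, α, β, hα, hβ, hc⟩ := hε
  have ha := H.a_comb t (-ε)
  have hb := H.b_comb t (-ε)
  rcases hc with hc | hc
  · rw [hc, H.b_comb] at hb
    linarith
  · rw [hc, dotProduct_neg, H.a_comb] at ha
    linarith

lemma X_dvd_of_aeval_zero (p : Polynomial ℂ) (h : (Polynomial.aeval (0 : ℂ)) p = 0) :
    Polynomial.X ∣ p := by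
  rw [Polynomial.X_dvd_iff, Polynomial.coeff_zero_eq_aeval_zero, h]

lemma aeval_zero_surj : Function.Surjective (Polynomial.aeval (R := ℂ) (0 : ℂ)) :=
  fun x => ⟨Polynomial.C x, by simp⟩

lemma LineData.endpoint_component (H : LineData V c P Q a b) :
    c.sub (Polynomial.aeval (0 : ℂ)) ∈ boundaryComponents V (seg P Q) := by
  refine c.sub_mem_components (Polynomial.aeval (0 : ℂ)) Polynomial.prime_X (by simp)
    X_dvd_of_aeval_zero (seg P Q) H.seg_sub ?_ (n := 2) (H := lin a * lin b)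
    ((lin_homog a).mul (lin_homog b)) H.bdry_vanish ?_
  · intro f hf
    refine Chart.mem_of_homog _ _ fun n => ?_
    have h1 := homogeneousComponent_isHomogeneous n f
    rw [c.mem_sub_homog _ h1, ← Chart.aeval_comp_eq]
    have h2 := component_vanish f P (fun t ht => hf _ (H.endpoint_bdry ht)) n
    refine Eq.trans ?_ h2
    rw [realEval]
    congr 2
    ext i
    rw [H.φ_eq]
    simp
  · rw [map_mul, H.aeval_a, H.aeval_b]
    refine mul_ne_zero ?_ Polynomial.X_ne_zero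
    intro h
    have := congrArg (Polynomial.eval 0) h
    simp at this

/-! ### The point at infinity of the line -/

/-- The chart at infinity. -/
def LineData.chart2 (H : LineData V c P Q a b) : Chart V (Polynomial ℂ) where
  φ := fun i => Polynomial.C ((Q i - P i : ℝ) : ℂ) + Polynomial.C (P i : ℂ) * Polynomial.X
  mem_iff := by
    intro n f hf
    rw [c.mem_iff n f hf]
    have key : ∀ w : ℂ, w ≠ 0 →
        Polynomial.eval w (aeval (fun i => Polynomial.C ((Q i - P i : ℝ) : ℂ) +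
          Polynomial.C (P i : ℂ) * Polynomial.X) f) =
        Polynomial.eval w⁻¹ (aeval c.φ f) * w ^ n := by
      intro w hw
      rw [← Polynomial.coe_aeval_eq_eval, ← Polynomial.coe_aeval_eq_eval,
        ← Chart.aeval_comp_eq, ← Chart.aeval_comp_eq, ← aeval_scale hf]
      congr 2
      ext i
      rw [H.φ_eq]
      simp only [map_add, map_mul, map_sub, map_one, Polynomial.aeval_X, Polynomial.aeval_C,
        Algebra.algebraMap_self, RingHom.id_apply]
      push_cast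
      field_simp
      ring
    constructor
    · intro h
      apply Polynomial.eq_zero_of_infinite_isRoot
      refine Set.Infinite.mono (s := {0}ᶜ) ?_ (Set.finite_singleton _).infinite_compl
      intro w hw
      rw [Set.mem_ofPred_eq, Polynomial.IsRoot, key w hw, h]
      simp
    · intro h
      apply Polynomial.eq_zero_of_infinite_isRoot
      refine Set.Infinite.mono (s := {0}ᶜ) ?_ (Set.finite_singleton _).infinite_compl
      intro w hw
      have hw0 : w ≠ 0 := hw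
      have h1 := key w⁻¹ (inv_ne_zero hw0)
      rw [h, inv_inv, Polynomial.eval_zero] at h1
      rcases mul_eq_zero.1 h1.symm with h2 | h2
      · exact h2
      · exact absurd h2 (pow_ne_zero _ (inv_ne_zero hw0))
  ℓ := lin b
  ℓ_hom := lin_homog b
  ℓ_one := by
    rw [aeval_lin_of _ (fun i => Q i - P i) P b 1 Polynomial.X (by intro i; simp)]
    have h1 : (b ⬝ᵥ fun i => Q i - P i) = 1 := by
      have : (fun i => Q i - P i) = Q - P := rfl
      rw [this, dotProduct_sub, H.bP, H.bQ]; ring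
    rw [h1, H.bP]; simp
  surj := by
    intro p
    have hℓ : aeval (fun i => Polynomial.C ((Q i - P i : ℝ) : ℂ) +
          Polynomial.C (P i : ℂ) * Polynomial.X) (lin b) = 1 := by
      rw [aeval_lin_of _ (fun i => Q i - P i) P b 1 Polynomial.X (by intro i; simp)]
      have h1 : (b ⬝ᵥ fun i => Q i - P i) = 1 := by
        have : (fun i => Q i - P i) = Q - P := rfl
        rw [this, dotProduct_sub, H.bP, H.bQ]; ring
      rw [h1, H.bP]; simp
    have h2 : aeval (fun i => Polynomial.C ((Q i - P i : ℝ) : ℂ) +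
          Polynomial.C (P i : ℂ) * Polynomial.X) (lin (a + b)) = Polynomial.X := by
      rw [aeval_lin_of _ (fun i => Q i - P i) P (a + b) 1 Polynomial.X (by intro i; simp)]
      have h1 : ((a + b) ⬝ᵥ fun i => Q i - P i) = 0 := by
        have : (fun i => Q i - P i) = Q - P := rfl
        rw [this, dotProduct_sub, add_dotProduct, add_dotProduct, H.bP, H.bQ, H.aP, H.aQ]; ring
      have h3 : ((a + b) ⬝ᵥ P) = 1 := by
        rw [add_dotProduct, H.bP, H.aP]; ring
      rw [h1, h3]; simp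
    have h3 : homogValues (fun i => Polynomial.C ((Q i - P i : ℝ) : ℂ) +
          Polynomial.C (P i : ℂ) * Polynomial.X) (lin b) (lin_homog b) hℓ = ⊤ := by
      rw [eq_top_iff, ← Polynomial.adjoin_X, Algebra.adjoin_le_iff, Set.singleton_subset_iff]
      exact ⟨1, lin (a + b), lin_homog _, h2⟩
    have h4 : p ∈ homogValues (fun i => Polynomial.C ((Q i - P i : ℝ) : ℂ) +
          Polynomial.C (P i : ℂ) * Polynomial.X) (lin b) (lin_homog b) hℓ := by
      rw [h3]; trivial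
    exact h4

lemma LineData.chart2_key (H : LineData V c P Q a b) {n : ℕ} {f : MvPolynomial σ ℂ}
    (hf : f.IsHomogeneous n) (w : ℂ) (hw : w ≠ 0) :
    Polynomial.eval w (aeval H.chart2.φ f) =
      Polynomial.eval w⁻¹ (aeval c.φ f) * w ^ n := by
  rw [← Polynomial.coe_aeval_eq_eval, ← Polynomial.coe_aeval_eq_eval,
    ← Chart.aeval_comp_eq, ← Chart.aeval_comp_eq, ← aeval_scale hf]
  congr 2
  ext i
  rw [H.φ_eq]
  simp only [chart2, map_add, map_mul, map_sub, map_one, Polynomial.aeval_X, Polynomial.aeval_C,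
    Algebra.algebraMap_self, RingHom.id_apply]
  push_cast
  field_simp
  ring

lemma LineData.natDegree_le (H : LineData V c P Q a b) {n : ℕ} {f : MvPolynomial σ ℂ}
    (hf : f.IsHomogeneous n) : (aeval c.φ f).natDegree ≤ n := by
  have h := aeval_natDegree_le (n := 1) f hf.totalDegree_le c.φ (fun i => by
    rw [H.φ_eq]
    refine (Polynomial.natDegree_add_le _ _).trans (max_le ?_ ?_)
    · refine (Polynomial.natDegree_C_mul_le _ _).trans ?_
      refine (Polynomial.natDegree_sub_le _ _).trans (max_le ?_ ?_)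
      · simp
      · simp
    · refine (Polynomial.natDegree_C_mul_le _ _).trans ?_
      simp)
  simpa using h

lemma LineData.coeff_top (H : LineData V c P Q a b) {n : ℕ} {f : MvPolynomial σ ℂ}
    (hf : f.IsHomogeneous n) :
    (aeval c.φ f).coeff n = Polynomial.aeval (0 : ℂ) (aeval H.chart2.φ f) := by
  have h1 : Polynomial.reflect n (aeval c.φ f) = aeval H.chart2.φ f := by
    apply Polynomial.eq_of_infinite_eval_eq
    refine Set.Infinite.mono (s := {0}ᶜ) ?_ (Set.finite_singleton _).infinite_compl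
    intro w hw
    have hw0 : w ≠ 0 := hw
    rw [Set.mem_ofPred_eq, H.chart2_key hf w hw0]
    letI : Invertible (w⁻¹) := invertibleOfNonzero (inv_ne_zero hw0)
    have h2 := Polynomial.eval₂_reflect_mul_pow (RingHom.id ℂ) w⁻¹ n (aeval c.φ f)
      (H.natDegree_le hf)
    rw [← Polynomial.eval₂_id, ← Polynomial.eval₂_id, ← h2]
    simp [hw0]
  rw [← h1, ← Polynomial.coeff_zero_eq_aeval_zero, Polynomial.coeff_reflect,
    Polynomial.revAt_le (Nat.zero_le n), Nat.sub_zero]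

/-- The point at infinity. -/
def LineData.inf (H : LineData V c P Q a b) : ProjVar σ :=
  H.chart2.sub (Polynomial.aeval (0 : ℂ))

lemma LineData.inf_divisor (H : LineData V c P Q a b) : IsPrimeDivisor V H.inf :=
  H.chart2.sub_isPrimeDivisor _ Polynomial.prime_X (by simp) X_dvd_of_aeval_zero

lemma LineData.inf_notMem (H : LineData V c P Q a b) :
    H.inf ∉ boundaryComponents V (seg P Q) := by
  intro h
  have h1 := h.1.2 H.bdry_vanish
  rw [LineData.inf, Chart.mem_sub_homog _ _ ((lin_homog a).mul (lin_homog b)), map_mul,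
    map_mul] at h1
  have e : ∀ w : σ → ℝ, aeval H.chart2.φ (lin w) =
      Polynomial.C ((w ⬝ᵥ Q - w ⬝ᵥ P : ℝ) : ℂ) + Polynomial.C ((w ⬝ᵥ P : ℝ) : ℂ) *
        Polynomial.X := by
    intro w
    rw [chart2, aeval_lin_of _ (fun i => Q i - P i) P w 1 Polynomial.X (by intro i; simp)]
    have : (fun i => Q i - P i) = Q - P := rfl
    rw [this, dotProduct_sub]
    simp
  rw [e, e, H.aP, H.aQ, H.bP, H.bQ] at h1
  simp at h1

lemma LineData.proper_res (H : LineData V c P Q a b) (h : V.ideal ≤ H.inf.ideal)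
    (f : LocFrac H.inf) : ProperFrac 0 (c.κ (f.res V h)) ∧
      ProperFrac 2 (fracDer (Polynomial.derivative' : Derivation ℂ (Polynomial ℂ) (Polynomial ℂ))
        (c.κ (f.res V h))) := by
  have h1 : (aeval c.φ f.den).coeff f.deg ≠ 0 := by
    rw [H.coeff_top f.den_homog]
    intro h2
    apply f.den_notMem
    change f.den ∈ (H.chart2.sub (Polynomial.aeval (0 : ℂ))).ideal
    rw [Chart.mem_sub_homog _ _ f.den_homog]
    exact h2
  have h2 : (aeval c.φ f.den).natDegree = f.deg :=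
    le_antisymm (H.natDegree_le f.den_homog) (Polynomial.le_natDegree_of_ne_zero h1)
  have h3 : aeval c.φ f.den ≠ 0 := by
    intro h4
    rw [h4] at h1
    simp at h1
  have h4 := H.natDegree_le f.num_homog
  constructor
  · refine ⟨_, _, h3, Chart.κ_res _ _ _, ?_⟩
    rw [Nat.cast_zero, add_zero, Polynomial.degree_eq_natDegree h3, h2]
    exact Polynomial.degree_le_of_natDegree_le h4
  · exact ProperFrac.der _ _ f.deg h2 h3 h4 (Chart.κ_res _ _ _)

lemma LineData.coef_proper (H : LineData V c P Q a b) (ω : RatForm V 1)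
    (hω : IsRegularAlong V H.inf ω) :
    ProperFrac 2 (coef c.κ (fun _ : Fin 1 => fracDer
      (Polynomial.derivative' : Derivation ℂ (Polynomial ℂ) (Polynomial ℂ))) ω) := by
  obtain ⟨h, hω⟩ := hω
  refine AddSubgroup.closure_induction (p := fun ω _ => ProperFrac 2 (coef c.κ
    (fun _ : Fin 1 => fracDer
      (Polynomial.derivative' : Derivation ℂ (Polynomial ℂ) (Polynomial ℂ))) ω)) ?_ ?_ ?_ ?_ hω
  · rintro _ ⟨g, f, rfl⟩
    rw [coef_wedge, Matrix.det_fin_one]
    exact (H.proper_res h g).1.mul (H.proper_res h (f 0)).2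
  · rw [map_zero]; exact ProperFrac.zero 2
  · intro x y _ _ hx hy
    rw [map_add]; exact hx.add hy
  · intro x _ hx
    rw [map_neg]; exact hx.neg

/-- The canonical form of a segment. -/
theorem LineData.segment (H : LineData V c P Q a b) (ω : RatForm V 1)
    (hω : IsCanonicalForm 1 V (seg P Q) ω) :
    ∃ s : ℂ, (s = 1 ∨ s = -1) ∧
      algebraMap (Polynomial ℂ) (FractionRing (Polynomial ℂ))
          (Polynomial.X * (1 - Polynomial.X)) *
        coef c.κ (fun _ : Fin 1 => fracDer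
      (Polynomial.derivative' : Derivation ℂ (Polynomial ℂ) (Polynomial ℂ))) ω =
      algebraMap (Polynomial ℂ) (FractionRing (Polynomial ℂ)) (Polynomial.C s) := by
  rw [IsCanonicalForm] at hω
  obtain ⟨-, hreg, hres⟩ := hω
  set δ : Fin 1 → Derivation ℂ (Polynomial ℂ) (Polynomial ℂ) :=
    fun _ => Polynomial.derivative' with hδ
  set R := coef c.κ (fun j => fracDer (δ j)) ω with hR
  obtain ⟨M, hM⟩ := c.exists_numerator ω (seg P Q) hreg
    (fun C hC => (hres C hC).imp fun ρ hρ => hρ.1)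
    (Polynomial.X * (1 - Polynomial.X)) (by
      intro π _ h
      have := h 2 _ ((lin_homog a).mul (lin_homog b)) H.bdry_vanish
      rwa [map_mul, H.aeval_a, H.aeval_b, mul_comm] at this) δ
  rw [← hR] at hM
  have hX : (1 - Polynomial.X : Polynomial ℂ) ≠ 0 := by
    intro h
    have := congrArg (Polynomial.eval 0) h
    simp at this
  have hΛ : (Polynomial.X * (1 - Polynomial.X) : Polynomial ℂ) ≠ 0 :=
    mul_ne_zero Polynomial.X_ne_zero hX
  -- degree bound
  have hprop := H.coef_proper ω (hreg _ H.inf_divisor H.inf_notMem)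
  change ProperFrac 2 R at hprop
  obtain ⟨p, q, hq, hpq, hdeg⟩ := hprop
  have h1 : Polynomial.X * (1 - Polynomial.X) * p = M * q := by
    apply IsFractionRing.injective (Polynomial ℂ) (FractionRing (Polynomial ℂ))
    rw [map_mul, map_mul _ M q, ← hM, hpq]
    field_simp [am_ne hq]
  have hMdeg : M.natDegree = 0 := by
    by_cases hM0 : M = 0
    · rw [hM0]; simp
    have hp0 : p ≠ 0 := by
      rintro rfl
      rw [mul_zero] at h1
      exact mul_ne_zero hM0 hq h1.symm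
    have h2 := congrArg Polynomial.natDegree h1
    have h3 : (1 - Polynomial.X : Polynomial ℂ).natDegree = 1 := by
      have : (1 - Polynomial.X : Polynomial ℂ) = -(Polynomial.X - Polynomial.C 1) := by
        rw [map_one]; ring
      rw [this, Polynomial.natDegree_neg, Polynomial.natDegree_X_sub_C]
    rw [Polynomial.natDegree_mul hΛ hp0, Polynomial.natDegree_mul Polynomial.X_ne_zero hX,
      Polynomial.natDegree_X, h3, Polynomial.natDegree_mul hM0 hq] at h2
    rw [Polynomial.degree_eq_natDegree hp0, Polynomial.degree_eq_natDegree hq] at hdeg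
    have h4 : p.natDegree + 2 ≤ q.natDegree := by exact_mod_cast hdeg
    omega
  obtain ⟨m, hm⟩ : ∃ m : ℂ, M = Polynomial.C m := ⟨_, Polynomial.eq_C_of_natDegree_eq_zero hMdeg⟩
  refine ⟨m, ?_, by rw [← hm]; exact hM⟩
  -- residue at the end point
  obtain ⟨ρ, ⟨h, hρ⟩, hcan⟩ := hres _ H.endpoint_component
  rw [IsCanonicalForm] at hcan
  have Hc := c.compat_sub (Polynomial.aeval (0 : ℂ)) aeval_zero_surj
    (π := Polynomial.X) (by simp) X_dvd_of_aeval_zero
  have h2 := Hc.coef_residue Polynomial.X_ne_zero h δ (fun j => Fin.elim0 j)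
    (by simp [hδ]) (fun j => Fin.elim0 j) (fun j => Fin.elim0 j) ω ρ hρ
  rw [← hR] at h2
  have h3 : algebraMap (Polynomial ℂ) (FractionRing (Polynomial ℂ)) Polynomial.X * R =
      algebraMap (Polynomial ℂ) (FractionRing (Polynomial ℂ)) (Polynomial.C m) /
      algebraMap (Polynomial ℂ) (FractionRing (Polynomial ℂ)) (1 - Polynomial.X) := by
    rw [eq_div_iff (am_ne hX), ← hm, ← hM, map_mul]; ring
  rw [h3] at h2
  have h4 := redRing_div (r := ((Polynomial.aeval (0 : ℂ) : Polynomial ℂ →ₐ[ℂ] ℂ) :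
    Polynomial ℂ →+* ℂ)) (Polynomial.C m) (q := 1 - Polynomial.X) (by simp)
  have h5 := redRing_unique h2 h4
  have h6 : (((Polynomial.aeval (0 : ℂ) : Polynomial ℂ →ₐ[ℂ] ℂ) : Polynomial ℂ →+* ℂ)
      (Polynomial.C m)) = m := by simp
  have h7 : (((Polynomial.aeval (0 : ℂ) : Polynomial ℂ →ₐ[ℂ] ℂ) : Polynomial ℂ →+* ℂ)
      (1 - Polynomial.X)) = 1 := by simp
  rw [h6, h7, map_one, div_one] at h5
  have hinj := IsFractionRing.injective ℂ (FractionRing ℂ)
  rcases hcan.2.2 with h8 | h8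
  · left
    rw [h8, coef_zero, map_one] at h5
    apply hinj
    rw [← h5, map_one]
  · right
    rw [h8, coef_zero, map_neg, map_one] at h5
    apply hinj
    rw [← h5, map_neg, map_one]

end Pool.Agent.Helper70.PG

end PartSegment

noncomputable section PartPos

open MvPolynomial Topology

namespace Pool.Agent.Helper70.PG

variable {σ : Type} [Fintype σ] {ι : Type} [Finite ι]

/-- Vectors on which all the linear forms `L k` have a common weak sign. -/
def SQ (L : ι → σ → ℝ) : Set (σ → ℝ) :=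
  {v | (∀ k, 0 ≤ L k ⬝ᵥ v) ∨ (∀ k, L k ⬝ᵥ v ≤ 0)}

lemma isClosed_SQ (L : ι → σ → ℝ) : IsClosed (SQ L) := by
  have h : SQ L = {v | ∀ k, 0 ≤ L k ⬝ᵥ v} ∪ {v | ∀ k, L k ⬝ᵥ v ≤ 0} := rfl
  rw [h]
  refine IsClosed.union ?_ ?_
  · rw [Set.ofPred_forall]
    exact isClosed_iInter fun k => isClosed_le continuous_const (continuous_dot _)
  · rw [Set.ofPred_forall]
    exact isClosed_iInter fun k => isClosed_le (continuous_dot _) continuous_const

lemma realPts_smul {V : ProjVar σ} {v : σ → ℝ} (hv : v ∈ realPts V) {t : ℝ} (ht : t ≠ 0) :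
    t • v ∈ realPts V := by
  refine ⟨smul_ne_zero ht hv.1, fun f hf => ?_⟩
  rw [← sum_homogeneousComponent f, map_sum]
  refine Finset.sum_eq_zero fun n _ => ?_
  have h1 := homogeneousComponent_isHomogeneous n f
  have h2 := hv.2 _ (V.homog f hf n)
  have h3 : (fun i => (((t • v) i : ℝ) : ℂ)) = fun i => (v i : ℂ) * (t : ℂ) := by
    ext i
    rw [Pi.smul_apply, smul_eq_mul]
    push_cast
    ring
  rw [realEval, h3, aeval_scale h1]
  rw [realEval] at h2
  rw [h2, zero_mul]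

lemma relInt_of {V : ProjVar σ} (L : ι → σ → ℝ) {w : σ → ℝ} (hw : w ∈ realPts V) (s : ℝ)
    (hs : s = 1 ∨ s = -1)
    (h : ∀ k, (∀ u ∈ realPts V, L k ⬝ᵥ u = 0) ∨ 0 < s * (L k ⬝ᵥ w)) :
    w ∈ relInterior (realPts V) (realPts V ∩ SQ L) := by
  refine ⟨hw, ?_⟩
  have h1 : ∀ k, ∀ᶠ u in 𝓝[realPts V] w, 0 ≤ s * (L k ⬝ᵥ u) := by
    intro k
    rcases h k with h2 | h2
    · filter_upwards [self_mem_nhdsWithin] with u hu
      rw [h2 u hu, mul_zero]
    · have hc : Continuous fun u : σ → ℝ => s * (L k ⬝ᵥ u) :=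
        continuous_const.mul (continuous_dot _)
      filter_upwards [nhdsWithin_le_nhds (hc.tendsto w |>.eventually (lt_mem_nhds h2))] with u hu
      exact hu.le
  have h3 := Filter.eventually_all.2 h1
  filter_upwards [h3, self_mem_nhdsWithin] with u hu hu'
  refine ⟨hu', ?_⟩
  rcases hs with rfl | rfl
  · left; intro k; simpa using hu k
  · right; intro k; have := hu k; linarith

lemma facet_eq {Y : ProjVar σ} (L : ι → σ → ℝ) (A : Set (σ → ℝ))
    (hA : realPts Y ∩ A = realPts Y ∩ SQ L)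
    (h : realPts Y ∩ SQ L ⊆ closure (relInterior (realPts Y) (realPts Y ∩ SQ L))) :
    facet Y A = realPts Y ∩ SQ L := by
  rw [facet, hA]
  apply Set.Subset.antisymm
  · rintro v ⟨hv, hv'⟩
    refine ⟨hv', ?_⟩
    have h1 : relInterior (realPts Y) (realPts Y ∩ SQ L) ⊆ SQ L := by
      rintro u ⟨hu, hu'⟩
      exact (mem_of_mem_nhdsWithin hu hu').2
    exact (isClosed_SQ L).closure_subset_iff.2 h1 hv
  · intro v hv
    exact ⟨h hv, hv.1⟩

lemma bdry_of {V : ProjVar σ} (L : ι → σ → ℝ) {w : σ → ℝ} (hw : w ∈ realPts V ∩ SQ L)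
    (γ : ℝ → σ → ℝ) (hγ : Filter.Tendsto γ (𝓝[>] 0) (𝓝 w))
    (h : ∀ᶠ τ in 𝓝[>] (0 : ℝ), γ τ ∈ realPts V ∧ (∃ k, L k ⬝ᵥ γ τ < 0) ∧
      ∃ j, 0 < L j ⬝ᵥ γ τ) :
    w ∈ (realPts V ∩ SQ L) \ relInterior (realPts V) (realPts V ∩ SQ L) := by
  refine ⟨hw, ?_⟩
  rintro ⟨-, h1⟩
  have h2 : Filter.Tendsto γ (𝓝[>] 0) (𝓝[realPts V] w) := by
    rw [tendsto_nhdsWithin_iff]
    exact ⟨hγ, h.mono fun τ hτ => hτ.1⟩
  obtain ⟨τ, hτ, hτ'⟩ := ((h2.eventually h1).and h).exists
  obtain ⟨-, ⟨k, hk⟩, j, hj⟩ := hτ'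
  rcases hτ.2 with h3 | h3
  · exact absurd (h3 k) (not_le.2 hk)
  · exact absurd (h3 j) (not_le.2 hj)

lemma SQ_smul (L : ι → σ → ℝ) {v : σ → ℝ} (hv : v ∈ SQ L) {t : ℝ} (ht : 0 < t) :
    t • v ∈ SQ L := by
  rcases hv with h | h
  · left; intro k; rw [dotProduct_smul, smul_eq_mul]; exact mul_nonneg ht.le (h k)
  · right; intro k; rw [dotProduct_smul, smul_eq_mul]; exact mul_nonpos_of_nonneg_of_nonpos ht.le (h k)

/-- Version of `bdry_of` for all positive multiples. -/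
lemma bdry_of_smul {V : ProjVar σ} (L : ι → σ → ℝ) {w : σ → ℝ} (hw : w ∈ realPts V ∩ SQ L)
    (γ : ℝ → σ → ℝ) (hγ : Filter.Tendsto γ (𝓝[>] 0) (𝓝 w))
    (h : ∀ᶠ τ in 𝓝[>] (0 : ℝ), γ τ ∈ realPts V ∧ (∃ k, L k ⬝ᵥ γ τ < 0) ∧
      ∃ j, 0 < L j ⬝ᵥ γ τ) (t : ℝ) (ht : 0 < t) :
    t • w ∈ (realPts V ∩ SQ L) \ relInterior (realPts V) (realPts V ∩ SQ L) := by
  refine bdry_of L ⟨realPts_smul hw.1 ht.ne', SQ_smul L hw.2 ht⟩ (fun τ => t • γ τ)
    (hγ.const_smul t) ?_
  filter_upwards [h] with τ hτ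
  obtain ⟨h1, ⟨k, hk⟩, j, hj⟩ := hτ
  refine ⟨realPts_smul h1 ht.ne', ⟨k, ?_⟩, j, ?_⟩
  · rw [dotProduct_smul, smul_eq_mul]; exact mul_neg_of_pos_of_neg ht hk
  · rw [dotProduct_smul, smul_eq_mul]; exact mul_pos ht hj

section Line

variable {V : ProjVar σ} {c : Chart V (Polynomial ℂ)} {P Q a b : σ → ℝ}

lemma LineData.relInt_seg (H : LineData V c P Q a b) {v : σ → ℝ} (hv : v ∈ seg P Q)
    (ha : a ⬝ᵥ v ≠ 0) (hb : b ⬝ᵥ v ≠ 0) : v ∈ relInterior (realPts V) (seg P Q) := by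
  by_contra h
  have h1 := H.bdry_vanish v ⟨hv, h⟩
  rw [map_mul, realEval_lin, realEval_lin] at h1
  rcases mul_eq_zero.1 h1 with h2 | h2
  · exact ha (by exact_mod_cast h2)
  · exact hb (by exact_mod_cast h2)

lemma LineData.seg_sub_closure (H : LineData V c P Q a b) :
    seg P Q ⊆ closure (relInterior (realPts V) (seg P Q)) := by
  rintro v ⟨hv, α, β, hα, hβ, hc⟩
  have key : ∀ s : ℝ, (s = 1 ∨ s = -1) → v = s • (α • P + β • Q) →
      v ∈ closure (relInterior (realPts V) (seg P Q)) := by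
    intro s hs hvs
    have ht : Filter.Tendsto (fun τ : ℝ => s • ((α + τ) • P + (β + τ) • Q)) (𝓝[>] 0) (𝓝 v) := by
      have h1 : Continuous fun τ : ℝ => s • ((α + τ) • P + (β + τ) • Q) := by fun_prop
      have h2 := h1.tendsto 0
      simp only [add_zero] at h2
      rw [← hvs] at h2
      exact h2.mono_left nhdsWithin_le_nhds
    refine mem_closure_of_tendsto ht ?_
    filter_upwards [self_mem_nhdsWithin] with τ hτ
    have hτ' : 0 < τ := hτ
    have hs0 : s ≠ 0 := by rcases hs with rfl | rfl <;> norm_num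
    have ha : a ⬝ᵥ (s • ((α + τ) • P + (β + τ) • Q)) = s * (α + τ) := by
      rw [dotProduct_smul, H.a_comb, smul_eq_mul]
    have hb : b ⬝ᵥ (s • ((α + τ) • P + (β + τ) • Q)) = s * (β + τ) := by
      rw [dotProduct_smul, H.b_comb, smul_eq_mul]
    have ha0 : s * (α + τ) ≠ 0 := mul_ne_zero hs0 (by linarith)
    have hb0 : s * (β + τ) ≠ 0 := mul_ne_zero hs0 (by linarith)
    refine H.relInt_seg ⟨?_, α + τ, β + τ, by linarith, by linarith, ?_⟩ (by rwa [ha])
      (by rwa [hb])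
    · intro h0
      rw [h0, dotProduct_zero] at ha
      exact ha0 ha.symm
    · rcases hs with rfl | rfl
      · left; rw [one_smul]
      · right; rw [neg_one_smul]
  rcases hc with hc | hc
  · exact key 1 (Or.inl rfl) (by rw [hc, one_smul])
  · exact key (-1) (Or.inr rfl) (by rw [hc, neg_one_smul])

lemma LineData.inter_SQ (H : LineData V c P Q a b) (L : ι → σ → ℝ)
    (hP : ∀ k, 0 ≤ L k ⬝ᵥ P) (hQ : ∀ k, 0 ≤ L k ⬝ᵥ Q)
    (h1 : ∃ k, L k ⬝ᵥ P = 0 ∧ 0 < L k ⬝ᵥ Q) (h2 : ∃ k, L k ⬝ᵥ Q = 0 ∧ 0 < L k ⬝ᵥ P) :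
    realPts V ∩ SQ L = seg P Q := by
  apply Set.Subset.antisymm
  · rintro v ⟨hv, hv'⟩
    have hr := H.mem_real hv
    obtain ⟨k, hk, hk'⟩ := h1
    obtain ⟨j, hj, hj'⟩ := h2
    have e : ∀ i, L i ⬝ᵥ v = (a ⬝ᵥ v) * (L i ⬝ᵥ P) + (b ⬝ᵥ v) * (L i ⬝ᵥ Q) := by
      intro i
      conv_lhs => rw [hr]
      rw [dotProduct_add, dotProduct_smul, dotProduct_smul, smul_eq_mul, smul_eq_mul]
    rcases hv' with h | h
    · refine ⟨hv.1, a ⬝ᵥ v, b ⬝ᵥ v, ?_, ?_, Or.inl hr⟩
      · have := h j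
        rw [e j, hj, mul_zero, add_zero] at this
        exact nonneg_of_mul_nonneg_left this hj'
      · have := h k
        rw [e k, hk, mul_zero, zero_add] at this
        exact nonneg_of_mul_nonneg_left this hk'
    · refine ⟨hv.1, -(a ⬝ᵥ v), -(b ⬝ᵥ v), ?_, ?_, Or.inr ?_⟩
      · have := h j
        rw [e j, hj, mul_zero, add_zero] at this
        by_contra h3
        push Not at h3
        have : 0 < a ⬝ᵥ v := by linarith
        nlinarith
      · have := h k
        rw [e k, hk, mul_zero, zero_add] at this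
        by_contra h3
        push Not at h3
        have : 0 < b ⬝ᵥ v := by linarith
        nlinarith
      · rw [neg_smul, neg_smul, ← neg_add, neg_neg]; exact hr
  · intro v hv
    refine ⟨H.seg_sub hv, ?_⟩
    obtain ⟨-, α, β, hα, hβ, hc | hc⟩ := hv
    · left
      intro k
      rw [hc, dotProduct_add, dotProduct_smul, dotProduct_smul, smul_eq_mul, smul_eq_mul]
      exact add_nonneg (mul_nonneg hα (hP k)) (mul_nonneg hβ (hQ k))
    · right
      intro k
      rw [hc, dotProduct_neg, dotProduct_add, dotProduct_smul, dotProduct_smul, smul_eq_mul,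
        smul_eq_mul]
      have := add_nonneg (mul_nonneg hα (hP k)) (mul_nonneg hβ (hQ k))
      linarith

lemma LineData.facet_seg (H : LineData V c P Q a b) (L : ι → σ → ℝ) (A : Set (σ → ℝ))
    (hA : realPts V ∩ A = realPts V ∩ SQ L)
    (hP : ∀ k, 0 ≤ L k ⬝ᵥ P) (hQ : ∀ k, 0 ≤ L k ⬝ᵥ Q)
    (h1 : ∃ k, L k ⬝ᵥ P = 0 ∧ 0 < L k ⬝ᵥ Q) (h2 : ∃ k, L k ⬝ᵥ Q = 0 ∧ 0 < L k ⬝ᵥ P) :
    facet V A = seg P Q := by
  have h3 := H.inter_SQ L hP hQ h1 h2
  rw [facet_eq L A hA (by rw [h3]; exact H.seg_sub_closure), h3]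

end Line

/-! ### Kernels of substitution homomorphisms -/

lemma dvd_sub_of_gen {τ : Type} (e : MvPolynomial τ ℂ →ₐ[ℂ] MvPolynomial τ ℂ)
    (π : MvPolynomial τ ℂ) (h : ∀ i, π ∣ X i - e (X i)) (p : MvPolynomial τ ℂ) :
    π ∣ p - e p := by
  induction p using MvPolynomial.induction_on with
  | C a =>
    rw [← algebraMap_eq, AlgHom.commutes, sub_self]
    exact dvd_zero _
  | add p q hp hq =>
    rw [map_add, add_sub_add_comm]
    exact dvd_add hp hq
  | mul_X p i hp =>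
    rw [map_mul]
    have : p * X i - e p * e (X i) = (p - e p) * X i + e p * (X i - e (X i)) := by ring
    rw [this]
    exact dvd_add (hp.mul_right _) ((h i).mul_left _)

lemma prime_of_ker {A B : Type} [CommRing A] [CommRing B] [IsDomain B] [Algebra ℂ A]
    [Algebra ℂ B] (r : A →ₐ[ℂ] B) {π : A} (h0 : π ≠ 0) (hr : r π = 0)
    (hd : ∀ a, r a = 0 → π ∣ a) : Prime π := by
  refine ⟨h0, ?_, ?_⟩
  · intro h
    have := h.map r
    rw [hr] at this
    exact not_isUnit_zero this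
  · intro a b hab
    have : r (a * b) = 0 := by
      obtain ⟨c, hc⟩ := hab
      rw [hc, map_mul, hr, zero_mul]
    rw [map_mul] at this
    rcases mul_eq_zero.1 this with h | h
    · exact Or.inl (hd a h)
    · exact Or.inr (hd b h)

/-! ### Zariski density of real boxes -/

lemma box_density {τ : Type} (p : MvPolynomial τ ℂ) (lo hi : τ → ℝ) (hlt : ∀ i, lo i < hi i)
    (h : ∀ x : τ → ℝ, (∀ i, lo i < x i ∧ x i < hi i) → aeval (fun i => (x i : ℂ)) p = 0) :
    p = 0 := by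
  refine funext_set (q := 0) (fun i => (fun t : ℝ => (t : ℂ)) '' Set.Ioo (lo i) (hi i)) ?_ ?_
  · intro i
    exact (Set.Ioo_infinite (hlt i)).image Complex.ofReal_injective.injOn
  · intro x hx
    choose y hy hyx using fun i => hx i trivial
    have h1 : x = fun i => ((y i : ℝ) : ℂ) := funext fun i => (hyx i).symm
    rw [h1, map_zero]
    have := h y (fun i => hy i)
    rw [← coe_aeval_eq_eval]
    exact this

lemma interval_density (p : Polynomial ℂ) (lo hi : ℝ) (hlt : lo < hi)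
    (h : ∀ x : ℝ, lo < x → x < hi → Polynomial.aeval (x : ℂ) p = 0) : p = 0 := by
  apply Polynomial.eq_zero_of_infinite_isRoot
  refine Set.Infinite.mono (s := (fun t : ℝ => (t : ℂ)) '' Set.Ioo lo hi) ?_
    ((Set.Ioo_infinite hlt).image Complex.ofReal_injective.injOn)
  rintro _ ⟨x, hx, rfl⟩
  have := h x hx.1 hx.2
  rwa [Polynomial.coe_aeval_eq_eval] at this

/-- Zariski density criterion: a polynomial vanishing on all positive multiples of sufficiently
many real points lies in the ideal. -/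
lemma vanishing_le_sub {V : ProjVar σ} {A B : Type} [CommRing A] [IsDomain A] [Algebra ℂ A]
    [CommRing B] [IsDomain B] [Algebra ℂ B] (c : Chart V A) (r : A →ₐ[ℂ] B)
    (E : Set (σ → ℝ)) {T : Type} (ev : T → (B →ₐ[ℂ] ℂ))
    (hev : ∀ p : B, (∀ t, ev t p = 0) → p = 0) (w : T → σ → ℝ)
    (hw : ∀ t i, (w t i : ℂ) = ev t (r (c.φ i)))
    (hE : ∀ t, ∀ s : ℝ, 0 < s → s • w t ∈ E) : vanishing E ≤ (c.sub r).ideal := by
  intro f hf
  refine Chart.mem_of_homog _ _ fun n => ?_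
  have h1 := homogeneousComponent_isHomogeneous n f
  rw [c.mem_sub_homog _ h1]
  apply hev
  intro t
  rw [← Chart.aeval_comp_eq, ← Chart.aeval_comp_eq]
  have h2 := component_vanish f (w t) (fun s hs => hf _ (hE t s hs)) n
  refine Eq.trans ?_ h2
  rw [realEval]
  congr 2
  ext i
  rw [hw]

end Pool.Agent.Helper70.PG

end PartPos

noncomputable section PartThree

open MvPolynomial Topology

namespace Pool.Agent.Helper70.PG

/-- The first extra linear form. -/
def hA : Fin 6 → ℝ := ![1, -2, -1, -1, -2, 1]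

/-- The second extra linear form. -/
def hB : Fin 6 → ℝ := ![1, -1, -2, -2, -1, 1]

/-- The eight linear forms. -/
def LL : Fin 8 → Fin 6 → ℝ :=
  ![![1, 0, 0, 0, 0, 0], ![0, 1, 0, 0, 0, 0], ![0, 0, 1, 0, 0, 0], ![0, 0, 0, 1, 0, 0],
    ![0, 0, 0, 0, 1, 0], ![0, 0, 0, 0, 0, 1], hA, hB]

lemma LL_zero (v : Fin 6 → ℝ) : LL 0 ⬝ᵥ v = v 0 := by simp [LL, dotProduct, Fin.sum_univ_succ]
lemma LL_one (v : Fin 6 → ℝ) : LL 1 ⬝ᵥ v = v 1 := by simp [LL, dotProduct, Fin.sum_univ_succ]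
lemma LL_two (v : Fin 6 → ℝ) : LL 2 ⬝ᵥ v = v 2 := by
  simp [LL, dotProduct, Fin.sum_univ_succ]
lemma LL_three (v : Fin 6 → ℝ) : LL 3 ⬝ᵥ v = v 3 := by
  simp [LL, dotProduct, Fin.sum_univ_succ]
lemma LL_four (v : Fin 6 → ℝ) : LL 4 ⬝ᵥ v = v 4 := by
  simp [LL, dotProduct, Fin.sum_univ_succ]
lemma LL_five (v : Fin 6 → ℝ) : LL 5 ⬝ᵥ v = v 5 := by
  simp [LL, dotProduct, Fin.sum_univ_succ]
lemma LL_six (v : Fin 6 → ℝ) : LL 6 ⬝ᵥ v = v 0 - 2 * v 1 - v 2 - v 3 - 2 * v 4 + v 5 := by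
  simp [LL, hA, dotProduct, Fin.sum_univ_succ]; ring
lemma LL_seven (v : Fin 6 → ℝ) : LL 7 ⬝ᵥ v = v 0 - v 1 - 2 * v 2 - 2 * v 3 - v 4 + v 5 := by
  simp [LL, hB, dotProduct, Fin.sum_univ_succ]; ring

abbrev A3 := MvPolynomial (Fin 3) ℂ
abbrev A2 := MvPolynomial (Fin 2) ℂ

/-- Parametrisation of the facet `p₁₂ = 0`. -/
def φ1 : Fin 6 → A3 :=
  ![0, (1 - X 0) * (1 - X 1), (1 - X 0) * (1 + X 1), (1 + X 0) * (1 - X 1),
    (1 + X 0) * (1 + X 1), 6 + 2 * X 2]

lemma aeval_lin_fin {A : Type} [CommRing A] [Algebra ℂ A] (φ : Fin 6 → A) (w : Fin 6 → ℝ) :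
    aeval φ (lin w) = algebraMap ℂ A (w 0) * φ 0 + algebraMap ℂ A (w 1) * φ 1 +
      algebraMap ℂ A (w 2) * φ 2 + algebraMap ℂ A (w 3) * φ 3 + algebraMap ℂ A (w 4) * φ 4 +
      algebraMap ℂ A (w 5) * φ 5 := by
  simp [lin, Fin.sum_univ_succ]
  ring

lemma am_quarter (A : Type) [CommRing A] [Algebra ℂ A] : algebraMap ℂ A (1 / 4) * 4 = 1 := by
  rw [← map_ofNat (algebraMap ℂ A) 4, ← map_mul]
  norm_num

lemma am_half (A : Type) [CommRing A] [Algebra ℂ A] : algebraMap ℂ A (1 / 2) * 2 = 1 := by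
  rw [← map_ofNat (algebraMap ℂ A) 2, ← map_mul]
  norm_num

def wℓ : Fin 6 → ℝ := ![0, 1 / 4, 1 / 4, 1 / 4, 1 / 4, 0]
def wx : Fin 6 → ℝ := ![0, -(1 / 4), -(1 / 4), 1 / 4, 1 / 4, 0]
def wy : Fin 6 → ℝ := ![0, -(1 / 4), 1 / 4, -(1 / 4), 1 / 4, 0]
def wz : Fin 6 → ℝ := ![0, -(3 * (1 / 4)), -(3 * (1 / 4)), -(3 * (1 / 4)), -(3 * (1 / 4)), 1 / 2]

lemma φ1_ℓ : aeval φ1 (lin wℓ) = 1 := by
  rw [aeval_lin_fin]
  have h := am_quarter A3
  simp [wℓ, φ1] at h ⊢
  linear_combination h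

lemma φ1_x : aeval φ1 (lin wx) = X 0 := by
  rw [aeval_lin_fin]
  have h := am_quarter A3
  simp [wx, φ1] at h ⊢
  linear_combination X 0 * h

lemma φ1_y : aeval φ1 (lin wy) = X 1 := by
  rw [aeval_lin_fin]
  have h := am_quarter A3
  simp [wy, φ1] at h ⊢
  linear_combination X 1 * h

lemma φ1_z : aeval φ1 (lin wz) = X 2 := by
  rw [aeval_lin_fin]
  have h := am_quarter A3
  have h' := am_half A3
  have h3 : (C (3 : ℂ) : A3) = 3 := map_ofNat C 3
  simp [wz, φ1] at h h' ⊢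
  rw [h3]
  linear_combination -3 * h + (3 + X 2) * h'

lemma φ1_ne : ∃ i, φ1 i ≠ 0 := by
  refine ⟨4, fun h => ?_⟩
  have := congrArg (eval (fun _ : Fin 3 => (0 : ℂ))) h
  simp [φ1] at this

/-- The threefold `p₁₂ = 0` in the Grassmannian. -/
def C1 : ProjVar (Fin 6) := ofParam φ1 φ1_ne

/-- Its chart. -/
def c1 : Chart C1 A3 :=
  Chart.param φ1 φ1_ne (lin wℓ) (lin_homog _) φ1_ℓ (by
    intro p
    have h3 : homogValues φ1 (lin wℓ) (lin_homog _) φ1_ℓ = ⊤ := by
      rw [eq_top_iff, ← adjoin_range_X, Algebra.adjoin_le_iff]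
      rintro _ ⟨i, rfl⟩
      fin_cases i
      · exact ⟨1, lin wx, lin_homog _, φ1_x⟩
      · exact ⟨1, lin wy, lin_homog _, φ1_y⟩
      · exact ⟨1, lin wz, lin_homog _, φ1_z⟩
    have h4 : p ∈ homogValues φ1 (lin wℓ) (lin_homog _) φ1_ℓ := by
      rw [h3]; trivial
    exact h4)

lemma c1_φ : c1.φ = φ1 := rfl

lemma LLcases {p : Fin 8 → Prop} (h0 : p 0) (h1 : p 1) (h2 : p 2) (h3 : p 3) (h4 : p 4)
    (h5 : p 5) (h6 : p 6) (h7 : p 7) : ∀ k, p k := by
  intro k
  fin_cases k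
  exacts [h0, h1, h2, h3, h4, h5, h6, h7]

/-- Real points of the chart. -/
def vec3 (x y z : ℝ) : Fin 6 → ℝ :=
  ![0, (1 - x) * (1 - y), (1 - x) * (1 + y), (1 + x) * (1 - y), (1 + x) * (1 + y), 6 + 2 * z]

lemma vec3_0 (x y z : ℝ) : vec3 x y z 0 = 0 := rfl
lemma vec3_1 (x y z : ℝ) : vec3 x y z 1 = (1 - x) * (1 - y) := rfl
lemma vec3_2 (x y z : ℝ) : vec3 x y z 2 = (1 - x) * (1 + y) := rfl
lemma vec3_3 (x y z : ℝ) : vec3 x y z 3 = (1 + x) * (1 - y) := rfl
lemma vec3_4 (x y z : ℝ) : vec3 x y z 4 = (1 + x) * (1 + y) := rfl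
lemma vec3_5 (x y z : ℝ) : vec3 x y z 5 = 6 + 2 * z := rfl

lemma vec3_ne (x y z : ℝ) : vec3 x y z ≠ 0 := by
  intro h
  have h1 := congrFun h 1
  have h2 := congrFun h 2
  have h3 := congrFun h 3
  have h4 := congrFun h 4
  rw [vec3_1] at h1
  rw [vec3_2] at h2
  rw [vec3_3] at h3
  rw [vec3_4] at h4
  simp only [Pi.zero_apply] at h1 h2 h3 h4
  nlinarith

lemma vec3_ev (x y z : ℝ) (i : Fin 6) :
    ((vec3 x y z i : ℝ) : ℂ) = aeval ![(x : ℂ), (y : ℂ), (z : ℂ)] (φ1 i) := by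
  fin_cases i <;> simp [vec3, φ1]

lemma vec3_mem (x y z : ℝ) : vec3 x y z ∈ realPts C1 := by
  refine realPts_of_chart c1 (aeval ![(x : ℂ), (y : ℂ), (z : ℂ)]) 1 _ (vec3_ne x y z) ?_
  intro i
  rw [mul_one, vec3_ev, c1_φ]

lemma C1_real {u : Fin 6 → ℝ} (hu : u ∈ realPts C1) : u 0 = 0 ∧ u 1 * u 4 = u 2 * u 3 := by
  constructor
  · have h1 : (X 0 : MvPolynomial (Fin 6) ℂ) ∈ C1.ideal := by
      refine (c1.mem_iff 1 _ (isHomogeneous_X ℂ 0)).2 ?_
      simp [c1_φ, φ1]
    have h2 := hu.2 _ h1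
    simp only [realEval, aeval_X] at h2
    exact_mod_cast h2
  · have h1 : (X 1 * X 4 - X 2 * X 3 : MvPolynomial (Fin 6) ℂ) ∈ C1.ideal := by
      refine (c1.mem_iff 2 _ ?_).2 ?_
      · exact ((isHomogeneous_X ℂ 1).mul (isHomogeneous_X ℂ 4)).sub
          ((isHomogeneous_X ℂ 2).mul (isHomogeneous_X ℂ 3))
      · simp [c1_φ, φ1]
        ring
    have h2 := hu.2 _ h1
    simp only [realEval, map_sub, map_mul, aeval_X] at h2
    have h3 : u 1 * u 4 - u 2 * u 3 = 0 := by exact_mod_cast h2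
    linarith

lemma eq_vec3 {w : Fin 6 → ℝ} (h0 : w 0 = 0) (hq : w 1 * w 4 = w 2 * w 3) (m : ℝ)
    (hm : m = (w 1 + w 2 + w 3 + w 4) / 4) (hm0 : m ≠ 0) :
    w = m • vec3 ((-w 1 - w 2 + w 3 + w 4) / (4 * m)) ((-w 1 + w 2 - w 3 + w 4) / (4 * m))
      ((w 5 / m - 6) / 2) := by
  have e : w 1 + w 2 + w 3 + w 4 = 4 * m := by rw [hm]; ring
  ext i
  fin_cases i
  · simpa [vec3] using h0
  · simp [vec3]
    field_simp
    have : w 4 = 4 * m - w 1 - w 2 - w 3 := by linarith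
    rw [this] at hq ⊢
    nlinarith
  · simp [vec3]
    field_simp
    have : w 4 = 4 * m - w 1 - w 2 - w 3 := by linarith
    rw [this] at hq ⊢
    nlinarith
  · simp [vec3]
    field_simp
    have : w 4 = 4 * m - w 1 - w 2 - w 3 := by linarith
    rw [this] at hq ⊢
    nlinarith
  · simp [vec3]
    field_simp
    have : w 1 = 4 * m - w 4 - w 2 - w 3 := by linarith
    rw [this] at hq ⊢
    nlinarith
  · simp [vec3]
    field_simp
    ring

end Pool.Agent.Helper70.PG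

end PartThree

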